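import Pool.Agent.H95.BG.Orb

/-!
Project BG, module Union: `PsiLe` for edge-disjoint unions, for the empty graph and for one edge.

`psiLe_bot`: no darts, no edges, `orb` of the permutation of an empty type is `0`.
`psiLe_edge`: if `u = v` the graph is empty; otherwise there is one edge and two darts; take `σ = 1`
(two cycles), the face permutation `flip` has one cycle: `1 - 1 + 2 = 2`.
`psiLe_sup`: the darts of `G ⊔ H` are the disjoint union of the darts of `G` and of `H`,
compatibly with `flip`; take the sum of the two permutations; `orb_sumCongr`, `orb_congr`.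
-/

set_option autoImplicit false

namespace Pool.Agent.H95.BG

variable {V : Type*}

private lemma Union_finite_dart [Finite V] (G : SimpleGraph V) : Finite G.Dart :=
  Finite.of_injective (fun d : G.Dart => d.toProd) fun d e h => SimpleGraph.Dart.ext d e h

theorem psiLe_bot [Finite V] : PsiLe (⊥ : SimpleGraph V) 0 := by
  have hE : IsEmpty (⊥ : SimpleGraph V).Dart := ⟨fun d => d.adj⟩
  have ho : ∀ σ : Equiv.Perm (⊥ : SimpleGraph V).Dart, orb σ = 0 := by
    intro σ
    unfold orb
    have : IsEmpty (Quotient (Equiv.Perm.SameCycle.setoid σ)) :=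
      ⟨fun x => Quotient.ind (motive := fun _ => False) (fun d => hE.false d) x⟩
    exact Nat.card_of_isEmpty
  refine ⟨1, fun d => (hE.false d).elim, ?_⟩
  rw [ho, ho, SimpleGraph.edgeSet_bot]
  simp

theorem psiLe_edge [Finite V] (u v : V) : PsiLe (SimpleGraph.fromEdgeSet {s(u, v)}) 2 := by
  by_cases huv : u = v
  · have h : SimpleGraph.fromEdgeSet {s(u, v)} = (⊥ : SimpleGraph V) := by
      ext a b
      rw [SimpleGraph.fromEdgeSet_adj, SimpleGraph.bot_adj]
      constructor
      · rintro ⟨h1, h2⟩
        rw [Set.mem_singleton_iff, huv, Sym2.eq_iff] at h1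
        rcases h1 with ⟨rfl, rfl⟩ | ⟨rfl, rfl⟩ <;> exact h2 rfl
      · exact fun h => h.elim
    rw [h]
    obtain ⟨σ, h1, h2⟩ := psiLe_bot (V := V)
    exact ⟨σ, h1, h2.trans (by norm_num)⟩
  · obtain ⟨G, hG⟩ : ∃ G : SimpleGraph V, G = SimpleGraph.fromEdgeSet {s(u, v)} := ⟨_, rfl⟩
    rw [← hG]
    have hadj : ∀ a b, G.Adj a b ↔ ((a = u ∧ b = v) ∨ (a = v ∧ b = u)) := by
      intro a b
      rw [hG, SimpleGraph.fromEdgeSet_adj, Set.mem_singleton_iff, Sym2.eq_iff]
      constructor
      · exact fun h => h.1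
      · intro h
        refine ⟨h, ?_⟩
        rcases h with ⟨rfl, rfl⟩ | ⟨rfl, rfl⟩
        · exact huv
        · exact fun h => huv h.symm
    have h1 : G.Adj u v := (hadj u v).2 (Or.inl ⟨rfl, rfl⟩)
    have hfin := Union_finite_dart G
    have hE : Nat.card G.edgeSet = 1 := by
      have : G.edgeSet = {s(u, v)} := by
        ext e
        induction e using Sym2.ind with
        | _ a b =>
          rw [SimpleGraph.mem_edgeSet, hadj, Set.mem_singleton_iff, Sym2.eq_iff]
      rw [this, Nat.card_coe_set_eq, Set.ncard_singleton]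
    have hC : orb (1 : Equiv.Perm G.Dart) ≤ 2 := by
      unfold orb
      have hs : Function.Surjective (fun b : Bool => (Quotient.mk (Equiv.Perm.SameCycle.setoid
          (1 : Equiv.Perm G.Dart)) (if b then ⟨(u, v), h1⟩ else ⟨(v, u), h1.symm⟩))) := by
        intro x
        induction x using Quotient.ind with
        | _ d =>
          rcases (hadj d.fst d.snd).1 d.adj with ⟨h2, h3⟩ | ⟨h2, h3⟩
          · refine ⟨true, ?_⟩
            show Quotient.mk _ _ = Quotient.mk _ _
            congr 1
            apply SimpleGraph.Dart.ext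
            exact Prod.ext h2.symm h3.symm
          · refine ⟨false, ?_⟩
            show Quotient.mk _ _ = Quotient.mk _ _
            congr 1
            apply SimpleGraph.Dart.ext
            exact Prod.ext h2.symm h3.symm
      have := Nat.card_le_card_of_surjective _ hs
      simpa using this
    have hF : 1 ≤ orb ((1 : Equiv.Perm G.Dart) * flip G) := by
      unfold orb
      have : Nonempty (Quotient (Equiv.Perm.SameCycle.setoid
        ((1 : Equiv.Perm G.Dart) * flip G))) := ⟨Quotient.mk _ ⟨(u, v), h1⟩⟩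
      exact Nat.card_pos
    refine ⟨1, fun d => rfl, ?_⟩
    rw [hE]
    push_cast
    omega

theorem psiLe_sup [Finite V] (G H : SimpleGraph V) (hd : Disjoint G H) (a b : ℤ)
    (hG : PsiLe G a) (hH : PsiLe H b) : PsiLe (G ⊔ H) (a + b) := by
  obtain ⟨σ, hσ, ha⟩ := hG
  obtain ⟨τ, hτ, hb⟩ := hH
  have hfG := Union_finite_dart G
  have hfH := Union_finite_dart H
  have hno : ∀ x y, G.Adj x y → H.Adj x y → False := by
    intro x y h1 h2
    have h3 := hd.le_bot
    exact h3 (v := x) (w := y) ⟨h1, h2⟩
  obtain ⟨f, hf⟩ : ∃ f : G.Dart ⊕ H.Dart → (G ⊔ H).Dart, f = Sum.elim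
      (fun d => ⟨d.toProd, Or.inl d.adj⟩) (fun d => ⟨d.toProd, Or.inr d.adj⟩) := ⟨_, rfl⟩
  have hl : ∀ d, f (Sum.inl d) = ⟨d.toProd, Or.inl d.adj⟩ := fun d => by rw [hf]; rfl
  have hr : ∀ d, f (Sum.inr d) = ⟨d.toProd, Or.inr d.adj⟩ := fun d => by rw [hf]; rfl
  have hbij : Function.Bijective f := by
    constructor
    · rintro (x | x) (y | y) h
      · rw [hl, hl] at h
        have := congrArg SimpleGraph.Dart.toProd h
        rw [SimpleGraph.Dart.ext x y this]
      · rw [hl, hr] at h
        have h1 : x.toProd = y.toProd := congrArg SimpleGraph.Dart.toProd h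
        exact (hno x.fst x.snd x.adj (by
          have := y.adj
          rw [← h1] at this
          exact this)).elim
      · rw [hl, hr] at h
        have h1 : x.toProd = y.toProd := congrArg SimpleGraph.Dart.toProd h
        exact (hno y.fst y.snd y.adj (by
          have := x.adj
          rw [h1] at this
          exact this)).elim
      · rw [hr, hr] at h
        have := congrArg SimpleGraph.Dart.toProd h
        rw [SimpleGraph.Dart.ext x y this]
    · intro d
      rcases d.adj with h | h
      · exact ⟨Sum.inl ⟨d.toProd, h⟩, by rw [hl]⟩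
      · exact ⟨Sum.inr ⟨d.toProd, h⟩, by rw [hr]⟩
  obtain ⟨e, he⟩ : ∃ e : G.Dart ⊕ H.Dart ≃ (G ⊔ H).Dart, ∀ x, e x = f x :=
    ⟨Equiv.ofBijective f hbij, fun x => rfl⟩
  have hflip : flip (G ⊔ H) = (e.symm.trans (Equiv.Perm.sumCongr (flip G) (flip H))).trans e := by
    ext1 d
    obtain ⟨s, rfl⟩ := e.surjective d
    show (e s).symm = e (Equiv.Perm.sumCongr (flip G) (flip H) (e.symm (e s)))
    rw [e.symm_apply_apply]
    rcases s with x | x
    · show (e (Sum.inl x)).symm = e (Sum.inl x.symm)
      rw [he, he, hl, hl]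
      rfl
    · show (e (Sum.inr x)).symm = e (Sum.inr x.symm)
      rw [he, he, hr, hr]
      rfl
  obtain ⟨ω, hω⟩ : ∃ ω : Equiv.Perm (G ⊔ H).Dart,
    ω = (e.symm.trans (Equiv.Perm.sumCongr σ τ)).trans e := ⟨_, rfl⟩
  have hmul : ω * flip (G ⊔ H) =
      (e.symm.trans (Equiv.Perm.sumCongr (σ * flip G) (τ * flip H))).trans e := by
    rw [hω, hflip]
    ext1 d
    obtain ⟨s, rfl⟩ := e.surjective d
    rcases s with x | x
    · simp
    · simp
  refine ⟨ω, ?_, ?_⟩
  · intro d
    obtain ⟨s, rfl⟩ := e.surjective d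
    rw [hω]
    show (e (Equiv.Perm.sumCongr σ τ (e.symm (e s)))).fst = (e s).fst
    rw [e.symm_apply_apply]
    rcases s with x | x
    · show (e (Sum.inl (σ x))).fst = (e (Sum.inl x)).fst
      rw [he, he, hl, hl]
      exact hσ x
    · show (e (Sum.inr (τ x))).fst = (e (Sum.inr x)).fst
      rw [he, he, hr, hr]
      exact hτ x
  · rw [hmul, hω, orb_congr, orb_congr, orb_sumCongr, orb_sumCongr]
    have hcard : Nat.card (G ⊔ H).edgeSet = Nat.card G.edgeSet + Nat.card H.edgeSet := by
      rw [SimpleGraph.edgeSet_sup, Nat.card_coe_set_eq, Nat.card_coe_set_eq,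
        Nat.card_coe_set_eq, Set.ncard_union_eq (SimpleGraph.disjoint_edgeSet.2 hd)
          (Set.toFinite _) (Set.toFinite _)]
    rw [hcard]
    push_cast
    omega

end Pool.Agent.H95.BG
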