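import Pool.Agent.H95.BG.Tri
import Pool.Agent.H95.BG.Union

/-!
Project BG, module Asm: a graph covered by tripartite pieces and exceptional edges.

Induction on the list `Ps`. Empty list: every edge of `G` is in `W`; induct on `W` (or on the number
of edges): `G = (G \ {e}) ⊔ fromEdgeSet {e}` with `psiLe_edge`, `psiLe_sup`, `psiLe_mono`; base
`psiLe_bot`. Step `p :: Ps`: `G = (G ⊓ tri p) ⊔ (G \ tri p)`, disjoint; the first graph has
`PsiLe _ (cost p)` by `psiLe_mono` and `psiLe_tri` with `M = big p`; the second is covered by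
`Ps` and `W`. (`cost p = big p ^ 2 + 3 * big p`, `big p` the maximum of the three cardinalities.)
-/

set_option autoImplicit false

namespace Pool.Agent.H95.BG

open Finset

theorem Asm_le {V : Type*} {G : SimpleGraph V} {a b : ℤ} (h : PsiLe G a) (hab : a ≤ b) :
    PsiLe G b := by
  obtain ⟨σ, h1, h2⟩ := h
  exact ⟨σ, h1, h2.trans hab⟩

theorem Asm_split {V : Type*} [Finite V] (G T : SimpleGraph V) (a b : ℤ)
    (h1 : PsiLe T a) (h2 : PsiLe (G \ T) b) : PsiLe G (a + b) := by
  have h3 : PsiLe (G ⊓ T) a := psiLe_mono _ _ inf_le_right _ h1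
  have hd : Disjoint (G ⊓ T) (G \ T) := by
    rw [SimpleGraph.disjoint_left]
    intro x y hx hy
    rw [SimpleGraph.sdiff_adj] at hy
    exact hy.2 hx.2
  have h4 := psiLe_sup _ _ hd a b h3 h2
  have h5 : G ⊓ T ⊔ G \ T = G := by
    ext x y
    simp only [SimpleGraph.sup_adj, SimpleGraph.inf_adj, SimpleGraph.sdiff_adj]
    tauto
  rwa [h5] at h4

theorem Asm_edges {V : Type*} [Finite V] [DecidableEq V] (W : Finset (Sym2 V)) :
    ∀ G : SimpleGraph V, (∀ u v, G.Adj u v → s(u, v) ∈ W) → PsiLe G (2 * #W) := by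
  induction W using Finset.induction_on with
  | empty =>
    intro G hG
    have : G = ⊥ := by
      ext u v
      simp only [SimpleGraph.bot_adj, iff_false]
      intro h
      exact absurd (hG u v h) (Finset.notMem_empty _)
    rw [this]
    exact Asm_le psiLe_bot (by simp)
  | insert e W' he ih =>
    intro G hG
    induction e using Sym2.ind with
    | _ a b =>
      have h1 := psiLe_edge a b
      have h2 : PsiLe (G \ SimpleGraph.fromEdgeSet {s(a, b)}) (2 * #W') := by
        refine ih _ fun u v huv => ?_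
        rw [SimpleGraph.sdiff_adj] at huv
        have h3 := hG u v huv.1
        rw [Finset.mem_insert] at h3
        refine h3.resolve_left fun h4 => huv.2 ?_
        rw [SimpleGraph.fromEdgeSet_adj]
        exact ⟨h4, huv.1.ne⟩
      refine Asm_le (Asm_split G _ _ _ h1 h2) ?_
      rw [Finset.card_insert_of_notMem he]
      push_cast
      ring_nf
      exact le_rfl

theorem psiLe_cover {V : Type*} [Fintype V] [DecidableEq V] (G : SimpleGraph V)
    (Ps : List (Finset V × Finset V × Finset V)) (W : Finset (Sym2 V))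
    (hdisj : ∀ p ∈ Ps, Disjoint p.1 p.2.1 ∧ Disjoint p.1 p.2.2 ∧ Disjoint p.2.1 p.2.2)
    (hcov : ∀ u v, G.Adj u v → s(u, v) ∈ W ∨ ∃ p ∈ Ps, (tri p.1 p.2.1 p.2.2).Adj u v) :
    PsiLe G ((Ps.map (fun p => (cost p : ℤ))).sum + 2 * #W) := by
  induction Ps generalizing G with
  | nil =>
    refine Asm_le (Asm_edges W G fun u v huv => ?_) (by simp)
    rcases hcov u v huv with h | ⟨p, hp, _⟩
    · exact h
    · exact absurd hp (List.not_mem_nil)
  | cons p Ps ih =>
    obtain ⟨d1, d2, d3⟩ := hdisj p List.mem_cons_self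
    have h1 : PsiLe (tri p.1 p.2.1 p.2.2) (cost p : ℤ) := by
      refine Asm_le (psiLe_tri p.1 p.2.1 p.2.2 d1 d2 d3 (big p) ?_ ?_ ?_) ?_
      · exact le_max_left _ _
      · exact (le_max_left _ _).trans (le_max_right _ _)
      · exact (le_max_right _ _).trans (le_max_right _ _)
      · unfold cost
        push_cast
        exact le_rfl
    have h2 := ih (G \ tri p.1 p.2.1 p.2.2) (fun q hq => hdisj q (List.mem_cons_of_mem _ hq))
      (fun u v huv => by
        rw [SimpleGraph.sdiff_adj] at huv
        rcases hcov u v huv.1 with h | ⟨q, hq, hq2⟩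
        · exact Or.inl h
        · rcases List.mem_cons.1 hq with h3 | h3
          · subst h3
            exact absurd hq2 huv.2
          · exact Or.inr ⟨q, h3, hq2⟩)
    refine Asm_le (Asm_split G _ _ _ h1 h2) ?_
    rw [List.map_cons, List.sum_cons]
    linarith

end Pool.Agent.H95.BG
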