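import Pool.Agent.H95.BG.Step

/-!
Project BG, module Cover: the pieces of a whole sequence of stacks.

For every `i < T` apply `step_pieces` to `s = S i`, `b = S (i+1)` if `S i ⊆ S (i+1)` (insertion; the
pieces go to `Pp`) and to `s = S (i+1)`, `b = S i` otherwise (deletion; the pieces go to `Pm`). In
both cases `b \ s = chg S i` (as `symmDiff`) and `s = S i ∩ S (i+1)`. `Pp` and `Pm` are the
concatenations, `W` the union.
-/

set_option autoImplicit false

namespace Pool.Agent.H95.BG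

open Finset

private theorem Cover_nbtw_mono {V : Type*} (h : V → ℕ) {s b : Finset V} (hs : s ⊆ b) (u v : V) :
    nbtw h s u v ≤ nbtw h b u v :=
  Finset.card_le_card (Finset.filter_subset_filter _ hs)

private theorem Cover_first (P : ℕ → Prop) (h0 : ¬ P 0) :
    ∀ i, P i → ∃ a, a < i ∧ ¬ P a ∧ P (a + 1) := by
  intro i
  induction i with
  | zero => intro h; exact absurd h h0
  | succ i ih =>
    intro h
    by_cases hi : P i
    · obtain ⟨a, ha, h1, h2⟩ := ih hi
      exact ⟨a, Nat.lt_succ_of_lt ha, h1, h2⟩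
    · exact ⟨i, Nat.lt_succ_self i, hi, h⟩

private theorem Cover_last (P : ℕ → Prop) (i : ℕ) (hi : P i) :
    ∀ T, i ≤ T → ¬ P T → ∃ e, e < T ∧ P e ∧ ¬ P (e + 1) := by
  intro T hT
  induction T, hT using Nat.le_induction with
  | base => intro h; exact absurd hi h
  | succ T hT ih =>
    intro h
    by_cases hT' : P T
    · exact ⟨T, Nat.lt_succ_self T, hT', h⟩
    · obtain ⟨e, he, h1, h2⟩ := ih hT'
      exact ⟨e, Nat.lt_succ_of_lt he, h1, h2⟩

private theorem Cover_length {α : Type*} (P : ℕ → List α) (T : ℕ) :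
    ((List.range T).flatMap P).length = ∑ i ∈ range T, (P i).length := by
  induction T with
  | zero => simp
  | succ T ih =>
    rw [List.range_succ, List.flatMap_append, List.length_append, ih, Finset.sum_range_succ]
    simp

private theorem Cover_step {V : Type*} [DecidableEq V] (h : V → ℕ)
    (hinj : Function.Injective h) (S : ℕ → Finset V) (i : ℕ)
    (hmono : S i ⊆ S (i + 1) ∨ S (i + 1) ⊆ S i) (K m : ℕ) (hm : 1 ≤ m) :
    ∃ (Pp Pm : List (Finset V × Finset V × Finset V)) (W : Finset (Sym2 V)),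
      (∀ p ∈ Pp, IsPiece h m p) ∧ (∀ p ∈ Pm, IsPiece h m p) ∧
      (Pp.length + Pm.length) * m ^ 2 ≤ (K + 2) * #(chg S i) ∧
      #W ≤ wasteBound m K #(chg S i) (inner h S i) ∧
      (∀ u v, u ≠ v → ¬ close h K (S i) u v → close h K (S (i + 1)) u v →
        s(u, v) ∈ W ∨ ((∃ p ∈ Pp, touch p u v) ∨ (∃ p ∈ Pm, outer p u v))) ∧
      (∀ u v, u ≠ v → close h K (S i) u v → ¬ close h K (S (i + 1)) u v →
        s(u, v) ∈ W ∨ ((∃ p ∈ Pm, touch p u v) ∨ (∃ p ∈ Pp, outer p u v))) := by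
  rcases hmono with hs | hs
  · have hchg : chg S i = S (i + 1) \ S i := by
      unfold chg
      exact symmDiff_of_le hs
    have hinn : inner h S i = #(hull h (S i) (S (i + 1) \ S i)) := by
      unfold inner
      rw [hchg, Finset.inter_eq_left.2 hs]
    obtain ⟨Ps, W, h1, h2, h3, h4, h5⟩ := step_pieces h hinj (S i) (S (i + 1)) hs K m hm
    refine ⟨Ps, [], W, h1, by simp, ?_, ?_, ?_, ?_⟩
    · rw [hchg, List.length_nil, Nat.add_zero, Nat.mul_comm (K + 2)]
      exact h2
    · rw [hinn, hchg]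
      exact h3
    · intro u v huv hn hc
      have hns : ¬ (u ∈ S i ∧ v ∈ S i) := by
        rintro ⟨hu, hv⟩
        exact hn ⟨hu, hv, (Cover_nbtw_mono h hs u v).trans hc.2.2⟩
      rcases h4 u v huv hc hns with h | h
      · exact Or.inl h
      · exact Or.inr (Or.inl h)
    · intro u v huv hc hn
      have hK : K < nbtw h (S (i + 1)) u v := by
        by_contra hcon
        exact hn ⟨hs hc.1, hs hc.2.1, not_lt.1 hcon⟩
      rcases h5 u v huv hc hK with h | h
      · exact Or.inl h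
      · exact Or.inr (Or.inr h)
  · have hchg : chg S i = S i \ S (i + 1) := by
      unfold chg
      exact symmDiff_of_ge hs
    have hinn : inner h S i = #(hull h (S (i + 1)) (S i \ S (i + 1))) := by
      unfold inner
      rw [hchg, Finset.inter_eq_right.2 hs]
    obtain ⟨Ps, W, h1, h2, h3, h4, h5⟩ := step_pieces h hinj (S (i + 1)) (S i) hs K m hm
    refine ⟨[], Ps, W, by simp, h1, ?_, ?_, ?_, ?_⟩
    · rw [hchg, List.length_nil, Nat.zero_add, Nat.mul_comm (K + 2)]
      exact h2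
    · rw [hinn, hchg]
      exact h3
    · intro u v huv hn hc
      have hK : K < nbtw h (S i) u v := by
        by_contra hcon
        exact hn ⟨hs hc.1, hs hc.2.1, not_lt.1 hcon⟩
      rcases h5 u v huv hc hK with h | h
      · exact Or.inl h
      · exact Or.inr (Or.inr h)
    · intro u v huv hc hn
      have hns : ¬ (u ∈ S (i + 1) ∧ v ∈ S (i + 1)) := by
        rintro ⟨hu, hv⟩
        exact hn ⟨hu, hv, (Cover_nbtw_mono h hs u v).trans hc.2.2⟩
      rcases h4 u v huv hc hns with h | h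
      · exact Or.inl h
      · exact Or.inr (Or.inl h)

theorem cover {V : Type*} [DecidableEq V] (h : V → ℕ) (hinj : Function.Injective h)
    (T : ℕ) (S : ℕ → Finset V) (h0 : S 0 = ∅) (hT : S T = ∅)
    (hmono : ∀ i < T, S i ⊆ S (i + 1) ∨ S (i + 1) ⊆ S i) (K m : ℕ) (hm : 1 ≤ m) :
    ∃ (Pp Pm : List (Finset V × Finset V × Finset V)) (W : Finset (Sym2 V)),
      (∀ p ∈ Pp, IsPiece h m p) ∧ (∀ p ∈ Pm, IsPiece h m p) ∧
      (Pp.length + Pm.length) * m ^ 2 ≤ (K + 2) * ∑ i ∈ range T, #(chg S i) ∧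
      #W ≤ ∑ i ∈ range T, wasteBound m K #(chg S i) (inner h S i) ∧
      ∀ u v, u ≠ v → (∃ i ≤ T, close h K (S i) u v) → s(u, v) ∈ W ∨
        (((∃ p ∈ Pp, touch p u v) ∨ (∃ p ∈ Pm, outer p u v)) ∧
          ((∃ p ∈ Pm, touch p u v) ∨ (∃ p ∈ Pp, outer p u v))) := by
  have key : ∀ i, ∃ (Pp Pm : List (Finset V × Finset V × Finset V)) (W : Finset (Sym2 V)),
      i < T → ((∀ p ∈ Pp, IsPiece h m p) ∧ (∀ p ∈ Pm, IsPiece h m p) ∧
      (Pp.length + Pm.length) * m ^ 2 ≤ (K + 2) * #(chg S i) ∧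
      #W ≤ wasteBound m K #(chg S i) (inner h S i) ∧
      (∀ u v, u ≠ v → ¬ close h K (S i) u v → close h K (S (i + 1)) u v →
        s(u, v) ∈ W ∨ ((∃ p ∈ Pp, touch p u v) ∨ (∃ p ∈ Pm, outer p u v))) ∧
      (∀ u v, u ≠ v → close h K (S i) u v → ¬ close h K (S (i + 1)) u v →
        s(u, v) ∈ W ∨ ((∃ p ∈ Pm, touch p u v) ∨ (∃ p ∈ Pp, outer p u v)))) := by
    intro i
    by_cases hi : i < T
    · obtain ⟨Pp, Pm, W, hh⟩ := Cover_step h hinj S i (hmono i hi) K m hm
      exact ⟨Pp, Pm, W, fun _ => hh⟩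
    · exact ⟨[], [], ∅, fun h => absurd h hi⟩
  choose Pp Pm W hh using key
  refine ⟨(List.range T).flatMap Pp, (List.range T).flatMap Pm, (range T).biUnion W,
    ?_, ?_, ?_, ?_, ?_⟩
  · intro p hp
    obtain ⟨i, hi, hp⟩ := List.mem_flatMap.1 hp
    exact (hh i (List.mem_range.1 hi)).1 p hp
  · intro p hp
    obtain ⟨i, hi, hp⟩ := List.mem_flatMap.1 hp
    exact (hh i (List.mem_range.1 hi)).2.1 p hp
  · rw [Cover_length, Cover_length, ← Finset.sum_add_distrib, Finset.sum_mul, Finset.mul_sum]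
    exact Finset.sum_le_sum fun i hi => (hh i (Finset.mem_range.1 hi)).2.2.1
  · refine Finset.card_biUnion_le.trans ?_
    exact Finset.sum_le_sum fun i hi => (hh i (Finset.mem_range.1 hi)).2.2.2.1
  · intro u v huv hcl
    obtain ⟨i₀, hi₀, hc⟩ := hcl
    have hP0 : ¬ close h K (S 0) u v := by
      intro hcl
      have := hcl.1
      rw [h0] at this
      exact absurd this (Finset.notMem_empty u)
    have hPT : ¬ close h K (S T) u v := by
      intro hcl
      have := hcl.1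
      rw [hT] at this
      exact absurd this (Finset.notMem_empty u)
    obtain ⟨a, ha, ha1, ha2⟩ := Cover_first (fun i => close h K (S i) u v) hP0 i₀ hc
    obtain ⟨e, he, he1, he2⟩ := Cover_last (fun i => close h K (S i) u v) i₀ hc T hi₀ hPT
    have haT : a < T := lt_of_lt_of_le ha hi₀
    rcases (hh a haT).2.2.2.2.1 u v huv ha1 ha2 with hw | hA
    · exact Or.inl (Finset.mem_biUnion.2 ⟨a, Finset.mem_range.2 haT, hw⟩)
    · rcases (hh e he).2.2.2.2.2 u v huv he1 he2 with hw | hE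
      · exact Or.inl (Finset.mem_biUnion.2 ⟨e, Finset.mem_range.2 he, hw⟩)
      · refine Or.inr ⟨?_, ?_⟩
        · rcases hA with ⟨p, hp, hpt⟩ | ⟨p, hp, hpt⟩
          · exact Or.inl ⟨p, List.mem_flatMap.2 ⟨a, List.mem_range.2 haT, hp⟩, hpt⟩
          · exact Or.inr ⟨p, List.mem_flatMap.2 ⟨a, List.mem_range.2 haT, hp⟩, hpt⟩
        · rcases hE with ⟨p, hp, hpt⟩ | ⟨p, hp, hpt⟩
          · exact Or.inl ⟨p, List.mem_flatMap.2 ⟨e, List.mem_range.2 he, hp⟩, hpt⟩
          · exact Or.inr ⟨p, List.mem_flatMap.2 ⟨e, List.mem_range.2 he, hp⟩, hpt⟩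

end Pool.Agent.H95.BG
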