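import Pool.Agent.H95.BG.Defs

/-!
Project BG, module EdgeBound: the number of edges of the model graph.

For an edge `u v` let `t` be the least time with `u`, `v` alive and `nbtw ≤ k`. Then the event number
`t` is the birth of `u` or of `v`, or the death of a bar `w` strictly between `u` and `v` (all other
events do not make a pair close), and in the last case `nbtw h (aliveSet t) u v = k` exactly (before
it was `> k`, and it drops by one). Map the edge to this event. For a birth of `u` there are at most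
`2 (k + 1)` partners `v` (at distance `≤ k`, `k+1` on each side); for a death of `w` at most `k + 1` pairs
(`i` bars between `u` and `w`, `k - i` bars between `w` and `v`). Total
`≤ n * 2 (k+1) + n * (k+1)`.
-/

set_option autoImplicit false

namespace Pool.Agent.H95.BG

open Finset

theorem EdgeBound_btw {V : Type*} {h : V → ℕ} {u v w : V} :
    btw h u v w ↔ min (h u) (h v) < h w ∧ h w < max (h u) (h v) := Iff.rfl

theorem EdgeBound_comm {V : Type*} (h : V → ℕ) (A : Finset V) (u v : V) :
    nbtw h A u v = nbtw h A v u := by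
  unfold nbtw
  congr 1
  ext s
  rw [mem_filter, mem_filter, EdgeBound_btw, EdgeBound_btw, min_comm (h u), max_comm (h u)]

theorem EdgeBound_up {V : Type*} {h : V → ℕ} {A : Finset V} {x v v' : V} (hv : v ∈ A)
    (hx : h x < h v) (hlt : h v < h v') : nbtw h A x v < nbtw h A x v' := by
  unfold nbtw
  apply Finset.card_lt_card
  rw [Finset.ssubset_iff_of_subset]
  · refine ⟨v, ?_, ?_⟩
    · rw [mem_filter, EdgeBound_btw]
      refine ⟨hv, ?_, ?_⟩
      · rw [min_eq_left (by omega)]; omega
      · rw [max_eq_right (by omega)]; omega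
    · rw [mem_filter, EdgeBound_btw]
      rintro ⟨_, _, h2⟩
      rw [max_eq_right (by omega)] at h2
      omega
  · intro s hs
    rw [mem_filter, EdgeBound_btw] at hs ⊢
    obtain ⟨h1, h2, h3⟩ := hs
    rw [min_eq_left (by omega)] at h2
    rw [max_eq_right (by omega)] at h3
    rw [min_eq_left (by omega), max_eq_right (by omega)]
    exact ⟨h1, h2, by omega⟩

theorem EdgeBound_down {V : Type*} {h : V → ℕ} {A : Finset V} {x v v' : V} (hv : v ∈ A)
    (hx : h v < h x) (hlt : h v' < h v) : nbtw h A x v < nbtw h A x v' := by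
  unfold nbtw
  apply Finset.card_lt_card
  rw [Finset.ssubset_iff_of_subset]
  · refine ⟨v, ?_, ?_⟩
    · rw [mem_filter, EdgeBound_btw]
      refine ⟨hv, ?_, ?_⟩
      · rw [min_eq_right (by omega)]; omega
      · rw [max_eq_left (by omega)]; omega
    · rw [mem_filter, EdgeBound_btw]
      rintro ⟨_, h2, _⟩
      rw [min_eq_right (by omega)] at h2
      omega
  · intro s hs
    rw [mem_filter, EdgeBound_btw] at hs ⊢
    obtain ⟨h1, h2, h3⟩ := hs
    rw [min_eq_right (by omega)] at h2
    rw [max_eq_left (by omega)] at h3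
    rw [min_eq_right (by omega), max_eq_left (by omega)]
    exact ⟨h1, by omega, h3⟩

theorem EdgeBound_inj {V : Type*} {h : V → ℕ} (hi : Function.Injective h) {A : Finset V}
    {x v v' : V} (hv : v ∈ A) (hv' : v' ∈ A) (hxv : h x ≠ h v) (hxv' : h x ≠ h v')
    (hs : h x < h v ↔ h x < h v') (he : nbtw h A x v = nbtw h A x v') : v = v' := by
  by_contra hne
  have hne' : h v ≠ h v' := fun hh => hne (hi hh)
  by_cases hc : h x < h v
  · have hc' := hs.1 hc
    rcases Nat.lt_or_gt_of_ne hne' with h1 | h1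
    · have := EdgeBound_up hv hc h1
      omega
    · have := EdgeBound_up hv' hc' h1
      omega
  · have hc' : ¬ h x < h v' := fun hh => hc (hs.2 hh)
    rcases Nat.lt_or_gt_of_ne hne' with h1 | h1
    · have := EdgeBound_down (x := x) hv' (by omega) h1
      omega
    · have := EdgeBound_down (x := x) hv (by omega) h1
      omega

theorem EdgeBound_add {V : Type*} {h : V → ℕ} (hi : Function.Injective h) {A : Finset V}
    {u v w : V} (hw : w ∉ A) (h1 : h u < h w) (h2 : h w < h v) :
    nbtw h A u v = nbtw h A w u + nbtw h A w v := by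
  classical
  unfold nbtw
  rw [← Finset.card_union_of_disjoint]
  · congr 1
    ext s
    rw [mem_union, mem_filter, mem_filter, mem_filter, EdgeBound_btw, EdgeBound_btw,
      EdgeBound_btw]
    rw [min_eq_left (by omega : h u ≤ h v), max_eq_right (by omega : h u ≤ h v),
      min_eq_right (by omega : h u ≤ h w), max_eq_left (by omega : h u ≤ h w),
      min_eq_left (by omega : h w ≤ h v), max_eq_right (by omega : h w ≤ h v)]
    constructor
    · rintro ⟨hs, h3, h4⟩
      have h5 : h s ≠ h w := fun hh => hw (hi hh ▸ hs)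
      rcases Nat.lt_or_gt_of_ne h5 with h6 | h6
      · exact Or.inl ⟨hs, h3, h6⟩
      · exact Or.inr ⟨hs, h6, h4⟩
    · rintro (⟨hs, h3, h4⟩ | ⟨hs, h3, h4⟩)
      · exact ⟨hs, h3, by omega⟩
      · exact ⟨hs, by omega, h4⟩
  · rw [Finset.disjoint_left]
    intro s hs hs'
    rw [mem_filter, EdgeBound_btw] at hs hs'
    obtain ⟨_, h3, h4⟩ := hs
    obtain ⟨_, h5, h6⟩ := hs'
    rw [max_eq_left (by omega : h u ≤ h w)] at h4
    rw [min_eq_left (by omega : h w ≤ h v)] at h5
    omega

variable {n : ℕ}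

theorem EdgeBound_time_inj (P : Model n) {e e' : Fin n × Bool} (h : P.time e = P.time e') :
    e = e' := P.ev.injective (Fin.ext h)

/-- the relation between edges and codes -/
def EdgeBound_R (P : Model n) (k : ℕ) (e : Sym2 (Fin n)) :
    (Fin n × Bool × Fin (k + 1)) ⊕ (Fin n × Fin (k + 1)) → Prop
  | Sum.inl (x, b, i) => ∃ v, e = s(x, v) ∧ P.alive (P.time (x, false)) v ∧ v ≠ x ∧
      (b = true ↔ P.h x < P.h v) ∧ nbtw P.h (P.aliveSet (P.time (x, false))) x v = i
  | Sum.inr (w, i) => ∃ u v, e = s(u, v) ∧ P.h u < P.h w ∧ P.h w < P.h v ∧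
      P.alive (P.time (w, true)) u ∧ P.alive (P.time (w, true)) v ∧
      nbtw P.h (P.aliveSet (P.time (w, true))) w u = i ∧
      nbtw P.h (P.aliveSet (P.time (w, true))) w v + i = k

theorem EdgeBound_mem (P : Model n) {t : ℕ} {v : Fin n} : v ∈ P.aliveSet t ↔ P.alive t v := by
  simp [Model.aliveSet]

theorem EdgeBound_unique (P : Model n) (k : ℕ) {e e' : Sym2 (Fin n)}
    {c : (Fin n × Bool × Fin (k + 1)) ⊕ (Fin n × Fin (k + 1))} (h : EdgeBound_R P k e c)
    (h' : EdgeBound_R P k e' c) : e = e' := by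
  rcases c with ⟨x, b, i⟩ | ⟨w, i⟩
  · obtain ⟨v, rfl, hv1, hv2, hv3, hv4⟩ := h
    obtain ⟨v', rfl, hv1', hv2', hv3', hv4'⟩ := h'
    have : v = v' := EdgeBound_inj P.h_inj ((EdgeBound_mem P).2 hv1) ((EdgeBound_mem P).2 hv1')
      (fun hh => hv2 (P.h_inj hh).symm) (fun hh => hv2' (P.h_inj hh).symm) (hv3.symm.trans hv3')
      (hv4.trans hv4'.symm)
    rw [this]
  · obtain ⟨u, v, rfl, a1, a2, a3, a4, a5, a6⟩ := h
    obtain ⟨u', v', rfl, b1, b2, b3, b4, b5, b6⟩ := h'
    have h1 : u = u' := EdgeBound_inj (x := w) (v := u) (v' := u') P.h_inj ((EdgeBound_mem P).2 a3) ((EdgeBound_mem P).2 b3)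
      (by omega) (by omega) (by omega) (a5.trans b5.symm)
    have h2 : v = v' := EdgeBound_inj (x := w) (v := v) (v' := v') P.h_inj ((EdgeBound_mem P).2 a4) ((EdgeBound_mem P).2 b4)
      (by omega) (by omega) (by omega) (by omega)
    rw [h1, h2]

theorem EdgeBound_exists' (P : Model n) (k : ℕ) {u v : Fin n} (huv : P.h u < P.h v)
    (h : ∃ t, P.alive t u ∧ P.alive t v ∧ nbtw P.h (P.aliveSet t) u v ≤ k) :
    ∃ c, EdgeBound_R P k s(u, v) c := by
  classical
  obtain ⟨h1, h2, h3⟩ := Nat.find_spec h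
  have hmin := fun m hm => Nat.find_min h (m := m) hm
  set t := Nat.find h with ht
  have hne : u ≠ v := fun hh => by rw [hh] at huv; exact lt_irrefl _ huv
  by_cases hu : t = P.time (u, false)
  · refine ⟨Sum.inl (u, true, ⟨nbtw P.h (P.aliveSet t) u v, by omega⟩), v, rfl, ?_, hne.symm, ?_, ?_⟩
    · rw [← hu]; exact h2
    · simp [huv]
    · rw [← hu]
  by_cases hv : t = P.time (v, false)
  · refine ⟨Sum.inl (v, false, ⟨nbtw P.h (P.aliveSet t) v u, ?_⟩), u, ?_, ?_, hne, ?_, ?_⟩
    · rw [EdgeBound_comm]; omega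
    · exact Sym2.eq_swap
    · rw [← hv]; exact h1
    · constructor
      · intro hh; exact absurd hh (by decide)
      · intro hh; omega
    · rw [← hv]
  -- the death of a bar in between
  have hu1 : P.time (u, false) < t := lt_of_le_of_ne h1.1 (Ne.symm hu)
  have hv1 : P.time (v, false) < t := lt_of_le_of_ne h2.1 (Ne.symm hv)
  have g1 : P.alive (t - 1) u := ⟨by omega, by have := h1.2; omega⟩
  have g2 : P.alive (t - 1) v := ⟨by omega, by have := h2.2; omega⟩
  have g3 : k < nbtw P.h (P.aliveSet (t - 1)) u v := by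
    by_contra hcon
    exact hmin (t - 1) (by omega) ⟨g1, g2, not_lt.1 hcon⟩
  have key : ∀ s : Fin n, P.alive (t - 1) s → ¬ P.alive t s → P.time (s, true) = t := by
    intro s hs hs'
    obtain ⟨hs1, hs2⟩ := hs
    by_contra hcon
    exact hs' ⟨by omega, by omega⟩
  obtain ⟨w, hw1, hw2⟩ : ∃ w ∈ {s ∈ P.aliveSet (t - 1) | btw P.h u v s},
      w ∉ {s ∈ P.aliveSet t | btw P.h u v s} := by
    by_contra hcon
    push Not at hcon
    have : nbtw P.h (P.aliveSet (t - 1)) u v ≤ nbtw P.h (P.aliveSet t) u v :=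
      Finset.card_le_card fun s hs => hcon s hs
    omega
  rw [mem_filter] at hw1 hw2
  have hw3 : ¬ P.alive t w := fun hh => hw2 ⟨(EdgeBound_mem P).2 hh, hw1.2⟩
  have hw4 : P.time (w, true) = t := key w ((EdgeBound_mem P).1 hw1.1) hw3
  have g4 : nbtw P.h (P.aliveSet (t - 1)) u v ≤ nbtw P.h (P.aliveSet t) u v + 1 := by
    unfold nbtw
    refine le_trans (Finset.card_le_card ?_) (Finset.card_insert_le w _)
    intro s hs
    rw [mem_filter] at hs
    rw [mem_insert, mem_filter]
    by_cases hsa : P.alive t s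
    · exact Or.inr ⟨(EdgeBound_mem P).2 hsa, hs.2⟩
    · left
      have h5 := key s ((EdgeBound_mem P).1 hs.1) hsa
      have h6 := EdgeBound_time_inj P (h5.trans hw4.symm)
      exact (Prod.ext_iff.1 h6).1
  have g5 : nbtw P.h (P.aliveSet t) u v = k := by omega
  obtain ⟨hb1, hb2⟩ := hw1.2
  rw [min_eq_left huv.le] at hb1
  rw [max_eq_right huv.le] at hb2
  have g6 := EdgeBound_add (A := P.aliveSet t) P.h_inj
    (fun hh => hw3 ((EdgeBound_mem P).1 hh)) hb1 hb2
  refine ⟨Sum.inr (w, ⟨nbtw P.h (P.aliveSet t) w u, by omega⟩), u, v, rfl, hb1, hb2, ?_, ?_, ?_, ?_⟩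
  · rw [hw4]; exact h1
  · rw [hw4]; exact h2
  · rw [hw4]
  · rw [hw4]
    simp only
    omega

theorem EdgeBound_exists (P : Model n) (k : ℕ) (e : (P.graph k).edgeSet) :
    ∃ c, EdgeBound_R P k e.1 c := by
  obtain ⟨e, he⟩ := e
  induction e using Sym2.ind with
  | _ u v =>
    rw [SimpleGraph.mem_edgeSet] at he
    obtain ⟨hne, t, h1, h2, h3⟩ := he
    have hne' : P.h u ≠ P.h v := fun hh => hne (P.h_inj hh)
    rcases Nat.lt_or_gt_of_ne hne' with h | h
    · exact EdgeBound_exists' P k h ⟨t, h1, h2, h3⟩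
    · obtain ⟨c, hc⟩ := EdgeBound_exists' P k h ⟨t, h2, h1, by rw [EdgeBound_comm]; exact h3⟩
      refine ⟨c, ?_⟩
      have : s(u, v) = s(v, u) := Sym2.eq_swap
      simp only [this]
      exact hc

theorem edge_bound {n : ℕ} (P : Model n) (k : ℕ) :
    Nat.card (P.graph k).edgeSet ≤ 3 * (k + 1) * n := by
  classical
  let f : (P.graph k).edgeSet → (Fin n × Bool × Fin (k + 1)) ⊕ (Fin n × Fin (k + 1)) :=
    fun e => Classical.choose (EdgeBound_exists P k e)
  have hf : Function.Injective f := by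
    intro e e' hee
    have h1 := Classical.choose_spec (EdgeBound_exists P k e)
    have h2 := Classical.choose_spec (EdgeBound_exists P k e')
    have h3 : Classical.choose (EdgeBound_exists P k e) =
      Classical.choose (EdgeBound_exists P k e') := hee
    rw [← h3] at h2
    exact Subtype.ext (EdgeBound_unique P k h1 h2)
  refine (Nat.card_le_card_of_injective f hf).trans (le_of_eq ?_)
  rw [Nat.card_eq_fintype_card, Fintype.card_sum, Fintype.card_prod, Fintype.card_prod,
    Fintype.card_prod, Fintype.card_fin, Fintype.card_fin, Fintype.card_bool]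
  ring

end Pool.Agent.H95.BG
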