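import Pool.Agent.H95.BG.Defs

/-!
Project BG, module ExtClose: bars that are close stay close in the extended stack.

`u`, `v` are alive at time `t`, so they are in the extended stack `W.S (t + 1) = {v | W.ext t v}`
(use the events `(u, false)`, `(u, true)` themselves as witnesses). If `w ∈ W.S (t + 1)` lies between
`u` and `v` and is not alive at time `t`, then either `t < time (w, false)`, and the window of
`(w, false)` has an event at a time `≤ t`, or `time (w, true) ≤ t`, and the window of `(w, true)` has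
an event at a time `> t`. So `w` has an event in a window whose span contains `t`. Every window has at
most `L` events (`W.card_le`), so it accounts for at most `L` bars. Two different windows of this
kind (with events of bars `w`, `w'` between `u` and `v`) are separated: there is `r ∈ R` alive at
time `t` strictly between `w` and `w'` (`W.sep`), hence strictly between `u` and `v`. So the number
of such windows is at most `#{r ∈ R | alive, between u and v} + 1` (order the windows by
the height of a chosen bar; map a window to the number of such `r` below its bar, which is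
injective).
-/

set_option autoImplicit false

namespace Pool.Agent.H95.BG

open Finset

/-- The event of `w` whose window is active at time `t`. -/
private def ExtClose_ev {n : ℕ} (P : Model n) (t : ℕ) (w : Fin n) : Fin n × Bool :=
  if t < P.time (w, false) then (w, false) else (w, true)

private lemma ExtClose_ev_fst {n : ℕ} (P : Model n) (t : ℕ) (w : Fin n) :
    (ExtClose_ev P t w).1 = w := by
  unfold ExtClose_ev
  split_ifs <;> rfl

private lemma ExtClose_span {n : ℕ} {P : Model n} {R : Finset (Fin n)} {L : ℕ}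
    (W : Windows P R L) (t : ℕ) (w : Fin n) (hw : W.ext t w) (ha : ¬ P.alive t w) :
    span P R W.win (W.win (ExtClose_ev P t w)) t := by
  obtain ⟨hR, ⟨e, he1, he2, he3⟩, ⟨e', he1', he2', he3'⟩⟩ := hw
  unfold ExtClose_ev
  split_ifs with h
  · exact ⟨⟨e, he1, he2, he3⟩, ⟨(w, false), hR, rfl, h.le⟩⟩
  · have h2 : P.time (w, true) ≤ t := by
      by_contra h3
      exact ha ⟨not_lt.1 h, not_le.1 h3⟩
    exact ⟨⟨(w, true), hR, rfl, h2⟩, ⟨e', he1', he2', he3'.le⟩⟩

theorem ext_close {n : ℕ} {P : Model n} {R : Finset (Fin n)} {L : ℕ} (W : Windows P R L)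
    (t : ℕ) (u v : Fin n) (hu : u ∉ R) (hv : v ∉ R) (hau : P.alive t u) (hav : P.alive t v) :
    u ∈ W.S (t + 1) ∧ v ∈ W.S (t + 1) ∧
      nbtw P.h (W.S (t + 1)) u v ≤
        nbtw P.h (P.aliveSet t) u v + L * (#{r ∈ R | P.alive t r ∧ btw P.h u v r} + 1) := by
  have hS : ∀ w, w ∈ W.S (t + 1) ↔ W.ext t w := by
    intro w
    simp [Windows.S]
  have hmem : ∀ w, w ∉ R → P.alive t w → w ∈ W.S (t + 1) := by
    intro w hw ha
    rw [hS]
    exact ⟨hw, ⟨(w, false), hw, rfl, ha.1⟩, ⟨(w, true), hw, rfl, ha.2⟩⟩
  refine ⟨hmem u hu hau, hmem v hv hav, ?_⟩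
  obtain ⟨B, hB⟩ : ∃ B : Finset (Fin n),
      B = {w ∈ W.S (t + 1) | btw P.h u v w ∧ ¬ P.alive t w} := ⟨_, rfl⟩
  have hBm : ∀ w ∈ B, W.ext t w ∧ btw P.h u v w ∧ ¬ P.alive t w := by
    intro w hw
    rw [hB, mem_filter, hS] at hw
    exact hw
  have h1 : nbtw P.h (W.S (t + 1)) u v ≤ nbtw P.h (P.aliveSet t) u v + #B := by
    unfold nbtw
    refine (card_le_card ?_).trans (card_union_le _ _)
    intro w hw
    rw [mem_filter] at hw
    rw [mem_union, mem_filter, hB, mem_filter]
    by_cases ha : P.alive t w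
    · left
      exact ⟨by simp [Model.aliveSet, ha], hw.2⟩
    · right
      exact ⟨hw.1, hw.2, ha⟩
  obtain ⟨f, hf⟩ : ∃ f : Fin n → ℕ, ∀ w, f w = W.win (ExtClose_ev P t w) := ⟨_, fun _ => rfl⟩
  have h2 : #B ≤ L * #(image f B) := by
    refine card_le_mul_card_image B L fun i _ => ?_
    refine le_trans ?_ (W.card_le i)
    refine card_le_card_of_injOn (ExtClose_ev P t) ?_ ?_
    · intro w hw
      rw [mem_coe, mem_filter] at hw
      rw [mem_coe, mem_filter]
      refine ⟨mem_univ _, ?_, ?_⟩
      · rw [ExtClose_ev_fst]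
        exact (hBm w hw.1).1.1
      · rw [← hf]
        exact hw.2
    · intro w _ w' _ h
      rw [← ExtClose_ev_fst P t w, ← ExtClose_ev_fst P t w', h]
  have h3 : #(image f B) ≤ #{r ∈ R | P.alive t r ∧ btw P.h u v r} + 1 := by
    have hch : ∀ i, ∃ w, i ∈ image f B → w ∈ B ∧ f w = i := by
      intro i
      by_cases hi : i ∈ image f B
      · obtain ⟨w, hw, hfw⟩ := mem_image.1 hi
        exact ⟨w, fun _ => ⟨hw, hfw⟩⟩
      · exact ⟨u, fun h => absurd h hi⟩
    choose c hc using hch
    obtain ⟨Q, hQ⟩ : ∃ Q : Finset (Fin n), Q = {r ∈ R | P.alive t r ∧ btw P.h u v r} := ⟨_, rfl⟩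
    rw [← hQ]
    have hlt : ∀ i ∈ image f B, ∀ j ∈ image f B, (∃ r ∈ R, P.alive t r ∧
        P.h (c i) < P.h r ∧ P.h r < P.h (c j)) →
        #{r ∈ Q | P.h r < P.h (c i)} < #{r ∈ Q | P.h r < P.h (c j)} := by
      rintro i hi j hj ⟨r, hr, har, hr1, hr2⟩
      apply card_lt_card
      rw [Finset.ssubset_iff_of_subset]
      · refine ⟨r, ?_, ?_⟩
        · rw [mem_filter, hQ, mem_filter]
          have b1 := (hBm _ (hc i hi).1).2.1
          have b2 := (hBm _ (hc j hj).1).2.1
          exact ⟨⟨hr, har, b1.1.trans hr1, hr2.trans b2.2⟩, hr2⟩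
        · rw [mem_filter]
          rintro ⟨-, h⟩
          omega
      · intro s hs
        rw [mem_filter] at hs ⊢
        exact ⟨hs.1, by omega⟩
    have hinj : Set.InjOn (fun i => #{r ∈ Q | P.h r < P.h (c i)}) (image f B : Finset ℕ) := by
      intro i hi j hj hij
      by_contra hne
      rw [mem_coe] at hi hj
      simp only at hij
      obtain ⟨hci, hfi⟩ := hc i hi
      obtain ⟨hcj, hfj⟩ := hc j hj
      have s1 := ExtClose_span W t (c i) (hBm _ hci).1 (hBm _ hci).2.2
      have s2 := ExtClose_span W t (c j) (hBm _ hcj).1 (hBm _ hcj).2.2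
      obtain ⟨r, hr, har, hbr⟩ := W.sep (ExtClose_ev P t (c i)) (ExtClose_ev P t (c j))
        (by rw [ExtClose_ev_fst]; exact (hBm _ hci).1.1)
        (by rw [ExtClose_ev_fst]; exact (hBm _ hcj).1.1)
        (by rw [← hf, ← hf, hfi, hfj]; exact hne) t s1 s2
      rw [ExtClose_ev_fst, ExtClose_ev_fst] at hbr
      unfold btw at hbr
      rcases le_total (P.h (c i)) (P.h (c j)) with hle | hle
      · rw [min_eq_left hle, max_eq_right hle] at hbr
        have := hlt i hi j hj ⟨r, hr, har, hbr⟩
        omega
      · rw [min_eq_right hle, max_eq_left hle] at hbr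
        have := hlt j hj i hi ⟨r, hr, har, hbr⟩
        omega
    have := card_le_card_of_injOn (s := image f B) (t := range (#Q + 1))
      (fun i => #{r ∈ Q | P.h r < P.h (c i)}) (by
        intro i _
        rw [mem_coe, mem_range]
        have := card_filter_le Q (fun r => P.h r < P.h (c i))
        simp only
        omega) hinj
    rwa [card_range] at this
  calc nbtw P.h (W.S (t + 1)) u v ≤ nbtw P.h (P.aliveSet t) u v + #B := h1
    _ ≤ nbtw P.h (P.aliveSet t) u v + L * #(image f B) := by omega
    _ ≤ _ := by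
      gcongr

end Pool.Agent.H95.BG
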