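import Pool.Agent.H95.BG.ExtStep

/-!
Project BG, module ExtInner: the inner bars of the steps.

Let `C = chg W.S i`, nonempty. By `S_mono` step `i` is an insertion (`S i ⊆ S (i+1)`) or a
deletion. By `mem_sdiff_insert` / `mem_sdiff_delete` all bars of `C` have their birth (resp. death)
in one window `w`, the window of the event number `i`, which is the first (resp. last) event of `w`.

Claim: for every event `e` of the window `w`, `inner P.h W.S i ≤ #(cont P R e) + L`.
Let `z` be an inner bar: `z ∈ S i`, `z ∈ S (i+1)`, `h x < h z < h x'` with `x, x' ∈ C`. Note that `x`,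
`x'` have events in `w`, so by `W.gap` no bar of `R` alive at a time `s` in the span of `w` is strictly
between `x` and `x'`; and if an event of `z` is in a window `w' ≠ w` and `s` is in both spans,
`W.sep` gives a bar of `R` alive at time `s` strictly between `z` and `x` (or choose `x'`):
if it is between `x` and `z` it is between `x` and `x'`: contradiction. (*)
Insertion: `i` is the first event time of `w`. If `time (z, false) > i`, its window `w'` contains `i` in
its span because `z ∈ S (i+1)`; `w' ≠ w` since otherwise `z ∉ S i` (if `w' = w`, no event of the birth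
window of `z` has time `≤ i - 1`); contradiction by (*). `time (z, false) = i` would give `w' = w` and
again `z ∉ S i`. So `time (z, false) < i ≤ time e`. If `z` is not alive at time `time e`, then
`s = time (z, true) ≤ time e`. If `s < i`, the window `w'` of `(z, true)` has an event at a time `> i`
because `z ∈ S (i+1)`, so `i` is in the span of `w'`, and `w' ≠ w` because of `s < i`; contradiction
by (*). So `s` is in the span of `w`, and by (*) (at time `s`) the event `(z, true)` is in `w`.
There are at most `L` such `z`.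
Deletion: `i` is the last event time of `w`. If `time (z, true) ≤ i`, its window has an event at a time
`> i` (as `z ∈ S (i+1)`), so it is not `w`, and its span contains `i`; contradiction by (*). So
`time (z, true) > i ≥ time e`. If `z` is not alive at time `time e`, then `s = time (z, false) > time e`.
If `s > i`: the window of `(z, false)` has an event at a time `≤ i`, so `i` is in its span, and it
is not `w`; contradiction. So `s ≤ i` is in the span of `w` and by (*) the event `(z, false)` is in
`w`: at most `L` such `z`.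
If `z` is alive at time `time e` then `z ∈ cont P R e`: `z ∉ R` (as `z ∈ S i`), and if `r ∈ R` alive at
`time e` is strictly between `e.1` and `z`, then it is strictly between `e.1` and `x` or between
`e.1` and `x'` (as `h x < h z < h x'`), contradicting `W.gap`.

Sum: `#C * (inner + #C) ≤ Σ_e (#(cont P R e) + 2 L)` over the birth (resp. death) events `e` of the bars
of `C` (`#C ≤ L` by `chg_le`); every event `(v, false)` occurs for at most one `i` (the insertion
step of `v`) and `(v, true)` for at most one `i`.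
-/

set_option autoImplicit false

namespace Pool.Agent.H95.BG

open Finset

section ExtInner

variable {n : ℕ} {P : Model n} {R : Finset (Fin n)} {L : ℕ} (W : Windows P R L)

private lemma ExtInner_time_inj {e f : Fin n × Bool} (h : P.time e = P.time f) : e = f :=
  P.ev.injective (Fin.ext h)

private lemma ExtInner_mem_S_succ {i : ℕ} {v : Fin n} : v ∈ W.S (i + 1) ↔ W.ext i v := by
  simp [Windows.S]

/-- Two windows active at the same time, one of which surrounds a bar of the other, are equal. -/
private lemma ExtInner_star {x x' z : Fin n} {b c c' : Bool} (hx : x ∉ R) (hx' : x' ∉ R)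
    (hz : z ∉ R) (hw : W.win (x, c) = W.win (x', c')) (h1 : P.h x < P.h z)
    (h2 : P.h z < P.h x') {s : ℕ} (hs : span P R W.win (W.win (x, c)) s)
    (hs' : span P R W.win (W.win (z, b)) s) : W.win (z, b) = W.win (x, c) := by
  by_contra hne
  obtain ⟨r, hr, ha, hb⟩ := W.sep (z, b) (x, c) hz hx hne s hs' hs
  refine W.gap (x, c) (x', c') hx hx' hw s hs r hr ha ?_
  unfold btw at hb ⊢
  simp only at hb ⊢
  omega

private lemma ExtInner_card_win (b : Bool) (w : ℕ) :
    #{z : Fin n | z ∉ R ∧ W.win (z, b) = w} ≤ L := by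
  refine le_trans ?_ (W.card_le w)
  refine card_le_card_of_injOn (fun z => (z, b)) ?_ ?_
  · intro z hz
    simpa using hz
  · intro z _ z' _ h
    exact congrArg Prod.fst h

private lemma ExtInner_cont {x x' z v : Fin n} {b c c' : Bool} (hx : x ∉ R) (hx' : x' ∉ R)
    (hz : z ∉ R) (hv : v ∉ R) (hw : W.win (v, b) = W.win (x, c))
    (hw' : W.win (v, b) = W.win (x', c')) (h1 : P.h x < P.h z)
    (h2 : P.h z < P.h x') (ha : P.alive (P.time (v, b)) z) : z ∈ cont P R (v, b) := by
  have hs : span P R W.win (W.win (v, b)) (P.time (v, b)) :=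
    ⟨⟨(v, b), hv, rfl, le_rfl⟩, ⟨(v, b), hv, rfl, le_rfl⟩⟩
  unfold cont
  simp only [mem_filter, mem_univ, true_and]
  refine ⟨hz, ha, ?_⟩
  intro r hr har hb
  have g1 := W.gap (v, b) (x, c) hv hx hw _ hs r hr har
  have g2 := W.gap (v, b) (x', c') hv hx' hw' _ hs r hr har
  unfold btw at hb g1 g2
  simp only at hb g1 g2
  omega

private lemma ExtInner_ins {i : ℕ} (hm : W.S i ⊆ W.S (i + 1)) {v : Fin n}
    (hv1 : v ∉ W.S i) (hv2 : v ∈ W.S (i + 1)) :
    inner P.h W.S i ≤ #(cont P R (v, false)) + L := by
  obtain ⟨hvR, ⟨e0, he0R, he0w, he0t⟩, hfirst⟩ := W.mem_sdiff_insert i v hv1 hv2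
  have hwin : ∀ x ∈ chg W.S i, x ∉ R ∧ W.win (x, false) = W.win (v, false) := by
    intro x hx
    unfold chg at hx
    rw [mem_symmDiff] at hx
    have hx' : x ∉ W.S i ∧ x ∈ W.S (i + 1) := by
      rcases hx with hx | hx
      · exact absurd (hm hx.1) hx.2
      · exact ⟨hx.2, hx.1⟩
    obtain ⟨hxR, ⟨f0, hf0R, hf0w, hf0t⟩, _⟩ := W.mem_sdiff_insert i x hx'.1 hx'.2
    have : e0 = f0 := ExtInner_time_inj (P := P) (he0t.trans hf0t.symm)
    subst this
    exact ⟨hxR, hf0w.symm.trans he0w⟩
  have hsub : hull P.h (W.S i ∩ W.S (i + 1)) (chg W.S i) ⊆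
      cont P R (v, false) ∪ ({z : Fin n | z ∉ R ∧ W.win (z, true) = W.win (v, false)} :
        Finset (Fin n)) := by
    intro z hz
    unfold hull at hz
    simp only [mem_filter, mem_inter] at hz
    obtain ⟨⟨hzi, hzi'⟩, x, hx, x', hx', hxz, hzx'⟩ := hz
    obtain ⟨hxR, hxw⟩ := hwin x hx
    obtain ⟨hxR', hxw'⟩ := hwin x' hx'
    rw [ExtInner_mem_S_succ] at hzi'
    obtain ⟨hzR, ⟨f, hfR, hfw, hft⟩, ⟨f', hfR', hfw', hft'⟩⟩ := hzi'
    have hspan : ∀ s, i ≤ s → s ≤ P.time (v, false) →
        span P R W.win (W.win (x, false)) s := by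
      intro s h1 h2
      rw [hxw]
      exact ⟨⟨e0, he0R, he0w, by omega⟩, ⟨(v, false), hvR, rfl, h2⟩⟩
    have hle : i ≤ P.time (v, false) := hfirst (v, false) hvR rfl
    have hxx' : W.win (x, false) = W.win (x', false) := hxw.trans hxw'.symm
    have hbirth : P.time (z, false) < i := by
      by_contra h0
      have h1 : span P R W.win (W.win (z, false)) i :=
        ⟨⟨f, hfR, hfw, hft⟩, ⟨(z, false), hzR, rfl, by omega⟩⟩
      have h2 := ExtInner_star W hxR hxR' hzR hxx' hxz hzx' (hspan i le_rfl hle) h1
      cases i with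
      | zero => simp [Windows.S] at hzi
      | succ j =>
        rw [ExtInner_mem_S_succ] at hzi
        obtain ⟨_, ⟨g, hgR, hgw, hgt⟩, _⟩ := hzi
        have := hfirst g hgR (hgw.trans (h2.trans hxw))
        omega
    rw [mem_union]
    by_cases ha : P.alive (P.time (v, false)) z
    · left
      exact ExtInner_cont W hxR hxR' hzR hvR hxw.symm hxw'.symm hxz hzx' ha
    · right
      simp only [mem_filter, mem_univ, true_and]
      refine ⟨hzR, ?_⟩
      have hs : P.time (z, true) ≤ P.time (v, false) := by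
        unfold Model.alive at ha
        omega
      have hs2 : i ≤ P.time (z, true) := by
        by_contra h0
        have h1 : span P R W.win (W.win (z, true)) i :=
          ⟨⟨(z, true), hzR, rfl, by omega⟩, ⟨f', hfR', hfw', hft'.le⟩⟩
        have h2 := ExtInner_star W hxR hxR' hzR hxx' hxz hzx' (hspan i le_rfl hle) h1
        have := hfirst (z, true) hzR (h2.trans hxw)
        omega
      have h1 : span P R W.win (W.win (z, true)) (P.time (z, true)) :=
        ⟨⟨(z, true), hzR, rfl, le_rfl⟩, ⟨(z, true), hzR, rfl, le_rfl⟩⟩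
      exact (ExtInner_star W hxR hxR' hzR hxx' hxz hzx' (hspan _ hs2 hs) h1).trans hxw
  unfold inner
  refine (card_le_card hsub).trans ((card_union_le _ _).trans ?_)
  exact Nat.add_le_add_left (ExtInner_card_win W true _) _

private lemma ExtInner_del {i : ℕ} (hm : W.S (i + 1) ⊆ W.S i) {v : Fin n}
    (hv1 : v ∈ W.S i) (hv2 : v ∉ W.S (i + 1)) :
    inner P.h W.S i ≤ #(cont P R (v, true)) + L := by
  obtain ⟨hvR, ⟨e0, he0R, he0w, he0t⟩, hlast⟩ := W.mem_sdiff_delete i v hv1 hv2
  have hwin : ∀ x ∈ chg W.S i, x ∉ R ∧ W.win (x, true) = W.win (v, true) := by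
    intro x hx
    unfold chg at hx
    rw [mem_symmDiff] at hx
    have hx' : x ∈ W.S i ∧ x ∉ W.S (i + 1) := by
      rcases hx with hx | hx
      · exact hx
      · exact absurd (hm hx.1) hx.2
    obtain ⟨hxR, ⟨f0, hf0R, hf0w, hf0t⟩, _⟩ := W.mem_sdiff_delete i x hx'.1 hx'.2
    have : e0 = f0 := ExtInner_time_inj (P := P) (he0t.trans hf0t.symm)
    subst this
    exact ⟨hxR, hf0w.symm.trans he0w⟩
  have hsub : hull P.h (W.S i ∩ W.S (i + 1)) (chg W.S i) ⊆
      cont P R (v, true) ∪ ({z : Fin n | z ∉ R ∧ W.win (z, false) = W.win (v, true)} :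
        Finset (Fin n)) := by
    intro z hz
    unfold hull at hz
    simp only [mem_filter, mem_inter] at hz
    obtain ⟨⟨hzi, hzi'⟩, x, hx, x', hx', hxz, hzx'⟩ := hz
    obtain ⟨hxR, hxw⟩ := hwin x hx
    obtain ⟨hxR', hxw'⟩ := hwin x' hx'
    rw [ExtInner_mem_S_succ] at hzi'
    obtain ⟨hzR, ⟨f, hfR, hfw, hft⟩, ⟨f', hfR', hfw', hft'⟩⟩ := hzi'
    have hspan : ∀ s, P.time (v, true) ≤ s → s ≤ i →
        span P R W.win (W.win (x, true)) s := by
      intro s h1 h2
      rw [hxw]
      exact ⟨⟨(v, true), hvR, rfl, h1⟩, ⟨e0, he0R, he0w, by omega⟩⟩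
    have hle : P.time (v, true) ≤ i := hlast (v, true) hvR rfl
    have hxx' : W.win (x, true) = W.win (x', true) := hxw.trans hxw'.symm
    have hdeath : i < P.time (z, true) := by
      by_contra h0
      have h1 : span P R W.win (W.win (z, true)) i :=
        ⟨⟨(z, true), hzR, rfl, by omega⟩, ⟨f', hfR', hfw', hft'.le⟩⟩
      have h2 := ExtInner_star W hxR hxR' hzR hxx' hxz hzx' (hspan i hle le_rfl) h1
      have := hlast f' hfR' (hfw'.trans (h2.trans hxw))
      omega
    rw [mem_union]
    by_cases ha : P.alive (P.time (v, true)) z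
    · left
      exact ExtInner_cont W hxR hxR' hzR hvR hxw.symm hxw'.symm hxz hzx' ha
    · right
      simp only [mem_filter, mem_univ, true_and]
      refine ⟨hzR, ?_⟩
      have hs : P.time (v, true) ≤ P.time (z, false) := by
        unfold Model.alive at ha
        omega
      have hs2 : P.time (z, false) ≤ i := by
        by_contra h0
        have h1 : span P R W.win (W.win (z, false)) i :=
          ⟨⟨f, hfR, hfw, hft⟩, ⟨(z, false), hzR, rfl, by omega⟩⟩
        have h2 := ExtInner_star W hxR hxR' hzR hxx' hxz hzx' (hspan i hle le_rfl) h1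
        have := hlast (z, false) hzR (h2.trans hxw)
        omega
      have h1 : span P R W.win (W.win (z, false)) (P.time (z, false)) :=
        ⟨⟨(z, false), hzR, rfl, le_rfl⟩, ⟨(z, false), hzR, rfl, le_rfl⟩⟩
      exact (ExtInner_star W hxR hxR' hzR hxx' hxz hzx' (hspan _ hs hs2) h1).trans hxw
  unfold inner
  refine (card_le_card hsub).trans ((card_union_le _ _).trans ?_)
  exact Nat.add_le_add_left (ExtInner_card_win W false _) _

/-- The events that cause the change at step `i`: the birth of every inserted bar and the death of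
every deleted bar. -/
private def ExtInner_E (i : ℕ) : Finset (Fin n × Bool) :=
  {e | (e.2 = false ∧ e.1 ∉ W.S i ∧ e.1 ∈ W.S (i + 1)) ∨
    (e.2 = true ∧ e.1 ∈ W.S i ∧ e.1 ∉ W.S (i + 1))}

private lemma ExtInner_card_E (i : ℕ) : #(chg W.S i) = #(ExtInner_E W i) := by
  refine card_bij (fun v _ => (v, decide (v ∈ W.S i))) ?_ ?_ ?_
  · intro v hv
    unfold chg at hv
    rw [mem_symmDiff] at hv
    unfold ExtInner_E
    simp only [mem_filter, mem_univ, true_and]
    rcases hv with hv | hv
    · right
      exact ⟨by simpa using hv.1, hv.1, hv.2⟩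
    · left
      exact ⟨by simpa using hv.2, hv.2, hv.1⟩
  · intro v _ v' _ h
    exact congrArg Prod.fst h
  · rintro ⟨v, b⟩ he
    unfold ExtInner_E at he
    simp only [mem_filter, mem_univ, true_and] at he
    rcases he with ⟨h1, h2, h3⟩ | ⟨h1, h2, h3⟩
    · refine ⟨v, ?_, ?_⟩
      · unfold chg
        rw [mem_symmDiff]
        exact Or.inr ⟨h3, h2⟩
      · rw [h1, decide_eq_false h2]
    · refine ⟨v, ?_, ?_⟩
      · unfold chg
        rw [mem_symmDiff]
        exact Or.inl ⟨h2, h3⟩
      · rw [h1, decide_eq_true h2]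

private lemma ExtInner_disj {i j : ℕ} {e : Fin n × Bool} (hi : e ∈ ExtInner_E W i)
    (hj : e ∈ ExtInner_E W j) : i = j := by
  obtain ⟨v, b⟩ := e
  unfold ExtInner_E at hi hj
  simp only [mem_filter, mem_univ, true_and] at hi hj
  cases b with
  | false =>
    simp only [true_and, Bool.false_eq_true, false_and, or_false] at hi hj
    obtain ⟨_, ⟨e1, h1R, h1w, h1t⟩, h1m⟩ := W.mem_sdiff_insert i v hi.1 hi.2
    obtain ⟨_, ⟨e2, h2R, h2w, h2t⟩, h2m⟩ := W.mem_sdiff_insert j v hj.1 hj.2
    have h3 := h1m e2 h2R h2w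
    have h4 := h2m e1 h1R h1w
    omega
  | true =>
    simp only [true_and, Bool.true_eq_false, false_and, false_or] at hi hj
    obtain ⟨_, ⟨e1, h1R, h1w, h1t⟩, h1m⟩ := W.mem_sdiff_delete i v hi.1 hi.2
    obtain ⟨_, ⟨e2, h2R, h2w, h2t⟩, h2m⟩ := W.mem_sdiff_delete j v hj.1 hj.2
    have h3 := h1m e2 h2R h2w
    have h4 := h2m e1 h1R h1w
    omega

private lemma ExtInner_bound {i : ℕ} {e : Fin n × Bool} (he : e ∈ ExtInner_E W i) :
    e.1 ∉ R ∧ inner P.h W.S i + #(chg W.S i) ≤ #(cont P R e) + 2 * L := by
  obtain ⟨v, b⟩ := e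
  unfold ExtInner_E at he
  simp only [mem_filter, mem_univ, true_and] at he
  have hL := W.chg_le i
  rcases he with ⟨h1, h2, h3⟩ | ⟨h1, h2, h3⟩
  · subst h1
    refine ⟨(W.mem_sdiff_insert i v h2 h3).1, ?_⟩
    rcases W.S_mono i with hm | hm
    · have := ExtInner_ins W hm h2 h3
      omega
    · exact absurd (hm h3) h2
  · subst h1
    refine ⟨(W.mem_sdiff_delete i v h2 h3).1, ?_⟩
    rcases W.S_mono i with hm | hm
    · exact absurd (hm h2) h3
    · have := ExtInner_del W hm h2 h3
      omega

end ExtInner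

theorem sum_inner {n : ℕ} {P : Model n} {R : Finset (Fin n)} {L : ℕ} (W : Windows P R L) :
    ∑ i ∈ range (2 * n), #(chg W.S i) * (inner P.h W.S i + #(chg W.S i)) ≤
      ∑ e : Fin n × Bool, if e.1 ∉ R then #(cont P R e) + 2 * L else 0 := by
  calc ∑ i ∈ range (2 * n), #(chg W.S i) * (inner P.h W.S i + #(chg W.S i))
      ≤ ∑ i ∈ range (2 * n), ∑ e ∈ ExtInner_E W i,
          (if e.1 ∉ R then #(cont P R e) + 2 * L else 0) := by
        refine sum_le_sum ?_
        intro i _
        rw [ExtInner_card_E W i]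
        rw [← smul_eq_mul, ← sum_const]
        refine sum_le_sum ?_
        intro e he
        obtain ⟨h1, h2⟩ := ExtInner_bound W he
        rw [if_pos h1, ← ExtInner_card_E W i]
        exact h2
    _ = ∑ e ∈ (range (2 * n)).biUnion (ExtInner_E W),
          (if e.1 ∉ R then #(cont P R e) + 2 * L else 0) := by
        rw [sum_biUnion]
        intro i _ j _ hij
        rw [Function.onFun, Finset.disjoint_left]
        intro e h1 h2
        exact hij (ExtInner_disj W h1 h2)
    _ ≤ ∑ e : Fin n × Bool, if e.1 ∉ R then #(cont P R e) + 2 * L else 0 :=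
        sum_le_sum_of_subset (subset_univ _)

end Pool.Agent.H95.BG
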