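import Pool.Agent.H95.BG.LabelCost

/-!
Project BG, module LabelPieces: from macro pieces to labelled pieces.

`Γ = Fin s → ZMod 3`, `q = 3^s` elements, `3 • x = 0`. Choose `Sg` such that the nonzero elements are
the disjoint union of `Sg` and `-Sg` (e.g. the first nonzero coordinate is `1`); `2 #Sg ≤ q`.
For `lam : V → Γ` let `Qs` consist of the `sub lam p g d`, `p ∈ Pp`, `g : Γ`, `d ∈ Sg`, and of the
`sub lam p g d`, `p ∈ Pm`, `g : Γ`, `d ∈ -Sg`; `W = {e ∈ E | the two ends have the same label}`.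
Coverage: let `u`, `v` be an edge in `E` with different labels, say `h v < h u` and
`δ = lam u - lam v ≠ 0`. If the pair touches `p ∈ Pp` and `δ ∈ Sg`: either `u ∈ p.1`, `v ∈ p.2.1` (by
the order in `IsPiece` the upper one is `u`), covered by `sub lam p (lam v) δ`; or `u ∈ p.2.1`,
`v ∈ p.2.2`, covered by `sub lam p (lam u) δ`. If it is an outer pair of `p ∈ Pm` (`u ∈ p.1`,
`v ∈ p.2.2`) and `δ ∈ Sg`: put `d = -δ ∈ -Sg` and `g = lam u - d`; then
`g - d = lam u - 2 d = lam u + d = lam u - δ = lam v` because `3 d = 0`; covered by `sub lam p g d`. If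
`δ ∈ -Sg` use the other alternative in the same way with the roles of `Pp`, `Pm` exchanged.
Averages over `lam`: `label_cost` (also for `-Sg`), and `Σ_lam #W ≤ q^|V| * #E / q` (for `u ≠ v` the
number of `lam` with `lam u = lam v` is `q^(|V|-1)`). So some `lam` is at most average.
-/

set_option autoImplicit false

namespace Pool.Agent.H95.BG

open Finset

section LabelPieces

variable {V : Type*} [DecidableEq V] {Γ : Type*} [AddCommGroup Γ] [DecidableEq Γ]

private theorem LabelPieces_half [Fintype Γ] (h2 : ∀ x : Γ, x = -x → x = 0) :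
    ∃ Sg Sm : Finset Γ, (∀ x : Γ, x ≠ 0 → (x ∈ Sg ∧ -x ∈ Sm) ∨ (x ∈ Sm ∧ -x ∈ Sg)) ∧
      2 * #Sg ≤ Fintype.card Γ ∧ 2 * #Sm ≤ Fintype.card Γ := by
  classical
  let e := Fintype.equivFin Γ
  have hd : Disjoint (univ.filter (fun x : Γ => e x < e (-x)))
      (univ.filter (fun x : Γ => e (-x) < e x)) := by
    rw [Finset.disjoint_left]
    intro x hx hx'
    simp only [mem_filter, mem_univ, true_and] at hx hx'
    exact absurd hx (not_lt.2 hx'.le)
  have hc : #(univ.filter (fun x : Γ => e x < e (-x))) =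
      #(univ.filter (fun x : Γ => e (-x) < e x)) := by
    apply Finset.card_bij (fun x _ => -x)
    · intro x hx
      simp only [mem_filter, mem_univ, true_and] at hx ⊢
      rwa [neg_neg]
    · intro x _ y _ hxy
      exact neg_injective hxy
    · intro y hy
      refine ⟨-y, ?_, neg_neg y⟩
      simp only [mem_filter, mem_univ, true_and] at hy ⊢
      rwa [neg_neg]
  have hs : #(univ.filter (fun x : Γ => e x < e (-x))) +
      #(univ.filter (fun x : Γ => e (-x) < e x)) ≤ Fintype.card Γ := by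
    rw [← Finset.card_union_of_disjoint hd]
    exact Finset.card_le_univ _
  refine ⟨univ.filter (fun x => e x < e (-x)), univ.filter (fun x => e (-x) < e x), ?_, ?_, ?_⟩
  · intro x hx
    simp only [mem_filter, mem_univ, true_and, neg_neg]
    have hne : e x ≠ e (-x) := fun h => hx (h2 x (e.injective h))
    rcases lt_or_gt_of_ne hne with h | h
    · exact Or.inl ⟨h, h⟩
    · exact Or.inr ⟨h, h⟩
  · omega
  · omega

omit [DecidableEq V] in
private theorem LabelPieces_cover {h : V → ℕ} {m : ℕ}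
    (P1 P2 : List (Finset V × Finset V × Finset V))
    (hP1 : ∀ p ∈ P1, IsPiece h m p) (hP2 : ∀ p ∈ P2, IsPiece h m p)
    (h3 : ∀ x : Γ, x + x + x = 0)
    (lam : V → Γ) (A B : Finset Γ) (u v : V) (huv : h v < h u)
    (hA : lam u - lam v ∈ A) (hB : -(lam u - lam v) ∈ B)
    (H : (∃ p ∈ P1, touch p u v) ∨ (∃ p ∈ P2, outer p u v)) :
    (∃ p ∈ P1, ∃ g : Γ, ∃ d ∈ A, (tri (sub lam p g d).1 (sub lam p g d).2.1
      (sub lam p g d).2.2).Adj u v) ∨
    (∃ p ∈ P2, ∃ g : Γ, ∃ d ∈ B, (tri (sub lam p g d).1 (sub lam p g d).2.1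
      (sub lam p g d).2.2).Adj u v) := by
  have hne : u ≠ v := by
    rintro rfl
    exact lt_irrefl _ huv
  rcases H with ⟨p, hp, ht⟩ | ⟨p, hp, ho⟩
  · left
    obtain ⟨-, -, -, i1, i2, i3⟩ := hP1 p hp
    rcases ht with ⟨hu, hv | hv⟩ | ⟨hv, hu | hu⟩
    · exact absurd (i1 v hv u hu) (not_lt.2 huv.le)
    · refine ⟨p, hp, lam u, lam u - lam v, hA, hne, ?_⟩
      simp only [sub, mem_filter]
      right; right; right; right; left
      refine ⟨⟨hu, trivial⟩, hv, ?_⟩
      abel
    · refine ⟨p, hp, lam v, lam u - lam v, hA, hne, ?_⟩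
      simp only [sub, mem_filter]
      left
      refine ⟨⟨hu, ?_⟩, hv, trivial⟩
      abel
    · exact absurd (i2 v hv u hu) (not_lt.2 huv.le)
  · right
    obtain ⟨-, -, -, i1, i2, i3⟩ := hP2 p hp
    rcases ho with ⟨hu, hv⟩ | ⟨hv, hu⟩
    · refine ⟨p, hp, lam u - (-(lam u - lam v)), -(lam u - lam v), hB, hne, ?_⟩
      simp only [sub, mem_filter]
      right; right; left
      refine ⟨⟨hu, ?_⟩, hv, ?_⟩
      · abel
      · have h0 := h3 (lam u - lam v)
        have : lam u - -(lam u - lam v) - -(lam u - lam v) =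
            lam v + ((lam u - lam v) + (lam u - lam v) + (lam u - lam v)) := by abel
        rw [this, h0, add_zero]
    · exact absurd (i3 v hv u hu) (not_lt.2 huv.le)

/-- The list of labelled pieces of a list of macro pieces. -/
private noncomputable def LabelPieces_list {V : Type*} {Γ : Type*} [AddCommGroup Γ]
    [DecidableEq Γ] [Fintype Γ] (lam : V → Γ) (A : Finset Γ)
    (P : List (Finset V × Finset V × Finset V)) : List (Finset V × Finset V × Finset V) :=
  P.flatMap (fun p => ((univ : Finset Γ) ×ˢ A).toList.map (fun gd => sub lam p gd.1 gd.2))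

omit [DecidableEq V] in
private theorem LabelPieces_mem [Fintype Γ] (lam : V → Γ) (A : Finset Γ)
    (P : List (Finset V × Finset V × Finset V)) (x : Finset V × Finset V × Finset V) :
    x ∈ LabelPieces_list lam A P ↔ ∃ p ∈ P, ∃ g : Γ, ∃ d ∈ A, sub lam p g d = x := by
  unfold LabelPieces_list
  simp only [List.mem_flatMap, List.mem_map, Finset.mem_toList, Finset.mem_product, Finset.mem_univ,
    true_and, Prod.exists]

omit [DecidableEq V] in
private theorem LabelPieces_sum [Fintype Γ] (lam : V → Γ) (A : Finset Γ)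
    (P : List (Finset V × Finset V × Finset V)) :
    ((((LabelPieces_list lam A P).map (fun p => (cost p : ℤ))).sum : ℤ) : ℝ) =
      (P.map (fun p => ∑ g : Γ, ∑ d ∈ A, (cost (sub lam p g d) : ℝ))).sum := by
  unfold LabelPieces_list
  induction P with
  | nil => simp
  | cons p P ih =>
    rw [List.flatMap_cons, List.map_append, List.sum_append, Int.cast_add, ih, List.map_cons,
      List.sum_cons]
    congr 1
    rw [List.map_map]
    have : (List.map ((fun p => (cost p : ℤ)) ∘ fun gd : Γ × Γ => sub lam p gd.1 gd.2)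
        ((univ : Finset Γ) ×ˢ A).toList).sum =
        ∑ gd ∈ (univ : Finset Γ) ×ˢ A, (cost (sub lam p gd.1 gd.2) : ℤ) := by
      exact Finset.sum_map_toList _ _
    rw [this, Finset.sum_product]
    push_cast
    rfl

private theorem LabelPieces_count [Fintype V] [Fintype Γ] (u v : V) (huv : u ≠ v) :
    Fintype.card Γ * #{lam : V → Γ | lam u = lam v} ≤ Fintype.card Γ ^ Fintype.card V := by
  have h1 : Fintype.card Γ * #{lam : V → Γ | lam u = lam v} =
      #((univ : Finset Γ) ×ˢ ({lam : V → Γ | lam u = lam v} : Finset (V → Γ))) := by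
    rw [Finset.card_product, Finset.card_univ]
  have h2 : Fintype.card Γ ^ Fintype.card V = #(univ : Finset (V → Γ)) := by
    rw [Finset.card_univ, Fintype.card_fun]
  rw [h1, h2]
  apply Finset.card_le_card_of_injOn
    (fun x : Γ × (V → Γ) => Function.update x.2 u (x.2 v + x.1)) (fun _ _ => mem_univ _)
  rintro ⟨c, lam⟩ hx ⟨c', lam'⟩ hx' hxx
  simp only [coe_product, Set.mem_prod, mem_coe, mem_filter, mem_univ, true_and] at hx hx'
  have hv : lam v = lam' v := by
    have := congrFun hxx v
    simpa [Function.update_of_ne huv.symm] using this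
  have hu : lam v + c = lam' v + c' := by
    have := congrFun hxx u
    simpa using this
  have hc : c = c' := by
    rw [hv] at hu
    exact add_left_cancel hu
  have hl : lam = lam' := by
    funext w
    by_cases hw : w = u
    · subst hw
      rw [hx, hx', hv]
    · have := congrFun hxx w
      simpa [Function.update_of_ne hw] using this
  rw [hc, hl]

/-- The edges both of whose ends have the same label. -/
private noncomputable def LabelPieces_W (E : Finset (Sym2 V)) (lam : V → Γ) : Finset (Sym2 V) :=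
  E.filter (fun e => (e.map lam).IsDiag)

private theorem LabelPieces_sumW [Fintype V] [Fintype Γ] (E : Finset (Sym2 V))
    (hE : ∀ e ∈ E, ¬ e.IsDiag) :
    (Fintype.card Γ : ℝ) * ∑ lam : V → Γ, (#(LabelPieces_W E lam) : ℝ) ≤
      (Fintype.card Γ : ℝ) ^ Fintype.card V * #E := by
  have h1 : ∑ lam : V → Γ, #(LabelPieces_W E lam) =
      ∑ e ∈ E, #{lam : V → Γ | (e.map lam).IsDiag} := by
    unfold LabelPieces_W
    simp only [Finset.card_filter]
    exact Finset.sum_comm
  have h2 : Fintype.card Γ * ∑ lam : V → Γ, #(LabelPieces_W E lam) ≤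
      Fintype.card Γ ^ Fintype.card V * #E := by
    rw [h1, Finset.mul_sum]
    calc ∑ e ∈ E, Fintype.card Γ * #{lam : V → Γ | (e.map lam).IsDiag}
        ≤ ∑ _e ∈ E, Fintype.card Γ ^ Fintype.card V := by
          refine Finset.sum_le_sum ?_
          intro e he
          induction e using Sym2.ind with
          | _ u v =>
            have huv : u ≠ v := by
              intro huv
              exact hE _ he (by simpa using huv)
            have := LabelPieces_count (Γ := Γ) u v huv
            simpa using this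
      _ = Fintype.card Γ ^ Fintype.card V * #E := by
          rw [Finset.sum_const, smul_eq_mul, mul_comm]
  exact_mod_cast h2

end LabelPieces

theorem label_pieces {V : Type*} [Fintype V] [DecidableEq V] (h : V → ℕ)
    (hinj : Function.Injective h) (s r m : ℕ) (hm : m = 3 ^ s * r ^ 2) (hr : 1 ≤ r)
    (Pp Pm : List (Finset V × Finset V × Finset V))
    (hPp : ∀ p ∈ Pp, IsPiece h m p) (hPm : ∀ p ∈ Pm, IsPiece h m p)
    (E : Finset (Sym2 V)) (hE : ∀ e ∈ E, ¬ e.IsDiag) :
    ∃ (Qs : List (Finset V × Finset V × Finset V)) (W : Finset (Sym2 V)),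
      (∀ p ∈ Qs, Disjoint p.1 p.2.1 ∧ Disjoint p.1 p.2.2 ∧ Disjoint p.2.1 p.2.2) ∧
      (∀ u v, s(u, v) ∈ E → s(u, v) ∉ W →
        ((∃ p ∈ Pp, touch p u v) ∨ (∃ p ∈ Pm, outer p u v)) →
        ((∃ p ∈ Pm, touch p u v) ∨ (∃ p ∈ Pp, outer p u v)) →
        ∃ p ∈ Qs, (tri p.1 p.2.1 p.2.2).Adj u v) ∧
      (((Qs.map (fun p => (cost p : ℤ))).sum : ℤ) : ℝ) + 2 * (#W : ℝ) ≤
        ((Pp.length : ℝ) + Pm.length) * (((m : ℝ) ^ 2 / 2) * (1 + 27 / r)) +
          2 * (#E : ℝ) / 3 ^ s := by
  classical
  -- the group of labels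
  have h3 : ∀ x : Fin s → ZMod 3, x + x + x = 0 := by
    intro x
    funext i
    have : ∀ a : ZMod 3, a + a + a = 0 := by decide
    exact this (x i)
  have h2 : ∀ x : Fin s → ZMod 3, x = -x → x = 0 := by
    intro x hx
    have h0 := h3 x
    have h1 : x + x = 0 := by
      nth_rewrite 2 [hx]
      exact add_neg_cancel x
    rw [h1, zero_add] at h0
    exact h0
  have hcard : Fintype.card (Fin s → ZMod 3) = 3 ^ s := by
    rw [Fintype.card_fun, ZMod.card, Fintype.card_fin]
  obtain ⟨Sg, Sm, hS, hSg, hSm⟩ := LabelPieces_half h2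
  rw [hcard] at hSg hSm
  set q : ℕ := 3 ^ s with hq
  have hqpos : (0 : ℝ) < (q : ℝ) := by
    rw [hq]; positivity
  -- the value of a labelling
  let val : (V → (Fin s → ZMod 3)) → ℝ := fun lam =>
    (Pp.map (fun p => ∑ g : Fin s → ZMod 3, ∑ d ∈ Sg, (cost (sub lam p g d) : ℝ))).sum +
    (Pm.map (fun p => ∑ g : Fin s → ZMod 3, ∑ d ∈ Sm, (cost (sub lam p g d) : ℝ))).sum +
    2 * (#(LabelPieces_W E lam) : ℝ)
  set K : ℝ := ((m : ℝ) ^ 2 / 2) * (1 + 27 / r) with hK
  have hlist : ∀ (P : List (Finset V × Finset V × Finset V)) (A : Finset (Fin s → ZMod 3)),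
      2 * #A ≤ q → (∀ p ∈ P, IsPiece h m p) →
      ∑ lam : V → (Fin s → ZMod 3),
        (P.map (fun p => ∑ g : Fin s → ZMod 3, ∑ d ∈ A, (cost (sub lam p g d) : ℝ))).sum ≤
      (q : ℝ) ^ Fintype.card V * ((P.length : ℝ) * K) := by
    intro P A hA
    induction P with
    | nil => intro _; simp
    | cons p P ih =>
      intro hP
      have ih' := ih (fun p' hp' => hP p' (List.mem_cons_of_mem _ hp'))
      obtain ⟨i1, i2, i3, -⟩ := hP p (List.mem_cons_self ..)
      have hc := label_cost (V := V) (Γ := Fin s → ZMod 3) q r m hcard hm hr A hA p i1 i2 i3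
      simp only [List.map_cons, List.sum_cons, Finset.sum_add_distrib, List.length_cons]
      push_cast
      rw [← hK] at hc
      calc _ ≤ (q : ℝ) ^ Fintype.card V * K + (q : ℝ) ^ Fintype.card V * ((P.length : ℝ) * K) :=
            add_le_add hc ih'
        _ = _ := by ring
  have hW : ∑ lam : V → (Fin s → ZMod 3), (#(LabelPieces_W E lam) : ℝ) ≤
      (q : ℝ) ^ Fintype.card V * ((#E : ℝ) / q) := by
    have := LabelPieces_sumW (V := V) (Γ := Fin s → ZMod 3) E hE
    rw [hcard] at this
    rw [mul_div_assoc', le_div_iff₀ hqpos, mul_comm]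
    exact this
  have htot : ∑ lam, val lam ≤ ∑ _lam : V → (Fin s → ZMod 3),
      (((Pp.length : ℝ) + Pm.length) * K + 2 * (#E : ℝ) / q) := by
    rw [Finset.sum_const, Finset.card_univ, Fintype.card_fun, hcard, nsmul_eq_mul]
    push_cast
    have e1 := hlist Pp Sg hSg hPp
    have e2 := hlist Pm Sm hSm hPm
    have e3 : ∑ lam, val lam = ∑ lam : V → (Fin s → ZMod 3),
        (Pp.map (fun p => ∑ g : Fin s → ZMod 3, ∑ d ∈ Sg, (cost (sub lam p g d) : ℝ))).sum +
        ∑ lam : V → (Fin s → ZMod 3),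
        (Pm.map (fun p => ∑ g : Fin s → ZMod 3, ∑ d ∈ Sm, (cost (sub lam p g d) : ℝ))).sum +
        2 * ∑ lam : V → (Fin s → ZMod 3), (#(LabelPieces_W E lam) : ℝ) := by
      rw [Finset.mul_sum, ← Finset.sum_add_distrib, ← Finset.sum_add_distrib]
    rw [e3]
    calc _ ≤ (q : ℝ) ^ Fintype.card V * ((Pp.length : ℝ) * K) +
          (q : ℝ) ^ Fintype.card V * ((Pm.length : ℝ) * K) +
          2 * ((q : ℝ) ^ Fintype.card V * ((#E : ℝ) / q)) := by
          linarith
      _ = _ := by ring
  obtain ⟨lam, -, hlam⟩ := Finset.exists_le_of_sum_le (Finset.univ_nonempty) htot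
  refine ⟨LabelPieces_list lam Sg Pp ++ LabelPieces_list lam Sm Pm, LabelPieces_W E lam,
    ?_, ?_, ?_⟩
  · -- disjointness
    intro x hx
    have key : ∀ p : Finset V × Finset V × Finset V, IsPiece h m p → ∀ g d : Fin s → ZMod 3,
        Disjoint (sub lam p g d).1 (sub lam p g d).2.1 ∧
        Disjoint (sub lam p g d).1 (sub lam p g d).2.2 ∧
        Disjoint (sub lam p g d).2.1 (sub lam p g d).2.2 := by
      rintro p ⟨-, -, -, i1, i2, i3⟩ g d
      refine ⟨?_, ?_, ?_⟩
      · rw [Finset.disjoint_left]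
        intro a ha ha'
        simp only [sub, mem_filter] at ha ha'
        exact lt_irrefl _ (i1 a ha.1 a ha'.1)
      · rw [Finset.disjoint_left]
        intro a ha ha'
        simp only [sub, mem_filter] at ha ha'
        exact lt_irrefl _ (i3 a ha.1 a ha'.1)
      · rw [Finset.disjoint_left]
        intro a ha ha'
        simp only [sub, mem_filter] at ha ha'
        exact lt_irrefl _ (i2 a ha.1 a ha'.1)
    rw [List.mem_append, LabelPieces_mem, LabelPieces_mem] at hx
    rcases hx with ⟨p, hp, g, d, -, rfl⟩ | ⟨p, hp, g, d, -, rfl⟩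
    · exact key p (hPp p hp) g d
    · exact key p (hPm p hp) g d
  · -- coverage
    have hcov : ∀ u v, h v < h u → s(u, v) ∈ E → s(u, v) ∉ LabelPieces_W E lam →
        ((∃ p ∈ Pp, touch p u v) ∨ (∃ p ∈ Pm, outer p u v)) →
        ((∃ p ∈ Pm, touch p u v) ∨ (∃ p ∈ Pp, outer p u v)) →
        ∃ p ∈ LabelPieces_list lam Sg Pp ++ LabelPieces_list lam Sm Pm,
          (tri p.1 p.2.1 p.2.2).Adj u v := by
      intro u v huv he heW H1 H2
      have hd : lam u - lam v ≠ 0 := by
        intro h0
        apply heW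
        unfold LabelPieces_W
        rw [mem_filter]
        refine ⟨he, ?_⟩
        simpa using sub_eq_zero.1 h0
      rcases hS _ hd with ⟨hA, hB⟩ | ⟨hA, hB⟩
      · rcases LabelPieces_cover Pp Pm hPp hPm h3 lam Sg Sm u v huv hA hB H1 with
          ⟨p, hp, g, d, hd, hadj⟩ | ⟨p, hp, g, d, hd, hadj⟩
        · exact ⟨sub lam p g d, List.mem_append_left _
            ((LabelPieces_mem _ _ _ _).2 ⟨p, hp, g, d, hd, rfl⟩), hadj⟩
        · exact ⟨sub lam p g d, List.mem_append_right _
            ((LabelPieces_mem _ _ _ _).2 ⟨p, hp, g, d, hd, rfl⟩), hadj⟩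
      · rcases LabelPieces_cover Pm Pp hPm hPp h3 lam Sm Sg u v huv hA hB H2 with
          ⟨p, hp, g, d, hd, hadj⟩ | ⟨p, hp, g, d, hd, hadj⟩
        · exact ⟨sub lam p g d, List.mem_append_right _
            ((LabelPieces_mem _ _ _ _).2 ⟨p, hp, g, d, hd, rfl⟩), hadj⟩
        · exact ⟨sub lam p g d, List.mem_append_left _
            ((LabelPieces_mem _ _ _ _).2 ⟨p, hp, g, d, hd, rfl⟩), hadj⟩
    have touch_comm : ∀ (p : Finset V × Finset V × Finset V) (u v : V),
        touch p u v → touch p v u := by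
      intro p u v ht
      unfold touch at ht ⊢
      tauto
    have outer_comm : ∀ (p : Finset V × Finset V × Finset V) (u v : V),
        outer p u v → outer p v u := by
      intro p u v ht
      unfold outer at ht ⊢
      tauto
    intro u v he heW H1 H2
    have hne : h u ≠ h v := by
      intro huv
      have := hinj huv
      exact hE _ he (by simpa using this)
    rcases lt_or_gt_of_ne hne with hlt | hlt
    · have he' : s(v, u) ∈ E := by rwa [Sym2.eq_swap]
      have heW' : s(v, u) ∉ LabelPieces_W E lam := by rwa [Sym2.eq_swap]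
      obtain ⟨p, hp, hadj⟩ := hcov v u hlt he' heW'
        (H1.imp (fun ⟨p, hp, ht⟩ => ⟨p, hp, touch_comm _ _ _ ht⟩)
          (fun ⟨p, hp, ht⟩ => ⟨p, hp, outer_comm _ _ _ ht⟩))
        (H2.imp (fun ⟨p, hp, ht⟩ => ⟨p, hp, touch_comm _ _ _ ht⟩)
          (fun ⟨p, hp, ht⟩ => ⟨p, hp, outer_comm _ _ _ ht⟩))
      exact ⟨p, hp, hadj.symm⟩
    · exact hcov u v hlt he heW H1 H2
  · -- the cost
    rw [List.map_append, List.sum_append, Int.cast_add, LabelPieces_sum, LabelPieces_sum]
    have : ((3 : ℝ) ^ s) = (q : ℝ) := by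
      rw [hq]; push_cast; rfl
    rw [this]
    exact hlam

end Pool.Agent.H95.BG
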