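import Pool.Agent.H95.BG.Defs

/-!
Project BG, module Rand: random choice of the reference bars.

Take the average over all colourings `χ : Fin n → Fin N`, `R = {v | χ v = 0}` (every bar is in `R`
with probability `1 / N`, independently). It suffices that the average of the left side is at
most the right side:
* `#R`: `n / N`.
* `#(touchR E R)`: for each `e ∈ E` the probability that one of its at most two ends is in `R` is at
  most `2 / N`.
* `#(farR ..)`: for an edge `e = s(u, v)`, by Markov the probability that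
  `J < L (X + 1)`, `X = #{r ∈ R | alive, between u and v}`, is at most `L (E X + 1) / J`
  and `E X = nbtw / N ≤ k / N` (`hwit`).
* `#(cont P R e)` for a fixed event `e`: it contains at most the bar `e.1` itself and bars `v ≠ e.1`
  alive at time `time e` such that `v ∉ R` and no alive bar strictly between `e.1` and `v` is in
  `R`. For the `j`-th alive bar `v` above `e.1` (`j - 1` alive bars strictly between) this has
  probability `(1 - 1/N)^j`; `Σ_{j ≥ 1} (1 - 1/N)^j ≤ N - 1`; the same below: at most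
  `1 + 2 (N - 1) ≤ 2 N`. There are `2 n` events.
-/

set_option autoImplicit false

namespace Pool.Agent.H95.BG

open Finset

/-- The edges with an end in `R`. -/
def touchR {n : ℕ} (E : Finset (Sym2 (Fin n))) (R : Finset (Fin n)) : Finset (Sym2 (Fin n)) :=
  {e ∈ E | ∃ v ∈ R, v ∈ e}

/-- The edges with too many bars of `R` between their ends at the witness time. -/
def farR {n : ℕ} (P : Model n) (E : Finset (Sym2 (Fin n))) (wit : Sym2 (Fin n) → ℕ) (L J : ℕ)
    (R : Finset (Fin n)) : Finset (Sym2 (Fin n)) :=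
  {e ∈ E | ∃ u v, e = s(u, v) ∧
    J < L * (#{r ∈ R | P.alive (wit e) r ∧ btw P.h u v r} + 1)}

/-- The reference set of a colouring. -/
def RandSet {n N : ℕ} [NeZero N] (χ : Fin n → Fin N) : Finset (Fin n) := {v | χ v = 0}

theorem Rand_mem {n N : ℕ} [NeZero N] (χ : Fin n → Fin N) (v : Fin n) :
    v ∈ RandSet χ ↔ χ v = 0 := by
  unfold RandSet
  rw [mem_filter]
  exact ⟨fun h => h.2, fun h => ⟨mem_univ _, h⟩⟩

theorem Rand_avoid {n N : ℕ} [NeZero N] (A : Finset (Fin n)) :
    ((univ.filter fun χ : Fin n → Fin N => ∀ v ∈ A, χ v ≠ 0).card : ℝ) =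
      (1 - 1 / (N : ℝ)) ^ A.card * (N : ℝ) ^ n := by
  have hN : (N : ℝ) ≠ 0 := by exact_mod_cast NeZero.ne N
  have h1 : (univ.filter fun χ : Fin n → Fin N => ∀ v ∈ A, χ v ≠ 0) =
      Fintype.piFinset (fun v => if v ∈ A then (univ : Finset (Fin N)).erase 0 else univ) := by
    ext χ
    rw [mem_filter, Fintype.mem_piFinset]
    constructor
    · rintro ⟨-, h⟩ v
      by_cases hv : v ∈ A
      · rw [if_pos hv, mem_erase]
        exact ⟨h v hv, mem_univ _⟩
      · rw [if_neg hv]
        exact mem_univ _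
    · intro h
      refine ⟨mem_univ _, fun v hv => ?_⟩
      have := h v
      rw [if_pos hv, mem_erase] at this
      exact this.1
  rw [h1, Fintype.card_piFinset]
  push_cast
  have h2 : ∀ v : Fin n, ((if v ∈ A then (univ : Finset (Fin N)).erase 0 else univ).card : ℝ) =
      (if v ∈ A then (1 - 1 / (N : ℝ)) else 1) * N := by
    intro v
    by_cases hv : v ∈ A
    · rw [if_pos hv, if_pos hv, card_erase_of_mem (mem_univ _), card_univ, Fintype.card_fin,
        Nat.cast_sub (Nat.one_le_iff_ne_zero.2 (NeZero.ne N))]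
      field_simp
      push_cast
      ring
    · rw [if_neg hv, if_neg hv, card_univ, Fintype.card_fin, one_mul]
  rw [prod_congr rfl fun v _ => h2 v, prod_mul_distrib, prod_const, card_univ, Fintype.card_fin,
    prod_ite_mem, univ_inter, prod_const]

theorem Rand_hit {n N : ℕ} [NeZero N] (v : Fin n) :
    ((univ.filter fun χ : Fin n → Fin N => χ v = 0).card : ℝ) = (N : ℝ) ^ n / N := by
  have hN : (N : ℝ) ≠ 0 := by exact_mod_cast NeZero.ne N
  have h1 := Rand_avoid (N := N) ({v} : Finset (Fin n))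
  have h2 := card_filter_add_card_filter_not (s := (univ : Finset (Fin n → Fin N)))
    (p := fun χ => χ v = 0)
  have h3 : (univ.filter fun χ : Fin n → Fin N => ∀ w ∈ ({v} : Finset (Fin n)), χ w ≠ 0) =
      univ.filter fun χ : Fin n → Fin N => ¬ χ v = 0 := by
    ext χ
    rw [mem_filter, mem_filter]
    constructor
    · rintro ⟨h, h'⟩
      exact ⟨h, h' v (mem_singleton_self v)⟩
    · rintro ⟨h, h'⟩
      refine ⟨h, fun w hw => ?_⟩
      rw [mem_singleton.1 hw]
      exact h'
  rw [h3, card_singleton, pow_one] at h1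
  have h4 : ((univ.filter fun χ : Fin n → Fin N => χ v = 0).card : ℝ) +
      ((univ.filter fun χ : Fin n → Fin N => ¬ χ v = 0).card : ℝ) = (N : ℝ) ^ n := by
    have h5 : (univ : Finset (Fin n → Fin N)).card = N ^ n := by
      rw [card_univ, Fintype.card_fun, Fintype.card_fin, Fintype.card_fin]
    rw [h5] at h2
    exact_mod_cast h2
  rw [h1] at h4
  have h5 : ((univ.filter fun χ : Fin n → Fin N => χ v = 0).card : ℝ) =
      (N : ℝ) ^ n - (1 - 1 / (N : ℝ)) * (N : ℝ) ^ n := by linarith
  rw [h5]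
  field_simp
  ring

theorem Rand_swap {ι κ : Type*} (s : Finset ι) (t : Finset κ) (p : κ → ι → Prop)
    [∀ x i, Decidable (p x i)] : ∑ x ∈ t, ((s.filter fun i => p x i).card : ℝ) =
      ∑ i ∈ s, ((t.filter fun x => p x i).card : ℝ) := by
  have h1 : ∀ x ∈ t, ((s.filter fun i => p x i).card : ℝ) = ∑ i ∈ s, if p x i then (1 : ℝ) else 0 :=
    fun x _ => by rw [sum_boole]
  have h2 : ∀ i ∈ s, ((t.filter fun x => p x i).card : ℝ) = ∑ x ∈ t, if p x i then (1 : ℝ) else 0 :=
    fun i _ => by rw [sum_boole]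
  rw [sum_congr rfl h1, sum_congr rfl h2, sum_comm]

/-- Geometric sums over an injective function. -/
theorem Rand_geom {n N : ℕ} (hN : 1 ≤ N) (U : Finset (Fin n)) (f : Fin n → ℕ)
    (hf : Set.InjOn f U) (hfn : ∀ v ∈ U, f v < n) :
    ∑ v ∈ U, (1 - 1 / (N : ℝ)) ^ (f v + 1) ≤ N - 1 := by
  have hN' : (1 : ℝ) ≤ N := by exact_mod_cast hN
  have hN0 : (0 : ℝ) < N := by linarith
  have hp0 : 0 ≤ 1 - 1 / (N : ℝ) := by
    rw [sub_nonneg, div_le_one hN0]
    exact hN'
  have h1 : ∑ v ∈ U, (1 - 1 / (N : ℝ)) ^ (f v + 1) =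
      ∑ j ∈ U.image f, (1 - 1 / (N : ℝ)) ^ (j + 1) := by
    rw [sum_image hf]
  have h2 : U.image f ⊆ range n := by
    intro j hj
    obtain ⟨v, hv, rfl⟩ := mem_image.1 hj
    exact mem_range.2 (hfn v hv)
  have h3 : ∀ m : ℕ, ∑ j ∈ range m, (1 - 1 / (N : ℝ)) ^ (j + 1) ≤ N - 1 := by
    intro m
    have h4 : ∀ m : ℕ, ∑ j ∈ range m, (1 - 1 / (N : ℝ)) ^ (j + 1) =
        (N - 1) * (1 - (1 - 1 / (N : ℝ)) ^ m) := by
      intro m
      induction m with
      | zero => simp
      | succ m ih =>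
        rw [sum_range_succ, ih, pow_succ]
        field_simp
        ring
    rw [h4]
    have h5 : 0 ≤ (1 - 1 / (N : ℝ)) ^ m := pow_nonneg hp0 m
    nlinarith
  rw [h1]
  exact (sum_le_sum_of_subset_of_nonneg h2 fun j _ _ => pow_nonneg hp0 _).trans (h3 n)

/-- The alive bars strictly between `e.1` and `v`. -/
def RandBtw {n : ℕ} (P : Model n) (e : Fin n × Bool) (v : Fin n) : Finset (Fin n) :=
  {r | P.alive (P.time e) r ∧ btw P.h e.1 v r}

theorem Rand_side {n N : ℕ} (hN : 1 ≤ N) (P : Model n) (e : Fin n × Bool)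
    (U : Finset (Fin n)) (hU : ∀ v ∈ U, P.alive (P.time e) v)
    (hside : ∀ v ∈ U, ∀ w ∈ U, P.h v < P.h w → btw P.h e.1 w v ∨ btw P.h e.1 v w)
    (hmono : ∀ v ∈ U, ∀ w ∈ U, btw P.h e.1 w v → ∀ r, btw P.h e.1 v r → btw P.h e.1 w r) :
    ∑ v ∈ U, (1 - 1 / (N : ℝ)) ^ (#(RandBtw P e v) + 1) ≤ N - 1 := by
  have hlt : ∀ v ∈ U, ∀ w ∈ U, btw P.h e.1 w v → #(RandBtw P e v) < #(RandBtw P e w) := by
    intro v hv w hw hb
    apply card_lt_card
    rw [ssubset_iff_of_subset]
    · refine ⟨v, ?_, ?_⟩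
      · unfold RandBtw
        rw [mem_filter]
        exact ⟨mem_univ _, hU v hv, hb⟩
      · unfold RandBtw
        rw [mem_filter]
        rintro ⟨-, -, h⟩
        unfold btw at h
        omega
    · intro r hr
      unfold RandBtw at hr ⊢
      rw [mem_filter] at hr ⊢
      exact ⟨hr.1, hr.2.1, hmono v hv w hw hb r hr.2.2⟩
  refine Rand_geom hN U (fun v => #(RandBtw P e v)) ?_ ?_
  · intro v hv w hw hvw
    by_contra hne
    have hh : P.h v ≠ P.h w := fun h => hne (P.h_inj h)
    simp only at hvw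
    rcases lt_or_gt_of_ne hh with h | h
    · rcases hside v hv w hw h with h' | h'
      · have := hlt v hv w hw h'
        omega
      · have := hlt w hw v hv h'
        omega
    · rcases hside w hw v hv h with h' | h'
      · have := hlt w hw v hv h'
        omega
      · have := hlt v hv w hw h'
        omega
  · intro v hv
    have hsub : RandBtw P e v ⊂ univ := by
      rw [ssubset_iff_of_subset (subset_univ _)]
      refine ⟨v, mem_univ _, ?_⟩
      unfold RandBtw
      rw [mem_filter]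
      rintro ⟨-, -, h⟩
      unfold btw at h
      omega
    have := card_lt_card hsub
    rwa [card_univ, Fintype.card_fin] at this

/-- The expected number of bars not separated from an event. -/
theorem Rand_cont {n N : ℕ} [NeZero N] (P : Model n) (e : Fin n × Bool) :
    ∑ χ : Fin n → Fin N, (#(cont P (RandSet χ) e) : ℝ) ≤ 2 * N * (N : ℝ) ^ n := by
  have hN : 1 ≤ N := Nat.one_le_iff_ne_zero.2 (NeZero.ne N)
  have hN' : (1 : ℝ) ≤ N := by exact_mod_cast hN
  have hNn : (0 : ℝ) < (N : ℝ) ^ n := by positivity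
  have h1 := Rand_swap (univ : Finset (Fin n)) (univ : Finset (Fin n → Fin N))
    (fun χ v => v ∉ RandSet χ ∧ P.alive (P.time e) v ∧
      ∀ r ∈ RandSet χ, P.alive (P.time e) r → ¬ btw P.h e.1 v r)
  have h2 : ∀ χ : Fin n → Fin N, cont P (RandSet χ) e = univ.filter fun v => v ∉ RandSet χ ∧
      P.alive (P.time e) v ∧ ∀ r ∈ RandSet χ, P.alive (P.time e) r → ¬ btw P.h e.1 v r :=
    fun χ => rfl
  simp only [h2]
  rw [h1]
  obtain ⟨U1, hU1⟩ : ∃ U1 : Finset (Fin n), U1 = univ.filter fun v =>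
    P.alive (P.time e) v ∧ P.h e.1 < P.h v := ⟨_, rfl⟩
  obtain ⟨U2, hU2⟩ : ∃ U2 : Finset (Fin n), U2 = univ.filter fun v =>
    P.alive (P.time e) v ∧ P.h v < P.h e.1 := ⟨_, rfl⟩
  have hterm : ∀ v ∈ (univ : Finset (Fin n)),
      ((univ.filter fun χ : Fin n → Fin N => v ∉ RandSet χ ∧ P.alive (P.time e) v ∧
        ∀ r ∈ RandSet χ, P.alive (P.time e) r → ¬ btw P.h e.1 v r).card : ℝ) ≤
      (if v = e.1 then (N : ℝ) ^ n else 0) +
      ((if v ∈ U1 then (1 - 1 / (N : ℝ)) ^ (#(RandBtw P e v) + 1) * (N : ℝ) ^ n else 0) +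
      (if v ∈ U2 then (1 - 1 / (N : ℝ)) ^ (#(RandBtw P e v) + 1) * (N : ℝ) ^ n else 0)) := by
    intro v _
    have hp0 : 0 ≤ 1 - 1 / (N : ℝ) := by
      rw [sub_nonneg, div_le_one (by linarith)]
      exact hN'
    have hpp : 0 ≤ (1 - 1 / (N : ℝ)) ^ (#(RandBtw P e v) + 1) * (N : ℝ) ^ n := by positivity
    by_cases hal : P.alive (P.time e) v
    · by_cases hve : v = e.1
      · rw [if_pos hve]
        have h3 : ((univ.filter fun χ : Fin n → Fin N => v ∉ RandSet χ ∧ P.alive (P.time e) v ∧
            ∀ r ∈ RandSet χ, P.alive (P.time e) r → ¬ btw P.h e.1 v r).card : ℝ) ≤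
              (N : ℝ) ^ n := by
          have h4 := card_filter_le (univ : Finset (Fin n → Fin N)) (fun χ => v ∉ RandSet χ ∧
            P.alive (P.time e) v ∧ ∀ r ∈ RandSet χ, P.alive (P.time e) r → ¬ btw P.h e.1 v r)
          rw [card_univ, Fintype.card_fun, Fintype.card_fin, Fintype.card_fin] at h4
          exact_mod_cast h4
        refine h3.trans (le_add_of_nonneg_right (add_nonneg ?_ ?_))
        · split_ifs
          · exact hpp
          · exact le_rfl
        · split_ifs
          · exact hpp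
          · exact le_rfl
      · have h3 : ((univ.filter fun χ : Fin n → Fin N => v ∉ RandSet χ ∧ P.alive (P.time e) v ∧
            ∀ r ∈ RandSet χ, P.alive (P.time e) r → ¬ btw P.h e.1 v r).card : ℝ) ≤
            (1 - 1 / (N : ℝ)) ^ (#(RandBtw P e v) + 1) * (N : ℝ) ^ n := by
          have hv : v ∉ RandBtw P e v := by
            unfold RandBtw
            rw [mem_filter]
            rintro ⟨-, -, h⟩
            unfold btw at h
            omega
          have h4 := Rand_avoid (N := N) (insert v (RandBtw P e v))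
          rw [card_insert_of_notMem hv] at h4
          rw [← h4]
          have h5 : (univ.filter fun χ : Fin n → Fin N => v ∉ RandSet χ ∧
              P.alive (P.time e) v ∧ ∀ r ∈ RandSet χ, P.alive (P.time e) r → ¬ btw P.h e.1 v r) ⊆
              univ.filter fun χ : Fin n → Fin N => ∀ w ∈ insert v (RandBtw P e v), χ w ≠ 0 := by
            intro χ hχ
            rw [mem_filter] at hχ ⊢
            refine ⟨mem_univ _, fun w hw => ?_⟩
            rw [mem_insert] at hw
            rcases hw with rfl | hw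
            · exact fun h => hχ.2.1 ((Rand_mem χ w).2 h)
            · unfold RandBtw at hw
              rw [mem_filter] at hw
              exact fun h => hχ.2.2.2 w ((Rand_mem χ w).2 h) hw.2.1 hw.2.2
          exact_mod_cast card_le_card h5
        have hh : P.h v ≠ P.h e.1 := fun h => hve (P.h_inj h)
        rw [if_neg hve, zero_add]
        rcases lt_or_gt_of_ne hh with h | h
        · have hv2 : v ∈ U2 := by
            rw [hU2, mem_filter]
            exact ⟨mem_univ _, hal, h⟩
          have hv1 : v ∉ U1 := by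
            rw [hU1, mem_filter]
            rintro ⟨-, -, h'⟩
            omega
          rw [if_neg hv1, if_pos hv2, zero_add]
          exact h3
        · have hv1 : v ∈ U1 := by
            rw [hU1, mem_filter]
            exact ⟨mem_univ _, hal, h⟩
          have hv2 : v ∉ U2 := by
            rw [hU2, mem_filter]
            rintro ⟨-, -, h'⟩
            omega
          rw [if_pos hv1, if_neg hv2, add_zero]
          exact h3
    · have h3 : (univ.filter fun χ : Fin n → Fin N => v ∉ RandSet χ ∧ P.alive (P.time e) v ∧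
          ∀ r ∈ RandSet χ, P.alive (P.time e) r → ¬ btw P.h e.1 v r) = ∅ := by
        rw [filter_eq_empty_iff]
        rintro χ - ⟨-, h, -⟩
        exact hal h
      rw [h3, card_empty, Nat.cast_zero]
      refine add_nonneg ?_ (add_nonneg ?_ ?_)
      · split_ifs
        · exact hNn.le
        · exact le_rfl
      · split_ifs
        · exact hpp
        · exact le_rfl
      · split_ifs
        · exact hpp
        · exact le_rfl
  refine (sum_le_sum hterm).trans ?_
  rw [sum_add_distrib, sum_add_distrib, sum_ite_eq' univ e.1, if_pos (mem_univ _), sum_ite_mem,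
    sum_ite_mem, univ_inter, univ_inter, ← sum_mul, ← sum_mul]
  have s1 : ∑ v ∈ U1, (1 - 1 / (N : ℝ)) ^ (#(RandBtw P e v) + 1) ≤ N - 1 := by
    refine Rand_side hN P e U1 ?_ ?_ ?_
    · intro v hv
      rw [hU1, mem_filter] at hv
      exact hv.2.1
    · intro v hv w hw hvw
      rw [hU1, mem_filter] at hv hw
      left
      unfold btw
      omega
    · intro v hv w hw hb r hr
      rw [hU1, mem_filter] at hv hw
      unfold btw at hb hr ⊢
      omega
  have s2 : ∑ v ∈ U2, (1 - 1 / (N : ℝ)) ^ (#(RandBtw P e v) + 1) ≤ N - 1 := by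
    refine Rand_side hN P e U2 ?_ ?_ ?_
    · intro v hv
      rw [hU2, mem_filter] at hv
      exact hv.2.1
    · intro v hv w hw hvw
      rw [hU2, mem_filter] at hv hw
      right
      unfold btw
      omega
    · intro v hv w hw hb r hr
      rw [hU2, mem_filter] at hv hw
      unfold btw at hb hr ⊢
      omega
  nlinarith

theorem Rand_touch {n N : ℕ} [NeZero N] (E : Finset (Sym2 (Fin n))) :
    ∑ χ : Fin n → Fin N, (#(touchR E (RandSet χ)) : ℝ) ≤ 2 * #E / N * (N : ℝ) ^ n := by
  have h1 := Rand_swap E (univ : Finset (Fin n → Fin N)) (fun χ e => ∃ v ∈ RandSet χ, v ∈ e)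
  have h2 : ∀ χ : Fin n → Fin N, touchR E (RandSet χ) =
    E.filter fun e => ∃ v ∈ RandSet χ, v ∈ e := fun χ => rfl
  simp only [h2]
  rw [h1]
  have h3 : ∀ e ∈ E, ((univ.filter fun χ : Fin n → Fin N => ∃ v ∈ RandSet χ, v ∈ e).card : ℝ) ≤
      2 * ((N : ℝ) ^ n / N) := by
    intro e _
    induction e using Sym2.ind with
    | _ u v =>
      have hsub : (univ.filter fun χ : Fin n → Fin N => ∃ w ∈ RandSet χ, w ∈ s(u, v)) ⊆
          (univ.filter fun χ : Fin n → Fin N => χ u = 0) ∪
            (univ.filter fun χ : Fin n → Fin N => χ v = 0) := by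
        intro χ hχ
        rw [mem_filter] at hχ
        obtain ⟨-, w, hw, hwe⟩ := hχ
        rw [Rand_mem] at hw
        rw [mem_union, mem_filter, mem_filter]
        rcases Sym2.mem_iff.1 hwe with h | h
        · exact Or.inl ⟨mem_univ _, h ▸ hw⟩
        · exact Or.inr ⟨mem_univ _, h ▸ hw⟩
      have h4 := (card_le_card hsub).trans (card_union_le _ _)
      have h5 : ((univ.filter fun χ : Fin n → Fin N => ∃ w ∈ RandSet χ, w ∈ s(u, v)).card : ℝ) ≤
          ((univ.filter fun χ : Fin n → Fin N => χ u = 0).card : ℝ) +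
            ((univ.filter fun χ : Fin n → Fin N => χ v = 0).card : ℝ) := by exact_mod_cast h4
      rw [Rand_hit, Rand_hit] at h5
      linarith
  calc _ ≤ ∑ _e ∈ E, 2 * ((N : ℝ) ^ n / N) := sum_le_sum h3
    _ = _ := by
      rw [sum_const, nsmul_eq_mul]
      ring

theorem Rand_far {n N : ℕ} [NeZero N] (P : Model n) (k L J : ℕ) (hJ : 1 ≤ J)
    (E : Finset (Sym2 (Fin n))) (wit : Sym2 (Fin n) → ℕ)
    (hwit : ∀ u v, s(u, v) ∈ E → nbtw P.h (P.aliveSet (wit s(u, v))) u v ≤ k) :
    ∑ χ : Fin n → Fin N, (#(farR P E wit L J (RandSet χ)) : ℝ) ≤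
      #E * (L * (k / N + 1) / J) * (N : ℝ) ^ n := by
  have hN : 1 ≤ N := Nat.one_le_iff_ne_zero.2 (NeZero.ne N)
  have hN0 : (0 : ℝ) < N := by exact_mod_cast hN
  have hJ0 : (0 : ℝ) < J := by exact_mod_cast hJ
  have h1 := Rand_swap E (univ : Finset (Fin n → Fin N)) (fun χ e => ∃ u v, e = s(u, v) ∧
    J < L * (#{r ∈ RandSet χ | P.alive (wit e) r ∧ btw P.h u v r} + 1))
  have h2 : ∀ χ : Fin n → Fin N, farR P E wit L J (RandSet χ) =
    E.filter fun e => ∃ u v, e = s(u, v) ∧
      J < L * (#{r ∈ RandSet χ | P.alive (wit e) r ∧ btw P.h u v r} + 1) := fun χ => rfl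
  simp only [h2]
  rw [h1]
  have h3 : ∀ e ∈ E, ((univ.filter fun χ : Fin n → Fin N => ∃ u v, e = s(u, v) ∧
      J < L * (#{r ∈ RandSet χ | P.alive (wit e) r ∧ btw P.h u v r} + 1)).card : ℝ) ≤
      L * (k / N + 1) / J * (N : ℝ) ^ n := by
    intro e he
    induction e using Sym2.ind with
    | _ u v =>
      have hk := hwit u v he
      obtain ⟨t, ht⟩ : ∃ t, t = wit s(u, v) := ⟨_, rfl⟩
      rw [← ht] at hk ⊢
      obtain ⟨Bt, hBt⟩ : ∃ Bt : Finset (Fin n), Bt = {w ∈ P.aliveSet t | btw P.h u v w} :=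
        ⟨_, rfl⟩
      have hBk : #Bt ≤ k := by
        rw [hBt]
        exact hk
      have hsub : (univ.filter fun χ : Fin n → Fin N => ∃ u' v', s(u, v) = s(u', v') ∧
          J < L * (#{r ∈ RandSet χ | P.alive t r ∧ btw P.h u' v' r} + 1)) ⊆
          univ.filter fun χ : Fin n → Fin N => J < L * (#{r ∈ Bt | χ r = 0} + 1) := by
        intro χ hχ
        rw [mem_filter] at hχ ⊢
        obtain ⟨-, u', v', huv, hlt⟩ := hχ
        refine ⟨mem_univ _, hlt.trans_le ?_⟩
        refine Nat.mul_le_mul_left _ (Nat.add_le_add_right (card_le_card ?_) 1)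
        intro r hr
        rw [mem_filter, Rand_mem] at hr
        rw [mem_filter, hBt, mem_filter]
        have hb : btw P.h u v r := by
          have h5 := hr.2.2
          rcases Sym2.eq_iff.1 huv with ⟨h6, h7⟩ | ⟨h6, h7⟩
          · rw [h6, h7]
            exact h5
          · rw [h6, h7]
            unfold btw at h5 ⊢
            omega
        refine ⟨⟨?_, hb⟩, hr.1⟩
        unfold Model.aliveSet
        rw [mem_filter]
        exact ⟨mem_univ _, hr.2.1⟩
      have h4 : ((univ.filter fun χ : Fin n → Fin N => ∃ u' v', s(u, v) = s(u', v') ∧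
          J < L * (#{r ∈ RandSet χ | P.alive t r ∧ btw P.h u' v' r} + 1)).card : ℝ) ≤
          ((univ.filter fun χ : Fin n → Fin N => J < L * (#{r ∈ Bt | χ r = 0} + 1)).card : ℝ) := by
        exact_mod_cast card_le_card hsub
      refine h4.trans ?_
      -- Markov
      have h5 : (J : ℝ) *
          ((univ.filter fun χ : Fin n → Fin N => J < L * (#{r ∈ Bt | χ r = 0} + 1)).card : ℝ) ≤
          ∑ χ : Fin n → Fin N, (L : ℝ) * ((#{r ∈ Bt | χ r = 0} : ℝ) + 1) := by
        calc (J : ℝ) *
            ((univ.filter fun χ : Fin n → Fin N =>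
              J < L * (#{r ∈ Bt | χ r = 0} + 1)).card : ℝ)
            = ∑ _χ ∈ univ.filter (fun χ : Fin n → Fin N =>
              J < L * (#{r ∈ Bt | χ r = 0} + 1)), (J : ℝ) := by
              rw [sum_const, nsmul_eq_mul, mul_comm]
          _ ≤ ∑ χ ∈ univ.filter (fun χ : Fin n → Fin N =>
              J < L * (#{r ∈ Bt | χ r = 0} + 1)), (L : ℝ) * ((#{r ∈ Bt | χ r = 0} : ℝ) + 1) := by
              refine sum_le_sum fun χ hχ => ?_
              rw [mem_filter] at hχ
              exact_mod_cast hχ.2.le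
          _ ≤ _ := sum_le_sum_of_subset_of_nonneg (subset_univ _) fun χ _ _ => by positivity
      have h6 : ∑ χ : Fin n → Fin N, (L : ℝ) * ((#{r ∈ Bt | χ r = 0} : ℝ) + 1) =
          L * (#Bt * ((N : ℝ) ^ n / N) + (N : ℝ) ^ n) := by
        rw [← mul_sum, sum_add_distrib, Rand_swap Bt (univ : Finset (Fin n → Fin N))
          (fun χ r => χ r = 0)]
        rw [sum_congr rfl fun r _ => Rand_hit r, sum_const, sum_const, nsmul_eq_mul,
          nsmul_eq_mul, card_univ, Fintype.card_fun, Fintype.card_fin, Fintype.card_fin]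
        push_cast
        ring
      rw [h6] at h5
      have h7 : (#Bt : ℝ) ≤ k := by exact_mod_cast hBk
      have h8 : (L : ℝ) * (#Bt * ((N : ℝ) ^ n / N) + (N : ℝ) ^ n) ≤
          L * (k * ((N : ℝ) ^ n / N) + (N : ℝ) ^ n) := by gcongr
      have h9 : L * (k / N + 1) / J * (N : ℝ) ^ n =
          (L * (k * ((N : ℝ) ^ n / N) + (N : ℝ) ^ n)) / J := by
        field_simp
      rw [h9, le_div_iff₀ hJ0]
      linarith
  calc _ ≤ ∑ _e ∈ E, L * (k / N + 1) / J * (N : ℝ) ^ n := sum_le_sum h3
    _ = _ := by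
      rw [sum_const, nsmul_eq_mul]
      ring

theorem Rand_size {n N : ℕ} [NeZero N] :
    ∑ χ : Fin n → Fin N, (#(RandSet χ) : ℝ) = n / N * (N : ℝ) ^ n := by
  have h1 := Rand_swap (univ : Finset (Fin n)) (univ : Finset (Fin n → Fin N))
    (fun χ v => χ v = 0)
  have h2 : ∀ χ : Fin n → Fin N, RandSet χ = univ.filter fun v => χ v = 0 := fun χ => rfl
  simp only [h2]
  rw [h1, sum_congr rfl fun v _ => Rand_hit v, sum_const, nsmul_eq_mul, card_univ,
    Fintype.card_fin]
  ring

/-- Choose each bar with probability `1 / N`. -/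
theorem exists_ref {n : ℕ} (P : Model n) (k N L J : ℕ) (hN : 1 ≤ N) (hJ : 1 ≤ J)
    (E : Finset (Sym2 (Fin n))) (wit : Sym2 (Fin n) → ℕ)
    (hwit : ∀ u v, s(u, v) ∈ E → nbtw P.h (P.aliveSet (wit s(u, v))) u v ≤ k)
    (a b c d : ℝ) (ha : 0 ≤ a) (hb : 0 ≤ b) (hc : 0 ≤ c) (hd : 0 ≤ d) :
    ∃ R : Finset (Fin n),
      a * (∑ e : Fin n × Bool, if e.1 ∉ R then (#(cont P R e) : ℝ) else 0) + b * #R +
        c * #(touchR E R) + d * #(farR P E wit L J R) ≤
      a * (2 * n * (2 * N)) + b * (n / N) + c * (2 * #E / N) +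
        d * (#E * (L * (k / N + 1) / J)) := by
  have hne : NeZero N := ⟨by omega⟩
  have hNn : (0 : ℝ) < (N : ℝ) ^ n := by positivity
  obtain ⟨B, hB⟩ : ∃ B : ℝ, B = a * (2 * n * (2 * N)) + b * (n / N) + c * (2 * #E / N) +
        d * (#E * (L * (k / N + 1) / J)) := ⟨_, rfl⟩
  rw [← hB]
  have hs1 : ∑ χ : Fin n → Fin N, (∑ e : Fin n × Bool,
      if e.1 ∉ RandSet χ then (#(cont P (RandSet χ) e) : ℝ) else 0) ≤
        2 * n * (2 * N) * (N : ℝ) ^ n := by
    calc ∑ χ : Fin n → Fin N, (∑ e : Fin n × Bool,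
          if e.1 ∉ RandSet χ then (#(cont P (RandSet χ) e) : ℝ) else 0)
        ≤ ∑ χ : Fin n → Fin N, (∑ e : Fin n × Bool, (#(cont P (RandSet χ) e) : ℝ)) := by
          refine sum_le_sum fun χ _ => sum_le_sum fun e _ => ?_
          by_cases he : e.1 ∉ RandSet χ
          · rw [if_pos he]
          · rw [if_neg he]
            exact Nat.cast_nonneg _
      _ = ∑ e : Fin n × Bool, ∑ χ : Fin n → Fin N, (#(cont P (RandSet χ) e) : ℝ) := sum_comm
      _ ≤ ∑ _e : Fin n × Bool, 2 * N * (N : ℝ) ^ n := sum_le_sum fun e _ => Rand_cont P e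
      _ = _ := by
          rw [sum_const, nsmul_eq_mul, card_univ, Fintype.card_prod, Fintype.card_fin,
            Fintype.card_bool]
          push_cast
          ring
  have hs2 := Rand_size (n := n) (N := N)
  have hs3 := Rand_touch (N := N) E
  have hs4 := Rand_far (N := N) P k L J hJ E wit hwit
  have htot : ∑ χ : Fin n → Fin N,
      (a * (∑ e : Fin n × Bool, if e.1 ∉ RandSet χ then (#(cont P (RandSet χ) e) : ℝ) else 0) +
        b * #(RandSet χ) + c * #(touchR E (RandSet χ)) +
        d * #(farR P E wit L J (RandSet χ))) ≤ ∑ _χ : Fin n → Fin N, B := by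
    rw [sum_add_distrib, sum_add_distrib, sum_add_distrib, ← mul_sum, ← mul_sum, ← mul_sum,
      ← mul_sum, hs2, sum_const, nsmul_eq_mul, card_univ, Fintype.card_fun, Fintype.card_fin,
      Fintype.card_fin, hB]
    have k1 := mul_le_mul_of_nonneg_left hs1 ha
    have k3 := mul_le_mul_of_nonneg_left hs3 hc
    have k4 := mul_le_mul_of_nonneg_left hs4 hd
    push_cast
    nlinarith
  obtain ⟨χ, -, hχ⟩ := exists_le_of_sum_le (univ_nonempty) htot
  exact ⟨RandSet χ, hχ⟩

end Pool.Agent.H95.BG
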