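import Pool.Agent.H95.BG.Rects

/-!
Project BG, module Win: existence of windows (from the rectangles of module Rects).

With `rect` from `exists_rects` let `rk e` be the number of events `e'` with `e'.1 ∉ R`,
`rect e' = rect e` and `time e' < time e`, and `win e = Nat.pair (rect e) (rk e / L)`.
`card_le`: inside a rectangle `rk` is injective. `gap`: the span of a window is contained in the span
of its rectangle. `sep`: if the rectangles differ use the third property; if the rectangles are
equal, the two windows consist of events of the same rectangle with `rk / L` different, so all events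
of one come before all events of the other and no time is in both spans. `count`: a rectangle
with `N` events has at most `N / L + 1` windows, `L * (N / L + 1) ≤ N + L`; sum over the at most
`3 #R + 1` rectangles (there are at most `2 n` events).
-/

set_option autoImplicit false

namespace Pool.Agent.H95.BG

open Finset

private theorem Win_time_inj {n : ℕ} (P : Model n) {e e' : Fin n × Bool}
    (h : P.time e = P.time e') : e = e' := by
  unfold Model.time at h
  exact P.ev.injective (Fin.ext h)

theorem exists_windows {n : ℕ} (P : Model n) (R : Finset (Fin n)) (L : ℕ) (hL : 1 ≤ L) :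
    Nonempty (Windows P R L) := by
  obtain ⟨rect, hcount, hgap, hsep⟩ := exists_rects P R
  obtain ⟨rk, hrk⟩ : ∃ rk : Fin n × Bool → ℕ, ∀ e, rk e =
      #{e' : Fin n × Bool | e'.1 ∉ R ∧ rect e' = rect e ∧ P.time e' < P.time e} :=
    ⟨_, fun _ => rfl⟩
  have hle : ∀ e e' : Fin n × Bool, rect e = rect e' → P.time e ≤ P.time e' → rk e ≤ rk e' := by
    intro e e' h1 h2
    rw [hrk, hrk]
    refine card_le_card fun f hf => ?_
    rw [mem_filter] at hf ⊢
    exact ⟨hf.1, hf.2.1, hf.2.2.1.trans h1, lt_of_lt_of_le hf.2.2.2 h2⟩
  have hlt : ∀ e e' : Fin n × Bool, e.1 ∉ R → rect e = rect e' → P.time e < P.time e' →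
      rk e < rk e' := by
    intro e e' h0 h1 h2
    rw [hrk, hrk]
    refine card_lt_card ?_
    rw [ssubset_iff_of_subset]
    · refine ⟨e, ?_, ?_⟩
      · rw [mem_filter]
        exact ⟨mem_univ _, h0, h1, h2⟩
      · rw [mem_filter]
        exact fun h => absurd h.2.2.2 (lt_irrefl _)
    · intro f hf
      rw [mem_filter] at hf ⊢
      exact ⟨hf.1, hf.2.1, hf.2.2.1.trans h1, hf.2.2.2.trans h2⟩
  obtain ⟨win, hwin⟩ : ∃ win : Fin n × Bool → ℕ, ∀ e, win e = Nat.pair (rect e) (rk e / L) :=
    ⟨_, fun _ => rfl⟩
  have hw : ∀ e e' : Fin n × Bool, win e = win e' → rect e = rect e' ∧ rk e / L = rk e' / L := by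
    intro e e' h
    rw [hwin, hwin] at h
    exact Nat.pair_eq_pair.1 h
  have hspan : ∀ (e : Fin n × Bool) (t : ℕ), span P R win (win e) t →
      span P R rect (rect e) t := by
    rintro e t ⟨⟨f, f1, f2, f3⟩, ⟨g, g1, g2, g3⟩⟩
    exact ⟨⟨f, f1, (hw f e f2).1, f3⟩, ⟨g, g1, (hw g e g2).1, g3⟩⟩
  refine ⟨⟨win, ?_, ?_, ?_, ?_⟩⟩
  · intro i
    have hsub : #{e : Fin n × Bool | e.1 ∉ R ∧ win e = i} ≤
        #(Finset.Ico ((Nat.unpair i).2 * L) ((Nat.unpair i).2 * L + L)) := by
      refine card_le_card_of_injOn rk ?_ ?_
      · intro e he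
        rw [mem_coe, mem_filter] at he
        have h1 : rk e / L = (Nat.unpair i).2 := by
          rw [← he.2.2, hwin, Nat.unpair_pair]
        rw [mem_coe, mem_Ico, ← h1]
        refine ⟨Nat.div_mul_le_self _ _, ?_⟩
        exact Nat.lt_div_mul_add (by omega)
      · intro e he e' he' h
        rw [mem_coe, mem_filter] at he he'
        have h1 := (hw e e' (he.2.2.trans he'.2.2.symm)).1
        rcases lt_trichotomy (P.time e) (P.time e') with h2 | h2 | h2
        · exact absurd h (hlt e e' he.2.1 h1 h2).ne
        · exact Win_time_inj P h2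
        · exact absurd h.symm (hlt e' e he'.2.1 h1.symm h2).ne
    rwa [Nat.card_Ico, Nat.add_sub_cancel_left] at hsub
  · intro e e' he he' h t ht
    exact hgap e e' he he' (hw e e' h).1 t (hspan e t ht)
  · intro e e' he he' h t ht ht'
    by_cases hr : rect e = rect e'
    · exfalso
      have key : ∀ a b : Fin n × Bool, rect a = rect b → rk a / L < rk b / L →
          span P R win (win a) t → span P R win (win b) t → False := by
        rintro a b hab hlt' ⟨-, ⟨f, f1, f2, f3⟩⟩ ⟨⟨g, g1, g2, g3⟩, -⟩
        have a1 := hw f a f2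
        have a2 := hw g b g2
        have h3 := hle g f (a2.1.trans (hab.symm.trans a1.1.symm)) (g3.trans f3)
        have h4 := Nat.div_le_div_right (c := L) h3
        rw [a1.2, a2.2] at h4
        omega
      have hne : rk e / L ≠ rk e' / L := by
        intro h'
        apply h
        rw [hwin, hwin, hr, h']
      rcases lt_or_gt_of_ne hne with h1 | h1
      · exact key e e' hr h1 ht ht'
      · exact key e' e hr.symm h1 ht' ht
    · exact hsep e e' he he' hr t (hspan e t ht) (hspan e' t ht')
  · set S : Finset (Fin n × Bool) := {e : Fin n × Bool | e.1 ∉ R} with hS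
    have hsub : image win S ⊆ (image rect S).biUnion fun a =>
        (range (#{e ∈ S | rect e = a} / L + 1)).image fun b => Nat.pair a b := by
      intro w hw'
      rw [mem_image] at hw'
      obtain ⟨e, he, rfl⟩ := hw'
      rw [mem_biUnion]
      refine ⟨rect e, mem_image_of_mem _ he, ?_⟩
      rw [mem_image]
      refine ⟨rk e / L, ?_, (hwin e).symm⟩
      rw [mem_range, Nat.lt_add_one_iff]
      refine Nat.div_le_div_right ?_
      rw [hrk]
      refine card_le_card fun f hf => ?_
      rw [mem_filter] at hf
      rw [mem_filter, hS, mem_filter]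
      exact ⟨⟨mem_univ _, hf.2.1⟩, hf.2.2.1⟩
    have h1 : #(image win S) ≤ ∑ a ∈ image rect S, (#{e ∈ S | rect e = a} / L + 1) := by
      refine (card_le_card hsub).trans (card_biUnion_le.trans (sum_le_sum fun a _ => ?_))
      exact card_image_le.trans (card_range _).le
    have h2 : ∑ a ∈ image rect S, #{e ∈ S | rect e = a} = #S :=
      (card_eq_sum_card_image rect S).symm
    have h3 : #S ≤ 2 * n := by
      refine (card_le_univ S).trans ?_
      rw [Fintype.card_prod, Fintype.card_fin, Fintype.card_bool]
      omega
    calc L * #(image win S) ≤ L * ∑ a ∈ image rect S, (#{e ∈ S | rect e = a} / L + 1) :=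
          Nat.mul_le_mul_left _ h1
      _ = ∑ a ∈ image rect S, (L * (#{e ∈ S | rect e = a} / L) + L) := by
          rw [mul_sum]
          exact sum_congr rfl fun a _ => by ring
      _ ≤ ∑ a ∈ image rect S, (#{e ∈ S | rect e = a} + L) :=
          sum_le_sum fun a _ => Nat.add_le_add_right (Nat.mul_div_le _ _) _
      _ = #S + #(image rect S) * L := by
          rw [sum_add_distrib, h2, sum_const, smul_eq_mul]
      _ ≤ 2 * n + (3 * #R + 1) * L := Nat.add_le_add h3 (Nat.mul_le_mul_right _ hcount)
      _ = 2 * n + L * (3 * #R + 1) := by ring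

end Pool.Agent.H95.BG
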