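import Pool.Agent.H95.BG.Asm
import Pool.Agent.H95.BG.Win
import Pool.Agent.H95.BG.ExtClose
import Pool.Agent.H95.BG.ExtInner
import Pool.Agent.H95.BG.Cover
import Pool.Agent.H95.BG.LabelPieces
import Pool.Agent.H95.BG.EdgeBound
import Pool.Agent.H95.BG.Rand

/-!
Project BG, module Core: the upper bound with all parameters.
-/

set_option autoImplicit false

namespace Pool.Agent.H95.BG

open Finset

theorem wasteBound_le (m K β c : ℕ) :
    wasteBound m K β c ≤ 5 * (β * (c + β)) + 5 * m * β +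
      if β = 0 then 0 else 5 * m * (K + m + 2) := by
  unfold wasteBound
  split_ifs
  · omega
  · nlinarith

theorem sum_waste {n : ℕ} {P : Model n} {R : Finset (Fin n)} {L : ℕ} (hL : 1 ≤ L)
    (W : Windows P R L) (m K : ℕ) :
    (2 : ℝ) * ((∑ i ∈ range (2 * n), wasteBound m K #(chg W.S i) (inner P.h W.S i) : ℕ) : ℝ) ≤
      10 * (∑ e : Fin n × Bool, if e.1 ∉ R then (#(cont P R e) : ℝ) else 0) + 40 * n * L +
        20 * m * n + 40 * m * (K + m + 2) * n / L + 60 * m * (K + m + 2) * #R +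
        20 * m * (K + m + 2) := by
  have h1 : ∑ i ∈ range (2 * n), wasteBound m K #(chg W.S i) (inner P.h W.S i) ≤
      5 * (∑ i ∈ range (2 * n), #(chg W.S i) * (inner P.h W.S i + #(chg W.S i))) +
      5 * m * ∑ i ∈ range (2 * n), #(chg W.S i) +
      5 * m * (K + m + 2) * #{i ∈ range (2 * n) | chg W.S i ≠ ∅} := by
    rw [mul_sum, mul_sum, card_filter, mul_sum, ← sum_add_distrib, ← sum_add_distrib]
    apply sum_le_sum
    intro i _
    refine (wasteBound_le _ _ _ _).trans ?_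
    rcases eq_or_ne (chg W.S i) ∅ with h | h
    · simp [h]
    · simp [h]
  have h2 := sum_inner W
  have h3 := W.sum_chg
  have h4 := W.card_steps
  have h5 : (∑ e : Fin n × Bool, if e.1 ∉ R then #(cont P R e) + 2 * L else 0) ≤
      (∑ e : Fin n × Bool, if e.1 ∉ R then #(cont P R e) else 0) + 4 * n * L := by
    have : (∑ e : Fin n × Bool, if e.1 ∉ R then #(cont P R e) + 2 * L else 0) ≤
        ∑ e : Fin n × Bool, ((if e.1 ∉ R then #(cont P R e) else 0) + 2 * L) := by
      apply sum_le_sum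
      intro e _
      split_ifs <;> omega
    refine this.trans ?_
    rw [sum_add_distrib, sum_const, card_univ, Fintype.card_prod, Fintype.card_fin,
      Fintype.card_bool, smul_eq_mul]
    apply le_of_eq
    ring
  have hL' : (1 : ℝ) ≤ L := by exact_mod_cast hL
  have hL0 : (0 : ℝ) < L := by linarith
  have h4' : (#{i ∈ range (2 * n) | chg W.S i ≠ ∅} : ℝ) ≤ 4 * n / L + 6 * #R + 2 := by
    have h4'' : (L : ℝ) * (#{i ∈ range (2 * n) | chg W.S i ≠ ∅} : ℝ) ≤
        2 * (2 * n + L * (3 * #R + 1)) := by exact_mod_cast h4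
    rw [← mul_le_mul_iff_right₀ hL0]
    refine h4''.trans (le_of_eq ?_)
    field_simp
    ring
  have h1' : ((∑ i ∈ range (2 * n), wasteBound m K #(chg W.S i) (inner P.h W.S i) : ℕ) : ℝ) ≤
      5 * ((∑ i ∈ range (2 * n), #(chg W.S i) * (inner P.h W.S i + #(chg W.S i)) : ℕ) : ℝ) +
      5 * m * ((∑ i ∈ range (2 * n), #(chg W.S i) : ℕ) : ℝ) +
      5 * m * (K + m + 2) * (#{i ∈ range (2 * n) | chg W.S i ≠ ∅} : ℝ) := by
    exact_mod_cast h1
  have h2' : ((∑ i ∈ range (2 * n), #(chg W.S i) * (inner P.h W.S i + #(chg W.S i)) : ℕ) : ℝ) ≤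
      (∑ e : Fin n × Bool, if e.1 ∉ R then (#(cont P R e) : ℝ) else 0) + 4 * n * L := by
    have := h2.trans h5
    exact_mod_cast this
  have h3' : ((∑ i ∈ range (2 * n), #(chg W.S i) : ℕ) : ℝ) ≤ 2 * n := by exact_mod_cast h3
  have hm0 : (0 : ℝ) ≤ m := Nat.cast_nonneg m
  have hc : (0 : ℝ) ≤ 5 * m * (K + m + 2) := by positivity
  have h6 : 5 * (m : ℝ) * (K + m + 2) * (#{i ∈ range (2 * n) | chg W.S i ≠ ∅} : ℝ) ≤
      5 * m * (K + m + 2) * (4 * n / L + 6 * #R + 2) := mul_le_mul_of_nonneg_left h4' hc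
  have h7 : 5 * (m : ℝ) * ((∑ i ∈ range (2 * n), #(chg W.S i) : ℕ) : ℝ) ≤ 5 * m * (2 * n) :=
    mul_le_mul_of_nonneg_left h3' (by positivity)
  have h8 : 5 * (m : ℝ) * (K + m + 2) * (4 * n / L + 6 * #R + 2) =
      20 * m * (K + m + 2) * n / L + 30 * m * (K + m + 2) * #R + 10 * m * (K + m + 2) := by
    ring
  have h9 : 40 * (m : ℝ) * (K + m + 2) * n / L = 2 * (20 * m * (K + m + 2) * n / L) := by ring
  rw [h9]
  rw [h8] at h6
  nlinarith

theorem core {n : ℕ} (P : Model n) (k s r m L N J : ℕ) (hm : m = 3 ^ s * r ^ 2) (hr : 1 ≤ r)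
    (hL : 1 ≤ L) (hN : 1 ≤ N) (hJ : 1 ≤ J) :
    ∃ c : ℤ, PsiLe (P.graph k) c ∧ 0 ≤ c ∧
      (c : ℝ) ≤ (k + J + 2) * n * (1 + 27 / r) + 2 * (3 * (k + 1) * n) / 3 ^ s + 40 * n * N +
        60 * m * (k + J + m + 2) * n / N + 4 * (3 * (k + 1) * n) / N +
        2 * (3 * (k + 1) * n) * (L * (k / N + 1) / J) + 40 * n * L + 20 * m * n +
        40 * m * (k + J + m + 2) * n / L + 20 * m * (k + J + m + 2) := by
  classical
  set K := k + J with hK
  have hm1 : 1 ≤ m := by
    rw [hm]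
    exact Nat.succ_le_of_lt (by positivity)
  set E : Finset (Sym2 (Fin n)) := (P.graph k).edgeFinset with hE
  have hEc : #E ≤ 3 * (k + 1) * n := by
    have h1 := edge_bound P k
    have h2 : Nat.card (P.graph k).edgeSet = #E := by
      rw [Nat.card_eq_fintype_card, hE, SimpleGraph.edgeFinset_card]
    omega
  have hmemE : ∀ u v, s(u, v) ∈ E ↔ (P.graph k).Adj u v := by
    intro u v
    rw [hE, SimpleGraph.mem_edgeFinset, SimpleGraph.mem_edgeSet]
  -- witness times
  have hw : ∀ e : Sym2 (Fin n), ∃ t, e ∈ E → ∀ u v, e = s(u, v) →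
      P.alive t u ∧ P.alive t v ∧ nbtw P.h (P.aliveSet t) u v ≤ k := by
    intro e
    induction e with
    | _ u v =>
      by_cases he : s(u, v) ∈ E
      · have hadj := (hmemE u v).1 he
        obtain ⟨hne, t, h1, h2, h3⟩ := hadj
        refine ⟨t, fun _ u' v' h => ?_⟩
        rw [Sym2.eq_iff] at h
        rcases h with ⟨rfl, rfl⟩ | ⟨rfl, rfl⟩
        · exact ⟨h1, h2, h3⟩
        · refine ⟨h2, h1, ?_⟩
          have : nbtw P.h (P.aliveSet t) v u = nbtw P.h (P.aliveSet t) u v := by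
            unfold nbtw btw
            simp only [min_comm (P.h v), max_comm (P.h v)]
          rw [this]
          exact h3
      · exact ⟨0, fun h => absurd h he⟩
  choose wit hwit using hw
  obtain ⟨R, hR⟩ := exists_ref P k N L J hN hJ E wit
    (fun u v h => (hwit _ h u v rfl).2.2) 10 (60 * m * (K + m + 2)) 2 2
    (by norm_num) (by positivity) (by norm_num) (by norm_num)
  obtain ⟨W⟩ := exists_windows P R L hL
  obtain ⟨Pp, Pm, W1, hPp, hPm, hlen, hW1, hcov⟩ := cover P.h P.h_inj (2 * n) W.S rfl W.S_last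
    (fun i _ => W.S_mono i) K m hm1
  obtain ⟨Qs, W2, hQd, hQc, hQs⟩ := label_pieces P.h P.h_inj s r m hm hr Pp Pm hPp hPm E
    (fun e he => by
      rw [hE, SimpleGraph.mem_edgeFinset] at he
      exact SimpleGraph.not_isDiag_of_mem_edgeSet _ he)
  set Ex := W1 ∪ touchR E R ∪ farR P E wit L J R ∪ W2 with hEx
  have hPsi : PsiLe (P.graph k) ((Qs.map (fun p => (cost p : ℤ))).sum + 2 * #Ex) := by
    refine psiLe_cover (P.graph k) Qs Ex hQd ?_
    intro u v huv
    by_cases hex : s(u, v) ∈ Ex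
    · exact Or.inl hex
    right
    rw [hEx, mem_union, mem_union, mem_union] at hex
    push Not at hex
    obtain ⟨⟨⟨hx1, hx2⟩, hx3⟩, hx4⟩ := hex
    have he : s(u, v) ∈ E := (hmemE u v).2 huv
    obtain ⟨hau, hav, hbt⟩ := hwit _ he u v rfl
    have hu : u ∉ R := fun h => hx2 (by
      rw [touchR, mem_filter]
      exact ⟨he, u, h, by simp⟩)
    have hv : v ∉ R := fun h => hx2 (by
      rw [touchR, mem_filter]
      exact ⟨he, v, h, by simp⟩)
    have hfar : L * (#{r ∈ R | P.alive (wit s(u, v)) r ∧ btw P.h u v r} + 1) ≤ J := by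
      by_contra hcon
      exact hx3 (by
        rw [farR, mem_filter]
        exact ⟨he, u, v, rfl, by omega⟩)
    obtain ⟨hc1, hc2, hc3⟩ := ext_close W (wit s(u, v)) u v hu hv hau hav
    have hlt : wit s(u, v) + 1 ≤ 2 * n := by
      have h1 := hau.2
      have h2 : P.time (u, true) < 2 * n := (P.ev (u, true)).2
      omega
    have hclose : close P.h K (W.S (wit s(u, v) + 1)) u v := ⟨hc1, hc2, by omega⟩
    rcases hcov u v huv.1 ⟨_, hlt, hclose⟩ with h | ⟨h1, h2⟩
    · exact absurd h hx1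
    · exact hQc u v he hx4 h1 h2
  refine ⟨_, hPsi, ?_, ?_⟩
  · have : 0 ≤ ((Qs.map (fun p => (cost p : ℤ))).sum) := by
      apply List.sum_nonneg
      intro x hx
      rw [List.mem_map] at hx
      obtain ⟨p, _, rfl⟩ := hx
      positivity
    positivity
  · have hExc : (#Ex : ℝ) ≤ #W1 + #(touchR E R) + #(farR P E wit L J R) + #W2 := by
      have h1 : #Ex ≤ #W1 + #(touchR E R) + #(farR P E wit L J R) + #W2 := by
        rw [hEx]
        refine (card_union_le _ _).trans ?_
        gcongr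
        refine (card_union_le _ _).trans ?_
        gcongr
        exact card_union_le _ _
      exact_mod_cast h1
    have hwaste := sum_waste hL W m K
    have hW1' : (#W1 : ℝ) ≤
        ((∑ i ∈ range (2 * n), wasteBound m K #(chg W.S i) (inner P.h W.S i) : ℕ) : ℝ) := by
      exact_mod_cast hW1
    have hlen' : ((Pp.length : ℝ) + Pm.length) * (m : ℝ) ^ 2 ≤ (K + 2) * (2 * n) := by
      have h1 : (Pp.length + Pm.length) * m ^ 2 ≤ (K + 2) * (2 * n) :=
        hlen.trans (Nat.mul_le_mul_left _ W.sum_chg)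
      exact_mod_cast h1
    have hr0 : (0 : ℝ) ≤ 1 + 27 / (r : ℝ) := by positivity
    have hlen2 : ((Pp.length : ℝ) + Pm.length) * (((m : ℝ) ^ 2 / 2) * (1 + 27 / r)) ≤
        (K + 2) * n * (1 + 27 / r) := by
      have := mul_le_mul_of_nonneg_right hlen' hr0
      nlinarith
    have hEr : (#E : ℝ) ≤ 3 * (k + 1) * n := by exact_mod_cast hEc
    have hq : (0 : ℝ) < 3 ^ s := by positivity
    have hN0 : (0 : ℝ) < N := by exact_mod_cast hN
    have hJ0 : (0 : ℝ) < J := by exact_mod_cast hJ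
    have e1 : 2 * (#E : ℝ) / 3 ^ s ≤ 2 * (3 * (k + 1) * n) / 3 ^ s := by gcongr
    have e2 : 2 * (2 * (#E : ℝ) / N) ≤ 4 * (3 * (k + 1) * n) / N := by
      have : 2 * (2 * (#E : ℝ) / N) = 4 * (#E : ℝ) / N := by ring
      rw [this]
      gcongr
    have e3 : 2 * ((#E : ℝ) * (L * (k / N + 1) / J)) ≤
        2 * (3 * (k + 1) * n) * (L * (k / N + 1) / J) := by
      have h0 : (0 : ℝ) ≤ L * (k / N + 1) / J := by positivity
      have := mul_le_mul_of_nonneg_right hEr h0
      linarith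
    have hKc : (K : ℝ) = k + J := by rw [hK]; push_cast; ring
    have e4 : 60 * (m : ℝ) * (K + m + 2) * (n / N) = 60 * m * (K + m + 2) * n / N := by ring
    push_cast
    rw [e4] at hR
    push_cast at hQs
    rw [← hKc]
    linarith

end Pool.Agent.H95.BG
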