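import Mathlib

/-!
Definitions for the project BG (genus of bar `k`-visibility graphs, MP_275090_co).
-/

set_option autoImplicit false

namespace Pool.Agent.H95.BG

open Finset

/-! ### Bars and bar visibility graphs -/

/-- `n` pairwise disjoint horizontal segments `[l i, r i] × {y i}` in the plane. -/
structure BarSystem (n : ℕ) where
  l : Fin n → ℝ
  r : Fin n → ℝ
  y : Fin n → ℝ
  lt : ∀ i, l i < r i
  disj : ∀ i j, i ≠ j → y i = y j → Disjoint (Set.Icc (l i) (r i)) (Set.Icc (l j) (r j))

/-- The bars other than `i`, `j` met by the vertical segment at abscissa `x` between the bars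
`i` and `j`. -/
def BarSystem.blockers {n : ℕ} (B : BarSystem n) (i j : Fin n) (x : ℝ) : Set (Fin n) :=
  {s | s ≠ i ∧ s ≠ j ∧ x ∈ Set.Icc (B.l s) (B.r s) ∧ B.y s ∈ Set.uIcc (B.y i) (B.y j)}

/-- The bar `k`-visibility graph. -/
def BarSystem.graph {n : ℕ} (B : BarSystem n) (k : ℕ) : SimpleGraph (Fin n) where
  Adj i j := i ≠ j ∧ ∃ x, x ∈ Set.Icc (B.l i) (B.r i) ∧ x ∈ Set.Icc (B.l j) (B.r j) ∧
    (B.blockers i j x).ncard ≤ k
  symm := by
    refine ⟨?_⟩
    rintro i j ⟨h, x, h1, h2, h3⟩
    refine ⟨h.symm, x, h2, h1, ?_⟩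
    have : B.blockers j i x = B.blockers i j x := by
      ext s
      simp only [BarSystem.blockers, Set.mem_setOf_eq, Set.uIcc_comm (B.y j)]
      tauto
    rw [this]
    exact h3
  loopless := ⟨fun i h => h.1 rfl⟩

/-! ### Rotation systems and genus -/

/-- The number of cycles of a permutation, fixed points included. -/
noncomputable def orb {α : Type*} (σ : Equiv.Perm α) : ℕ :=
  Nat.card (Quotient (Equiv.Perm.SameCycle.setoid σ))

variable {V : Type*}

/-- Reversal of darts, as a permutation. -/
def flip (G : SimpleGraph V) : Equiv.Perm G.Dart :=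
  SimpleGraph.Dart.symm_involutive.toPerm SimpleGraph.Dart.symm

/-- A rotation system of a graph: a permutation of the darts whose cycles are the sets of darts
with a common first vertex. -/
structure RotationSystem (G : SimpleGraph V) where
  next : Equiv.Perm G.Dart
  fst_next : ∀ d, (next d).fst = d.fst
  cyclic : ∀ d e : G.Dart, d.fst = e.fst → next.SameCycle d e

/-- The number of faces: the number of cycles of the face permutation, which maps a dart `d` to
the successor of its reversal, and one face for each isolated vertex. -/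
noncomputable def RotationSystem.faces {G : SimpleGraph V} (R : RotationSystem G) : ℕ :=
  orb (R.next * flip G) + Nat.card {v : V // ∀ w, ¬ G.Adj v w}

/-- The genus: the least `g` such that some rotation system has Euler characteristic
`V - E + F ≥ 2 c - 2 g`, where `c` is the number of connected components. -/
noncomputable def genus (G : SimpleGraph V) : ℕ :=
  sInf {g : ℕ | ∃ R : RotationSystem G, 2 * (Nat.card G.ConnectedComponent : ℤ) ≤
    (Nat.card V : ℤ) - Nat.card G.edgeSet + R.faces + 2 * g}

/-- The maximum of the genus over all bar `k`-visibility graphs on `n` vertices. -/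
noncomputable def gk (k n : ℕ) : ℕ := sSup {g | ∃ B : BarSystem n, g = genus (B.graph k)}

/-! ### The quantity `Ψ` -/

/-- `PsiLe G c`: some permutation of the darts that preserves the first vertices (its cycles may
be smaller than the sets of darts at a vertex) has `E - F + C ≤ c`, where `F` is the number of
cycles of the face permutation and `C` the number of cycles of the permutation itself. -/
def PsiLe (G : SimpleGraph V) (c : ℤ) : Prop :=
  ∃ σ : Equiv.Perm G.Dart, (∀ d, (σ d).fst = d.fst) ∧
    (Nat.card G.edgeSet : ℤ) - orb (σ * flip G) + orb σ ≤ c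

/-- The complete tripartite graph with parts `A`, `X`, `B`. -/
def tri (A X B : Finset V) : SimpleGraph V where
  Adj u v := u ≠ v ∧ ((u ∈ A ∧ v ∈ X) ∨ (u ∈ X ∧ v ∈ A) ∨ (u ∈ A ∧ v ∈ B) ∨ (u ∈ B ∧ v ∈ A) ∨
    (u ∈ X ∧ v ∈ B) ∨ (u ∈ B ∧ v ∈ X))
  symm := by
    refine ⟨?_⟩
    rintro u v ⟨h, h'⟩
    exact ⟨h.symm, by tauto⟩
  loopless := ⟨fun i h => h.1 rfl⟩

/-! ### The discrete model -/

/-- `w` is strictly between `u` and `v` in height. -/
def btw (h : V → ℕ) (u v w : V) : Prop :=
  min (h u) (h v) < h w ∧ h w < max (h u) (h v)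

instance (h : V → ℕ) (u v w : V) : Decidable (btw h u v w) := by
  unfold btw; infer_instance

/-- The number of elements of `A` strictly between `u` and `v`. -/
def nbtw (h : V → ℕ) (A : Finset V) (u v : V) : ℕ := #{w ∈ A | btw h u v w}

/-- `n` bars with distinct heights `h` and distinct event times in `0, …, 2n-1`:
`ev (v, false)` is the birth and `ev (v, true)` the death of `v`. -/
structure Model (n : ℕ) where
  h : Fin n → ℕ
  h_inj : Function.Injective h
  ev : (Fin n × Bool) ≃ Fin (2 * n)
  ev_lt : ∀ v, ev (v, false) < ev (v, true)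

namespace Model

variable {n : ℕ} (P : Model n)

/-- The time of an event. -/
def time (e : Fin n × Bool) : ℕ := (P.ev e : ℕ)

/-- `v` is alive at time `t`. -/
def alive (t : ℕ) (v : Fin n) : Prop := P.time (v, false) ≤ t ∧ t < P.time (v, true)

instance (t : ℕ) (v : Fin n) : Decidable (P.alive t v) := by
  unfold alive; infer_instance

/-- The set of bars alive at time `t`. -/
def aliveSet (t : ℕ) : Finset (Fin n) := {v | P.alive t v}

/-- The `k`-visibility graph of the model. -/
def graph (k : ℕ) : SimpleGraph (Fin n) where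
  Adj u v := u ≠ v ∧ ∃ t, P.alive t u ∧ P.alive t v ∧ nbtw P.h (P.aliveSet t) u v ≤ k
  symm := by
    refine ⟨?_⟩
    rintro u v ⟨h, t, h1, h2, h3⟩
    refine ⟨h.symm, t, h2, h1, ?_⟩
    have : nbtw P.h (P.aliveSet t) v u = nbtw P.h (P.aliveSet t) u v := by
      unfold nbtw btw
      simp only [min_comm (P.h v), max_comm (P.h v)]
    rw [this]
    exact h3
  loopless := ⟨fun i h => h.1 rfl⟩

end Model

/-! ### Windows -/

/-- `t` lies in the time span of the window number `i`. -/
def span {n : ℕ} (P : Model n) (R : Finset (Fin n)) (win : Fin n × Bool → ℕ) (i t : ℕ) : Prop :=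
  (∃ e : Fin n × Bool, e.1 ∉ R ∧ win e = i ∧ P.time e ≤ t) ∧
    (∃ e : Fin n × Bool, e.1 ∉ R ∧ win e = i ∧ t ≤ P.time e)

/-- A partition of the events of the bars outside `R` into windows of at most `L` events, such
that during a window no bar of `R` separates its bars, while two windows that are active at the
same time are separated by a bar of `R` alive at that time. -/
structure Windows {n : ℕ} (P : Model n) (R : Finset (Fin n)) (L : ℕ) where
  win : Fin n × Bool → ℕ
  card_le : ∀ i, #{e : Fin n × Bool | e.1 ∉ R ∧ win e = i} ≤ L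
  gap : ∀ e e' : Fin n × Bool, e.1 ∉ R → e'.1 ∉ R → win e = win e' →
    ∀ t, span P R win (win e) t → ∀ r ∈ R, P.alive t r → ¬ btw P.h e.1 e'.1 r
  sep : ∀ e e' : Fin n × Bool, e.1 ∉ R → e'.1 ∉ R → win e ≠ win e' →
    ∀ t, span P R win (win e) t → span P R win (win e') t →
      ∃ r ∈ R, P.alive t r ∧ btw P.h e.1 e'.1 r
  count : L * #(image win {e : Fin n × Bool | e.1 ∉ R}) ≤ 2 * n + L * (3 * #R + 1)

namespace Windows

variable {n : ℕ} {P : Model n} {R : Finset (Fin n)} {L : ℕ} (W : Windows P R L)

/-- The extended life time of a bar outside `R`: from the first event of the window of its birth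
to the last event of the window of its death. -/
def ext (t : ℕ) (v : Fin n) : Prop :=
  v ∉ R ∧ (∃ e : Fin n × Bool, e.1 ∉ R ∧ W.win e = W.win (v, false) ∧ P.time e ≤ t) ∧
    (∃ e : Fin n × Bool, e.1 ∉ R ∧ W.win e = W.win (v, true) ∧ t < P.time e)

instance (t : ℕ) (v : Fin n) : Decidable (W.ext t v) := by
  unfold ext; infer_instance

/-- The extended stack before the events of time `t`. -/
def S : ℕ → Finset (Fin n)
  | 0 => ∅
  | t + 1 => {v | W.ext t v}

end Windows

/-- The bars `v` outside `R` alive at the time of the event `e` and not separated from the bar of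
`e` by a bar of `R` alive at that time. -/
def cont {n : ℕ} (P : Model n) (R : Finset (Fin n)) (e : Fin n × Bool) : Finset (Fin n) :=
  {v | v ∉ R ∧ P.alive (P.time e) v ∧ ∀ r ∈ R, P.alive (P.time e) r → ¬ btw P.h e.1 v r}

/-! ### Sequences of stacks -/

section Seq

variable [DecidableEq V]

/-- The bars that change between two consecutive stacks. -/
def chg (S : ℕ → Finset V) (i : ℕ) : Finset V := symmDiff (S i) (S (i + 1))

/-- The bars of the small stack `s` between two bars of `Z`. -/
def hull (h : V → ℕ) (s Z : Finset V) : Finset V :=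
  {v ∈ s | ∃ z ∈ Z, ∃ z' ∈ Z, h z < h v ∧ h v < h z'}

/-- The number of bars that stay and lie between two bars that change at step `i`. -/
def inner (h : V → ℕ) (S : ℕ → Finset V) (i : ℕ) : ℕ := #(hull h (S i ∩ S (i + 1)) (chg S i))

/-- A macro piece: `A` above `X` above `B`, all of size at most `m`. -/
def IsPiece (h : V → ℕ) (m : ℕ) (p : Finset V × Finset V × Finset V) : Prop :=
  #p.1 ≤ m ∧ #p.2.1 ≤ m ∧ #p.2.2 ≤ m ∧ (∀ a ∈ p.1, ∀ x ∈ p.2.1, h x < h a) ∧
    (∀ x ∈ p.2.1, ∀ b ∈ p.2.2, h b < h x) ∧ (∀ a ∈ p.1, ∀ b ∈ p.2.2, h b < h a)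

/-- `u`, `v` are joined by an edge of the piece at its middle part. -/
def touch (p : Finset V × Finset V × Finset V) (u v : V) : Prop :=
  (u ∈ p.2.1 ∧ (v ∈ p.1 ∨ v ∈ p.2.2)) ∨ (v ∈ p.2.1 ∧ (u ∈ p.1 ∨ u ∈ p.2.2))

/-- `u`, `v` are in the two outer parts of the piece. -/
def outer (p : Finset V × Finset V × Finset V) (u v : V) : Prop :=
  (u ∈ p.1 ∧ v ∈ p.2.2) ∨ (v ∈ p.1 ∧ u ∈ p.2.2)

/-- `u` and `v` lie in `A` and at most `K` elements of `A` are between them. -/
def close (h : V → ℕ) (K : ℕ) (A : Finset V) (u v : V) : Prop :=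
  u ∈ A ∧ v ∈ A ∧ nbtw h A u v ≤ K

/-- The waste of one step. -/
def wasteBound (m K β c : ℕ) : ℕ :=
  if β = 0 then 0 else 5 * β * (c + β + m) + 5 * m * (K + m + 2)

end Seq

/-! ### Labels -/

section Labels

variable [DecidableEq V] {Γ : Type*} [AddCommGroup Γ] [DecidableEq Γ]

/-- The labelled piece with labels `g + d`, `g`, `g - d` on the three parts. -/
def sub (lam : V → Γ) (p : Finset V × Finset V × Finset V) (g d : Γ) :
    Finset V × Finset V × Finset V :=
  ({a ∈ p.1 | lam a = g + d}, {x ∈ p.2.1 | lam x = g}, {b ∈ p.2.2 | lam b = g - d})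

/-- The largest part of a labelled piece. -/
def big (p : Finset V × Finset V × Finset V) : ℕ := max #p.1 (max #p.2.1 #p.2.2)

/-- The cost of a piece. -/
def cost (p : Finset V × Finset V × Finset V) : ℕ := big p ^ 2 + 3 * big p

end Labels

end Pool.Agent.H95.BG
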