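import Pool.Agent.H95.BG.Orb

/-!
Project BG, module Del: `PsiLe` is monotone under deletion of edges.

Proof of `psiLe_deleteEdge`. Let `d`, `d'` be the two darts of the edge (if `u v` is not an edge
nothing changes). Let `σ` be the given permutation, `φ = σ * flip`, and `fl = flip * swap d d'`,
which fixes `d`, `d'` and agrees with `flip` elsewhere; `ψ = σ * fl = φ * swap d d'`, so
`orb φ ≤ orb ψ + 1`. Put `σ₁ = swap d (σ d) * σ`; it fixes `d`, bypasses `d` and agrees with `σ`
elsewhere. Since `fl d = d` we have `ψ d = σ d`, and `ψ₁ = swap d (ψ d) * ψ = σ₁ * fl`. Next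
`σ₂ = swap d' (σ₁ d') * σ₁` and `ψ₂ = swap d' (ψ₁ d') * ψ₁ = σ₂ * fl` fix both `d` and `d'`.
As `swap d (σ d) * σ = σ * swap (σ⁻¹ d) d`, we have `orb σ₁ = orb σ + 1` if `σ d ≠ d` and
`orb σ₁ = orb σ` otherwise, and the same increments for `ψ` because `ψ d = σ d`. Similarly for the
second step. So `orb σ₂ - orb ψ₂ = orb σ - orb ψ`. Restrict `σ₂` and `ψ₂` to the darts different
from `d`, `d'` (these are the darts of the graph without the edge): both lose exactly the two fixed
points `d`, `d'`. The restriction of `ψ₂ = σ₂ * fl` is the face permutation of the restriction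
`σ'` of `σ₂`. Hence `C' - F' = C - orb ψ ≤ C - F + 1` and `E' = E - 1`.

Proof of `psiLe_of_hom`. Let `H' ≤ K` be the image graph (`H'.Adj x y` iff there is `H.Adj u v`
with `f u = x`, `f v = y`). `PsiLe H' c` by deleting the edges of `K` not in `H'` one by one
(induction on the number of edges). The darts (and edges) of `H` and `H'` are in bijection,
compatibly with `flip`, and darts with the same first vertex correspond to each other
(`orb_congr`).
-/

set_option autoImplicit false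

namespace Pool.Agent.H95.BG

open Equiv

variable {V W : Type*}

private theorem Del_bypass {α : Type*} [Finite α] [DecidableEq α] (σ : Perm α) (d : α) :
    orb (swap d (σ d) * σ) = orb σ + (if σ d = d then 0 else 1) := by
  by_cases h : σ d = d
  · rw [if_pos h, h, swap_self]
    have : (Equiv.refl α : Perm α) * σ = σ := by
      ext x
      rfl
    rw [this, Nat.add_zero]
  · rw [if_neg h]
    have h1 : swap d (σ d) * σ = σ * swap (σ⁻¹ d) d := by
      have := Equiv.mul_swap_eq_swap_mul σ (σ⁻¹ d) d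
      rw [this]
      simp
    rw [h1]
    apply orb_mul_swap_split
    · refine ⟨1, ?_⟩
      simp
    · intro h2
      apply h
      have h3 := congrArg σ h2
      rw [← Perm.mul_apply, mul_inv_cancel, Perm.one_apply] at h3
      exact h3.symm

private theorem Del_orb_one {α : Type*} : orb (1 : Perm α) = Nat.card α := by
  unfold orb
  symm
  refine Nat.card_congr ⟨fun x => Quotient.mk (Perm.SameCycle.setoid (1 : Perm α)) x,
    fun q => Quotient.lift (s := Perm.SameCycle.setoid (1 : Perm α)) (fun x => x) ?_ q, ?_, ?_⟩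
  · intro a b h
    obtain ⟨i, hi⟩ := h
    simpa using hi
  · intro x
    rfl
  · intro q
    refine Quotient.inductionOn q ?_
    intro x
    rfl

private theorem Del_split {α : Type*} [Finite α] (p : α → Prop) [DecidablePred p] (σ : Perm α)
    (h : ∀ x, p (σ x) ↔ p x) (h' : ∀ x, (fun y => ¬ p y) (σ x) ↔ (fun y => ¬ p y) x) :
    orb σ = orb (Perm.subtypePerm (p := p) σ h) +
      orb (Perm.subtypePerm (p := fun y => ¬ p y) σ h') := by
  rw [← orb_sumCongr, ← orb_congr (Equiv.sumCompl p) (Perm.sumCongr _ _)]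
  congr 1
  ext x
  simp only [Equiv.trans_apply]
  by_cases hx : p x
  · rw [Equiv.sumCompl_symm_apply_of_pos hx]
    simp
  · rw [Equiv.sumCompl_symm_apply_of_neg hx]
    simp

private theorem Del_restrict {α : Type*} [Finite α] (a b : α) (hab : a ≠ b) (σ : Perm α)
    (ha : σ a = a) (hb : σ b = b) (h : ∀ x, (fun y => y ≠ a ∧ y ≠ b) (σ x) ↔
      (fun y => y ≠ a ∧ y ≠ b) x) :
    orb σ = orb (Perm.subtypePerm (p := fun y => y ≠ a ∧ y ≠ b) σ h) + 2 := by
  classical
  have h' : ∀ x, (fun y => ¬ (fun z => z ≠ a ∧ z ≠ b) y) (σ x) ↔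
      (fun y => ¬ (fun z => z ≠ a ∧ z ≠ b) y) x := fun x => not_congr (h x)
  rw [Del_split (fun y => y ≠ a ∧ y ≠ b) σ h h']
  congr 1
  have h1 : Perm.subtypePerm (p := fun y => ¬ (fun z => z ≠ a ∧ z ≠ b) y) σ h' = 1 := by
    ext ⟨x, hx⟩
    simp only [Perm.subtypePerm_apply, Perm.coe_one, id_eq]
    simp only [ne_eq, not_and_or, not_not] at hx
    rcases hx with rfl | rfl
    · exact ha
    · exact hb
  rw [h1, Del_orb_one]
  have h2 : {x : α | ¬ (x ≠ a ∧ x ≠ b)} = {a, b} := by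
    ext x
    simp only [ne_eq, not_and_or, not_not, Set.mem_ofPred_eq, Set.mem_insert_iff,
      Set.mem_singleton_iff]
  have h3 : Nat.card {x : α // ¬ (x ≠ a ∧ x ≠ b)} = ({x : α | ¬ (x ≠ a ∧ x ≠ b)} : Set α).ncard :=
    Nat.card_coe_set_eq _
  rw [show Nat.card {x : α // (fun y => ¬ (fun z => z ≠ a ∧ z ≠ b) y) x} =
    Nat.card {x : α // ¬ (x ≠ a ∧ x ≠ b)} from rfl, h3, h2, Set.ncard_pair hab]

private theorem Del_finite_dart [Finite V] (G : SimpleGraph V) : Finite G.Dart :=
  Finite.of_injective (fun d : G.Dart => d.toProd) SimpleGraph.Dart.toProd_injective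

private theorem Del_swap_fst {G : SimpleGraph V} [DecidableEq G.Dart] {a b : G.Dart}
    (h : a.fst = b.fst) (x : G.Dart) : (swap a b x).fst = x.fst := by
  by_cases h1 : x = a
  · rw [h1, swap_apply_left, h]
  · by_cases h2 : x = b
    · rw [h2, swap_apply_right, h]
    · rw [swap_apply_of_ne_of_ne h1 h2]

/-- The darts of the graph with one edge deleted. -/
private def Del_equiv (G : SimpleGraph V) (d0 d1 : G.Dart) (h01 : d1 = d0.symm) :
    {d : G.Dart // d ≠ d0 ∧ d ≠ d1} ≃ (G.deleteEdges {s(d0.fst, d0.snd)}).Dart where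
  toFun d := ⟨d.1.toProd, by
    rw [SimpleGraph.deleteEdges_adj]
    refine ⟨d.1.adj, ?_⟩
    intro h
    have h1 : s(d.1.fst, d.1.snd) = s(d0.fst, d0.snd) := h
    rw [Sym2.eq_iff] at h1
    rcases h1 with ⟨h2, h3⟩ | ⟨h2, h3⟩
    · exact d.2.1 (SimpleGraph.Dart.ext _ _ (Prod.ext h2 h3))
    · apply d.2.2
      exact (SimpleGraph.Dart.ext _ d0.symm (Prod.ext h2 h3)).trans h01.symm⟩
  invFun d := ⟨⟨d.toProd, (SimpleGraph.deleteEdges_adj.1 d.adj).1⟩, by
    have h := (SimpleGraph.deleteEdges_adj.1 d.adj).2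
    constructor
    · intro h1
      apply h
      have h2 := congrArg SimpleGraph.Dart.toProd h1
      simp only at h2
      rw [Set.mem_singleton_iff, h2]
    · intro h1
      apply h
      rw [h01] at h1
      have h2 := congrArg SimpleGraph.Dart.toProd h1
      simp only at h2
      rw [Set.mem_singleton_iff, h2]
      exact Sym2.eq_swap⟩
  left_inv d := by
    apply Subtype.ext
    rfl
  right_inv d := rfl

/-- Deleting one edge. -/
theorem psiLe_deleteEdge [Finite V] (G : SimpleGraph V) (u v : V) (c : ℤ) (hG : PsiLe G c) :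
    PsiLe (G.deleteEdges {s(u, v)}) c := by
  classical
  have := Del_finite_dart G
  by_cases huv : G.Adj u v
  swap
  · have : G.deleteEdges {s(u, v)} = G := by
      ext a b
      rw [SimpleGraph.deleteEdges_adj]
      constructor
      · exact fun h => h.1
      · intro h
        refine ⟨h, fun h1 => huv ?_⟩
        have h2 : s(a, b) = s(u, v) := h1
        rw [Sym2.eq_iff] at h2
        rcases h2 with ⟨rfl, rfl⟩ | ⟨rfl, rfl⟩
        · exact h
        · exact h.symm
    rw [this]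
    exact hG
  obtain ⟨σ, hσ, hle⟩ := hG
  set d0 : G.Dart := ⟨(u, v), huv⟩ with hd0
  set d1 : G.Dart := d0.symm with hd1
  have hne : d0 ≠ d1 := (SimpleGraph.Dart.symm_ne d0).symm
  set F : Perm G.Dart := flip G * swap d0 d1 with hF
  have hflip : ∀ d : G.Dart, flip G d = d.symm := fun d => rfl
  have hF0 : F d0 = d0 := by
    rw [hF, Perm.mul_apply, swap_apply_left, hflip, hd1, SimpleGraph.Dart.symm_symm]
  have hF1 : F d1 = d1 := by
    rw [hF, Perm.mul_apply, swap_apply_right, hflip]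
  have hFx : ∀ x, x ≠ d0 → x ≠ d1 → F x = x.symm := by
    intro x h0 h1
    rw [hF, Perm.mul_apply, swap_apply_of_ne_of_ne h0 h1, hflip]
  set ψ : Perm G.Dart := σ * F with hψ
  have hφ : orb (σ * flip G) ≤ orb ψ + 1 := by
    have := orb_le_mul_swap (σ * flip G) d0 d1
    rwa [mul_assoc] at this
  -- first step
  set σ₁ : Perm G.Dart := swap d0 (σ d0) * σ with hσ₁
  have hψ1 : swap d0 (ψ d0) * ψ = σ₁ * F := by
    have : ψ d0 = σ d0 := by rw [hψ, Perm.mul_apply, hF0]
    rw [this, hψ, hσ₁, mul_assoc]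
  have ho1 := Del_bypass σ d0
  have ho1' := Del_bypass ψ d0
  rw [hψ1] at ho1'
  have hc1 : ψ d0 = σ d0 := by rw [hψ, Perm.mul_apply, hF0]
  rw [hc1] at ho1'
  rw [← hσ₁] at ho1
  have hσ₁0 : σ₁ d0 = d0 := by rw [hσ₁, Perm.mul_apply, swap_apply_right]
  have hfst1 : ∀ d, (σ₁ d).fst = d.fst := by
    intro d
    rw [hσ₁, Perm.mul_apply, Del_swap_fst (hσ d0).symm, hσ]
  -- second step
  set ψ₁ : Perm G.Dart := σ₁ * F with hψ₁
  set σ₂ : Perm G.Dart := swap d1 (σ₁ d1) * σ₁ with hσ₂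
  have hψ2 : swap d1 (ψ₁ d1) * ψ₁ = σ₂ * F := by
    have : ψ₁ d1 = σ₁ d1 := by rw [hψ₁, Perm.mul_apply, hF1]
    rw [this, hψ₁, hσ₂]
    simp only [mul_assoc]
  have ho2 := Del_bypass σ₁ d1
  have ho2' := Del_bypass ψ₁ d1
  rw [hψ2] at ho2'
  have hc2 : ψ₁ d1 = σ₁ d1 := by rw [hψ₁, Perm.mul_apply, hF1]
  rw [hc2] at ho2'
  rw [← hσ₂] at ho2
  have hfst2 : ∀ d, (σ₂ d).fst = d.fst := by
    intro d
    rw [hσ₂, Perm.mul_apply, Del_swap_fst (hfst1 d1).symm, hfst1]
  have hσ₂1 : σ₂ d1 = d1 := by rw [hσ₂, Perm.mul_apply, swap_apply_right]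
  have hσ₂0 : σ₂ d0 = d0 := by
    rw [hσ₂, Perm.mul_apply, hσ₁0]
    apply swap_apply_of_ne_of_ne hne
    intro h
    apply hne
    apply σ₁.injective
    rw [hσ₁0]
    exact h
  have hdiff : (orb σ₂ : ℤ) - orb (σ₂ * F) = orb σ - orb ψ := by
    have e1 : (orb σ₁ : ℤ) - orb ψ₁ = orb σ - orb ψ := by
      rw [ho1, ho1']
      push_cast
      ring
    have e2 : (orb σ₂ : ℤ) - orb (σ₂ * F) = orb σ₁ - orb ψ₁ := by
      rw [ho2, ho2']
      push_cast
      ring
    rw [e2, e1]
  -- restriction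
  have hp : ∀ x, (fun y => y ≠ d0 ∧ y ≠ d1) (σ₂ x) ↔ (fun y => y ≠ d0 ∧ y ≠ d1) x := by
    intro x
    simp only
    constructor
    · rintro ⟨h0, h1⟩
      exact ⟨fun h => h0 (by rw [h, hσ₂0]), fun h => h1 (by rw [h, hσ₂1])⟩
    · rintro ⟨h0, h1⟩
      exact ⟨fun h => h0 (σ₂.injective (by rw [h, hσ₂0])),
        fun h => h1 (σ₂.injective (by rw [h, hσ₂1]))⟩
  set ψ₂ : Perm G.Dart := σ₂ * F with hψ₂
  have hψ₂0 : ψ₂ d0 = d0 := by rw [hψ₂, Perm.mul_apply, hF0, hσ₂0]
  have hψ₂1 : ψ₂ d1 = d1 := by rw [hψ₂, Perm.mul_apply, hF1, hσ₂1]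
  have hq : ∀ x, (fun y => y ≠ d0 ∧ y ≠ d1) (ψ₂ x) ↔ (fun y => y ≠ d0 ∧ y ≠ d1) x := by
    intro x
    simp only
    constructor
    · rintro ⟨h0, h1⟩
      exact ⟨fun h => h0 (by rw [h, hψ₂0]), fun h => h1 (by rw [h, hψ₂1])⟩
    · rintro ⟨h0, h1⟩
      exact ⟨fun h => h0 (ψ₂.injective (by rw [h, hψ₂0])),
        fun h => h1 (ψ₂.injective (by rw [h, hψ₂1]))⟩
  have hr1 := Del_restrict d0 d1 hne σ₂ hσ₂0 hσ₂1 hp
  have hr2 := Del_restrict d0 d1 hne ψ₂ hψ₂0 hψ₂1 hq
  set σr := Perm.subtypePerm (p := fun y => y ≠ d0 ∧ y ≠ d1) σ₂ hp with hσr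
  set ψr := Perm.subtypePerm (p := fun y => y ≠ d0 ∧ y ≠ d1) ψ₂ hq with hψr
  set e := Del_equiv G d0 d1 hd1 with he
  have hE : ((G.deleteEdges {s(u, v)}).edgeSet.ncard : ℤ) + 1 = G.edgeSet.ncard := by
    rw [SimpleGraph.edgeSet_deleteEdges]
    have : s(u, v) ∈ G.edgeSet := huv
    have h1 := Set.ncard_sdiff_singleton_add_one this (Set.toFinite _)
    exact_mod_cast h1
  refine ⟨(e.symm.trans σr).trans e, ?_, ?_⟩
  · intro d
    have h1 : (((e.symm.trans σr).trans e) d).fst = (σ₂ (e.symm d).1).fst := rfl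
    rw [h1, hfst2]
    rfl
  · have h1 : ((e.symm.trans σr).trans e) * flip (G.deleteEdges {s(u, v)}) =
        (e.symm.trans ψr).trans e := by
      ext1 d
      rw [Perm.mul_apply]
      simp only [Equiv.trans_apply]
      congr 1
      apply Subtype.ext
      have h2 : (σr (e.symm ((flip (G.deleteEdges {s(u, v)})) d))).1 =
        σ₂ (e.symm d).1.symm := rfl
      have h3 : (ψr (e.symm d)).1 = σ₂ (F (e.symm d).1) := rfl
      rw [h2, h3, hFx _ (e.symm d).2.1 (e.symm d).2.2]
    rw [h1, orb_congr, orb_congr, Nat.card_coe_set_eq]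
    rw [Nat.card_coe_set_eq] at hle
    have h4 : (orb σ₂ : ℤ) = orb σr + 2 := by exact_mod_cast hr1
    have h5 : (orb ψ₂ : ℤ) = orb ψr + 2 := by exact_mod_cast hr2
    have h6 : (orb (σ * flip G) : ℤ) ≤ orb ψ + 1 := by exact_mod_cast hφ
    linarith

private theorem Del_card_dart [Finite V] (G : SimpleGraph V) :
    Nat.card G.Dart = 2 * Nat.card G.edgeSet := by
  classical
  have := Fintype.ofFinite V
  rw [Nat.card_eq_fintype_card (α := G.Dart), SimpleGraph.dart_card_eq_twice_card_edges,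
    SimpleGraph.edgeFinset_card, Nat.card_eq_fintype_card]

theorem psiLe_mono [Finite V] (H G : SimpleGraph V) (h : H ≤ G) (c : ℤ) (hG : PsiLe G c) :
    PsiLe H c := by
  obtain ⟨n, hn⟩ : ∃ n, (G.edgeSet \ H.edgeSet).ncard = n := ⟨_, rfl⟩
  induction n using Nat.strong_induction_on generalizing G with
  | _ n ih =>
    by_cases h0 : (G.edgeSet \ H.edgeSet) = ∅
    · have : G = H := by
        apply le_antisymm _ h
        rw [← SimpleGraph.edgeSet_subset_edgeSet]
        exact Set.sdiff_eq_empty.1 h0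
      rw [← this]
      exact hG
    · obtain ⟨e, he, heH⟩ := Set.nonempty_iff_ne_empty.2 h0
      induction e using Sym2.ind with
      | _ u v =>
        refine ih ((G.deleteEdges {s(u, v)}).edgeSet \ H.edgeSet).ncard ?_
          (G.deleteEdges {s(u, v)}) ?_ (psiLe_deleteEdge G u v c hG) rfl
        · rw [← hn]
          apply Set.ncard_lt_ncard _ (Set.toFinite _)
          rw [SimpleGraph.edgeSet_deleteEdges]
          refine ⟨fun x hx => ⟨hx.1.1, hx.2⟩, fun hsub => ?_⟩
          exact (hsub ⟨he, heH⟩).1.2 rfl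
        · intro a b hab
          rw [SimpleGraph.deleteEdges_adj]
          refine ⟨h hab, fun h1 => heH ?_⟩
          have h2 : s(a, b) = s(u, v) := h1
          rw [← h2]
          exact hab

/-- A graph that maps into `K`, injectively on its non-isolated vertices, inherits the bound. -/
theorem psiLe_of_hom [Finite V] [Finite W] (H : SimpleGraph V) (K : SimpleGraph W) (f : V → W)
    (hinj : ∀ u v, (∃ w, H.Adj u w) → (∃ w, H.Adj v w) → f u = f v → u = v)
    (hadj : ∀ u v, H.Adj u v → K.Adj (f u) (f v)) (c : ℤ) (hK : PsiLe K c) : PsiLe H c := by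
  classical
  set H' : SimpleGraph W :=
    { Adj := fun x y => ∃ u v, H.Adj u v ∧ f u = x ∧ f v = y
      symm := ⟨by
        rintro x y ⟨u, v, h, h1, h2⟩
        exact ⟨v, u, h.symm, h2, h1⟩⟩
      loopless := ⟨by
        rintro x ⟨u, v, h, h1, h2⟩
        have := hadj u v h
        rw [h1, h2] at this
        exact K.loopless.irrefl x this⟩ } with hH'
  have hle : H' ≤ K := by
    rintro x y ⟨u, v, h, rfl, rfl⟩
    exact hadj u v h
  obtain ⟨σ, hσ, hσc⟩ := psiLe_mono H' K hle c hK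
  have hbij : Function.Bijective (fun d : H.Dart =>
      (⟨(f d.fst, f d.snd), ⟨d.fst, d.snd, d.adj, rfl, rfl⟩⟩ : H'.Dart)) := by
    constructor
    · intro d d' h
      have h1 := congrArg SimpleGraph.Dart.toProd h
      simp only [Prod.mk.injEq] at h1
      apply SimpleGraph.Dart.ext
      apply Prod.ext
      · exact hinj _ _ ⟨_, d.adj⟩ ⟨_, d'.adj⟩ h1.1
      · exact hinj _ _ ⟨_, d.adj.symm⟩ ⟨_, d'.adj.symm⟩ h1.2
    · rintro ⟨⟨x, y⟩, u, v, h, h1, h2⟩
      refine ⟨⟨(u, v), h⟩, ?_⟩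
      apply SimpleGraph.Dart.ext
      exact Prod.ext h1 h2
  set e : H.Dart ≃ H'.Dart := Equiv.ofBijective _ hbij with he
  have hefst : ∀ d, (e d).fst = f d.fst := fun d => rfl
  have heflip : ∀ d, e d.symm = (e d).symm := fun d => rfl
  have hcard : Nat.card H.edgeSet = Nat.card H'.edgeSet := by
    have h1 := Nat.card_congr e
    rw [Del_card_dart, Del_card_dart] at h1
    omega
  refine ⟨(e.symm.symm.trans σ).trans e.symm, ?_, ?_⟩
  · intro d
    have h1 : f (e.symm (σ (e d))).fst = f d.fst := by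
      rw [← hefst, Equiv.apply_symm_apply, hσ, hefst]
    exact hinj _ _ ⟨_, (e.symm (σ (e d))).adj⟩ ⟨_, d.adj⟩ h1
  · have h1 : ((e.symm.symm.trans σ).trans e.symm) * flip H =
        (e.symm.symm.trans (σ * flip H')).trans e.symm := by
      ext1 d
      rfl
    rw [h1, orb_congr, orb_congr, hcard]
    exact hσc

end Pool.Agent.H95.BG
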