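import Pool.Agent.H95.BG.Defs

/-!
Project BG, module Disc: passage from bars in the plane to the discrete model.

Heights: `h i` = the number of `j` with `(y j, j) < (y i, i)` lexicographically; injective, and
`h s` strictly between `h i` and `h j` implies `y s ∈ uIcc (y i) (y j)`, `s ≠ i, j`. Events: `(i, false)`
has key `(l i, 0, i)`, `(i, true)` has key `(r i, 1, i)`, ordered lexicographically (all keys
distinct; `ev e` = the number of events with smaller key, a bijection onto `Fin (2 n)`; births
come before deaths at the same abscissa). For a real `x` let `N(x)` be the number of events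
`(i, false)` with `l i ≤ x` or `(i, true)` with `r i < x`; these are exactly the events number
`0, …, N(x) - 1`. If `N(x) > 0` and `t = N(x) - 1`, then `i` is alive at time `t` (in the sense of
`Model.alive`) iff `l i ≤ x ≤ r i`. So an edge of `B.graph k` with witness `x` is an edge of
`P.graph k` with witness `t` (a subset of the blockers is counted).
-/

set_option autoImplicit false

namespace Pool.Agent.H95.BG

private theorem Disc_rank {α β : Type*} [Fintype α] [LinearOrder β] (key : α → β) :
    ∃ rk : α → ℕ, (∀ a b, rk a < rk b ↔ key a < key b) ∧ (∀ a, rk a < Fintype.card α) ∧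
      ∀ E : Finset α, (∀ a ∈ E, ∀ b, key b ≤ key a → b ∈ E) → ∀ a, a ∈ E ↔ rk a < E.card := by
  classical
  have hr : ∀ a b, (Finset.univ.filter fun c => key c < key a).card <
      (Finset.univ.filter fun c => key c < key b).card ↔ key a < key b := by
    intro a b
    constructor
    · intro h
      by_contra hab
      rw [not_lt] at hab
      refine absurd h (not_lt.2 (Finset.card_le_card fun c hc => ?_))
      rw [Finset.mem_filter] at hc ⊢
      exact ⟨hc.1, lt_of_lt_of_le hc.2 hab⟩
    · intro h
      refine Finset.card_lt_card ?_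
      rw [Finset.ssubset_iff_of_subset]
      · refine ⟨a, ?_, ?_⟩
        · rw [Finset.mem_filter]
          exact ⟨Finset.mem_univ _, h⟩
        · rw [Finset.mem_filter]
          exact fun h' => lt_irrefl _ h'.2
      · intro c hc
        rw [Finset.mem_filter] at hc ⊢
        exact ⟨hc.1, hc.2.trans h⟩
  refine ⟨fun a => (Finset.univ.filter fun c => key c < key a).card, hr, ?_, ?_⟩
  · intro a
    refine Finset.card_lt_card ?_
    rw [Finset.ssubset_iff_of_subset (Finset.filter_subset _ _)]
    refine ⟨a, Finset.mem_univ _, ?_⟩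
    rw [Finset.mem_filter]
    exact fun h' => lt_irrefl _ h'.2
  · intro E hE a
    constructor
    · intro ha
      refine Finset.card_lt_card ?_
      rw [Finset.ssubset_iff_of_subset]
      · refine ⟨a, ha, ?_⟩
        rw [Finset.mem_filter]
        exact fun h' => lt_irrefl _ h'.2
      · intro c hc
        rw [Finset.mem_filter] at hc
        exact hE a ha c hc.2.le
    · intro h
      by_contra ha
      refine absurd h (not_lt.2 (Finset.card_le_card fun c hc => ?_))
      rw [Finset.mem_filter]
      refine ⟨Finset.mem_univ _, ?_⟩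
      by_contra hc'
      rw [not_lt] at hc'
      exact ha (hE c hc a hc')

theorem exists_model {n : ℕ} (B : BarSystem n) (k : ℕ) :
    ∃ P : Model n, B.graph k ≤ P.graph k := by
  classical
  obtain ⟨h, hh, -, -⟩ := Disc_rank (fun i : Fin n => (toLex (B.y i, i) : ℝ ×ₗ Fin n))
  obtain ⟨rk, hrk, hrkc, hE⟩ := Disc_rank (fun e : Fin n × Bool =>
    (toLex (if e.2 then B.r e.1 else B.l e.1, toLex (e.2, e.1)) : ℝ ×ₗ (Bool ×ₗ Fin n)))
  have hinj : Function.Injective h := by
    intro a b hab
    rcases lt_trichotomy (toLex (B.y a, a) : ℝ ×ₗ Fin n) (toLex (B.y b, b)) with h1 | h1 | h1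
    · exact absurd hab ((hh a b).2 h1).ne
    · have := congrArg (fun p : ℝ ×ₗ Fin n => (ofLex p).2) h1
      exact this
    · exact absurd hab ((hh b a).2 h1).ne'
  have hrinj : Function.Injective rk := by
    intro a b hab
    have key := fun a b => (hrk a b)
    rcases lt_trichotomy
      (toLex (if a.2 then B.r a.1 else B.l a.1, toLex (a.2, a.1)) : ℝ ×ₗ (Bool ×ₗ Fin n))
      (toLex (if b.2 then B.r b.1 else B.l b.1, toLex (b.2, b.1))) with h1 | h1 | h1
    · exact absurd hab ((key a b).2 h1).ne
    · have h2 := congrArg (fun p : ℝ ×ₗ (Bool ×ₗ Fin n) => ofLex (ofLex p).2) h1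
      simp only [ofLex_toLex, Prod.mk.injEq] at h2
      exact Prod.ext h2.2 h2.1
    · exact absurd hab ((key b a).2 h1).ne'
  have hcard : Fintype.card (Fin n × Bool) = 2 * n := by
    rw [Fintype.card_prod, Fintype.card_fin, Fintype.card_bool]
    ring
  have hev : Function.Bijective (fun e : Fin n × Bool => (⟨rk e, hcard ▸ hrkc e⟩ : Fin (2 * n))) := by
    rw [Fintype.bijective_iff_injective_and_card]
    refine ⟨fun a b hab => hrinj (by simpa using hab), ?_⟩
    rw [hcard, Fintype.card_fin]
  let P : Model n :=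
    { h := h
      h_inj := hinj
      ev := Equiv.ofBijective _ hev
      ev_lt := fun v => by
        change rk (v, false) < rk (v, true)
        rw [hrk]
        exact (Prod.Lex.toLex_lt_toLex).2 (Or.inl (B.lt v)) }
  have hPt : ∀ e, P.time e = rk e := fun e => rfl
  refine ⟨P, ?_⟩
  rintro i j ⟨hne, x, hxi, hxj, hk⟩
  refine ⟨hne, ?_⟩
  -- the events before `x`
  let E : Finset (Fin n × Bool) := Finset.univ.filter fun e =>
    if e.2 then B.r e.1 < x else B.l e.1 ≤ x
  have hEd : ∀ a ∈ E, ∀ b, (toLex (if b.2 then B.r b.1 else B.l b.1, toLex (b.2, b.1)) :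
      ℝ ×ₗ (Bool ×ₗ Fin n)) ≤ toLex (if a.2 then B.r a.1 else B.l a.1, toLex (a.2, a.1)) →
      b ∈ E := by
    rintro ⟨a, ba⟩ ha ⟨b, bb⟩ hab
    simp only [E, Finset.mem_filter, Finset.mem_univ, true_and] at ha ⊢
    rw [Prod.Lex.toLex_le_toLex] at hab
    simp only at hab
    cases ba <;> cases bb <;> simp only [Bool.false_eq_true, if_false, if_true] at ha hab ⊢
    · rcases hab with h1 | ⟨h1, -⟩ <;> linarith
    · rcases hab with h1 | ⟨h1, h2⟩
      · linarith
      · rw [Prod.Lex.toLex_le_toLex] at h2
        simp only at h2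
        rcases h2 with h2 | ⟨h2, -⟩
        · exact absurd h2 (by decide)
        · exact absurd h2 (by decide)
    · rcases hab with h1 | ⟨h1, -⟩ <;> linarith
    · rcases hab with h1 | ⟨h1, -⟩ <;> linarith
  have hEm := hE E hEd
  have hEl : ∀ v, (v, false) ∈ E ↔ B.l v ≤ x := by
    intro v
    simp [E]
  have hEr : ∀ v, (v, true) ∈ E ↔ B.r v < x := by
    intro v
    simp [E]
  have hN : 0 < E.card := Finset.card_pos.2 ⟨(i, false), (hEl i).2 hxi.1⟩
  have halive : ∀ v, P.alive (E.card - 1) v ↔ x ∈ Set.Icc (B.l v) (B.r v) := by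
    intro v
    unfold Model.alive
    rw [hPt, hPt, Set.mem_Icc, ← hEl, hEm]
    have h2 : B.r v < x ↔ rk (v, true) < E.card := by rw [← hEr, hEm]
    have h3 : x ≤ B.r v ↔ ¬ (rk (v, true) < E.card) := by rw [← h2, not_lt]
    rw [h3]
    omega
  refine ⟨E.card - 1, (halive i).2 hxi, (halive j).2 hxj, ?_⟩
  refine le_trans ?_ hk
  unfold nbtw
  rw [← Set.ncard_coe_finset]
  refine Set.ncard_le_ncard ?_ (Set.toFinite _)
  intro w hw
  rw [Finset.mem_coe, Finset.mem_filter] at hw
  obtain ⟨hw1, hw2⟩ := hw
  have hw1' : P.alive (E.card - 1) w := by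
    unfold Model.aliveSet at hw1
    exact (Finset.mem_filter.1 hw1).2
  have hPh : P.h = h := rfl
  unfold btw at hw2
  rw [hPh] at hw2
  have hylt : ∀ a b, h a < h b → B.y a ≤ B.y b := by
    intro a b hab
    rw [hh, Prod.Lex.toLex_lt_toLex] at hab
    rcases hab with h1 | ⟨h1, -⟩
    · exact h1.le
    · exact h1.le
  refine ⟨?_, ?_, (halive w).1 hw1', ?_⟩
  · rintro rfl
    omega
  · rintro rfl
    omega
  · rw [Set.mem_uIcc]
    rcases lt_or_ge (h i) (h j) with h1 | h1
    · left
      exact ⟨hylt _ _ (by omega), hylt _ _ (by omega)⟩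
    · right
      exact ⟨hylt _ _ (by omega), hylt _ _ (by omega)⟩

end Pool.Agent.H95.BG
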