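import Pool.Agent.H95.BG.Defs

/-!
Project BG, module ExtStep: the steps of the extended stack.

`W.S 0 = ∅` and `W.S (i + 1)` is the set of the bars `v ∉ R` such that the first event of the window
of the birth of `v` has time `≤ i` and the last event of the window of the death of `v` has time `> i`
(an interval of times; note `time (v, false) < time (v, true)`).
-/

set_option autoImplicit false

namespace Pool.Agent.H95.BG

open Finset

namespace Windows

variable {n : ℕ} {P : Model n} {R : Finset (Fin n)} {L : ℕ} (W : Windows P R L)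

private theorem ExtStep_mem_S {i : ℕ} {v : Fin n} : v ∈ W.S (i + 1) ↔ W.ext i v := by
  simp [Windows.S]

private theorem ExtStep_time_inj {e e' : Fin n × Bool} (h : P.time e = P.time e') : e = e' := by
  unfold Model.time at h
  exact P.ev.injective (Fin.ext h)

theorem mem_sdiff_insert (i : ℕ) (v : Fin n) (h1 : v ∉ W.S i) (h2 : v ∈ W.S (i + 1)) :
    v ∉ R ∧ (∃ e : Fin n × Bool, e.1 ∉ R ∧ W.win e = W.win (v, false) ∧ P.time e = i) ∧
      ∀ e : Fin n × Bool, e.1 ∉ R → W.win e = W.win (v, false) → i ≤ P.time e := by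
  rw [ExtStep_mem_S] at h2
  obtain ⟨hR, ⟨e, he1, he2, he3⟩, ⟨e', he1', he2', he3'⟩⟩ := h2
  cases i with
  | zero => exact ⟨hR, ⟨e, he1, he2, by omega⟩, fun _ _ _ => Nat.zero_le _⟩
  | succ j =>
    rw [ExtStep_mem_S] at h1
    have hb : ∀ e : Fin n × Bool, e.1 ∉ R → W.win e = W.win (v, false) → j + 1 ≤ P.time e := by
      intro f hf1 hf2
      by_contra hlt
      exact h1 ⟨hR, ⟨f, hf1, hf2, by omega⟩, ⟨e', he1', he2', by omega⟩⟩
    exact ⟨hR, ⟨e, he1, he2, le_antisymm he3 (hb e he1 he2)⟩, hb⟩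

theorem mem_sdiff_delete (i : ℕ) (v : Fin n) (h1 : v ∈ W.S i) (h2 : v ∉ W.S (i + 1)) :
    v ∉ R ∧ (∃ e : Fin n × Bool, e.1 ∉ R ∧ W.win e = W.win (v, true) ∧ P.time e = i) ∧
      ∀ e : Fin n × Bool, e.1 ∉ R → W.win e = W.win (v, true) → P.time e ≤ i := by
  cases i with
  | zero => simp [Windows.S] at h1
  | succ j =>
    rw [ExtStep_mem_S] at h1 h2
    obtain ⟨hR, ⟨e, he1, he2, he3⟩, ⟨e', he1', he2', he3'⟩⟩ := h1
    have hb : ∀ e : Fin n × Bool, e.1 ∉ R → W.win e = W.win (v, true) → P.time e ≤ j + 1 := by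
      intro f hf1 hf2
      by_contra hlt
      exact h2 ⟨hR, ⟨e, he1, he2, by omega⟩, ⟨f, hf1, hf2, by omega⟩⟩
    exact ⟨hR, ⟨e', he1', he2', le_antisymm (hb e' he1' he2') (by omega)⟩, hb⟩

theorem S_mono (i : ℕ) : W.S i ⊆ W.S (i + 1) ∨ W.S (i + 1) ⊆ W.S i := by
  by_contra hcon
  push Not at hcon
  obtain ⟨hc1, hc2⟩ := hcon
  rw [Finset.not_subset] at hc1 hc2
  obtain ⟨v, hv1, hv2⟩ := hc1
  obtain ⟨v', hv1', hv2'⟩ := hc2
  obtain ⟨hR, ⟨e, he1, he2, he3⟩, hall⟩ := W.mem_sdiff_delete i v hv1 hv2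
  obtain ⟨hR', ⟨e', he1', he2', he3'⟩, hall'⟩ := W.mem_sdiff_insert i v' hv2' hv1'
  have hee : e = e' := ExtStep_time_inj (he3.trans he3'.symm)
  subst hee
  have hw : W.win (v, true) = W.win (v', false) := he2.symm.trans he2'
  have t1 : P.time (v, true) = i :=
    le_antisymm (hall _ hR rfl) (hall' _ hR hw)
  have t2 : P.time (v', false) = i :=
    le_antisymm (hall _ hR' hw.symm) (hall' _ hR' rfl)
  have h := ExtStep_time_inj (t1.trans t2.symm)
  simp at h

theorem S_last : W.S (2 * n) = ∅ := by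
  cases n with
  | zero => rfl
  | succ m =>
    have h2 : 2 * (m + 1) = 2 * m + 1 + 1 := by ring
    rw [h2]
    ext v
    rw [ExtStep_mem_S]
    simp only [notMem_empty, iff_false]
    rintro ⟨_, _, ⟨e, _, _, he⟩⟩
    have := (P.ev e).2
    unfold Model.time at he
    omega

private theorem ExtStep_chg {i : ℕ} {v : Fin n} (h : v ∈ chg W.S i) :
    (v ∉ W.S i ∧ v ∈ W.S (i + 1)) ∨ (v ∈ W.S i ∧ v ∉ W.S (i + 1)) := by
  unfold chg at h
  rw [Finset.mem_symmDiff] at h
  tauto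

theorem chg_le (i : ℕ) : #(chg W.S i) ≤ L := by
  rcases (chg W.S i).eq_empty_or_nonempty with h0 | ⟨v₀, hv₀⟩
  · rw [h0]
    exact Nat.zero_le _
  rcases W.S_mono i with hm | hm
  · -- insertions
    have hins : ∀ v ∈ chg W.S i, v ∉ W.S i ∧ v ∈ W.S (i + 1) := fun v hv => by
      rcases W.ExtStep_chg hv with h | h
      · exact h
      · exact absurd (hm h.1) h.2
    obtain ⟨hR, ⟨e, he1, he2, he3⟩, _⟩ :=
      W.mem_sdiff_insert i v₀ (hins v₀ hv₀).1 (hins v₀ hv₀).2
    refine le_trans ?_ (W.card_le (W.win e))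
    refine Finset.card_le_card_of_injOn (fun v => (v, false)) (fun v hv => ?_)
      (fun v _ v' _ h => (Prod.mk.inj h).1)
    obtain ⟨hR', ⟨e', he1', he2', he3'⟩, _⟩ := W.mem_sdiff_insert i v (hins v hv).1 (hins v hv).2
    have hee : e = e' := ExtStep_time_inj (he3.trans he3'.symm)
    subst hee
    simp only [coe_filter, mem_univ, true_and, Set.mem_ofPred_eq]
    exact ⟨hR', he2'.symm⟩
  · -- deletions
    have hdel : ∀ v ∈ chg W.S i, v ∈ W.S i ∧ v ∉ W.S (i + 1) := fun v hv => by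
      rcases W.ExtStep_chg hv with h | h
      · exact absurd (hm h.2) h.1
      · exact h
    obtain ⟨hR, ⟨e, he1, he2, he3⟩, _⟩ :=
      W.mem_sdiff_delete i v₀ (hdel v₀ hv₀).1 (hdel v₀ hv₀).2
    refine le_trans ?_ (W.card_le (W.win e))
    refine Finset.card_le_card_of_injOn (fun v => (v, true)) (fun v hv => ?_)
      (fun v _ v' _ h => (Prod.mk.inj h).1)
    obtain ⟨hR', ⟨e', he1', he2', he3'⟩, _⟩ := W.mem_sdiff_delete i v (hdel v hv).1 (hdel v hv).2
    have hee : e = e' := ExtStep_time_inj (he3.trans he3'.symm)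
    subst hee
    simp only [coe_filter, mem_univ, true_and, Set.mem_ofPred_eq]
    exact ⟨hR', he2'.symm⟩

/-- The step is determined by the window and the kind of the change. -/
private theorem ExtStep_unique {i i' : ℕ} {v v' : Fin n}
    (h : (v ∉ W.S i ∧ v ∈ W.S (i + 1)) ∧ (v' ∉ W.S i' ∧ v' ∈ W.S (i' + 1)) ∧
        W.win (v, false) = W.win (v', false) ∨
      (v ∈ W.S i ∧ v ∉ W.S (i + 1)) ∧ (v' ∈ W.S i' ∧ v' ∉ W.S (i' + 1)) ∧
        W.win (v, true) = W.win (v', true)) : i = i' := by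
  rcases h with ⟨h1, h2, h3⟩ | ⟨h1, h2, h3⟩
  · obtain ⟨_, ⟨e, he1, he2, he3⟩, ha⟩ := W.mem_sdiff_insert i v h1.1 h1.2
    obtain ⟨_, ⟨e', he1', he2', he3'⟩, ha'⟩ := W.mem_sdiff_insert i' v' h2.1 h2.2
    have k1 := ha e' he1' (he2'.trans h3.symm)
    have k2 := ha' e he1 (he2.trans h3)
    omega
  · obtain ⟨_, ⟨e, he1, he2, he3⟩, ha⟩ := W.mem_sdiff_delete i v h1.1 h1.2
    obtain ⟨_, ⟨e', he1', he2', he3'⟩, ha'⟩ := W.mem_sdiff_delete i' v' h2.1 h2.2
    have k1 := ha e' he1' (he2'.trans h3.symm)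
    have k2 := ha' e he1 (he2.trans h3)
    omega

theorem sum_chg : ∑ i ∈ range (2 * n), #(chg W.S i) ≤ 2 * n := by
  classical
  rw [← Finset.card_sigma]
  have h2 : 2 * n = #(univ : Finset (Fin n × Bool)) := by
    rw [Finset.card_univ, Fintype.card_prod, Fintype.card_fin, Fintype.card_bool, mul_comm]
  conv_rhs => rw [h2]
  refine Finset.card_le_card_of_injOn (fun p => (p.2, decide (p.2 ∈ W.S p.1)))
    (fun p _ => Finset.mem_coe.2 (mem_univ _)) ?_
  rintro ⟨i, v⟩ hp ⟨i', v'⟩ hp' h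
  simp only [coe_sigma, Set.mem_sigma_iff, mem_coe] at hp hp'
  simp only [Prod.mk.injEq, decide_eq_decide] at h
  obtain ⟨rfl, hiff⟩ := h
  have hi : i = i' := by
    apply W.ExtStep_unique (v := v) (v' := v)
    rcases W.ExtStep_chg hp.2 with h1 | h1 <;> rcases W.ExtStep_chg hp'.2 with h2 | h2
    · exact Or.inl ⟨h1, h2, rfl⟩
    · exact absurd (hiff.2 h2.1) h1.1
    · exact absurd (hiff.1 h1.1) h2.1
    · exact Or.inr ⟨h1, h2, rfl⟩
  subst hi
  rfl

theorem card_steps :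
    L * #{i ∈ range (2 * n) | chg W.S i ≠ ∅} ≤ 2 * (2 * n + L * (3 * #R + 1)) := by
  classical
  have key : #{i ∈ range (2 * n) | chg W.S i ≠ ∅} ≤
      2 * #(image W.win {e : Fin n × Bool | e.1 ∉ R}) := by
    have hex : ∀ i, ∃ q : ℕ × Bool, chg W.S i ≠ ∅ →
        q.1 ∈ image W.win {e : Fin n × Bool | e.1 ∉ R} ∧
        ∃ v, (q.2 = false ∧ (v ∉ W.S i ∧ v ∈ W.S (i + 1)) ∧ W.win (v, false) = q.1) ∨
          (q.2 = true ∧ (v ∈ W.S i ∧ v ∉ W.S (i + 1)) ∧ W.win (v, true) = q.1) := by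
      intro i
      by_cases h : chg W.S i = ∅
      · exact ⟨(0, false), fun h' => absurd h h'⟩
      · obtain ⟨v, hv⟩ := Finset.nonempty_iff_ne_empty.2 h
        rcases W.ExtStep_chg hv with h1 | h1
        · obtain ⟨hR, _, _⟩ := W.mem_sdiff_insert i v h1.1 h1.2
          refine ⟨(W.win (v, false), false), fun _ => ⟨?_, v, Or.inl ⟨rfl, h1, rfl⟩⟩⟩
          exact Finset.mem_image.2 ⟨(v, false), by simpa using hR, rfl⟩
        · obtain ⟨hR, _, _⟩ := W.mem_sdiff_delete i v h1.1 h1.2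
          refine ⟨(W.win (v, true), true), fun _ => ⟨?_, v, Or.inr ⟨rfl, h1, rfl⟩⟩⟩
          exact Finset.mem_image.2 ⟨(v, true), by simpa using hR, rfl⟩
    choose f hf using hex
    have hle := Finset.card_le_card_of_injOn (s := {i ∈ range (2 * n) | chg W.S i ≠ ∅})
      (t := image W.win {e : Fin n × Bool | e.1 ∉ R} ×ˢ (univ : Finset Bool)) f
      (fun i hi => by
        simp only [coe_filter, mem_range, Set.mem_ofPred_eq] at hi
        simp only [coe_product, Set.mem_prod, mem_coe, mem_univ, and_true]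
        exact (hf i hi.2).1) (by
        intro i hi i' hi' h
        simp only [coe_filter, mem_range, Set.mem_ofPred_eq] at hi hi'
        obtain ⟨_, v, hv⟩ := hf i hi.2
        obtain ⟨_, v', hv'⟩ := hf i' hi'.2
        apply W.ExtStep_unique (v := v) (v' := v')
        rw [← h] at hv'
        rcases hv with ⟨a1, a2, a3⟩ | ⟨a1, a2, a3⟩ <;> rcases hv' with ⟨b1, b2, b3⟩ | ⟨b1, b2, b3⟩
        · exact Or.inl ⟨a2, b2, a3.trans b3.symm⟩
        · rw [a1] at b1
          exact absurd b1 (by decide)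
        · rw [a1] at b1
          exact absurd b1 (by decide)
        · exact Or.inr ⟨a2, b2, a3.trans b3.symm⟩)
    rw [Finset.card_product, Finset.card_univ, Fintype.card_bool] at hle
    omega
  have hc := W.count
  calc L * #{i ∈ range (2 * n) | chg W.S i ≠ ∅}
      ≤ L * (2 * #(image W.win {e : Fin n × Bool | e.1 ∉ R})) := Nat.mul_le_mul_left _ key
    _ = 2 * (L * #(image W.win {e : Fin n × Bool | e.1 ∉ R})) := by ring
    _ ≤ 2 * (2 * n + L * (3 * #R + 1)) := Nat.mul_le_mul_left _ hc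

end Windows

end Pool.Agent.H95.BG
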