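import Pool.Agent.H95.BG.Merge

/-!
Project BG, module Low: lower bound for the genus of `K_{2k+2,M}` with edges added inside the
part of size `2k+2`.

Proof. `G` is connected, every vertex has degree at least `2`, so there are no isolated vertices and
`faces = orb φ` with `φ = R.next * flip G` for every rotation system `R`. A cycle of `φ` has no
length `1` (`φ d` starts at `d.snd ≠ d.fst`) and no length `2` (`φ d = e`, `φ e = d` forces `e` to
be the reversal of `d` and `R.next e = e`, and by `cyclic` the vertex `e.fst` has degree `1`). Call a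
dart *inside* if both its ends are in `Lg`. As `G` has no edges outside `Lg`, a dart that is not
inside changes sides (between `Lg` and its complement), so the number of darts of a face that are not
inside is even. So a face of length `3` has an inside dart, and
`4 ≤ length + (number of inside darts)` for every face. Summing, `4 F ≤ 2 E + 2 E_x`, where
`E_x` is the number of edges inside `Lg`, and `E = (2k+2) M + E_x`. With
`V = 2k+2+M` we get `V - E + F ≤ V - (E - E_x)/2 = 2k+2+M-(k+1)M = 2k+2-kM`, and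
`2 ≤ V - E + F + 2 g` gives `2 g ≥ kM - 2k` for every `g` in the set defining the genus. That set is
nonempty by `exists_rotationSystem` (and a large `g`).
-/

set_option autoImplicit false

namespace Pool.Agent.H95.BG

open Finset

private lemma Low_four {α : Type*} [Fintype α] [DecidableEq α] (φ : Equiv.Perm α) (P : α → Prop)
    [DecidablePred P] (h1 : ∀ d, φ d ≠ d) (h2 : ∀ d, φ (φ d) ≠ d)
    (h3 : ∀ d, (∀ e, φ.SameCycle d e → ¬ P e) → φ (φ (φ d)) ≠ d) :
    4 * orb φ ≤ Fintype.card α + #{e | P e} := by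
  classical
  let _ : Fintype (Quotient (Equiv.Perm.SameCycle.setoid φ)) := Fintype.ofFinite _
  have hf : ∀ a b : α, (Quotient.mk (Equiv.Perm.SameCycle.setoid φ) a =
      Quotient.mk (Equiv.Perm.SameCycle.setoid φ) b) ↔ φ.SameCycle a b := by
    intro a b
    exact Quotient.eq
  obtain ⟨f, hfdef⟩ : ∃ f : α → Quotient (Equiv.Perm.SameCycle.setoid φ),
      f = Quotient.mk (Equiv.Perm.SameCycle.setoid φ) := ⟨_, rfl⟩
  have hf' : ∀ a b, f a = f b ↔ φ.SameCycle a b := by
    intro a b
    rw [hfdef]
    exact hf a b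
  unfold orb
  rw [Nat.card_eq_fintype_card]
  have e1 : Fintype.card α = ∑ q, #{a | f a = q} := by
    rw [← card_univ]
    exact card_eq_sum_card_fiberwise (fun x _ => mem_coe.2 (mem_univ _))
  have e2 : #{e | P e} = ∑ q, #{a ∈ {e | P e} | f a = q} :=
    card_eq_sum_card_fiberwise (fun x _ => mem_coe.2 (mem_univ _))
  rw [e1, e2, ← sum_add_distrib]
  calc 4 * Fintype.card (Quotient (Equiv.Perm.SameCycle.setoid φ))
      = ∑ _q : Quotient (Equiv.Perm.SameCycle.setoid φ), 4 := by
        rw [sum_const, card_univ, smul_eq_mul, mul_comm]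
    _ ≤ _ := sum_le_sum fun q _ => ?_
  obtain ⟨d, rfl⟩ : ∃ d, f d = q := by
    rw [hfdef]
    exact Quotient.exists_rep q
  have s1 : f (φ d) = f d := (hf' _ _).2 (Equiv.Perm.sameCycle_apply_left.2 (Equiv.Perm.SameCycle.refl φ d))
  have s2 : f (φ (φ d)) = f d :=
    (hf' _ _).2 (Equiv.Perm.sameCycle_apply_left.2 ((hf' _ _).1 s1))
  have s3 : f (φ (φ (φ d))) = f d :=
    (hf' _ _).2 (Equiv.Perm.sameCycle_apply_left.2 ((hf' _ _).1 s2))
  have k1 := h1 d
  have k2 := h2 d
  have k3 : φ (φ d) ≠ φ d := h1 (φ d)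
  by_cases hP : ∃ e, φ.SameCycle d e ∧ P e
  · have t1 : 3 ≤ #{a | f a = f d} := by
      have hsub : ({d, φ d, φ (φ d)} : Finset α) ⊆ ({a | f a = f d} : Finset α) := by
        intro x hx
        simp only [mem_insert, mem_singleton] at hx
        simp only [mem_filter, mem_univ, true_and]
        rcases hx with rfl | rfl | rfl
        · rfl
        · exact s1
        · exact s2
      have hc : #({d, φ d, φ (φ d)} : Finset α) = 3 := by
        rw [card_eq_three]
        exact ⟨_, _, _, k1.symm, k2.symm, k3.symm, rfl⟩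
      rw [← hc]
      exact card_le_card hsub
    have t2 : 1 ≤ #{a ∈ {e | P e} | f a = f d} := by
      obtain ⟨e, he1, he2⟩ := hP
      refine card_pos.2 ⟨e, ?_⟩
      simp only [mem_filter, mem_univ, true_and]
      exact ⟨he2, (hf' _ _).2 he1.symm⟩
    omega
  · push Not at hP
    have k4 : φ (φ (φ d)) ≠ d := h3 d hP
    have k5 : φ (φ (φ d)) ≠ φ d := fun h => k2 (φ.injective h)
    have k6 : φ (φ (φ d)) ≠ φ (φ d) := h1 _
    have t1 : 4 ≤ #{a | f a = f d} := by
      have hsub : ({d, φ d, φ (φ d), φ (φ (φ d))} : Finset α) ⊆ ({a | f a = f d} : Finset α) := by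
        intro x hx
        simp only [mem_insert, mem_singleton] at hx
        simp only [mem_filter, mem_univ, true_and]
        rcases hx with rfl | rfl | rfl | rfl
        · rfl
        · exact s1
        · exact s2
        · exact s3
      have hc : #({d, φ d, φ (φ d), φ (φ (φ d))} : Finset α) = 4 := by
        rw [card_insert_of_notMem, card_insert_of_notMem, card_insert_of_notMem, card_singleton]
        · simp only [mem_singleton]
          exact k6.symm
        · simp only [mem_insert, mem_singleton, not_or]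
          exact ⟨k3.symm, k5.symm⟩
        · simp only [mem_insert, mem_singleton, not_or]
          exact ⟨k1.symm, k2.symm, k4.symm⟩
      rw [← hc]
      exact card_le_card hsub
    omega

private lemma Low_faces {V : Type*} [Fintype V] [DecidableEq V] (G : SimpleGraph V)
    [DecidableRel G.Adj] (Lg : Finset V) (R : RotationSystem G)
    (hdeg : ∀ d : G.Dart, ∃ e : G.Dart, e.fst = d.fst ∧ e ≠ d)
    (h2 : ∀ u ∉ Lg, ∀ v ∉ Lg, ¬ G.Adj u v) :
    4 * orb (R.next * flip G) ≤
      Fintype.card G.Dart + #{d : G.Dart | d.fst ∈ Lg ∧ d.snd ∈ Lg} := by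
  have hφ : ∀ d : G.Dart, ((R.next * flip G) d).fst = d.snd := by
    intro d
    have := R.fst_next (flip G d)
    exact this
  refine Low_four _ _ ?_ ?_ ?_
  · intro d h
    have h' := hφ d
    rw [h] at h'
    exact d.fst_ne_snd h'
  · intro d h
    have a1 := hφ d
    have a2 := hφ ((R.next * flip G) d)
    rw [h] at a2
    -- the dart `φ d` is the reversal of `d`
    have a3 : (R.next * flip G) d = d.symm := by
      ext
      · exact a1
      · exact a2.symm
    have a4 : R.next d.symm = d.symm := a3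
    obtain ⟨e, he1, he2⟩ := hdeg d.symm
    have a5 := (R.cyclic d.symm e he1.symm).eq_of_left a4
    exact he2 a5.symm
  · intro d hd h
    -- every dart of the face changes sides
    have side : ∀ e : G.Dart, (R.next * flip G).SameCycle d e → (e.fst ∈ Lg ↔ e.snd ∉ Lg) := by
      intro e he
      have b1 := hd e he
      have b2 : ¬ (e.fst ∉ Lg ∧ e.snd ∉ Lg) := fun hh => h2 _ hh.1 _ hh.2 e.adj
      tauto
    have c0 : (R.next * flip G).SameCycle d d := Equiv.Perm.SameCycle.refl _ _
    have c1 := Equiv.Perm.sameCycle_apply_right.2 c0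
    have c2 := Equiv.Perm.sameCycle_apply_right.2 c1
    have d0 := side _ c0
    have d1 := side _ c1
    have d2 := side _ c2
    have e0 := hφ d
    have e1 := hφ ((R.next * flip G) d)
    have e2 := hφ ((R.next * flip G) ((R.next * flip G) d))
    rw [h] at e2
    rw [e0] at d1
    rw [e1] at d2
    rw [← e2] at d2
    tauto

theorem genus_lower {V : Type*} [Fintype V] [DecidableEq V] (G : SimpleGraph V)
    (Lg : Finset V) (k M : ℕ) (hL : #Lg = 2 * k + 2) (hM : #(Lgᶜ) = M) (hM2 : 2 ≤ M)
    (h1 : ∀ u ∈ Lg, ∀ v ∉ Lg, G.Adj u v) (h2 : ∀ u ∉ Lg, ∀ v ∉ Lg, ¬ G.Adj u v) :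
    (k : ℤ) * M - 2 * k ≤ 2 * (genus G : ℤ) := by
  classical
  -- two neighbours
  have hnb : ∀ v : V, ∃ a b : V, a ≠ b ∧ G.Adj v a ∧ G.Adj v b := by
    intro v
    by_cases hv : v ∈ Lg
    · obtain ⟨a, ha, b, hb, hab⟩ := one_lt_card.1 (by omega : 1 < #(Lgᶜ))
      rw [mem_compl] at ha hb
      exact ⟨a, b, hab, h1 v hv a ha, h1 v hv b hb⟩
    · obtain ⟨a, ha, b, hb, hab⟩ := one_lt_card.1 (by omega : 1 < #Lg)
      exact ⟨a, b, hab, (h1 a ha v hv).symm, (h1 b hb v hv).symm⟩
  have hdeg : ∀ d : G.Dart, ∃ e : G.Dart, e.fst = d.fst ∧ e ≠ d := by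
    intro d
    obtain ⟨a, b, hab, ha, hb⟩ := hnb d.fst
    by_cases hda : d.snd = a
    · refine ⟨⟨(d.fst, b), hb⟩, rfl, fun h => hab ?_⟩
      rw [← hda, ← h]
    · refine ⟨⟨(d.fst, a), ha⟩, rfl, fun h => hda ?_⟩
      rw [← h]
  have hiso : Nat.card {v : V // ∀ w, ¬ G.Adj v w} = 0 := by
    rw [Nat.card_eq_zero]
    left
    refine ⟨fun v => ?_⟩
    obtain ⟨a, b, hab, ha, hb⟩ := hnb v.1
    exact v.2 a ha
  have hV : Nat.card V = 2 * k + 2 + M := by
    rw [Nat.card_eq_fintype_card, ← card_add_card_compl Lg, hL, hM]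
  have hne : Nonempty V := by
    obtain ⟨a, ha⟩ := card_pos.1 (by omega : 0 < #Lg)
    exact ⟨a⟩
  have hcc : 0 < Nat.card G.ConnectedComponent := by
    rw [Nat.card_pos_iff]
    exact ⟨⟨G.connectedComponentMk hne.some⟩, inferInstance⟩
  have hE : Fintype.card G.Dart = 2 * Nat.card G.edgeSet := by
    rw [SimpleGraph.dart_card_eq_twice_card_edges, Nat.card_eq_fintype_card,
      SimpleGraph.edgeFinset_card]
  -- the set defining the genus is nonempty
  obtain ⟨R₀⟩ := exists_rotationSystem G
  have hmem : genus G ∈ {g : ℕ | ∃ R : RotationSystem G,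
      2 * (Nat.card G.ConnectedComponent : ℤ) ≤
      (Nat.card V : ℤ) - Nat.card G.edgeSet + R.faces + 2 * g} := by
    unfold genus
    refine Nat.sInf_mem ⟨Nat.card G.ConnectedComponent + Nat.card G.edgeSet, R₀, ?_⟩
    push_cast
    have x1 : (0 : ℤ) ≤ (Nat.card V : ℤ) := by positivity
    have x2 : (0 : ℤ) ≤ (R₀.faces : ℤ) := by positivity
    have x3 : (0 : ℤ) ≤ (Nat.card G.edgeSet : ℤ) := by positivity
    linarith
  obtain ⟨R, hR⟩ := hmem
  have hfaces := Low_faces G Lg R hdeg h2
  have hF : R.faces = orb (R.next * flip G) := by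
    unfold RotationSystem.faces
    rw [hiso, add_zero]
  -- the darts that are not inside
  have hcross : #{d : G.Dart | d.fst ∈ Lg ∧ d.snd ∈ Lg} + 2 * ((2 * k + 2) * M) ≤
      Fintype.card G.Dart := by
    have u1 : (2 * k + 2) * M ≤ #{d : G.Dart | d.fst ∈ Lg ∧ d.snd ∉ Lg} := by
      rw [← hL, ← hM, ← card_product]
      refine card_le_card_of_injOn
        (fun x => if h : x.1 ∈ Lg ∧ x.2 ∉ Lg then ⟨(x.1, x.2), h1 _ h.1 _ h.2⟩ else
          (⟨(hne.some, (hnb hne.some).choose), (hnb hne.some).choose_spec.choose_spec.2.1⟩)) ?_ ?_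
      · intro x hx
        rw [mem_coe, mem_product, mem_compl] at hx
        simp only [dif_pos hx, coe_filter, mem_univ, true_and, Set.mem_ofPred_eq]
        exact hx
      · intro x hx y hy hxy
        rw [mem_coe, mem_product, mem_compl] at hx hy
        simp only [dif_pos hx, dif_pos hy] at hxy
        have := congrArg SimpleGraph.Dart.toProd hxy
        exact this
    have u2 : #{d : G.Dart | d.fst ∈ Lg ∧ d.snd ∉ Lg} =
        #{d : G.Dart | d.fst ∉ Lg ∧ d.snd ∈ Lg} := by
      refine card_bij (fun d _ => d.symm) ?_ ?_ ?_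
      · intro d hd
        simp only [mem_filter, mem_univ, true_and] at hd ⊢
        exact ⟨hd.2, hd.1⟩
      · intro d _ e _ h
        have := congrArg SimpleGraph.Dart.symm h
        simpa using this
      · intro d hd
        simp only [mem_filter, mem_univ, true_and] at hd
        refine ⟨d.symm, ?_, ?_⟩
        · simp only [mem_filter, mem_univ, true_and]
          exact ⟨hd.2, hd.1⟩
        · simp
    have u3 : #{d : G.Dart | d.fst ∈ Lg ∧ d.snd ∈ Lg} +
        #{d : G.Dart | d.fst ∈ Lg ∧ d.snd ∉ Lg} + #{d : G.Dart | d.fst ∉ Lg ∧ d.snd ∈ Lg} ≤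
        Fintype.card G.Dart := by
      rw [← card_union_of_disjoint, ← card_union_of_disjoint]
      · exact card_le_univ _
      · rw [disjoint_left]
        intro d hd hd'
        simp only [mem_union, mem_filter, mem_univ, true_and] at hd hd'
        tauto
      · rw [disjoint_left]
        intro d hd hd'
        simp only [mem_filter, mem_univ, true_and] at hd hd'
        tauto
    omega
  rw [hF, hV] at hR
  have hfaces' : 4 * (orb (R.next * flip G) : ℤ) ≤
      2 * (2 * (Nat.card G.edgeSet : ℤ)) - 2 * ((2 * k + 2) * M) := by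
    have y1 : (4 * orb (R.next * flip G) : ℤ) ≤ (Fintype.card G.Dart : ℤ) +
      (#{d : G.Dart | d.fst ∈ Lg ∧ d.snd ∈ Lg} : ℤ) := by exact_mod_cast hfaces
    have y2 : (#{d : G.Dart | d.fst ∈ Lg ∧ d.snd ∈ Lg} : ℤ) + 2 * ((2 * k + 2) * M) ≤
      (Fintype.card G.Dart : ℤ) := by exact_mod_cast hcross
    have y3 : (Fintype.card G.Dart : ℤ) = 2 * (Nat.card G.edgeSet : ℤ) := by exact_mod_cast hE
    rw [y3] at y1 y2
    linarith
  have hcc' : (1 : ℤ) ≤ (Nat.card G.ConnectedComponent : ℤ) := by exact_mod_cast hcc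
  push_cast at hR
  nlinarith
end Pool.Agent.H95.BG
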