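import Pool.Agent.H95.BG.Defs

/-!
Project BG, module LowBar: the bar system with `k + 1` long bars above and `k + 1` long bars below
`M` short bars.

Number `i < k + 1`: `[-1, 2 M + 2] × {i + 1}`; number `k + 1 ≤ i < 2 k + 2`:
`[-1, 2 M + 2] × {-(i - k)}`; number `2 k + 2 + j`, `j < M`: `[2 j, 2 j + 1] × {0}`. `Lg` is the set
of the long bars. A long bar and a short bar see each other at `x = 2 j`: the blockers are among the
`k` other long bars on the same side. Two short bars have disjoint projections.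
-/

set_option autoImplicit false

namespace Pool.Agent.H95.BG

open Finset

/-- left ends -/
noncomputable def LowBar_l (k i : ℕ) : ℝ := if i < 2 * k + 2 then -1 else 2 * ((i : ℝ) - (2 * k + 2))

/-- right ends -/
noncomputable def LowBar_r (k M i : ℕ) : ℝ :=
  if i < 2 * k + 2 then 2 * M + 2 else 2 * ((i : ℝ) - (2 * k + 2)) + 1

/-- heights -/
noncomputable def LowBar_y (k i : ℕ) : ℝ :=
  if i < k + 1 then (i : ℝ) + 1 else if i < 2 * k + 2 then (k : ℝ) - i else 0

theorem LowBar_y_inj {k i j : ℕ} (h : LowBar_y k i = LowBar_y k j) :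
    i = j ∨ (2 * k + 2 ≤ i ∧ 2 * k + 2 ≤ j) := by
  unfold LowBar_y at h
  split_ifs at h with h1 h2 h3 h4 h5 h6 h7 h8
  · left
    have : (i : ℝ) = j := by linarith
    exact_mod_cast this
  · exfalso
    have : (j : ℝ) ≥ k + 1 := by exact_mod_cast (not_lt.1 h2)
    have h0 : (0 : ℝ) ≤ i := Nat.cast_nonneg i
    linarith
  · exfalso
    have h0 : (0 : ℝ) ≤ i := Nat.cast_nonneg i
    linarith
  · exfalso
    have : (i : ℝ) ≥ k + 1 := by exact_mod_cast (not_lt.1 h1)
    have h0 : (0 : ℝ) ≤ j := Nat.cast_nonneg j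
    linarith
  · left
    have : (i : ℝ) = j := by linarith
    exact_mod_cast this
  · exfalso
    have : (i : ℝ) ≥ k + 1 := by exact_mod_cast (not_lt.1 h1)
    linarith
  · exfalso
    have h0 : (0 : ℝ) ≤ j := Nat.cast_nonneg j
    linarith
  · exfalso
    have : (j : ℝ) ≥ k + 1 := by exact_mod_cast (not_lt.1 ‹¬ j < k + 1›)
    linarith
  · right
    exact ⟨not_lt.1 ‹¬ i < 2 * k + 2›, not_lt.1 ‹¬ j < 2 * k + 2›⟩

theorem LowBar_disj {k M i j : ℕ} (hi : 2 * k + 2 ≤ i) (hj : 2 * k + 2 ≤ j) {x : ℝ}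
    (h1 : x ∈ Set.Icc (LowBar_l k i) (LowBar_r k M i))
    (h2 : x ∈ Set.Icc (LowBar_l k j) (LowBar_r k M j)) : i = j := by
  unfold LowBar_l LowBar_r at h1 h2
  rw [if_neg (not_lt.2 hi), if_neg (not_lt.2 hi)] at h1
  rw [if_neg (not_lt.2 hj), if_neg (not_lt.2 hj)] at h2
  obtain ⟨a1, a2⟩ := h1
  obtain ⟨b1, b2⟩ := h2
  by_contra hne
  rcases Nat.lt_or_gt_of_ne hne with h | h
  · have : (i : ℝ) + 1 ≤ j := by exact_mod_cast h
    linarith
  · have : (j : ℝ) + 1 ≤ i := by exact_mod_cast h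
    linarith

/-- the bar system -/
noncomputable def LowBar_B (k M n : ℕ) : BarSystem n where
  l i := LowBar_l k i
  r i := LowBar_r k M i
  y i := LowBar_y k i
  lt i := by
    unfold LowBar_l LowBar_r
    split_ifs
    · have : (0 : ℝ) ≤ M := Nat.cast_nonneg M
      linarith
    · linarith
  disj i j hij hy := by
    rcases LowBar_y_inj hy with h | ⟨h1, h2⟩
    · exact absurd (Fin.ext h) hij
    · rw [Set.disjoint_left]
      intro x hx hx'
      exact hij (Fin.ext (LowBar_disj h1 h2 hx hx'))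

theorem LowBar_card {n : ℕ} (a b : ℕ) {T : Set (Fin n)}
    (hT : ∀ s ∈ T, a ≤ (s : ℕ) ∧ (s : ℕ) < b) : T.ncard ≤ b - a := by
  classical
  have h1 : T ⊆ ((univ.filter fun s : Fin n => a ≤ (s : ℕ) ∧ (s : ℕ) < b) : Finset (Fin n)) := by
    intro s hs
    simpa using hT s hs
  refine (Set.ncard_le_ncard h1 (Finset.finite_toSet _)).trans ?_
  rw [Set.ncard_coe_finset]
  calc #(univ.filter fun s : Fin n => a ≤ (s : ℕ) ∧ (s : ℕ) < b) ≤ #(Finset.Ico a b) := by
        refine Finset.card_le_card_of_injOn (fun s => (s : ℕ)) ?_ ?_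
        · intro s hs
          have hs' : a ≤ (s : ℕ) ∧ (s : ℕ) < b := by simpa using hs
          simpa using hs'
        · intro s _ t _ h
          exact Fin.ext h
    _ = b - a := Nat.card_Ico a b

theorem exists_bars (k M n : ℕ) (hn : n = 2 * k + 2 + M) :
    ∃ (B : BarSystem n) (Lg : Finset (Fin n)), #Lg = 2 * k + 2 ∧
      (∀ u ∈ Lg, ∀ v ∉ Lg, (B.graph k).Adj u v) ∧
      (∀ u ∉ Lg, ∀ v ∉ Lg, ¬ (B.graph k).Adj u v) := by
  classical
  refine ⟨LowBar_B k M n, univ.filter fun i : Fin n => (i : ℕ) < 2 * k + 2, ?_, ?_, ?_⟩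
  · have h1 : (univ.filter fun i : Fin n => (i : ℕ) < 2 * k + 2) =
        (univ : Finset (Fin (2 * k + 2))).image (Fin.castLE (by omega : 2 * k + 2 ≤ n)) := by
      ext i
      simp only [mem_filter, mem_univ, true_and, mem_image]
      constructor
      · intro h
        exact ⟨⟨i, h⟩, Fin.ext rfl⟩
      · rintro ⟨j, rfl⟩
        exact j.2
    rw [h1, Finset.card_image_of_injective _ (Fin.castLE_injective _)]
    simp
  · intro u hu v hv
    have hu' : (u : ℕ) < 2 * k + 2 := by simpa using hu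
    have hv' : 2 * k + 2 ≤ (v : ℕ) := by simpa using hv
    have hvn : (v : ℕ) < 2 * k + 2 + M := by have := v.2; omega
    have hvr : (2 * k + 2 : ℝ) ≤ (v : ℕ) := by exact_mod_cast hv'
    have hvr2 : ((v : ℕ) : ℝ) < 2 * k + 2 + M := by exact_mod_cast hvn
    have hM0 : (0 : ℝ) ≤ M := Nat.cast_nonneg M
    have hxv : (2 * (((v : ℕ) : ℝ) - (2 * k + 2))) ∈
        Set.Icc (LowBar_l k v) (LowBar_r k M v) := by
      unfold LowBar_l LowBar_r
      rw [if_neg (not_lt.2 hv'), if_neg (not_lt.2 hv')]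
      constructor
      · exact le_rfl
      · linarith
    have hyv : LowBar_y k v = 0 := by
      unfold LowBar_y
      rw [if_neg (by omega), if_neg (by omega)]
    refine ⟨?_, 2 * (((v : ℕ) : ℝ) - (2 * k + 2)), ?_, hxv, ?_⟩
    · rintro rfl
      omega
    · change 2 * (((v : ℕ) : ℝ) - (2 * k + 2)) ∈ Set.Icc (LowBar_l k u) (LowBar_r k M u)
      unfold LowBar_l LowBar_r
      rw [if_pos hu', if_pos hu']
      constructor
      · linarith
      · linarith
    · by_cases huk : (u : ℕ) < k + 1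
      · have hyu : LowBar_y k u = (u : ℕ) + 1 := by
          unfold LowBar_y
          rw [if_pos huk]
        refine (LowBar_card 0 (u : ℕ) ?_).trans (by omega)
        rintro s ⟨hs1, hs2, hs3, hs4⟩
        change LowBar_y k s ∈ Set.uIcc (LowBar_y k u) (LowBar_y k v) at hs4
        rw [hyu, hyv] at hs4
        have hu0 : (0 : ℝ) ≤ (u : ℕ) := Nat.cast_nonneg _
        rw [Set.uIcc_of_ge (by linarith)] at hs4
        refine ⟨Nat.zero_le _, ?_⟩
        have hs5 : ¬ 2 * k + 2 ≤ (s : ℕ) := fun h => hs2 (Fin.ext (LowBar_disj h hv' hs3 hxv))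
        unfold LowBar_y at hs4
        by_cases hsk : (s : ℕ) < k + 1
        · rw [if_pos hsk] at hs4
          have h6 : ((s : ℕ) : ℝ) ≤ (u : ℕ) := by linarith [hs4.2]
          have h7 : (s : ℕ) ≤ (u : ℕ) := by exact_mod_cast h6
          have h8 : (s : ℕ) ≠ (u : ℕ) := fun h => hs1 (Fin.ext h)
          omega
        · rw [if_neg hsk, if_pos (by omega)] at hs4
          exfalso
          have h6 : (k : ℝ) + 1 ≤ (s : ℕ) := by exact_mod_cast (not_lt.1 hsk)
          linarith [hs4.1]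
      · have hyu : LowBar_y k u = (k : ℝ) - (u : ℕ) := by
          unfold LowBar_y
          rw [if_neg huk, if_pos hu']
        refine (LowBar_card (k + 1) (u : ℕ) ?_).trans (by omega)
        rintro s ⟨hs1, hs2, hs3, hs4⟩
        change LowBar_y k s ∈ Set.uIcc (LowBar_y k u) (LowBar_y k v) at hs4
        rw [hyu, hyv] at hs4
        have hu0 : (k : ℝ) + 1 ≤ (u : ℕ) := by exact_mod_cast (not_lt.1 huk)
        rw [Set.uIcc_of_le (by linarith)] at hs4
        have hs5 : ¬ 2 * k + 2 ≤ (s : ℕ) := fun h => hs2 (Fin.ext (LowBar_disj h hv' hs3 hxv))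
        unfold LowBar_y at hs4
        by_cases hsk : (s : ℕ) < k + 1
        · rw [if_pos hsk] at hs4
          exfalso
          have h6 : (0 : ℝ) ≤ (s : ℕ) := Nat.cast_nonneg _
          linarith [hs4.2]
        · rw [if_neg hsk, if_pos (by omega)] at hs4
          have h6 : ((s : ℕ) : ℝ) ≤ (u : ℕ) := by linarith [hs4.1]
          have h7 : (s : ℕ) ≤ (u : ℕ) := by exact_mod_cast h6
          have h8 : (s : ℕ) ≠ (u : ℕ) := fun h => hs1 (Fin.ext h)
          omega
  · intro u hu v hv hadj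
    have hu' : 2 * k + 2 ≤ (u : ℕ) := by simpa using hu
    have hv' : 2 * k + 2 ≤ (v : ℕ) := by simpa using hv
    obtain ⟨hne, x, hx1, hx2, _⟩ := hadj
    exact hne (Fin.ext (LowBar_disj hu' hv' hx1 hx2))

end Pool.Agent.H95.BG
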