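import Pool.Agent.H95.BG.Upper
import Pool.Agent.H95.BG.Low
import Pool.Agent.H95.BG.LowBar

/-!
Project BG, module Final: the asymptotic value of `gk k n`.
-/

set_option autoImplicit false

namespace Pool.Agent.H95.BG

open Finset

theorem nonempty_bars (n : ℕ) : Nonempty (BarSystem n) :=
  ⟨{ l := fun _ => 0
     r := fun _ => 1
     y := fun i => (i : ℕ)
     lt := fun _ => by norm_num
     disj := fun i j hij h => absurd (Fin.ext (by exact_mod_cast h)) hij }⟩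

theorem bddAbove_genus (k n : ℕ) (hk : 1 ≤ k) :
    BddAbove {g | ∃ B : BarSystem n, g = genus (B.graph k)} := by
  refine ⟨⌈(k : ℝ) * n / 2 + 1500 * ((k : ℝ) ^ (6 / 7 : ℝ) * n + k ^ 2)⌉₊, ?_⟩
  rintro g ⟨B, rfl⟩
  have h1 := (upper B k hk).trans (Nat.le_ceil _)
  exact_mod_cast h1

theorem gk_isGreatest (k n : ℕ) (hk : 1 ≤ k) :
    IsGreatest {g | ∃ B : BarSystem n, g = genus (B.graph k)} (gk k n) := by
  have hne : {g | ∃ B : BarSystem n, g = genus (B.graph k)}.Nonempty := by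
    obtain ⟨B⟩ := nonempty_bars n
    exact ⟨_, B, rfl⟩
  exact ⟨Nat.sSup_mem hne (bddAbove_genus k n hk), fun g hg => le_csSup (bddAbove_genus k n hk) hg⟩

theorem gk_upper (k n : ℕ) (hk : 1 ≤ k) :
    (gk k n : ℝ) ≤ (k : ℝ) * n / 2 + 1500 * ((k : ℝ) ^ (6 / 7 : ℝ) * n + k ^ 2) := by
  obtain ⟨B, hB⟩ := (gk_isGreatest k n hk).1
  rw [hB]
  exact upper B k hk

theorem gk_lower (k n : ℕ) (hk : 1 ≤ k) : (k : ℝ) * n / 2 - 3 * k ^ 2 ≤ (gk k n : ℝ) := by
  have hk1 : (1 : ℝ) ≤ k := by exact_mod_cast hk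
  rcases le_or_gt (2 * k + 4) n with hn | hn
  · obtain ⟨B, Lg, h1, h2, h3⟩ := exists_bars k (n - (2 * k + 2)) n (by omega)
    have hM : #(Lgᶜ) = n - (2 * k + 2) := by
      rw [card_compl, h1, Fintype.card_fin]
    have h4 := genus_lower (B.graph k) Lg k (n - (2 * k + 2)) h1 hM (by omega) h2 h3
    have h5 : genus (B.graph k) ≤ gk k n := (gk_isGreatest k n hk).2 ⟨B, rfl⟩
    have h4' : (k : ℝ) * ((n : ℝ) - (2 * k + 2)) - 2 * k ≤ 2 * (genus (B.graph k) : ℝ) := by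
      have : ((n - (2 * k + 2) : ℕ) : ℤ) = (n : ℤ) - (2 * k + 2) := by
        rw [Nat.cast_sub (by omega)]
        push_cast
        ring
      rw [this] at h4
      exact_mod_cast h4
    have h5' : (genus (B.graph k) : ℝ) ≤ gk k n := by exact_mod_cast h5
    nlinarith
  · have hn' : (n : ℝ) < 2 * k + 4 := by exact_mod_cast hn
    have : (0 : ℝ) ≤ gk k n := Nat.cast_nonneg _
    nlinarith

theorem final (k n : ℕ) (hk : 1 ≤ k) :
    IsGreatest {g | ∃ B : BarSystem n, g = genus (B.graph k)} (gk k n) ∧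
      |(gk k n : ℝ) - (k : ℝ) * n / 2| ≤ 1500 * ((k : ℝ) ^ (6 / 7 : ℝ) * n + k ^ 2) := by
  refine ⟨gk_isGreatest k n hk, ?_⟩
  have h1 := gk_upper k n hk
  have h2 := gk_lower k n hk
  have h3 : (0 : ℝ) ≤ (k : ℝ) ^ (6 / 7 : ℝ) * n := by positivity
  have h4 : (0 : ℝ) ≤ (k : ℝ) ^ 2 := by positivity
  rw [abs_le]
  constructor <;> nlinarith

end Pool.Agent.H95.BG
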