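import Pool.Agent.H95.BG.Defs

/-!
Project BG, module LabelCost: the average cost of a labelled piece.

Fix `g`, `d`. For a finite set `A` with at most `m = q r^2` elements and a label `γ`, let
`X = #{a ∈ A | lam a = γ}`, `μ = #A / q ≤ r^2`. Over the `q ^ |V|` functions `lam : V → Γ`:
`Σ_lam (X - μ)^2 ≤ q^|V| * #A / q ≤ q^|V| * r^2` (second moment: the number of `lam` with
`lam a = γ` is `q^(|V|-1)`, with `lam a = lam a' = γ`, `a ≠ a'`, it is `q^(|V|-2)`; so the variance is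
`#A (1/q)(1-1/q)`). Let `D = max_i |X_i - μ_i|` over the three parts: `Σ_lam D^2 ≤ q^|V| * 3 r^2` and
`big ≤ r^2 + D`. So `big^2 + 3 big ≤ r^4 + 2 r^2 D + D^2 + 3 r^2 + 3 D`, where
`2 r^2 D ≤ r^3 + r D^2` and `3 D ≤ 3/2 + (3/2) D^2`. On average at most
`r^4 + r^3 + 3 r^3 + 3 r^2 + 3 r^2 + 3/2 + (9/2) r^2 ≤ r^4 + 16 r^3 ≤ r^4 (1 + 27 / r)` as `r ≥ 1`.
There are `q * #Sg ≤ q^2 / 2` pairs `(g, d)`, and `q^2 r^4 / 2 = m^2 / 2`.
(It may be convenient to bound `big^2 + 3 big ≤ Σ over the three parts` of the excess terms.)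
-/

set_option autoImplicit false

namespace Pool.Agent.H95.BG

open Finset

/-- The centred indicator function of `γ`. -/
private noncomputable def lcZ {Γ : Type*} [DecidableEq Γ] (q : ℕ) (γ δ : Γ) : ℝ :=
  (if δ = γ then (1 : ℝ) else 0) - 1 / q

private theorem lc_sum_z {Γ : Type*} [Fintype Γ] [DecidableEq Γ] {q : ℕ}
    (hq : Fintype.card Γ = q) (hq0 : 0 < q) (γ : Γ) : ∑ δ : Γ, lcZ q γ δ = 0 := by
  have h : (q : ℝ) ≠ 0 := by exact_mod_cast hq0.ne'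
  unfold lcZ
  rw [Finset.sum_sub_distrib, Finset.sum_const, Finset.card_univ, hq, nsmul_eq_mul,
    Finset.sum_ite_eq']
  simp only [Finset.mem_univ, if_true]
  field_simp
  ring

private theorem lc_sum_z_sq {Γ : Type*} [Fintype Γ] [DecidableEq Γ] {q : ℕ}
    (hq : Fintype.card Γ = q) (hq0 : 0 < q) (γ : Γ) : ∑ δ : Γ, lcZ q γ δ ^ 2 ≤ 1 := by
  have h : (0 : ℝ) < q := by exact_mod_cast hq0
  have h1 : ∀ δ : Γ, lcZ q γ δ ^ 2 = (if δ = γ then (1 : ℝ) else 0) * (1 - 1 / q) -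
      1 / q * lcZ q γ δ := by
    intro δ
    unfold lcZ
    split_ifs <;> ring
  simp_rw [h1]
  rw [Finset.sum_sub_distrib, ← Finset.sum_mul, ← Finset.mul_sum, lc_sum_z hq hq0,
    Finset.sum_ite_eq']
  simp only [Finset.mem_univ, if_true]
  have : (0 : ℝ) ≤ 1 / q := by positivity
  linarith

private theorem lc_single {V Γ : Type*} [Fintype V] [DecidableEq V] [Fintype Γ]
    (w : Γ → ℝ) (a : V) :
    ∑ lam : V → Γ, w (lam a) = (∑ δ, w δ) * (Fintype.card Γ : ℝ) ^ (Fintype.card V - 1) := by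
  have h := Finset.prod_univ_sum (R := ℝ) (fun _ : V => (Finset.univ : Finset Γ))
    (fun v δ => if v = a then w δ else 1)
  rw [Fintype.piFinset_univ] at h
  have h1 : ∀ lam : V → Γ, ∏ v, (if v = a then w (lam v) else 1) = w (lam a) := by
    intro lam
    rw [Finset.prod_ite_eq' Finset.univ a (fun v => w (lam v))]
    simp
  simp_rw [h1] at h
  rw [← h]
  have h2 : ∀ v : V, ∑ δ : Γ, (if v = a then w δ else 1) =
      if v = a then ∑ δ, w δ else (Fintype.card Γ : ℝ) := by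
    intro v
    split_ifs
    · rfl
    · simp
  simp_rw [h2]
  rw [← Finset.mul_prod_erase Finset.univ _ (Finset.mem_univ a)]
  rw [if_pos rfl]
  congr 1
  rw [Finset.prod_congr rfl (g := fun _ => (Fintype.card Γ : ℝ))]
  · rw [Finset.prod_const, Finset.card_erase_of_mem (Finset.mem_univ a), Finset.card_univ]
  · intro v hv
    rw [if_neg (Finset.ne_of_mem_erase hv)]

private theorem lc_pair {V Γ : Type*} [Fintype V] [DecidableEq V] [Fintype Γ]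
    (w : Γ → ℝ) (hw : ∑ δ, w δ = 0) {a a' : V} (haa : a ≠ a') :
    ∑ lam : V → Γ, w (lam a) * w (lam a') = 0 := by
  have h := Finset.prod_univ_sum (R := ℝ) (fun _ : V => (Finset.univ : Finset Γ))
    (fun v δ => (if v = a then w δ else 1) * (if v = a' then w δ else 1))
  rw [Fintype.piFinset_univ] at h
  have h1 : ∀ lam : V → Γ, ∏ v, ((if v = a then w (lam v) else 1) *
      (if v = a' then w (lam v) else 1)) = w (lam a) * w (lam a') := by
    intro lam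
    rw [Finset.prod_mul_distrib, Finset.prod_ite_eq' Finset.univ a (fun v => w (lam v)),
      Finset.prod_ite_eq' Finset.univ a' (fun v => w (lam v))]
    simp
  simp_rw [h1] at h
  rw [← h]
  refine Finset.prod_eq_zero (Finset.mem_univ a) ?_
  simp only [if_true, if_neg haa, mul_one]
  exact hw

private theorem lc_moment {V Γ : Type*} [Fintype V] [DecidableEq V] [Fintype Γ]
    [DecidableEq Γ] {q r m : ℕ} (hq : Fintype.card Γ = q) (hq0 : 0 < q) (hm : m = q * r ^ 2)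
    (A : Finset V) (hA : #A ≤ m) (γ : Γ) :
    ∑ lam : V → Γ, ((#{a ∈ A | lam a = γ} : ℝ) - #A / q) ^ 2 ≤
      (q : ℝ) ^ Fintype.card V * (r : ℝ) ^ 2 := by
  have hqr : (0 : ℝ) < q := by exact_mod_cast hq0
  have h1 : ∀ lam : V → Γ, ((#{a ∈ A | lam a = γ} : ℝ) - #A / q) ^ 2 =
      ∑ a ∈ A, ∑ a' ∈ A, lcZ q γ (lam a) * lcZ q γ (lam a') := by
    intro lam
    rw [← Finset.sum_mul_sum]
    have h2 : ∑ a ∈ A, lcZ q γ (lam a) = (#{a ∈ A | lam a = γ} : ℝ) - #A / q := by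
      unfold lcZ
      rw [Finset.sum_sub_distrib, Finset.sum_const, nsmul_eq_mul, Finset.card_filter]
      push_cast
      ring
    rw [h2]
    ring
  simp_rw [h1]
  rw [Finset.sum_comm]
  have h3 : ∀ a ∈ A, ∑ lam : V → Γ, ∑ a' ∈ A, lcZ q γ (lam a) * lcZ q γ (lam a') ≤
      (q : ℝ) ^ Fintype.card V / q := by
    intro a ha
    rw [Finset.sum_comm]
    have h4 : ∀ a' ∈ A, a' ≠ a → ∑ lam : V → Γ, lcZ q γ (lam a) * lcZ q γ (lam a') = 0 :=
      fun a' _ h => lc_pair (lcZ q γ) (lc_sum_z hq hq0 γ) (Ne.symm h)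
    rw [Finset.sum_eq_single a h4 (fun h => absurd ha h)]
    have h5 : ∑ lam : V → Γ, lcZ q γ (lam a) * lcZ q γ (lam a) =
        (∑ δ, lcZ q γ δ ^ 2) * (Fintype.card Γ : ℝ) ^ (Fintype.card V - 1) := by
      rw [← lc_single (fun δ => lcZ q γ δ ^ 2) a]
      refine Finset.sum_congr rfl fun lam _ => ?_
      ring
    rw [h5, hq]
    have hV : 0 < Fintype.card V := Fintype.card_pos_iff.2 ⟨a⟩
    have h6 : (q : ℝ) ^ Fintype.card V / q = (q : ℝ) ^ (Fintype.card V - 1) := by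
      obtain ⟨N, hN⟩ : ∃ N, Fintype.card V = N + 1 := ⟨Fintype.card V - 1, by omega⟩
      rw [hN, Nat.add_sub_cancel, pow_succ]
      field_simp
    rw [h6]
    have h7 := lc_sum_z_sq hq hq0 γ
    have h8 : (0 : ℝ) ≤ (q : ℝ) ^ (Fintype.card V - 1) := by positivity
    nlinarith
  refine (Finset.sum_le_sum h3).trans ?_
  rw [Finset.sum_const, nsmul_eq_mul]
  have h9 : (#A : ℝ) ≤ q * (r : ℝ) ^ 2 := by
    have : #A ≤ q * r ^ 2 := hm ▸ hA
    exact_mod_cast this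
  have h10 : (0 : ℝ) ≤ (q : ℝ) ^ Fintype.card V / q := by positivity
  calc (#A : ℝ) * ((q : ℝ) ^ Fintype.card V / q)
      ≤ (q * (r : ℝ) ^ 2) * ((q : ℝ) ^ Fintype.card V / q) :=
        mul_le_mul_of_nonneg_right h9 h10
    _ = _ := by field_simp

private theorem lc_one {r X μ Q : ℝ} (hr : 1 ≤ r) (hX : 0 ≤ X) (hμ : μ ≤ r ^ 2)
    (hQ : (X - μ) ^ 2 ≤ Q) : X ^ 2 + 3 * X ≤ r ^ 4 + r ^ 3 + 3 * r ^ 2 + 3 / 2 + (r + 5 / 2) * Q := by
  set δ := |X - μ| with hδ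
  have h0 : 0 ≤ δ := abs_nonneg _
  have h1 : X ≤ r ^ 2 + δ := by linarith [le_abs_self (X - μ)]
  have h2 : δ ^ 2 ≤ Q := by rw [hδ, sq_abs]; exact hQ
  have h3 : X ^ 2 + 3 * X ≤ (r ^ 2 + δ) ^ 2 + 3 * (r ^ 2 + δ) := by nlinarith
  have h4 : 2 * r ^ 2 * δ ≤ r ^ 3 + r * δ ^ 2 := by
    nlinarith [mul_nonneg (by linarith : (0 : ℝ) ≤ r) (sq_nonneg (r - δ))]
  have h5 : 3 * δ ≤ 3 / 2 + 3 / 2 * δ ^ 2 := by nlinarith [sq_nonneg (δ - 1)]
  have h6 : (r + 5 / 2) * δ ^ 2 ≤ (r + 5 / 2) * Q := mul_le_mul_of_nonneg_left h2 (by linarith)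
  nlinarith

theorem label_cost {V Γ : Type*} [Fintype V] [DecidableEq V] [AddCommGroup Γ] [Fintype Γ]
    [DecidableEq Γ] (q r m : ℕ) (hq : Fintype.card Γ = q) (hm : m = q * r ^ 2) (hr : 1 ≤ r)
    (Sg : Finset Γ) (hS : 2 * #Sg ≤ q) (p : Finset V × Finset V × Finset V)
    (h1 : #p.1 ≤ m) (h2 : #p.2.1 ≤ m) (h3 : #p.2.2 ≤ m) :
    (∑ lam : V → Γ, ∑ g : Γ, ∑ d ∈ Sg, (cost (sub lam p g d) : ℝ)) ≤
      (q : ℝ) ^ Fintype.card V * (((m : ℝ) ^ 2 / 2) * (1 + 27 / r)) := by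
  have hq0 : 0 < q := by rw [← hq]; exact Fintype.card_pos
  have hqr : (0 : ℝ) < q := by exact_mod_cast hq0
  have hr1 : (1 : ℝ) ≤ r := by exact_mod_cast hr
  have hr0 : (0 : ℝ) < r := by linarith
  set N : ℝ := (q : ℝ) ^ Fintype.card V with hN
  have hN0 : 0 < N := by rw [hN]; positivity
  have hμ : ∀ A : Finset V, #A ≤ m → (#A : ℝ) / q ≤ (r : ℝ) ^ 2 := by
    intro A hA
    rw [div_le_iff₀ hqr]
    have : #A ≤ r ^ 2 * q := by rw [mul_comm]; exact hm ▸ hA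
    exact_mod_cast this
  have key : ∀ g d : Γ, ∑ lam : V → Γ, (cost (sub lam p g d) : ℝ) ≤
      N * ((r : ℝ) ^ 4 * (1 + 27 / r)) := by
    intro g d
    have hpt : ∀ lam : V → Γ, (cost (sub lam p g d) : ℝ) ≤
        (r : ℝ) ^ 4 + (r : ℝ) ^ 3 + 3 * (r : ℝ) ^ 2 + 3 / 2 + ((r : ℝ) + 5 / 2) *
        (((#{a ∈ p.1 | lam a = g + d} : ℝ) - #p.1 / q) ^ 2 +
          ((#{a ∈ p.2.1 | lam a = g} : ℝ) - #p.2.1 / q) ^ 2 +
          ((#{a ∈ p.2.2 | lam a = g - d} : ℝ) - #p.2.2 / q) ^ 2) := by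
      intro lam
      have e1 := sq_nonneg ((#{a ∈ p.1 | lam a = g + d} : ℝ) - #p.1 / q)
      have e2 := sq_nonneg ((#{a ∈ p.2.1 | lam a = g} : ℝ) - #p.2.1 / q)
      have e3 := sq_nonneg ((#{a ∈ p.2.2 | lam a = g - d} : ℝ) - #p.2.2 / q)
      have hbig : big (sub lam p g d) = #{a ∈ p.1 | lam a = g + d} ∨
          big (sub lam p g d) = #{a ∈ p.2.1 | lam a = g} ∨
          big (sub lam p g d) = #{a ∈ p.2.2 | lam a = g - d} := by
        unfold big sub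
        simp only
        rcases max_choice (#{a ∈ p.1 | lam a = g + d})
          (max (#{a ∈ p.2.1 | lam a = g}) (#{a ∈ p.2.2 | lam a = g - d})) with h | h
        · exact Or.inl h
        · rw [h]
          rcases max_choice (#{a ∈ p.2.1 | lam a = g}) (#{a ∈ p.2.2 | lam a = g - d}) with h' | h'
          · exact Or.inr (Or.inl h')
          · exact Or.inr (Or.inr h')
      unfold cost
      push_cast
      rcases hbig with h | h | h
      · rw [h]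
        exact lc_one hr1 (Nat.cast_nonneg _) (hμ _ h1) (by linarith)
      · rw [h]
        exact lc_one hr1 (Nat.cast_nonneg _) (hμ _ h2) (by linarith)
      · rw [h]
        exact lc_one hr1 (Nat.cast_nonneg _) (hμ _ h3) (by linarith)
    refine (Finset.sum_le_sum fun lam _ => hpt lam).trans ?_
    rw [Finset.sum_add_distrib, Finset.sum_const, nsmul_eq_mul, ← Finset.mul_sum,
      Finset.sum_add_distrib, Finset.sum_add_distrib, Finset.card_univ, Fintype.card_fun, hq]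
    have m1 := lc_moment hq hq0 hm p.1 h1 (g + d)
    have m2 := lc_moment hq hq0 hm p.2.1 h2 g
    have m3 := lc_moment hq hq0 hm p.2.2 h3 (g - d)
    rw [← hN] at m1 m2 m3
    push_cast
    rw [← hN]
    have hpoly : (r : ℝ) ^ 4 + (r : ℝ) ^ 3 + 3 * (r : ℝ) ^ 2 + 3 / 2 +
        ((r : ℝ) + 5 / 2) * (3 * (r : ℝ) ^ 2) ≤ (r : ℝ) ^ 4 * (1 + 27 / r) := by
      have h4 : (r : ℝ) ^ 4 * (1 + 27 / r) = (r : ℝ) ^ 4 + 27 * (r : ℝ) ^ 3 := by
        field_simp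
      rw [h4]
      have h5 : (r : ℝ) ^ 2 ≤ (r : ℝ) ^ 3 := pow_le_pow_right₀ hr1 (by norm_num)
      have h6 : (1 : ℝ) ≤ (r : ℝ) ^ 3 := one_le_pow₀ hr1
      nlinarith
    have hR : (0 : ℝ) ≤ (r : ℝ) + 5 / 2 := by linarith
    calc N * ((r : ℝ) ^ 4 + (r : ℝ) ^ 3 + 3 * (r : ℝ) ^ 2 + 3 / 2) + ((r : ℝ) + 5 / 2) *
          (∑ lam : V → Γ, ((#{a ∈ p.1 | lam a = g + d} : ℝ) - #p.1 / q) ^ 2 +
            ∑ lam : V → Γ, ((#{a ∈ p.2.1 | lam a = g} : ℝ) - #p.2.1 / q) ^ 2 +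
            ∑ lam : V → Γ, ((#{a ∈ p.2.2 | lam a = g - d} : ℝ) - #p.2.2 / q) ^ 2)
        ≤ N * ((r : ℝ) ^ 4 + (r : ℝ) ^ 3 + 3 * (r : ℝ) ^ 2 + 3 / 2) + ((r : ℝ) + 5 / 2) *
          (N * (r : ℝ) ^ 2 + N * (r : ℝ) ^ 2 + N * (r : ℝ) ^ 2) := by
          refine add_le_add le_rfl (mul_le_mul_of_nonneg_left ?_ hR)
          linarith
      _ = N * ((r : ℝ) ^ 4 + (r : ℝ) ^ 3 + 3 * (r : ℝ) ^ 2 + 3 / 2 +
          ((r : ℝ) + 5 / 2) * (3 * (r : ℝ) ^ 2)) := by ring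
      _ ≤ N * ((r : ℝ) ^ 4 * (1 + 27 / r)) := mul_le_mul_of_nonneg_left hpoly hN0.le
  rw [Finset.sum_comm]
  have hswap : ∀ g : Γ, ∑ lam : V → Γ, ∑ d ∈ Sg, (cost (sub lam p g d) : ℝ) ≤
      #Sg * (N * ((r : ℝ) ^ 4 * (1 + 27 / r))) := by
    intro g
    rw [Finset.sum_comm, ← nsmul_eq_mul]
    exact Finset.sum_le_card_nsmul _ _ _ fun d _ => key g d
  refine (Finset.sum_le_sum fun g _ => hswap g).trans ?_
  rw [Finset.sum_const, nsmul_eq_mul, Finset.card_univ, hq]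
  have hSg : (#Sg : ℝ) ≤ q / 2 := by
    have : (2 : ℝ) * #Sg ≤ q := by exact_mod_cast hS
    linarith
  have hpos : (0 : ℝ) ≤ N * ((r : ℝ) ^ 4 * (1 + 27 / r)) := by positivity
  have hm' : (m : ℝ) = q * (r : ℝ) ^ 2 := by rw [hm]; push_cast; rfl
  calc (q : ℝ) * (#Sg * (N * ((r : ℝ) ^ 4 * (1 + 27 / r))))
      ≤ (q : ℝ) * ((q / 2) * (N * ((r : ℝ) ^ 4 * (1 + 27 / r)))) :=
        mul_le_mul_of_nonneg_left (mul_le_mul_of_nonneg_right hSg hpos) hqr.le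
    _ = N * (((m : ℝ) ^ 2 / 2) * (1 + 27 / r)) := by rw [hm']; ring

end Pool.Agent.H95.BG
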