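import Pool.Agent.H95.BG.Orb

/-!
Project BG, module Merge: from `PsiLe` to rotation systems and to the genus.

`exists_rotation`: among all `σ` with `fst (σ d) = fst d` and `E - orb (σ * flip) + orb σ ≤ c` take
one with `orb σ` minimal (or induct on `orb σ`). If two darts `d`, `e` with the same first vertex
are in different cycles of `σ`, then `σ' = σ * swap d e` preserves first vertices,
`orb σ' = orb σ - 1` (`orb_mul_swap_merge`) and `σ' * flip = (σ * flip) * swap (flip d) (flip e)`, so
`orb (σ' * flip) ≥ orb (σ * flip) - 1` (`orb_le_mul_swap`): contradiction with minimality. So `σ` is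
a rotation system; its cycles correspond to the non-isolated vertices.
`exists_rotationSystem`: apply it to `σ = 1` and `c = E - orb flip + orb 1`.
`genus_le_of_psi`: for the rotation system of `exists_rotation`, `faces = orb (..) + iso` and
`V = iso + noniso`, so `V - E + faces ≥ 2 V - c ≥ 2 (number of components) - c`; take
`g = ⌈c / 2⌉` in the definition of the genus (`Nat.sInf_le`). The number of components is at most
`V` (`connectedComponentMk` is surjective).
-/

set_option autoImplicit false

namespace Pool.Agent.H95.BG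

open Equiv

variable {V : Type*}

/-- `orb` from a complete invariant. -/
theorem Merge_orb_eq {α ι : Type*} (σ : Perm α) (f : α → ι) (hs : Function.Surjective f)
    (hf : ∀ x y, f x = f y ↔ σ.SameCycle x y) : orb σ = Nat.card ι := by
  unfold orb
  refine Nat.card_congr (Equiv.ofBijective
    (Quotient.lift f fun x y (h : σ.SameCycle x y) => (hf x y).2 h) ⟨?_, ?_⟩)
  · intro p q
    induction p using Quotient.inductionOn with
    | h x =>
      induction q using Quotient.inductionOn with
      | h y =>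
        intro h
        exact Quotient.sound ((hf x y).1 h)
  · intro i
    obtain ⟨x, hx⟩ := hs i
    exact ⟨Quotient.mk _ x, hx⟩

theorem Merge_invariant {α ι : Type*} (τ : Perm α) (f : α → ι) (hf : ∀ x, f (τ x) = f x) (x y : α)
    (h : τ.SameCycle x y) : f x = f y := by
  have h1 : ∀ (n : ℕ) (x : α), f ((τ ^ n) x) = f x := by
    intro n
    induction n with
    | zero => intro x; simp
    | succ n ih =>
      intro x
      rw [pow_succ, Perm.mul_apply, ih, hf]
  obtain ⟨i, hi⟩ := h
  rw [← hi]
  obtain ⟨n, rfl | rfl⟩ := i.eq_nat_or_neg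
  · rw [zpow_natCast, h1]
  · rw [← h1 n ((τ ^ (-(n : ℤ))) x)]
    rw [← Perm.mul_apply, zpow_neg, zpow_natCast, mul_inv_cancel, Perm.one_apply]

theorem Merge_finite_dart [Finite V] (G : SimpleGraph V) : Finite G.Dart := by
  refine Finite.of_injective (fun d : G.Dart => d.toProd) ?_
  intro d e h
  exact SimpleGraph.Dart.ext d e h

theorem Merge_card (G : SimpleGraph V) (σ : Equiv.Perm G.Dart)
    (hσ : ∀ d, (σ d).fst = d.fst) (hc : ∀ d e : G.Dart, d.fst = e.fst → σ.SameCycle d e) :
    orb σ = Nat.card {v : V // ∃ w, G.Adj v w} := by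
  refine Merge_orb_eq σ (fun d => ⟨d.fst, d.snd, d.adj⟩) ?_ ?_
  · rintro ⟨v, w, hw⟩
    exact ⟨⟨(v, w), hw⟩, rfl⟩
  · intro d e
    rw [Subtype.mk.injEq]
    exact ⟨hc d e, Merge_invariant σ (fun d => d.fst) hσ d e⟩

theorem Merge_step [Finite V] (G : SimpleGraph V) (c : ℤ) : ∀ (m : ℕ) (σ : Equiv.Perm G.Dart),
    orb σ = m → (∀ d, (σ d).fst = d.fst) →
    (Nat.card G.edgeSet : ℤ) - orb (σ * flip G) + orb σ ≤ c →
    ∃ R : RotationSystem G, (Nat.card G.edgeSet : ℤ) - orb (R.next * flip G) +
      Nat.card {v : V // ∃ w, G.Adj v w} ≤ c := by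
  classical
  have hfin := Merge_finite_dart G
  intro m
  induction m with
  | zero =>
    intro σ hm hσ hle
    have hemp : IsEmpty (Quotient (Equiv.Perm.SameCycle.setoid σ)) := by
      have hf : Finite (Quotient (Equiv.Perm.SameCycle.setoid σ)) :=
        Finite.of_surjective _ Quotient.mk_surjective
      unfold orb at hm
      rw [Finite.card_eq_zero_iff] at hm
      exact hm
    have hcyc : ∀ d e : G.Dart, d.fst = e.fst → σ.SameCycle d e :=
      fun d => (hemp.false (Quotient.mk _ d)).elim
    refine ⟨⟨σ, hσ, hcyc⟩, ?_⟩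
    rw [← Merge_card G σ hσ hcyc]
    exact hle
  | succ m ih =>
    intro σ hm hσ hle
    by_cases hcyc : ∀ d e : G.Dart, d.fst = e.fst → σ.SameCycle d e
    · refine ⟨⟨σ, hσ, hcyc⟩, ?_⟩
      rw [← Merge_card G σ hσ hcyc]
      exact hle
    · push Not at hcyc
      obtain ⟨d, e, hde, hns⟩ := hcyc
      have h1 := orb_mul_swap_merge σ d e hns
      have h2 : σ * swap d e * flip G = σ * flip G * swap ((flip G)⁻¹ d) ((flip G)⁻¹ e) := by
        rw [mul_assoc, Equiv.swap_mul_eq_mul_swap, mul_assoc]
      have h3 := orb_le_mul_swap (σ * flip G) ((flip G)⁻¹ d) ((flip G)⁻¹ e)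
      rw [← h2] at h3
      refine ih (σ * swap d e) (by omega) ?_ ?_
      · intro x
        rw [Perm.mul_apply, hσ]
        by_cases hxd : x = d
        · subst hxd
          rw [swap_apply_left]
          exact hde.symm
        · by_cases hxe : x = e
          · subst hxe
            rw [swap_apply_right]
            exact hde
          · rw [swap_apply_of_ne_of_ne hxd hxe]
      · omega

/-- Join the cycles at each vertex one after the other. -/
theorem exists_rotation [Finite V] (G : SimpleGraph V) (c : ℤ) (hG : PsiLe G c) :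
    ∃ R : RotationSystem G, (Nat.card G.edgeSet : ℤ) - orb (R.next * flip G) +
      Nat.card {v : V // ∃ w, G.Adj v w} ≤ c := by
  obtain ⟨σ, hσ, hle⟩ := hG
  exact Merge_step G c (orb σ) σ rfl hσ hle

theorem exists_rotationSystem [Finite V] (G : SimpleGraph V) : Nonempty (RotationSystem G) := by
  have h : PsiLe G ((Nat.card G.edgeSet : ℤ) - orb ((1 : Perm G.Dart) * flip G) +
      orb (1 : Perm G.Dart)) := ⟨1, fun d => rfl, le_refl _⟩
  obtain ⟨R, -⟩ := exists_rotation G _ h
  exact ⟨R⟩

theorem genus_le_of_psi [Finite V] (G : SimpleGraph V) (c : ℤ) (hc : 0 ≤ c) (hG : PsiLe G c) :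
    2 * (genus G : ℤ) ≤ c + 1 := by
  classical
  obtain ⟨R, hR⟩ := exists_rotation G c hG
  have hV : Nat.card V = Nat.card {v : V // ∃ w, G.Adj v w} +
      Nat.card {v : V // ∀ w, ¬ G.Adj v w} := by
    have e1 : Nat.card {v : V // ¬ ∃ w, G.Adj v w} = Nat.card {v : V // ∀ w, ¬ G.Adj v w} :=
      Nat.card_congr (Equiv.subtypeEquivRight fun v => not_exists)
    rw [← e1, ← Nat.card_sum]
    exact (Nat.card_congr (Equiv.sumCompl fun v => ∃ w, G.Adj v w)).symm
  have hcomp : Nat.card G.ConnectedComponent ≤ Nat.card V :=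
    Nat.card_le_card_of_surjective G.connectedComponentMk
      (fun C => C.ind fun v => ⟨v, rfl⟩)
  obtain ⟨g, hg⟩ : ∃ g : ℕ, g = ((c + 1) / 2).toNat := ⟨_, rfl⟩
  have hg2 : 2 * (g : ℤ) ≤ c + 1 ∧ c ≤ 2 * (g : ℤ) := by
    rw [hg, Int.toNat_of_nonneg (by omega)]
    omega
  have hmem : genus G ≤ g := by
    refine Nat.sInf_le ⟨R, ?_⟩
    unfold RotationSystem.faces
    push_cast
    have h1 : (Nat.card V : ℤ) = (Nat.card {v : V // ∃ w, G.Adj v w} : ℤ) +
      (Nat.card {v : V // ∀ w, ¬ G.Adj v w} : ℤ) := by exact_mod_cast hV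
    have h2 : (Nat.card G.ConnectedComponent : ℤ) ≤ Nat.card V := by exact_mod_cast hcomp
    omega
  have h3 : (genus G : ℤ) ≤ g := by exact_mod_cast hmem
  omega

end Pool.Agent.H95.BG
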