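import Pool.Agent.H95.BG.Defs

/-!
Project BG, module Orb: the number of cycles of a permutation
(`orb σ = Nat.card (Quotient (SameCycle.setoid σ))`, fixed points count).

Hints. `orb_congr`: `SameCycle` is transported by conjugation, `Quotient.congr`.
`orb_sumCongr`: equivalence of the quotient with the sum of the quotients, `Nat.card_sum`.
Merge/split: it may be easiest to prove `sameCycle_mul_swap` first: if `a`, `b` are in different
cycles of `σ`, then `τ = σ * swap a b` maps `a ↦ σ b`, `b ↦ σ a`, and agrees with `σ` elsewhere; so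
from `σ b` the orbit of `τ` runs through the cycle of `b` (as `σ` does) up to `b`, then `σ a`, and
then through the cycle of `a` up to `a`. Useful trick for the direction from right to left: the relation `τ.SameCycle` contains
`x ~ σ x` for `x ≠ a, b`; hence the σ-orbit of `σ b` up to `b` is in one τ-cycle, which gives
`σ b ~ b`, and `τ b = σ a ~ a` similarly, `τ a = σ b`.
The quotient of `τ` is then the quotient of `σ` with the classes of `a` and `b` identified.
`orb_mul_swap_split` follows from `orb_mul_swap_merge` applied to `σ * swap a b` once one knows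
that `a`, `b` are in different cycles of `σ * swap a b` (if `b = σ^i a` with `0 < i` minimal, then
`τ = σ * swap a b` maps `b ↦ σ a ↦ ... ↦ σ^i a = b`, this cycle does not contain `a`).
-/

set_option autoImplicit false

namespace Pool.Agent.H95.BG

open Equiv

theorem orb_congr {α β : Type*} (e : α ≃ β) (σ : Perm α) :
    orb ((e.symm.trans σ).trans e) = orb σ := by
  have key : ∀ (i : ℤ) (x : α), (((e.symm.trans σ).trans e) ^ i) (e x) = e ((σ ^ i) x) := by
    intro i x
    have h1 : (e.symm.trans σ).trans e = e.permCongrHom σ := rfl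
    rw [h1, ← map_zpow]
    simp [Equiv.permCongrHom]
  unfold orb
  refine (Nat.card_congr (Quotient.congr e fun x y => ?_)).symm
  change σ.SameCycle x y ↔ Perm.SameCycle ((e.symm.trans σ).trans e : Perm β) (e x) (e y)
  unfold Equiv.Perm.SameCycle
  refine exists_congr fun i => ?_
  rw [key]
  exact e.injective.eq_iff.symm

/-- `SameCycle` is the equivalence relation generated by `x ~ f x`. -/
theorem Orb_le_of {α : Type*} (f : Perm α) (R : α → α → Prop) (hrefl : ∀ x, R x x)
    (hsymm : ∀ x y, R x y → R y x) (htrans : ∀ x y z, R x y → R y z → R x z)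
    (hf : ∀ x, R x (f x)) (x y : α) (h : f.SameCycle x y) : R x y := by
  have hnat : ∀ (n : ℕ) (x : α), R x ((f ^ n) x) := by
    intro n
    induction n with
    | zero => intro x; simpa using hrefl x
    | succ n ih =>
      intro x
      rw [pow_succ', Perm.mul_apply]
      exact htrans _ _ _ (ih x) (hf _)
  obtain ⟨i, hi⟩ := h
  rcases Int.eq_nat_or_neg i with ⟨n, rfl | rfl⟩
  · rw [zpow_natCast] at hi
    rw [← hi]
    exact hnat n x
  · have : (f ^ n) y = x := by
      rw [← hi, zpow_neg, zpow_natCast]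
      simp
    rw [← this]
    exact hsymm _ _ (hnat n y)

theorem Orb_sumCongr_inl {α β : Type*} (σ : Perm α) (τ : Perm β) (x y : α) :
    (Perm.sumCongr σ τ).SameCycle (Sum.inl x) (Sum.inl y) ↔ σ.SameCycle x y := by
  unfold Equiv.Perm.SameCycle
  refine exists_congr fun i => ?_
  have h : (Perm.sumCongr σ τ) ^ i = Perm.sumCongr (σ ^ i) (τ ^ i) :=
    (map_zpow (Perm.sumCongrHom α β) (σ, τ) i).symm
  rw [h]
  simp

theorem Orb_sumCongr_inr {α β : Type*} (σ : Perm α) (τ : Perm β) (x y : β) :
    (Perm.sumCongr σ τ).SameCycle (Sum.inr x) (Sum.inr y) ↔ τ.SameCycle x y := by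
  unfold Equiv.Perm.SameCycle
  refine exists_congr fun i => ?_
  have h : (Perm.sumCongr σ τ) ^ i = Perm.sumCongr (σ ^ i) (τ ^ i) :=
    (map_zpow (Perm.sumCongrHom α β) (σ, τ) i).symm
  rw [h]
  simp

theorem Orb_sumCongr_inl_inr {α β : Type*} (σ : Perm α) (τ : Perm β) (x : α) (y : β) :
    ¬ (Perm.sumCongr σ τ).SameCycle (Sum.inl x) (Sum.inr y) := by
  rintro ⟨i, hi⟩
  have h : (Perm.sumCongr σ τ) ^ i = Perm.sumCongr (σ ^ i) (τ ^ i) :=
    (map_zpow (Perm.sumCongrHom α β) (σ, τ) i).symm
  rw [h] at hi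
  simp at hi

theorem orb_sumCongr {α β : Type*} [Finite α] [Finite β] (σ : Perm α) (τ : Perm β) :
    orb (Perm.sumCongr σ τ) = orb σ + orb τ := by
  unfold orb
  rw [← Nat.card_sum]
  refine Nat.card_congr (Equiv.ofBijective
    (Quotient.lift (Sum.elim (fun x => Sum.inl (Quotient.mk (Perm.SameCycle.setoid σ) x))
      (fun y => Sum.inr (Quotient.mk (Perm.SameCycle.setoid τ) y))) ?_) ⟨?_, ?_⟩)
  · rintro (x | x) (y | y) h
    · exact congrArg Sum.inl (Quotient.sound ((Orb_sumCongr_inl σ τ x y).1 h))
    · exact absurd h (Orb_sumCongr_inl_inr σ τ x y)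
    · exact absurd (Perm.SameCycle.symm h) (Orb_sumCongr_inl_inr σ τ y x)
    · exact congrArg Sum.inr (Quotient.sound ((Orb_sumCongr_inr σ τ x y).1 h))
  · intro p q
    induction p using Quotient.inductionOn with | _ x => ?_
    induction q using Quotient.inductionOn with | _ y => ?_
    intro h
    rcases x with x | x <;> rcases y with y | y
    · have h1 : (Quotient.mk (Perm.SameCycle.setoid σ) x) = Quotient.mk _ y := Sum.inl.inj h
      exact Quotient.sound ((Orb_sumCongr_inl σ τ x y).2 (Quotient.exact h1))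
    · exact absurd h (by intro h; exact Sum.inl_ne_inr h)
    · exact absurd h (by intro h; exact Sum.inr_ne_inl h)
    · have h1 : (Quotient.mk (Perm.SameCycle.setoid τ) x) = Quotient.mk _ y := Sum.inr.inj h
      exact Quotient.sound ((Orb_sumCongr_inr σ τ x y).2 (Quotient.exact h1))
  · rintro (p | p)
    · induction p using Quotient.inductionOn with | _ x => ?_
      exact ⟨Quotient.mk _ (Sum.inl x), rfl⟩
    · induction p using Quotient.inductionOn with | _ x => ?_
      exact ⟨Quotient.mk _ (Sum.inr x), rfl⟩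

theorem Orb_step {α : Type*} [DecidableEq α] (σ : Perm α) (a b x : α) (hxa : x ≠ a)
    (hxb : x ≠ b) : (σ * swap a b).SameCycle x (σ x) := by
  refine ⟨1, ?_⟩
  rw [zpow_one, Perm.mul_apply, swap_apply_of_ne_of_ne hxa hxb]

theorem Orb_step_a {α : Type*} [DecidableEq α] (σ : Perm α) (a b : α) :
    (σ * swap a b).SameCycle a (σ b) := by
  refine ⟨1, ?_⟩
  rw [zpow_one, Perm.mul_apply, swap_apply_left]

theorem Orb_step_b {α : Type*} [DecidableEq α] (σ : Perm α) (a b : α) :
    (σ * swap a b).SameCycle b (σ a) := by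
  refine ⟨1, ?_⟩
  rw [zpow_one, Perm.mul_apply, swap_apply_right]

theorem Orb_around {α : Type*} [Finite α] [DecidableEq α] (σ : Perm α) (a b : α)
    (h : ¬ σ.SameCycle a b) : (σ * swap a b).SameCycle (σ b) b := by
  have key : ∀ i : ℕ, (σ * swap a b).SameCycle (σ b) ((σ ^ (i + 1)) b) ∨
      (σ * swap a b).SameCycle (σ b) b := by
    intro i
    induction i with
    | zero => left; simpa using Perm.SameCycle.refl _ _
    | succ i ih =>
      rcases ih with ih | ih
      · by_cases hb : (σ ^ (i + 1)) b = b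
        · right; rw [hb] at ih; exact ih
        · have ha : (σ ^ (i + 1)) b ≠ a := by
            intro ha
            apply h
            refine Perm.SameCycle.symm ⟨(i + 1 : ℕ), ?_⟩
            rw [zpow_natCast]
            exact ha
          left
          rw [pow_succ', Perm.mul_apply]
          exact ih.trans (Orb_step σ a b _ ha hb)
      · right; exact ih
  have h1 := key (orderOf σ - 1)
  have h2 : orderOf σ - 1 + 1 = orderOf σ := Nat.sub_add_cancel (orderOf_pos σ)
  rw [h2, pow_orderOf_eq_one] at h1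
  simpa using h1

theorem sameCycle_mul_swap {α : Type*} [Finite α] [DecidableEq α] (σ : Perm α) (a b : α)
    (h : ¬ σ.SameCycle a b) (x y : α) : (σ * swap a b).SameCycle x y ↔
      σ.SameCycle x y ∨ (σ.SameCycle x a ∧ σ.SameCycle b y) ∨
        (σ.SameCycle x b ∧ σ.SameCycle a y) := by
  constructor
  · intro hxy
    refine Orb_le_of (σ * swap a b) (fun x y => σ.SameCycle x y ∨
      (σ.SameCycle x a ∧ σ.SameCycle b y) ∨ (σ.SameCycle x b ∧ σ.SameCycle a y))
      (fun x => Or.inl (Perm.SameCycle.refl σ x)) ?_ ?_ ?_ x y hxy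
    · rintro x y (h1 | ⟨h1, h2⟩ | ⟨h1, h2⟩)
      · exact Or.inl h1.symm
      · exact Or.inr (Or.inr ⟨h2.symm, h1.symm⟩)
      · exact Or.inr (Or.inl ⟨h2.symm, h1.symm⟩)
    · rintro x y z (h1 | ⟨h1, h2⟩ | ⟨h1, h2⟩) (h3 | ⟨h3, h4⟩ | ⟨h3, h4⟩)
      · exact Or.inl (h1.trans h3)
      · exact Or.inr (Or.inl ⟨h1.trans h3, h4⟩)
      · exact Or.inr (Or.inr ⟨h1.trans h3, h4⟩)
      · exact Or.inr (Or.inl ⟨h1, h2.trans h3⟩)
      · exact absurd (h2.trans h3).symm h
      · exact Or.inl (h1.trans h4)
      · exact Or.inr (Or.inr ⟨h1, h2.trans h3⟩)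
      · exact Or.inl (h1.trans h4)
      · exact absurd (h2.trans h3) h
    · intro x
      by_cases hxa : x = a
      · right; left
        rw [hxa, Perm.mul_apply, swap_apply_left]
        exact ⟨Perm.SameCycle.refl σ a, ⟨1, by simp⟩⟩
      · by_cases hxb : x = b
        · right; right
          rw [hxb, Perm.mul_apply, swap_apply_right]
          exact ⟨Perm.SameCycle.refl σ b, ⟨1, by simp⟩⟩
        · left
          rw [Perm.mul_apply, swap_apply_of_ne_of_ne hxa hxb]
          exact ⟨1, by simp⟩
  · have hab : (σ * swap a b).SameCycle a b := (Orb_step_a σ a b).trans (Orb_around σ a b h)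
    have hstep : ∀ x, (σ * swap a b).SameCycle x (σ x) := by
      intro x
      by_cases hxa : x = a
      · rw [hxa]
        exact hab.trans (Orb_step_b σ a b)
      · by_cases hxb : x = b
        · rw [hxb]
          exact (Orb_around σ a b h).symm
        · exact Orb_step σ a b x hxa hxb
    have hle : ∀ x y, σ.SameCycle x y → (σ * swap a b).SameCycle x y := by
      intro x y hxy
      exact Orb_le_of σ (fun x y => (σ * swap a b).SameCycle x y)
        (fun x => Perm.SameCycle.refl _ x) (fun x y h => h.symm)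
        (fun x y z h1 h2 => h1.trans h2) hstep x y hxy
    rintro (h1 | ⟨h1, h2⟩ | ⟨h1, h2⟩)
    · exact hle _ _ h1
    · exact ((hle _ _ h1).trans hab).trans (hle _ _ h2)
    · exact ((hle _ _ h1).trans hab.symm).trans (hle _ _ h2)

/-- Multiplying by a transposition of two points in different cycles joins the two cycles. -/
theorem orb_mul_swap_merge {α : Type*} [Finite α] [DecidableEq α] (σ : Perm α) (a b : α)
    (h : ¬ σ.SameCycle a b) : orb (σ * swap a b) + 1 = orb σ := by
  classical
  unfold orb
  set s := Perm.SameCycle.setoid σ with hs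
  set t := Perm.SameCycle.setoid (σ * swap a b) with ht
  have h1 : Nat.card (Option {q : Quotient s // q ≠ Quotient.mk s b}) = Nat.card (Quotient s) :=
    Nat.card_congr (Equiv.optionSubtypeNe (Quotient.mk s b))
  rw [← h1, Finite.card_option]
  congr 1
  have hmap : ∀ x y, σ.SameCycle x y → (σ * swap a b).SameCycle x y := fun x y hxy =>
    (sameCycle_mul_swap σ a b h x y).2 (Or.inl hxy)
  refine (Nat.card_congr (Equiv.ofBijective
    (fun q : {q : Quotient s // q ≠ Quotient.mk s b} =>
      Quotient.lift (s := s) (fun x => Quotient.mk t x)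
        (fun x y hxy => Quotient.sound (hmap x y hxy)) q.1) ⟨?_, ?_⟩)).symm
  · rintro ⟨p, hp⟩ ⟨q, hq⟩
    induction p using Quotient.inductionOn with | _ x => ?_
    induction q using Quotient.inductionOn with | _ y => ?_
    intro hxy
    have hxy' : (σ * swap a b).SameCycle x y := Quotient.exact (s := t) hxy
    have hx : ¬ σ.SameCycle x b := fun h' => hp (Quotient.sound (s := s) h')
    have hy : ¬ σ.SameCycle y b := fun h' => hq (Quotient.sound (s := s) h')
    rcases (sameCycle_mul_swap σ a b h x y).1 hxy' with h1 | ⟨h1, h2⟩ | ⟨h1, h2⟩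
    · exact Subtype.ext (Quotient.sound (s := s) h1)
    · exact absurd h2.symm hy
    · exact absurd h1 hx
  · intro q
    induction q using Quotient.inductionOn with | _ y => ?_
    by_cases hy : σ.SameCycle y b
    · refine ⟨⟨Quotient.mk s a, fun h' => h (Quotient.exact h')⟩, ?_⟩
      exact Quotient.sound (s := t) (((sameCycle_mul_swap σ a b h y a).2
        (Or.inr (Or.inr ⟨hy, Perm.SameCycle.refl σ a⟩))).symm)
    · exact ⟨⟨Quotient.mk s y, fun h' => hy (Quotient.exact h')⟩, rfl⟩

theorem Orb_not_sameCycle {α : Type*} [Finite α] [DecidableEq α] (σ : Perm α) (a b : α)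
    (h : σ.SameCycle a b) (hab : a ≠ b) : ¬ (σ * swap a b).SameCycle a b := by
  have hex : ∃ i : ℕ, 0 < i ∧ (σ ^ i) a = b := by
    obtain ⟨i, _, hi⟩ := h.exists_pow_eq'
    refine ⟨i, Nat.pos_of_ne_zero ?_, hi⟩
    rintro rfl
    exact hab (by simpa using hi)
  classical
  set m := Nat.find hex with hm
  obtain ⟨hm0, hmb⟩ := Nat.find_spec hex
  have hmin : ∀ j, 0 < j → j < m → (σ ^ j) a ≠ b := by
    intro j hj hjm hj'
    exact Nat.find_min hex hjm ⟨hj, hj'⟩
  have hna : ∀ j, 0 < j → j ≤ m → (σ ^ j) a ≠ a := by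
    intro j hj hjm hj'
    rcases hjm.lt_or_eq with h1 | h1
    · refine hmin (m - j) (by omega) (by omega) ?_
      have h2 : (σ ^ m) a = (σ ^ (m - j)) ((σ ^ j) a) := by
        rw [← Perm.mul_apply, ← pow_add]
        congr 2
        omega
      rw [hj'] at h2
      rw [← h2]
      exact hmb
    · rw [h1] at hj'
      exact hab (hj'.symm.trans hmb)
  have hinv : ∀ x, (∃ j, 0 < j ∧ j ≤ m ∧ (σ ^ j) a = x) →
      ∃ j, 0 < j ∧ j ≤ m ∧ (σ ^ j) a = (σ * swap a b) x := by
    rintro x ⟨j, hj, hjm, rfl⟩
    rcases hjm.lt_or_eq with h1 | h1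
    · refine ⟨j + 1, by omega, by omega, ?_⟩
      rw [Perm.mul_apply, swap_apply_of_ne_of_ne (hna j hj hjm) (hmin j hj h1), pow_succ',
        Perm.mul_apply]
    · refine ⟨1, by omega, by omega, ?_⟩
      rw [h1, hmb, Perm.mul_apply, swap_apply_right, pow_one]
  have hinv' : ∀ (n : ℕ) x, (∃ j, 0 < j ∧ j ≤ m ∧ (σ ^ j) a = x) →
      ∃ j, 0 < j ∧ j ≤ m ∧ (σ ^ j) a = ((σ * swap a b) ^ n) x := by
    intro n
    induction n with
    | zero => intro x hx; simpa using hx
    | succ n ih =>
      intro x hx
      have := hinv _ (ih x hx)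
      rw [pow_succ', Perm.mul_apply]
      exact this
  intro hcon
  obtain ⟨n, _, hn⟩ := hcon.symm.exists_pow_eq'
  obtain ⟨j, hj, hjm, hj'⟩ := hinv' n b ⟨m, hm0, le_rfl, hmb⟩
  rw [hn] at hj'
  exact hna j hj hjm hj'

/-- Multiplying by a transposition of two points in the same cycle splits the cycle. -/
theorem orb_mul_swap_split {α : Type*} [Finite α] [DecidableEq α] (σ : Perm α) (a b : α)
    (h : σ.SameCycle a b) (hab : a ≠ b) : orb (σ * swap a b) = orb σ + 1 := by
  have h1 := orb_mul_swap_merge (σ * swap a b) a b (Orb_not_sameCycle σ a b h hab)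
  rw [mul_assoc, swap_mul_self, mul_one] at h1
  exact h1.symm

theorem orb_le_mul_swap {α : Type*} [Finite α] [DecidableEq α] (σ : Perm α) (a b : α) :
    orb σ ≤ orb (σ * swap a b) + 1 := by
  by_cases hab : a = b
  · rw [hab, swap_self]
    change orb σ ≤ orb (σ * 1) + 1
    rw [mul_one]
    omega
  · by_cases h : σ.SameCycle a b
    · rw [orb_mul_swap_split σ a b h hab]
      omega
    · rw [orb_mul_swap_merge σ a b h]

end Pool.Agent.H95.BG
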