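import Pool.Agent.H95.BG.Defs

/-!
Project BG, module Rects: the rectangles cut out by the reference bars `R`.

For a time `t` and a height `y` that is not the height of a bar of `R` let
`cell t y = (lo, up)`, where `lo` is the highest bar of `R` alive at time `t` below `y` (or none) and
`up` the lowest bar of `R` alive at time `t` above `y` (or none). Let `τ t y` be the least `τ ≤ t` with
`cell t' y = cell t y` for all `t' ∈ [τ, t]`. For an event `e` with `e.1 ∉ R` let
`rect e = (cell (time e) (h e.1), τ (time e) (h e.1))` (encoded in `ℕ`).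

(A) If `cell s y = (a, b)` and `y'` lies in the same interval (between `a` and `b`), then
`cell s y' = (a, b)`. So if `rect e = rect e' = ((a, b), τ)` and `time e ≤ time e'`, then for all
`s ∈ [τ, time e']` both heights are in the cell `(a, b)` at time `s` (for `s ≤ time e'` this is so
for `e'` by definition of `τ`, and `h e.1` lies between `a` and `b`). This gives the second
statement.
(B) If `s` is in the span of `rect e` and of `rect e'` and no bar of `R` alive at time `s` is between
the two heights, then the cells at time `s` are equal, hence the cells of the two rectangles, and the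
`τ`'s are equal too (by (A) the sets of times are the same). This gives the third statement.
(C) Count: if `τ > 0`, the event number `τ` is the birth or death of a bar `r ∈ R` (other events
do not change cells), at time `τ - 1` the cell was different. If it is the birth of `r` then `r = up`
or `r = lo` at time `τ`, and each choice determines the cell (given `up = r` at time `τ`, `lo` is the
highest bar of `R` alive below `r`). If it is the death of `r`, the cell at time `τ` is the one
containing the height of `r`. If `τ = 0` then either the event number `0` is a birth of `r ∈ R` (two cells,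
as before) or no bar of `R` is alive and there is only one cell. So there is an injection of the set
of rectangles into `Option (R × Fin 3)`.
-/

set_option autoImplicit false

namespace Pool.Agent.H95.BG

open Finset

section Rects

variable {n : ℕ} (P : Model n) (R : Finset (Fin n))

/-- The highest bar of `R` alive at time `t` below `y` (as a set with at most one element). -/
def RectsLo (t y : ℕ) : Finset (Fin n) :=
  {r ∈ R | P.alive t r ∧ P.h r < y ∧ ∀ r' ∈ R, P.alive t r' → P.h r' < y → P.h r' ≤ P.h r}

/-- The lowest bar of `R` alive at time `t` above `y` (as a set with at most one element). -/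
def RectsUp (t y : ℕ) : Finset (Fin n) :=
  {r ∈ R | P.alive t r ∧ y < P.h r ∧ ∀ r' ∈ R, P.alive t r' → y < P.h r' → P.h r ≤ P.h r'}

/-- The cell of the height `y` at time `t`. -/
def RectsCell (t y : ℕ) : Finset (Fin n) × Finset (Fin n) := (RectsLo P R t y, RectsUp P R t y)

private lemma Rects_mem_lo {t y : ℕ} {r : Fin n} : r ∈ RectsLo P R t y ↔
    r ∈ R ∧ P.alive t r ∧ P.h r < y ∧ ∀ r' ∈ R, P.alive t r' → P.h r' < y → P.h r' ≤ P.h r := by
  simp [RectsLo]

private lemma Rects_mem_up {t y : ℕ} {r : Fin n} : r ∈ RectsUp P R t y ↔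
    r ∈ R ∧ P.alive t r ∧ y < P.h r ∧ ∀ r' ∈ R, P.alive t r' → y < P.h r' → P.h r ≤ P.h r' := by
  simp [RectsUp]

private lemma Rects_exists_lo {t y : ℕ} {r : Fin n} (hr : r ∈ R) (ha : P.alive t r)
    (hy : P.h r < y) : ∃ m ∈ RectsLo P R t y, P.h r ≤ P.h m := by
  obtain ⟨m, hm, hmax⟩ := Finset.exists_max_image {s ∈ R | P.alive t s ∧ P.h s < y} P.h
    ⟨r, by simp [hr, ha, hy]⟩
  simp only [mem_filter] at hm hmax
  refine ⟨m, (Rects_mem_lo P R).2 ⟨hm.1, hm.2.1, hm.2.2, ?_⟩, hmax r ⟨hr, ha, hy⟩⟩
  intro r' h1 h2 h3
  exact hmax r' ⟨h1, h2, h3⟩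

private lemma Rects_exists_up {t y : ℕ} {r : Fin n} (hr : r ∈ R) (ha : P.alive t r)
    (hy : y < P.h r) : ∃ m ∈ RectsUp P R t y, P.h m ≤ P.h r := by
  obtain ⟨m, hm, hmin⟩ := Finset.exists_min_image {s ∈ R | P.alive t s ∧ y < P.h s} P.h
    ⟨r, by simp [hr, ha, hy]⟩
  simp only [mem_filter] at hm hmin
  refine ⟨m, (Rects_mem_up P R).2 ⟨hm.1, hm.2.1, hm.2.2, ?_⟩, hmin r ⟨hr, ha, hy⟩⟩
  intro r' h1 h2 h3
  exact hmin r' ⟨h1, h2, h3⟩

/-- The height `y` is not the height of a bar of `R` alive at time `t`. -/
def RectsGood (t y : ℕ) : Prop := ∀ r ∈ R, P.alive t r → P.h r ≠ y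

private lemma Rects_cell_congr {t y y' : ℕ} (hg : RectsGood P R t y) (hg' : RectsGood P R t y')
    (H : ∀ r ∈ R, P.alive t r → (P.h r < y ↔ P.h r < y')) :
    RectsCell P R t y = RectsCell P R t y' := by
  have H' : ∀ r ∈ R, P.alive t r → (y < P.h r ↔ y' < P.h r) := by
    intro r hr ha
    have h1 := hg r hr ha
    have h2 := hg' r hr ha
    have h3 := H r hr ha
    omega
  refine Prod.ext ?_ ?_
  · ext r
    simp only [RectsCell, Rects_mem_lo]
    constructor
    · rintro ⟨h1, h2, h3, h4⟩
      exact ⟨h1, h2, (H r h1 h2).1 h3, fun r' h5 h6 h7 => h4 r' h5 h6 ((H r' h5 h6).2 h7)⟩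
    · rintro ⟨h1, h2, h3, h4⟩
      exact ⟨h1, h2, (H r h1 h2).2 h3, fun r' h5 h6 h7 => h4 r' h5 h6 ((H r' h5 h6).1 h7)⟩
  · ext r
    simp only [RectsCell, Rects_mem_up]
    constructor
    · rintro ⟨h1, h2, h3, h4⟩
      exact ⟨h1, h2, (H' r h1 h2).1 h3, fun r' h5 h6 h7 => h4 r' h5 h6 ((H' r' h5 h6).2 h7)⟩
    · rintro ⟨h1, h2, h3, h4⟩
      exact ⟨h1, h2, (H' r h1 h2).2 h3, fun r' h5 h6 h7 => h4 r' h5 h6 ((H' r' h5 h6).1 h7)⟩

private lemma Rects_cell_trans {s t y y' : ℕ} (hg' : RectsGood P R s y')
    (h : RectsCell P R s y' = RectsCell P R t y) (r : Fin n) (hr : r ∈ R) (ha : P.alive s r) :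
    P.h r < y ↔ P.h r < y' := by
  have hlo : RectsLo P R s y' = RectsLo P R t y := congrArg Prod.fst h
  have hup : RectsUp P R s y' = RectsUp P R t y := congrArg Prod.snd h
  constructor
  · intro h1
    by_contra h2
    have h3 := hg' r hr ha
    obtain ⟨m, hm, hmr⟩ := Rects_exists_up P R hr ha (show y' < P.h r by omega)
    rw [hup, Rects_mem_up] at hm
    omega
  · intro h1
    obtain ⟨m, hm, hmr⟩ := Rects_exists_lo P R hr ha h1
    rw [hlo, Rects_mem_lo] at hm
    omega

private lemma Rects_cell_eq {s t y y' : ℕ} (hg' : RectsGood P R s y') (hg : RectsGood P R s y)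
    (h : RectsCell P R s y' = RectsCell P R t y) :
    RectsCell P R s y = RectsCell P R t y := by
  rw [← h]
  exact Rects_cell_congr P R hg hg' (Rects_cell_trans P R hg' h)

/-- The first time from which on the cell does not change until time `t`. -/
noncomputable def RectsTau (t y : ℕ) : ℕ :=
  sInf {τ | ∀ s, τ ≤ s → s ≤ t → RectsCell P R s y = RectsCell P R t y}

private lemma Rects_tau_mem (t y : ℕ) :
    RectsTau P R t y ∈ {τ | ∀ s, τ ≤ s → s ≤ t → RectsCell P R s y = RectsCell P R t y} := by
  apply Nat.sInf_mem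
  refine ⟨t, ?_⟩
  intro s h1 h2
  rw [le_antisymm h2 h1]

private lemma Rects_tau_spec {t y s : ℕ} (h1 : RectsTau P R t y ≤ s) (h2 : s ≤ t) :
    RectsCell P R s y = RectsCell P R t y := Rects_tau_mem P R t y s h1 h2

private lemma Rects_tau_min {t y σ : ℕ}
    (h : ∀ s, σ ≤ s → s ≤ t → RectsCell P R s y = RectsCell P R t y) :
    RectsTau P R t y ≤ σ := Nat.sInf_le h

private lemma Rects_tau_le (t y : ℕ) : RectsTau P R t y ≤ t :=
  Rects_tau_min P R (fun s h1 h2 => by rw [le_antisymm h2 h1])

/-- The rectangle of an event. -/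
noncomputable def RectsRect (e : Fin n × Bool) : ℕ :=
  Encodable.encode (RectsCell P R (P.time e) (P.h e.1), RectsTau P R (P.time e) (P.h e.1))

private lemma Rects_rect_eq {e e' : Fin n × Bool} (h : RectsRect P R e = RectsRect P R e') :
    RectsCell P R (P.time e) (P.h e.1) = RectsCell P R (P.time e') (P.h e'.1) ∧
      RectsTau P R (P.time e) (P.h e.1) = RectsTau P R (P.time e') (P.h e'.1) := by
  have := Encodable.encode_injective h
  exact ⟨congrArg Prod.fst this, congrArg Prod.snd this⟩

private lemma Rects_good {e : Fin n × Bool} (he : e.1 ∉ R) (t : ℕ) : RectsGood P R t (P.h e.1) := by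
  intro r hr _ h
  exact he (P.h_inj h ▸ hr)

private lemma Rects_span {e : Fin n × Bool} (he : e.1 ∉ R) {t : ℕ}
    (ht : span P R (RectsRect P R) (RectsRect P R e) t) :
    RectsTau P R (P.time e) (P.h e.1) ≤ t ∧
      ∀ s, RectsTau P R (P.time e) (P.h e.1) ≤ s → s ≤ t →
        RectsCell P R s (P.h e.1) = RectsCell P R (P.time e) (P.h e.1) := by
  obtain ⟨⟨f, hf, hfe, hft⟩, ⟨f', hf', hfe', hft'⟩⟩ := ht
  obtain ⟨h1, h2⟩ := Rects_rect_eq P R hfe
  obtain ⟨h3, h4⟩ := Rects_rect_eq P R hfe'
  refine ⟨?_, ?_⟩
  · rw [← h2]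
    exact (Rects_tau_le P R _ _).trans hft
  · intro s hs1 hs2
    rw [← h4] at hs1
    have h5 := Rects_tau_spec P R hs1 (hs2.trans hft')
    rw [h3] at h5
    exact Rects_cell_eq P R (Rects_good P R hf' s) (Rects_good P R he s) h5

private lemma Rects_not_btw {e e' : Fin n × Bool} (he' : e'.1 ∉ R) {t : ℕ}
    (h : RectsCell P R t (P.h e.1) = RectsCell P R t (P.h e'.1)) (he : e.1 ∉ R) (r : Fin n)
    (hr : r ∈ R) (ha : P.alive t r) : ¬ btw P.h e.1 e'.1 r := by
  have h1 := Rects_cell_trans P R (Rects_good P R he t) h r hr ha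
  have h2 := Rects_good P R he t r hr ha
  have h3 := Rects_good P R he' t r hr ha
  unfold btw
  omega

/-- Removing or adding a bar separated from `y` by another bar does not change the cell. -/
private lemma Rects_erase_aux {t1 t2 y : ℕ} {r s : Fin n}
    (hiff : ∀ q ∈ R, q ≠ r → (P.alive t1 q ↔ P.alive t2 q)) (hs : s ∈ R)
    (ha : P.alive t1 s) (hb : (P.h r < P.h s ∧ P.h s < y) ∨ (y < P.h s ∧ P.h s < P.h r)) :
    RectsLo P R t1 y ⊆ RectsLo P R t2 y ∧ RectsUp P R t1 y ⊆ RectsUp P R t2 y := by
  constructor
  · intro q hq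
    rw [Rects_mem_lo] at hq ⊢
    obtain ⟨h1, h2, h3, h4⟩ := hq
    have hqr : q ≠ r := by
      rintro rfl
      have := h4 s hs ha
      omega
    refine ⟨h1, (hiff q h1 hqr).1 h2, h3, ?_⟩
    intro r' h5 h6 h7
    by_cases h8 : r' = r
    · subst h8
      have := h4 s hs ha
      omega
    · exact h4 r' h5 ((hiff r' h5 h8).2 h6) h7
  · intro q hq
    rw [Rects_mem_up] at hq ⊢
    obtain ⟨h1, h2, h3, h4⟩ := hq
    have hqr : q ≠ r := by
      rintro rfl
      have := h4 s hs ha
      omega
    refine ⟨h1, (hiff q h1 hqr).1 h2, h3, ?_⟩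
    intro r' h5 h6 h7
    by_cases h8 : r' = r
    · subst h8
      have := h4 s hs ha
      omega
    · exact h4 r' h5 ((hiff r' h5 h8).2 h6) h7

private lemma Rects_erase {t1 t2 y : ℕ} {r s : Fin n}
    (hiff : ∀ q ∈ R, q ≠ r → (P.alive t1 q ↔ P.alive t2 q)) (hs : s ∈ R)
    (ha : P.alive t1 s) (hb : (P.h r < P.h s ∧ P.h s < y) ∨ (y < P.h s ∧ P.h s < P.h r)) :
    RectsCell P R t1 y = RectsCell P R t2 y := by
  have hsr : s ≠ r := by
    rintro rfl
    omega
  obtain ⟨h1, h2⟩ := Rects_erase_aux P R hiff hs ha hb
  obtain ⟨h3, h4⟩ := Rects_erase_aux P R (fun q hq hqr => (hiff q hq hqr).symm) hs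
    ((hiff s hs hsr).1 ha) hb
  exact Prod.ext (h1.antisymm h3) (h2.antisymm h4)

/-- The list of all possible rectangles. -/
noncomputable def RectsList : Option ({r // r ∈ R} × Fin 3) → ℕ
  | none => Encodable.encode (((∅, ∅) : Finset (Fin n) × Finset (Fin n)), 0)
  | some (r, i) =>
    if i = 0 then
      Encodable.encode ((RectsLo P R (P.time (r.1, false)) (P.h r.1), ({r.1} : Finset (Fin n))),
        P.time (r.1, false))
    else if i = 1 then
      Encodable.encode ((({r.1} : Finset (Fin n)), RectsUp P R (P.time (r.1, false)) (P.h r.1)),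
        P.time (r.1, false))
    else
      Encodable.encode (RectsCell P R (P.time (r.1, true)) (P.h r.1), P.time (r.1, true))

private lemma Rects_time_inj {e f : Fin n × Bool} (h : P.time e = P.time f) : e = f :=
  P.ev.injective (Fin.ext h)

private lemma Rects_mem_list (e : Fin n × Bool) (he : e.1 ∉ R) :
    ∃ o, RectsList P R o = RectsRect P R e := by
  set t := P.time e with ht
  set y := P.h e.1 with hy
  set τ := RectsTau P R t y with hτ
  have hτt : τ ≤ t := Rects_tau_le P R t y
  have hlt : τ < 2 * n := lt_of_le_of_lt hτt (P.ev e).isLt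
  have hcell : RectsCell P R τ y = RectsCell P R t y := Rects_tau_spec P R le_rfl hτt
  have hmin : 0 < τ → RectsCell P R (τ - 1) y = RectsCell P R τ y → False := by
    intro h0 h
    have : RectsTau P R t y ≤ τ - 1 := by
      apply Rects_tau_min
      intro s h1 h2
      rcases Nat.lt_or_ge s τ with h3 | h3
      · have : s = τ - 1 := by omega
        rw [this, h, hcell]
      · exact Rects_tau_spec P R h3 h2
    omega
  have hgood := fun s => Rects_good P R he s
  have hrect : RectsRect P R e = Encodable.encode (RectsCell P R τ y, τ) := by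
    rw [hcell]
    rfl
  obtain ⟨f, hf⟩ : ∃ f, P.time f = τ := ⟨P.ev.symm ⟨τ, hlt⟩, by simp [Model.time]⟩
  have hev : ∀ q : Fin n, P.time (q, false) < P.time (q, true) := P.ev_lt
  by_cases hfR : f.1 ∈ R
  swap
  · have hne : ∀ r ∈ R, ∀ b, P.time (r, b) ≠ τ := by
      intro r hr b h
      rw [← hf] at h
      have := Rects_time_inj P h
      exact hfR (this ▸ hr)
    have hτ0 : τ = 0 := by
      by_contra h0
      apply hmin (Nat.pos_of_ne_zero h0)
      have hal : ∀ r ∈ R, (P.alive (τ - 1) r ↔ P.alive τ r) := by
        intro r hr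
        have h1 := hne r hr false
        have h2 := hne r hr true
        unfold Model.alive
        omega
      refine Prod.ext ?_ ?_
      · ext r
        simp only [RectsCell, Rects_mem_lo]
        constructor
        · rintro ⟨h1, h2, h3, h4⟩
          exact ⟨h1, (hal r h1).1 h2, h3, fun r' h5 h6 => h4 r' h5 ((hal r' h5).2 h6)⟩
        · rintro ⟨h1, h2, h3, h4⟩
          exact ⟨h1, (hal r h1).2 h2, h3, fun r' h5 h6 => h4 r' h5 ((hal r' h5).1 h6)⟩
      · ext r
        simp only [RectsCell, Rects_mem_up]
        constructor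
        · rintro ⟨h1, h2, h3, h4⟩
          exact ⟨h1, (hal r h1).1 h2, h3, fun r' h5 h6 => h4 r' h5 ((hal r' h5).2 h6)⟩
        · rintro ⟨h1, h2, h3, h4⟩
          exact ⟨h1, (hal r h1).2 h2, h3, fun r' h5 h6 => h4 r' h5 ((hal r' h5).1 h6)⟩
    refine ⟨none, ?_⟩
    rw [hrect, hτ0]
    have hnal : ∀ r ∈ R, ¬ P.alive 0 r := by
      intro r hr ha
      have h1 := hne r hr false
      unfold Model.alive at ha
      omega
    have h1 : RectsCell P R 0 y = (∅, ∅) := by
      refine Prod.ext ?_ ?_
      · apply Finset.eq_empty_of_forall_notMem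
        intro r hr
        rw [RectsCell, Rects_mem_lo] at hr
        exact hnal r hr.1 hr.2.1
      · apply Finset.eq_empty_of_forall_notMem
        intro r hr
        rw [RectsCell, Rects_mem_up] at hr
        exact hnal r hr.1 hr.2.1
    rw [h1]
    rfl
  · obtain ⟨r, b⟩ := f
    simp only at hfR
    have hiff : ∀ q ∈ R, q ≠ r → (P.alive (τ - 1) q ↔ P.alive τ q) := by
      intro q hq hqr
      have h1 : P.time (q, false) ≠ τ := by
        rw [← hf]
        intro h
        exact hqr (congrArg Prod.fst (Rects_time_inj P h))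
      have h2 : P.time (q, true) ≠ τ := by
        rw [← hf]
        intro h
        exact hqr (congrArg Prod.fst (Rects_time_inj P h))
      unfold Model.alive
      have h3 := hev q
      omega
    have hry : P.h r ≠ y := by
      intro h
      exact he (P.h_inj h ▸ hfR)
    cases b with
    | false =>
      have har : P.alive τ r := ⟨hf.le, by rw [← hf]; exact hev r⟩
      have hmem : r ∈ RectsLo P R τ y ∨ r ∈ RectsUp P R τ y := by
        by_contra hno
        rw [not_or] at hno
        have hex : ∃ s ∈ R, P.alive τ s ∧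
            ((P.h r < P.h s ∧ P.h s < y) ∨ (y < P.h s ∧ P.h s < P.h r)) := by
          rcases Nat.lt_or_gt_of_ne hry with h1 | h1
          · have h2 := hno.1
            rw [Rects_mem_lo] at h2
            simp only [hfR, har, h1, true_and, not_forall, exists_prop, not_le] at h2
            obtain ⟨s, h3, h4, h5, h6⟩ := h2
            exact ⟨s, h3, h4, Or.inl ⟨h6, h5⟩⟩
          · have h2 := hno.2
            rw [Rects_mem_up] at h2
            simp only [hfR, har, h1, true_and, not_forall, exists_prop, not_le] at h2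
            obtain ⟨s, h3, h4, h5, h6⟩ := h2
            exact ⟨s, h3, h4, Or.inr ⟨h5, h6⟩⟩
        obtain ⟨s, h3, h4, h5⟩ := hex
        have hsr : s ≠ r := by
          rintro rfl
          omega
        have hpos : 0 < τ := by
          by_contra h0
          have h6 : P.time (s, false) ≤ τ := h4.1
          have h7 : P.time (s, false) = P.time (r, false) := by omega
          exact hsr (congrArg Prod.fst (Rects_time_inj P h7))
        exact hmin hpos (Rects_erase P R (fun q hq hqr => (hiff q hq hqr).symm) h3 h4 h5).symm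
      rcases hmem with hm | hm
      · refine ⟨some (⟨r, hfR⟩, 1), ?_⟩
        rw [hrect]
        have h1 : RectsLo P R τ y = {r} := by
          ext q
          rw [Finset.mem_singleton]
          constructor
          · intro hq
            rw [Rects_mem_lo] at hq hm
            have h2 := hq.2.2.2 r hm.1 hm.2.1 hm.2.2.1
            have h3 := hm.2.2.2 q hq.1 hq.2.1 hq.2.2.1
            exact P.h_inj (by omega)
          · rintro rfl
            exact hm
        have h2 : RectsUp P R τ y = RectsUp P R τ (P.h r) := by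
          rw [Rects_mem_lo] at hm
          have H : ∀ q ∈ R, P.alive τ q → (y < P.h q ↔ P.h r < P.h q) := by
            intro q hq ha
            have h3 := hm.2.2.2 q hq ha
            have h4 := hgood τ q hq ha
            omega
          ext q
          simp only [Rects_mem_up]
          constructor
          · rintro ⟨h1, h2, h3, h4⟩
            exact ⟨h1, h2, (H q h1 h2).1 h3, fun r' h5 h6 h7 => h4 r' h5 h6 ((H r' h5 h6).2 h7)⟩
          · rintro ⟨h1, h2, h3, h4⟩
            exact ⟨h1, h2, (H q h1 h2).2 h3, fun r' h5 h6 h7 => h4 r' h5 h6 ((H r' h5 h6).1 h7)⟩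
        have h3 : RectsCell P R τ y = ({r}, RectsUp P R τ (P.h r)) := Prod.ext h1 h2
        rw [h3]
        simp only [RectsList]
        rw [if_neg (by decide), if_pos trivial, hf]
      · refine ⟨some (⟨r, hfR⟩, 0), ?_⟩
        rw [hrect]
        have h1 : RectsUp P R τ y = {r} := by
          ext q
          rw [Finset.mem_singleton]
          constructor
          · intro hq
            rw [Rects_mem_up] at hq hm
            have h2 := hq.2.2.2 r hm.1 hm.2.1 hm.2.2.1
            have h3 := hm.2.2.2 q hq.1 hq.2.1 hq.2.2.1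
            exact P.h_inj (by omega)
          · rintro rfl
            exact hm
        have h2 : RectsLo P R τ y = RectsLo P R τ (P.h r) := by
          rw [Rects_mem_up] at hm
          have H : ∀ q ∈ R, P.alive τ q → (P.h q < y ↔ P.h q < P.h r) := by
            intro q hq ha
            have h3 := hm.2.2.2 q hq ha
            have h4 := hgood τ q hq ha
            omega
          ext q
          simp only [Rects_mem_lo]
          constructor
          · rintro ⟨h1, h2, h3, h4⟩
            exact ⟨h1, h2, (H q h1 h2).1 h3, fun r' h5 h6 h7 => h4 r' h5 h6 ((H r' h5 h6).2 h7)⟩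
          · rintro ⟨h1, h2, h3, h4⟩
            exact ⟨h1, h2, (H q h1 h2).2 h3, fun r' h5 h6 h7 => h4 r' h5 h6 ((H r' h5 h6).1 h7)⟩
        have h3 : RectsCell P R τ y = (RectsLo P R τ (P.h r), {r}) := Prod.ext h2 h1
        rw [h3]
        simp only [RectsList]
        rw [if_pos trivial, hf]
    | true =>
      have hpos : 0 < τ := by
        have := hev r
        omega
      have hgr : RectsGood P R τ (P.h r) := by
        intro q hq ha h
        have := P.h_inj h
        subst this
        have := ha.2
        omega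
      have hkey : RectsCell P R τ (P.h r) = RectsCell P R τ y := by
        apply Rects_cell_congr P R hgr (hgood τ)
        intro q hq ha
        by_contra hno
        have h1 := hgr q hq ha
        have h2 := hgood τ q hq ha
        apply hmin hpos
        refine (Rects_erase P R (fun q hq hqr => (hiff q hq hqr).symm) hq ha (r := r) ?_).symm
        omega
      refine ⟨some (⟨r, hfR⟩, 2), ?_⟩
      rw [hrect, ← hkey]
      simp only [RectsList]
      rw [if_neg (by decide), if_neg (by decide), hf]

end Rects

theorem exists_rects {n : ℕ} (P : Model n) (R : Finset (Fin n)) :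
    ∃ rect : Fin n × Bool → ℕ,
      #(image rect {e : Fin n × Bool | e.1 ∉ R}) ≤ 3 * #R + 1 ∧
      (∀ e e' : Fin n × Bool, e.1 ∉ R → e'.1 ∉ R → rect e = rect e' →
        ∀ t, span P R rect (rect e) t → ∀ r ∈ R, P.alive t r → ¬ btw P.h e.1 e'.1 r) ∧
      (∀ e e' : Fin n × Bool, e.1 ∉ R → e'.1 ∉ R → rect e ≠ rect e' →
        ∀ t, span P R rect (rect e) t → span P R rect (rect e') t →
          ∃ r ∈ R, P.alive t r ∧ btw P.h e.1 e'.1 r) := by
  refine ⟨RectsRect P R, ?_, ?_, ?_⟩
  · have h1 : image (RectsRect P R) {e : Fin n × Bool | e.1 ∉ R} ⊆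
        image (RectsList P R) univ := by
      intro x hx
      rw [mem_image] at hx ⊢
      obtain ⟨e, he, rfl⟩ := hx
      obtain ⟨o, ho⟩ := Rects_mem_list P R e (by simpa using he)
      exact ⟨o, mem_univ o, ho⟩
    refine (card_le_card h1).trans (card_image_le.trans ?_)
    rw [card_univ, Fintype.card_option, Fintype.card_prod, Fintype.card_coe, Fintype.card_fin]
    omega
  · intro e e' he he' heq t ht r hr ha
    have h1 := Rects_span P R he ht
    have h2 := Rects_span P R he' (heq ▸ ht)
    have h3 := h1.2 t h1.1 le_rfl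
    have h4 := h2.2 t h2.1 le_rfl
    rw [← (Rects_rect_eq P R heq).1] at h4
    exact Rects_not_btw P R he' (h3.trans h4.symm) he r hr ha
  · intro e e' he he' hne t ht ht'
    by_contra hno
    push Not at hno
    apply hne
    have h1 := Rects_span P R he ht
    have h2 := Rects_span P R he' ht'
    have hc : RectsCell P R t (P.h e.1) = RectsCell P R t (P.h e'.1) := by
      apply Rects_cell_congr P R (Rects_good P R he t) (Rects_good P R he' t)
      intro r hr ha
      have h3 := hno r hr ha
      have h4 := Rects_good P R he t r hr ha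
      have h5 := Rects_good P R he' t r hr ha
      unfold btw at h3
      omega
    have h3 := h1.2 t h1.1 le_rfl
    have h4 := h2.2 t h2.1 le_rfl
    have hcc : RectsCell P R (P.time e) (P.h e.1) = RectsCell P R (P.time e') (P.h e'.1) := by
      rw [← h3, ← h4, hc]
    have hτ : RectsTau P R (P.time e) (P.h e.1) = RectsTau P R (P.time e') (P.h e'.1) := by
      apply le_antisymm
      · apply Rects_tau_min
        intro s hs1 hs2
        rcases Nat.lt_or_ge t s with h5 | h5
        · exact Rects_tau_spec P R (h1.1.trans h5.le) hs2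
        · have h6 := h2.2 s hs1 h5
          rw [← hcc] at h6
          exact Rects_cell_eq P R (Rects_good P R he' s) (Rects_good P R he s) h6
      · apply Rects_tau_min
        intro s hs1 hs2
        rcases Nat.lt_or_ge t s with h5 | h5
        · exact Rects_tau_spec P R (h2.1.trans h5.le) hs2
        · have h6 := h1.2 s hs1 h5
          rw [hcc] at h6
          exact Rects_cell_eq P R (Rects_good P R he s) (Rects_good P R he' s) h6
    unfold RectsRect
    rw [hcc, hτ]

end Pool.Agent.H95.BG
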