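import Pool.Agent.H95.BG.StepForm

/-!
Project BG, module Step: the pieces of one step. Uses the counting lemmas of module StepForm.

Let `Z = b \ s`, `β = #Z`, `c = #(hull h s Z)`. If `β = 0` take `Ps = []`, `W = ∅`. Let `β > 0`.
`U = up h s Z`, `D = dn h s Z`.

CASE 1: `K + 2 < c + β`. `Ps = []`; `W` = all pairs of the two kinds. Kind (1) (a pair close in
`b`, not both in `s`): one end `x ∈ Z`, the other close to `x`: at most `β * 2 (K+1) ≤ 2 β (c + β)`
pairs (`card_close_le`). Kind (2) (both in `s`, close in `s`, not close in `b`): if one end is in the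
hull: at most `c * 2 β` (`card_band_le`); both in `U` or both in `D`: impossible
(`nbtw_up_up`, `nbtw_dn_dn`); one in `U`, one in `D`: `below + above + c ≤ K`, with `K - c < β`: the
number of pairs `(below, above)` is at most `β ^ 2`. Total at most `5 β (c + β)`.

CASE 2: `c + β ≤ K + 2`. Let `D₀ = K + 2 - c - β`, `σ₀ = D₀ / m`, `ρ = β / m`. Blocks: `A i = {v ∈ U |
below h U v / m = i}`, `B j = {v ∈ D | above h D v / m = j}`, `X r = {x ∈ Z | above h Z x / m = r}`.
Pieces: `(A i, X r, B j)` for `r < ρ` and `i + j + 1 = σ₀ + r` (`i = 0, …, σ₀ + r - 1`). Their number is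
`Σ_{r<ρ} (σ₀ + r) ≤ ρ (σ₀ + ρ)`, and
`ρ (σ₀ + ρ) m^2 = (ρ m) (σ₀ m + ρ m) ≤ β (D₀ + β) ≤ β (K + 2)`.
Waste `W`:
 (a) all pairs close in `b` with an end in some `x ∈ Z` with `above h Z x / m ≥ ρ`; there are
   fewer than `m` such `x` (`β - ρ m < m`), so at most `m * 2 (K+1)` pairs;
 (b) all pairs with one end in `Z` and the other in `Z ∪ hull`: at most `β (β + c)`;
 (c) pairs `(v, x)`, `x ∈ Z`, `v ∈ U`, `nbtw h b v x ≤ K` and `σ₀ m ≤ below h U v + m` [so that
   `i = below / m` may be `≥ σ₀ + r`]: as `below h U v ≤ nbtw ≤ K` there are at most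
   `K + 1 - (σ₀ m - m)`, and `σ₀ m > D₀ - m`, so at most `c + β + 2 m` such `v` (`below` is injective on
   `U`); total `β (c + β + 2 m)`; the same for `D` with `above`. (More precisely: the pair `(v, x)`
   with `i = below / m`, `r = above h Z x / m < ρ` is covered by the piece with `j = σ₀ + r - 1 - i`
   if `i ≤ σ₀ + r - 1`; otherwise `i ≥ σ₀ + r ≥ σ₀`, i.e. `below ≥ σ₀ m`.) With the precise form there
   are at most `K + 1 - σ₀ m ≤ c + β + m` such `v`;
 (d) kind (2) pairs with an end in the hull: at most `2 c β`;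
 (e) kind (2) pairs `u ∈ U`, `v ∈ D`: with `p = below h U u`, `q = above h D v`:
   `p + q + c ≤ K < p + q + c + β`, i.e. `D₀ ≤ p + q + 1 < D₀ + β` (using `D₀ = K + 2 - c - β`).
   Let `i = p / m`, `j = q / m`: then `(i + j) m ≤ p + q ≤ (i + j) m + 2 (m - 1)`.
   From `D₀ ≤ p + q + 1 < (i + j + 2) m` (as `p + q + 1 ≤ (i+j) m + 2 m - 1`) we get
   `σ₀ ≤ D₀ / m < i + j + 2`, i.e. `i + j + 1 ≥ σ₀`, so `r := i + j + 1 - σ₀ ≥ 0`. If `r < ρ`, the
   pair is covered by the piece `(A i, X r, B j)` (as an outer pair). If `r ≥ ρ`, then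
   `i + j + 1 ≥ σ₀ + ρ`, `p + q ≥ (i + j) m ≥ (σ₀ + ρ - 1) m > D₀ + β - 3 m` while `p + q + 1 < D₀ + β`:
   fewer than `3 m` values of `p + q`, each with at most `K + 1` pairs `(p, q)`: at most
   `3 m (K + 1)` pairs.
Total waste `≤ 2 m (K+1) + β (β + c) + 2 β (c + β + m) + 2 c β + 3 m (K+1)
≤ 5 β (c + β + m) + 5 m (K + m + 2)`.

`IsPiece`: sizes by `card_block_below`, `card_block_above`; the order is clear (`U` above `Z` above
`D`).
-/

set_option autoImplicit false

namespace Pool.Agent.H95.BG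

open Finset

variable {V : Type*} [DecidableEq V]

/-- The pairs `{x, v}` with `x ∈ A` and `v ∈ F x`. -/
private def prs (A : Finset V) (F : V → Finset V) : Finset (Sym2 V) :=
  A.biUnion fun x => (F x).image fun v => s(x, v)

private lemma card_prs_le {A : Finset V} {F : V → Finset V} {k : ℕ}
    (h : ∀ x ∈ A, #(F x) ≤ k) : #(prs A F) ≤ #A * k :=
  card_biUnion_le_card_mul _ _ _ fun x hx => card_image_le.trans (h x hx)

private lemma mem_prs {A : Finset V} {F : V → Finset V} {x v : V} (hx : x ∈ A)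
    (hv : v ∈ F x) : s(x, v) ∈ prs A F :=
  mem_biUnion.2 ⟨x, hx, mem_image.2 ⟨v, hv, rfl⟩⟩

private lemma mem_prs' {A : Finset V} {F : V → Finset V} {x v : V} (hx : x ∈ A)
    (hv : v ∈ F x) : s(v, x) ∈ prs A F := by
  rw [Sym2.eq_swap]
  exact mem_prs hx hv

/-- The pairs `{u, v}` with `u ∈ A`, `v ∈ B` and `Q u v`. -/
private def prd (A B : Finset V) (Q : V → V → Prop) [∀ u v, Decidable (Q u v)] :
    Finset (Sym2 V) :=
  ((A ×ˢ B).filter fun x => Q x.1 x.2).image fun x => s(x.1, x.2)

private lemma card_prd_le {A B : Finset V} {Q : V → V → Prop} [∀ u v, Decidable (Q u v)]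
    {f : V → ℕ} {G : V → V → ℕ} {a b : ℕ} (hf : Set.InjOn f A)
    (h : ∀ u ∈ A, ∀ v ∈ B, Q u v → f u < a ∧ G u v < b)
    (hG : ∀ u ∈ A, ∀ v ∈ B, ∀ v' ∈ B, Q u v → Q u v' → G u v = G u v' → v = v') :
    #(prd A B Q) ≤ a * b := by
  refine card_image_le.trans ?_
  have e : a * b = #(range a ×ˢ range b) := by rw [card_product, card_range, card_range]
  rw [e]
  apply card_le_card_of_injOn (fun x => (f x.1, G x.1 x.2))
  · intro x hx
    rw [mem_coe, mem_filter, mem_product] at hx
    rw [mem_coe, mem_product, mem_range, mem_range]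
    exact h x.1 hx.1.1 x.2 hx.1.2 hx.2
  · intro x hx y hy hxy
    rw [mem_coe, mem_filter, mem_product] at hx hy
    have h1 : f x.1 = f y.1 := (Prod.ext_iff.1 hxy).1
    have h2 : G x.1 x.2 = G y.1 y.2 := (Prod.ext_iff.1 hxy).2
    have h3 : x.1 = y.1 := hf hx.1.1 hy.1.1 h1
    rw [← h3] at h2 hy
    exact Prod.ext h3 (hG x.1 hx.1.1 x.2 hx.1.2 y.2 hy.1.2 hx.2 hy.2 h2)

private lemma mem_prd {A B : Finset V} {Q : V → V → Prop} [∀ u v, Decidable (Q u v)] {u v : V}
    (hu : u ∈ A) (hv : v ∈ B) (hQ : Q u v) : s(u, v) ∈ prd A B Q :=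
  mem_image.2 ⟨(u, v), mem_filter.2 ⟨mem_product.2 ⟨hu, hv⟩, hQ⟩, rfl⟩

private lemma mem_prd' {A B : Finset V} {Q : V → V → Prop} [∀ u v, Decidable (Q u v)] {u v : V}
    (hu : u ∈ A) (hv : v ∈ B) (hQ : Q u v) : s(v, u) ∈ prd A B Q := by
  rw [Sym2.eq_swap]
  exact mem_prd hu hv hQ

private lemma below_inj {h : V → ℕ} (hinj : Function.Injective h) (A : Finset V) :
    Set.InjOn (below h A) A := by
  have key : ∀ u v : V, u ∈ A → h u < h v → below h A u < below h A v := by
    intro u v hu huv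
    apply card_lt_card
    rw [ssubset_iff_of_subset]
    · exact ⟨u, mem_filter.2 ⟨hu, huv⟩, fun hh => lt_irrefl _ (mem_filter.1 hh).2⟩
    · intro w hw
      rw [mem_filter] at hw ⊢
      exact ⟨hw.1, hw.2.trans huv⟩
  intro u hu v hv huv
  by_contra hne
  rcases lt_trichotomy (h u) (h v) with hlt | heq | hgt
  · exact absurd huv (key u v hu hlt).ne
  · exact hne (hinj heq)
  · exact absurd huv (key v u hv hgt).ne'

private lemma above_inj {h : V → ℕ} (hinj : Function.Injective h) (A : Finset V) :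
    Set.InjOn (above h A) A := by
  have key : ∀ u v : V, v ∈ A → h u < h v → above h A v < above h A u := by
    intro u v hv huv
    apply card_lt_card
    rw [ssubset_iff_of_subset]
    · exact ⟨v, mem_filter.2 ⟨hv, huv⟩, fun hh => lt_irrefl _ (mem_filter.1 hh).2⟩
    · intro w hw
      rw [mem_filter] at hw ⊢
      exact ⟨hw.1, huv.trans hw.2⟩
  intro u hu v hv huv
  by_contra hne
  rcases lt_trichotomy (h u) (h v) with hlt | heq | hgt
  · exact absurd huv (key u v hv hlt).ne'
  · exact hne (hinj heq)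
  · exact absurd huv (key v u hu hgt).ne

omit [DecidableEq V] in
private lemma above_lt {h : V → ℕ} {A : Finset V} {x : V} (hx : x ∈ A) : above h A x < #A := by
  apply card_lt_card
  rw [ssubset_iff_of_subset (filter_subset _ _)]
  exact ⟨x, hx, fun hh => lt_irrefl _ (mem_filter.1 hh).2⟩

theorem step_pieces {V : Type*} [DecidableEq V] (h : V → ℕ) (hinj : Function.Injective h)
    (s b : Finset V) (hs : s ⊆ b) (K m : ℕ) (hm : 1 ≤ m) :
    ∃ (Ps : List (Finset V × Finset V × Finset V)) (W : Finset (Sym2 V)),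
      (∀ p ∈ Ps, IsPiece h m p) ∧
      Ps.length * m ^ 2 ≤ #(b \ s) * (K + 2) ∧
      #W ≤ wasteBound m K #(b \ s) #(hull h s (b \ s)) ∧
      (∀ u v, u ≠ v → close h K b u v → ¬ (u ∈ s ∧ v ∈ s) →
        s(u, v) ∈ W ∨ ∃ p ∈ Ps, touch p u v) ∧
      (∀ u v, u ≠ v → close h K s u v → K < nbtw h b u v →
        s(u, v) ∈ W ∨ ∃ p ∈ Ps, outer p u v) := by
  obtain ⟨β, hβ⟩ : ∃ β, β = #(b \ s) := ⟨_, rfl⟩
  obtain ⟨c, hc⟩ : ∃ c, c = #(hull h s (b \ s)) := ⟨_, rfl⟩
  rw [← hβ, ← hc]
  rcases Nat.eq_zero_or_pos β with h0 | hpos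
  · have hZe : b \ s = ∅ := card_eq_zero.1 (hβ.symm.trans h0)
    have hbs : b = s := (sdiff_eq_empty_iff_subset.1 hZe).antisymm hs
    refine ⟨[], ∅, by simp, by simp, by simp, ?_, ?_⟩
    · intro u v _ huv hn
      exact absurd ⟨hbs ▸ huv.1, hbs ▸ huv.2.1⟩ hn
    · intro u v _ huv hn
      rw [hbs] at hn
      exact absurd huv.2.2 (not_le.2 hn)
  have hZne : (b \ s).Nonempty := card_pos.1 (hβ ▸ hpos)
  have hwb : wasteBound m K β c = 5 * β * (c + β + m) + 5 * m * (K + m + 2) := by
    rw [wasteBound, if_neg hpos.ne']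
  rw [hwb]
  obtain ⟨U, hU⟩ : ∃ U, U = up h s (b \ s) := ⟨_, rfl⟩
  obtain ⟨D, hD⟩ : ∃ D, D = dn h s (b \ s) := ⟨_, rfl⟩
  obtain ⟨H, hH⟩ : ∃ H, H = hull h s (b \ s) := ⟨_, rfl⟩
  have hUs : ∀ v ∈ U, v ∈ s := fun v hv => by rw [hU] at hv; exact (mem_filter.1 hv).1
  have hDs : ∀ v ∈ D, v ∈ s := fun v hv => by rw [hD] at hv; exact (mem_filter.1 hv).1
  -- the pairs of the second kind with an end in the hull
  obtain ⟨W2, hW2⟩ : ∃ W2, W2 = prs H
    (fun x => {v ∈ s | v ≠ x ∧ nbtw h s x v ≤ K ∧ K < nbtw h b x v}) := ⟨_, rfl⟩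
  have hW2c : #W2 ≤ c * (2 * β) := by
    rw [hW2, hc, ← hH, hβ]
    exact card_prs_le fun x _ => card_band_le h hinj s b hs x K
  -- the analysis of the pairs of the second kind
  have hkind2 : ∀ u v, u ≠ v → close h K s u v → K < nbtw h b u v →
      s(u, v) ∈ W2 ∨ (u ∈ U ∧ v ∈ D ∧ below h U u + above h D v + c ≤ K ∧
        K < below h U u + above h D v + c + β) ∨ (v ∈ U ∧ u ∈ D ∧
        below h U v + above h D u + c ≤ K ∧ K < below h U v + above h D u + c + β) := by
    intro u v huv hcl hK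
    obtain ⟨hus, hvs, hnb⟩ := hcl
    have hlast : ∀ u v : V, u ∈ U → v ∈ D → nbtw h s u v ≤ K → K < nbtw h b u v →
        below h U u + above h D v + c ≤ K ∧ K < below h U u + above h D v + c + β := by
      intro u v hu hv h1 h2
      rw [hU] at hu
      rw [hD] at hv
      rw [nbtw_up_dn_small h hinj s b hs hZne u v hu hv, ← hc, ← hU, ← hD] at h1
      rw [nbtw_up_dn_big h hinj s b hs hZne u v hu hv, ← hc, ← hU, ← hD, ← hβ] at h2
      exact ⟨h1, h2⟩
    rcases mem_cases h hinj s b hs hZne u hus with hu | hu | hu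
    · rcases mem_cases h hinj s b hs hZne v hvs with hv | hv | hv
      · rw [nbtw_up_up h s b hs u v hu hv] at hK
        exact absurd hnb (not_le.2 hK)
      · left
        rw [hW2]
        refine mem_prs' (hH ▸ hv) (mem_filter.2 ⟨hus, huv, ?_, ?_⟩)
        · rw [nbtw_comm]; exact hnb
        · rw [nbtw_comm]; exact hK
      · right; left
        rw [← hU] at hu
        rw [← hD] at hv
        exact ⟨hu, hv, hlast u v hu hv hnb hK⟩
    · left
      rw [hW2]
      exact mem_prs (hH ▸ hu) (mem_filter.2 ⟨hvs, huv.symm, hnb, hK⟩)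
    · rcases mem_cases h hinj s b hs hZne v hvs with hv | hv | hv
      · right; right
        rw [← hU] at hv
        rw [← hD] at hu
        exact ⟨hv, hu, hlast v u hv hu (by rw [nbtw_comm]; exact hnb)
          (by rw [nbtw_comm]; exact hK)⟩
      · left
        rw [hW2]
        refine mem_prs' (hH ▸ hv) (mem_filter.2 ⟨hus, huv, ?_, ?_⟩)
        · rw [nbtw_comm]; exact hnb
        · rw [nbtw_comm]; exact hK
      · rw [nbtw_dn_dn h s b hs u v hu hv] at hK
        exact absurd hnb (not_le.2 hK)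
  by_cases hcase : K + 2 < c + β
  · -- the batch is dense: everything is waste
    obtain ⟨W1, hW1⟩ : ∃ W1, W1 = prs (b \ s) (fun x => {v ∈ b | v ≠ x ∧ nbtw h b x v ≤ K}) :=
      ⟨_, rfl⟩
    have hW1c : #W1 ≤ β * (2 * (K + 1)) := by
      rw [hW1, hβ]
      exact card_prs_le fun x _ => card_close_le h hinj b x K
    obtain ⟨W3, hW3⟩ : ∃ W3, W3 = prd U D (fun u v => below h U u + above h D v + c ≤ K) :=
      ⟨_, rfl⟩
    have hW3c : #W3 ≤ β * β := by
      rw [hW3]
      refine card_prd_le (f := below h U) (G := fun _ v => above h D v) (below_inj hinj U) ?_ ?_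
      · intro u _ v _ huv
        constructor <;> omega
      · intro u _ v hv v' hv' _ _ heq
        exact above_inj hinj D hv hv' heq
    refine ⟨[], W1 ∪ W2 ∪ W3, by simp, by simp, ?_, ?_, ?_⟩
    · have h1 : #(W1 ∪ W2 ∪ W3) ≤ #W1 + #W2 + #W3 :=
        (card_union_le _ _).trans (Nat.add_le_add_right (card_union_le _ _) _)
      have h2 : β * (2 * (K + 1)) ≤ β * (2 * (c + β)) := by
        apply Nat.mul_le_mul_left
        omega
      have h3 : β * (2 * (c + β)) + c * (2 * β) + β * β ≤ 5 * β * (c + β + m) := by nlinarith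
      omega
    · intro u v huv hcl hns
      left
      obtain ⟨hub, hvb, hnb⟩ := hcl
      rw [mem_union, mem_union]
      left; left
      rw [hW1]
      by_cases hus : u ∈ s
      · have hvs : v ∉ s := fun hh => hns ⟨hus, hh⟩
        exact mem_prs' (mem_sdiff.2 ⟨hvb, hvs⟩)
          (mem_filter.2 ⟨hub, huv, by rw [nbtw_comm]; exact hnb⟩)
      · exact mem_prs (mem_sdiff.2 ⟨hub, hus⟩) (mem_filter.2 ⟨hvb, huv.symm, hnb⟩)
    · intro u v huv hcl hK
      left
      rw [mem_union, mem_union]
      rcases hkind2 u v huv hcl hK with hh | ⟨hu, hv, h1, -⟩ | ⟨hv, hu, h1, -⟩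
      · exact Or.inl (Or.inr hh)
      · right
        rw [hW3]
        exact mem_prd hu hv h1
      · right
        rw [hW3]
        exact mem_prd' hv hu h1
  · rw [not_lt] at hcase
    obtain ⟨D₀, hD₀⟩ : ∃ D₀, D₀ = K + 2 - c - β := ⟨_, rfl⟩
    have hD₀' : D₀ + (c + β) = K + 2 := by omega
    obtain ⟨σ₀, hσ₀⟩ : ∃ σ₀, σ₀ = D₀ / m := ⟨_, rfl⟩
    obtain ⟨ρ, hρ⟩ : ∃ ρ, ρ = β / m := ⟨_, rfl⟩
    have hσm : σ₀ * m ≤ D₀ := by rw [hσ₀]; exact Nat.div_mul_le_self _ _
    have hρm : ρ * m ≤ β := by rw [hρ]; exact Nat.div_mul_le_self _ _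
    have hσm' : D₀ < σ₀ * m + m := by
      have := Nat.lt_div_mul_add (a := D₀) (b := m) hm
      rw [hσ₀]; exact this
    have hρm' : β < ρ * m + m := by
      have := Nat.lt_div_mul_add (a := β) (b := m) hm
      rw [hρ]; exact this
    -- the blocks
    obtain ⟨A, hA⟩ : ∃ A : ℕ → Finset V, A = fun i => {v ∈ U | below h U v / m = i} := ⟨_, rfl⟩
    obtain ⟨B, hB⟩ : ∃ B : ℕ → Finset V, B = fun j => {v ∈ D | above h D v / m = j} := ⟨_, rfl⟩
    obtain ⟨X, hX⟩ : ∃ X : ℕ → Finset V,
      X = fun r => {x ∈ b \ s | above h (b \ s) x / m = r} := ⟨_, rfl⟩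
    obtain ⟨Ps, hPs⟩ : ∃ Ps : List (Finset V × Finset V × Finset V),
      Ps = (List.range ρ).flatMap fun r =>
        (List.range (σ₀ + r)).map fun i => (A i, X r, B (σ₀ + r - 1 - i)) := ⟨_, rfl⟩
    have hmemPs : ∀ r i, r < ρ → i < σ₀ + r → (A i, X r, B (σ₀ + r - 1 - i)) ∈ Ps := by
      intro r i hr hi
      rw [hPs]
      exact List.mem_flatMap.2 ⟨r, List.mem_range.2 hr, List.mem_map.2
        ⟨i, List.mem_range.2 hi, rfl⟩⟩
    have hlen : Ps.length ≤ ρ * (σ₀ + ρ) := by
      rw [hPs, List.length_flatMap]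
      have h1 := List.sum_le_card_nsmul ((List.range ρ).map fun r =>
        ((List.range (σ₀ + r)).map fun i => (A i, X r, B (σ₀ + r - 1 - i))).length) (σ₀ + ρ) (by
          intro x hx
          obtain ⟨r, hr, rfl⟩ := List.mem_map.1 hx
          rw [List.mem_range] at hr
          rw [List.length_map, List.length_range]
          omega)
      rw [List.length_map, List.length_range, smul_eq_mul] at h1
      exact h1
    -- the waste
    obtain ⟨Wa, hWa⟩ : ∃ Wa, Wa = prs {x ∈ b \ s | ρ ≤ above h (b \ s) x / m}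
      (fun x => {v ∈ b | v ≠ x ∧ nbtw h b x v ≤ K}) := ⟨_, rfl⟩
    obtain ⟨Wb, hWb⟩ : ∃ Wb, Wb = prs (b \ s) (fun _ => (b \ s) ∪ H) := ⟨_, rfl⟩
    obtain ⟨Wc, hWc⟩ : ∃ Wc, Wc = prs (b \ s)
      (fun x => {v ∈ U | nbtw h b v x ≤ K ∧ σ₀ * m ≤ below h U v}) := ⟨_, rfl⟩
    obtain ⟨Wd, hWd⟩ : ∃ Wd, Wd = prs (b \ s)
      (fun x => {v ∈ D | nbtw h b v x ≤ K ∧ σ₀ * m ≤ above h D v}) := ⟨_, rfl⟩
    obtain ⟨We, hWe⟩ : ∃ We, We = prd U D (fun u v => below h U u + above h D v + c ≤ K ∧
      K < below h U u + above h D v + 3 * m + c) := ⟨_, rfl⟩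
    have hWac : #Wa ≤ m * (2 * (K + 1)) := by
      have h1 : #{x ∈ b \ s | ρ ≤ above h (b \ s) x / m} ≤ m := by
        have h2 : #{x ∈ b \ s | ρ ≤ above h (b \ s) x / m} ≤ #(Ico (ρ * m) β) := by
          apply card_le_card_of_injOn (above h (b \ s))
          · intro x hx
            rw [mem_coe, mem_filter] at hx
            rw [mem_coe, mem_Ico]
            refine ⟨(Nat.le_div_iff_mul_le hm).1 hx.2, ?_⟩
            rw [hβ]
            exact above_lt hx.1
          · exact (above_inj hinj (b \ s)).mono (coe_subset.2 (filter_subset _ _))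
        rw [Nat.card_Ico] at h2
        omega
      rw [hWa]
      exact (card_prs_le fun x _ => card_close_le h hinj b x K).trans
        (Nat.mul_le_mul_right _ h1)
    have hWbc : #Wb ≤ β * (β + c) := by
      rw [hWb, hβ, hc, ← hH]
      exact card_prs_le fun x _ => card_union_le _ _
    have hWcc : #Wc ≤ β * (c + β + m) := by
      rw [hWc]
      refine (card_prs_le (k := c + β + m) fun x hx => ?_).trans (by rw [hβ])
      have h2 : #{v ∈ U | nbtw h b v x ≤ K ∧ σ₀ * m ≤ below h U v} ≤
          #(Ico (σ₀ * m) (K + 1)) := by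
        apply card_le_card_of_injOn (below h U)
        · intro v hv
          rw [mem_coe, mem_filter] at hv
          rw [mem_coe, mem_Ico]
          refine ⟨hv.2.2, ?_⟩
          have h3 := le_nbtw_up h s b hs v x (hU ▸ hv.1) hx
          rw [← hU] at h3
          omega
        · exact (below_inj hinj U).mono (coe_subset.2 (filter_subset _ _))
      rw [Nat.card_Ico] at h2
      omega
    have hWdc : #Wd ≤ β * (c + β + m) := by
      rw [hWd]
      refine (card_prs_le (k := c + β + m) fun x hx => ?_).trans (by rw [hβ])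
      have h2 : #{v ∈ D | nbtw h b v x ≤ K ∧ σ₀ * m ≤ above h D v} ≤
          #(Ico (σ₀ * m) (K + 1)) := by
        apply card_le_card_of_injOn (above h D)
        · intro v hv
          rw [mem_coe, mem_filter] at hv
          rw [mem_coe, mem_Ico]
          refine ⟨hv.2.2, ?_⟩
          have h3 := le_nbtw_dn h s b hs v x (hD ▸ hv.1) hx
          rw [← hD] at h3
          omega
        · exact (above_inj hinj D).mono (coe_subset.2 (filter_subset _ _))
      rw [Nat.card_Ico] at h2
      omega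
    have hWec : #We ≤ (K + 1) * (3 * m) := by
      rw [hWe]
      refine card_prd_le (f := below h U)
        (G := fun u v => K - c - (below h U u + above h D v)) (below_inj hinj U) ?_ ?_
      · intro u _ v _ huv
        obtain ⟨h1, h2⟩ := huv
        constructor <;> omega
      · intro u _ v hv v' hv' h1 h2 heq
        apply above_inj hinj D hv hv'
        obtain ⟨h1, -⟩ := h1
        obtain ⟨h2, -⟩ := h2
        have heq' : K - c - (below h U u + above h D v) =
          K - c - (below h U u + above h D v') := heq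
        omega
    refine ⟨Ps, Wa ∪ Wb ∪ Wc ∪ Wd ∪ W2 ∪ We, ?_, ?_, ?_, ?_, ?_⟩
    · -- the pieces
      intro p hp
      rw [hPs] at hp
      obtain ⟨r, -, hp⟩ := List.mem_flatMap.1 hp
      obtain ⟨i, -, rfl⟩ := List.mem_map.1 hp
      simp only [hA, hX, hB, hU, hD]
      refine ⟨card_block_below h hinj _ m i hm, card_block_above h hinj _ m r hm,
        card_block_above h hinj _ m _ hm, ?_, ?_, ?_⟩
      · intro a ha x hx
        rw [mem_filter] at ha hx
        exact (mem_filter.1 ha.1).2 x hx.1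
      · intro x hx y hy
        rw [mem_filter] at hx hy
        exact (mem_filter.1 hy.1).2 x hx.1
      · intro a ha y hy
        rw [mem_filter] at ha hy
        obtain ⟨z, hz⟩ := hZne
        exact ((mem_filter.1 hy.1).2 z hz).trans ((mem_filter.1 ha.1).2 z hz)
    · -- their number
      calc Ps.length * m ^ 2 ≤ (ρ * (σ₀ + ρ)) * m ^ 2 := Nat.mul_le_mul_right _ hlen
        _ = (ρ * m) * (σ₀ * m + ρ * m) := by ring
        _ ≤ β * (D₀ + β) := Nat.mul_le_mul hρm (Nat.add_le_add hσm hρm)
        _ ≤ β * (K + 2) := Nat.mul_le_mul_left _ (by omega)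
    · -- the waste
      have h1 : #(Wa ∪ Wb ∪ Wc ∪ Wd ∪ W2 ∪ We) ≤ #Wa + #Wb + #Wc + #Wd + #W2 + #We := by
        refine (card_union_le _ _).trans (Nat.add_le_add_right ?_ _)
        refine (card_union_le _ _).trans (Nat.add_le_add_right ?_ _)
        refine (card_union_le _ _).trans (Nat.add_le_add_right ?_ _)
        refine (card_union_le _ _).trans (Nat.add_le_add_right ?_ _)
        exact card_union_le _ _
      have h2 : m * (2 * (K + 1)) + (K + 1) * (3 * m) ≤ 5 * m * (K + m + 2) := by nlinarith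
      have h3 : β * (β + c) + β * (c + β + m) + β * (c + β + m) + c * (2 * β) ≤
          5 * β * (c + β + m) := by nlinarith
      omega
    · -- pairs of the first kind
      have key : ∀ x v, x ∈ b \ s → v ∈ b → v ≠ x → nbtw h b x v ≤ K →
          s(x, v) ∈ Wa ∪ Wb ∪ Wc ∪ Wd ∪ W2 ∪ We ∨ ∃ p ∈ Ps, touch p x v := by
        intro x v hx hv hvx hnb
        simp only [mem_union]
        by_cases hr : ρ ≤ above h (b \ s) x / m
        · left; left; left; left; left; left
          rw [hWa]
          exact mem_prs (mem_filter.2 ⟨hx, hr⟩) (mem_filter.2 ⟨hv, hvx, hnb⟩)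
        rw [not_le] at hr
        obtain ⟨r, hrr⟩ : ∃ r, r = above h (b \ s) x / m := ⟨_, rfl⟩
        rw [← hrr] at hr
        have hxX : x ∈ X r := by rw [hX]; exact mem_filter.2 ⟨hx, hrr.symm⟩
        by_cases hvs : v ∈ s
        · rcases mem_cases h hinj s b hs hZne v hvs with hvU | hvH | hvD
          · rw [← hU] at hvU
            by_cases hi : below h U v / m < σ₀ + r
            · right
              refine ⟨_, hmemPs r _ hr hi, Or.inl ⟨hxX, Or.inl ?_⟩⟩
              rw [hA]
              exact mem_filter.2 ⟨hvU, rfl⟩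
            · left; left; left; left; right
              rw [hWc]
              refine mem_prs hx (mem_filter.2 ⟨hvU, ?_, ?_⟩)
              · rw [nbtw_comm]; exact hnb
              · apply (Nat.le_div_iff_mul_le hm).1
                omega
          · left; left; left; left; left; right
            rw [hWb]
            exact mem_prs hx (mem_union_right _ (hH ▸ hvH))
          · rw [← hD] at hvD
            by_cases hj : above h D v / m < σ₀ + r
            · right
              obtain ⟨i, hi⟩ : ∃ i, i = σ₀ + r - 1 - above h D v / m := ⟨_, rfl⟩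
              have hi1 : i < σ₀ + r := by
                rw [hi]
                obtain ⟨t, ht⟩ : ∃ t, t = above h D v / m := ⟨_, rfl⟩
                rw [← ht] at hj ⊢
                omega
              have hi2 : σ₀ + r - 1 - i = above h D v / m := by
                rw [hi]
                obtain ⟨t, ht⟩ : ∃ t, t = above h D v / m := ⟨_, rfl⟩
                rw [← ht] at hj ⊢
                omega
              refine ⟨_, hmemPs r i hr hi1, Or.inl ⟨hxX, Or.inr ?_⟩⟩
              rw [hB]
              exact mem_filter.2 ⟨hvD, hi2.symm⟩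
            · left; left; left; right
              rw [hWd]
              refine mem_prs hx (mem_filter.2 ⟨hvD, ?_, ?_⟩)
              · rw [nbtw_comm]; exact hnb
              · apply (Nat.le_div_iff_mul_le hm).1
                omega
        · left; left; left; left; left; right
          rw [hWb]
          exact mem_prs hx (mem_union_left _ (mem_sdiff.2 ⟨hv, hvs⟩))
      intro u v huv hcl hns
      obtain ⟨hub, hvb, hnb⟩ := hcl
      by_cases hus : u ∈ s
      · have hvs : v ∉ s := fun hh => hns ⟨hus, hh⟩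
        rcases key v u (mem_sdiff.2 ⟨hvb, hvs⟩) hub huv (by rw [nbtw_comm]; exact hnb) with
          hh | ⟨p, hp, ht⟩
        · left
          rw [Sym2.eq_swap]
          exact hh
        · right
          exact ⟨p, hp, ht.symm⟩
      · exact key u v (mem_sdiff.2 ⟨hub, hus⟩) hvb huv.symm hnb
    · -- pairs of the second kind
      have key : ∀ u v, u ∈ U → v ∈ D → below h U u + above h D v + c ≤ K →
          K < below h U u + above h D v + c + β →
          s(u, v) ∈ Wa ∪ Wb ∪ Wc ∪ Wd ∪ W2 ∪ We ∨ ∃ p ∈ Ps, outer p u v := by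
        intro u v hu hv h1 h2
        obtain ⟨i, hi⟩ : ∃ i, i = below h U u / m := ⟨_, rfl⟩
        obtain ⟨j, hj⟩ : ∃ j, j = above h D v / m := ⟨_, rfl⟩
        have hi1 : i * m ≤ below h U u := by rw [hi]; exact Nat.div_mul_le_self _ _
        have hj1 : j * m ≤ above h D v := by rw [hj]; exact Nat.div_mul_le_self _ _
        have hi2 : below h U u < i * m + m := by
          rw [hi]; exact Nat.lt_div_mul_add (a := below h U u) (b := m) hm
        have hj2 : above h D v < j * m + m := by
          rw [hj]; exact Nat.lt_div_mul_add (a := above h D v) (b := m) hm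
        have hge : σ₀ ≤ i + j + 1 := by
          by_contra hcon
          have h3 : (i + j + 2) * m ≤ σ₀ * m := Nat.mul_le_mul_right _ (by omega)
          have h4 : (i + j + 2) * m = i * m + j * m + m + m := by ring
          omega
        by_cases hr : i + j + 1 < σ₀ + ρ
        · right
          obtain ⟨r, hrr⟩ : ∃ r, r = i + j + 1 - σ₀ := ⟨_, rfl⟩
          refine ⟨_, hmemPs r i (by omega) (by omega), Or.inl ⟨?_, ?_⟩⟩
          · rw [hA]
            exact mem_filter.2 ⟨hu, hi.symm⟩
          · rw [hB]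
            refine mem_filter.2 ⟨hv, ?_⟩
            omega
        · left
          rw [mem_union]
          right
          rw [hWe]
          refine mem_prd hu hv ⟨h1, ?_⟩
          have h3 : (σ₀ + ρ) * m ≤ (i + j + 1) * m := Nat.mul_le_mul_right _ (by omega)
          have h4 : (σ₀ + ρ) * m = σ₀ * m + ρ * m := by ring
          have h5 : (i + j + 1) * m = i * m + j * m + m := by ring
          omega
      intro u v huv hcl hK
      rcases hkind2 u v huv hcl hK with hh | ⟨hu, hv, h1, h2⟩ | ⟨hv, hu, h1, h2⟩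
      · left
        rw [mem_union, mem_union]
        exact Or.inl (Or.inr hh)
      · exact key u v hu hv h1 h2
      · rcases key v u hv hu h1 h2 with hh | ⟨p, hp, ho⟩
        · left
          rw [Sym2.eq_swap]
          exact hh
        · right
          exact ⟨p, hp, ho.symm⟩

end Pool.Agent.H95.BG
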