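import Pool.Agent.H95.BG.Defs

/-!
Project BG, module StepForm: the positions of the bars in one step (`s ⊆ b`, `Z = b \ s`).

`up s Z`: the bars of `s` above all bars of `Z`; `dn s Z`: below all bars of `Z`; `hull h s Z`
between two bars of `Z`. For `Z ≠ ∅`, `s` is the disjoint union of the three. Positions:
`iu v` (`v ∈ up`) the number of bars of `up` below `v`, `jd v` (`v ∈ dn`) the number of bars of `dn`
above `v`, `px x` (`x ∈ Z`) the number of bars of `Z` above `x`.
`nbtw h A u v` is the number of elements of `A` strictly between `u` and `v`. All statements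
are elementary counting (split the set of bars between `u` and `v` into bars of `up`, `Z`, `hull`,
`dn`). `card_above_le`: on the elements `v` of `A` above `u` the map `v ↦ nbtw h A u v` is injective.
-/

set_option autoImplicit false

namespace Pool.Agent.H95.BG

open Finset

variable {V : Type*} [DecidableEq V]

def up (h : V → ℕ) (s Z : Finset V) : Finset V := {v ∈ s | ∀ z ∈ Z, h z < h v}

def dn (h : V → ℕ) (s Z : Finset V) : Finset V := {v ∈ s | ∀ z ∈ Z, h v < h z}

/-- The number of elements of `A` below `v`. -/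
def below (h : V → ℕ) (A : Finset V) (v : V) : ℕ := #{w ∈ A | h w < h v}

/-- The number of elements of `A` above `v`. -/
def above (h : V → ℕ) (A : Finset V) (v : V) : ℕ := #{w ∈ A | h v < h w}

theorem nbtw_comm (h : V → ℕ) (A : Finset V) (u v : V) : nbtw h A u v = nbtw h A v u := by
  unfold nbtw btw
  simp only [min_comm (h v), max_comm (h v)]

theorem nbtw_mono (h : V → ℕ) {A B : Finset V} (hAB : A ⊆ B) (u v : V) :
    nbtw h A u v ≤ nbtw h B u v := by
  exact card_le_card (filter_subset_filter _ hAB)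

private theorem stepForm_lt_up (h : V → ℕ) (A : Finset V) (u v v' : V) (hvA : v ∈ A)
    (huv : h u < h v) (hl : h v < h v') : nbtw h A u v < nbtw h A u v' := by
  apply card_lt_card
  have huv' : h u < h v' := lt_trans huv hl
  rw [Finset.ssubset_iff_of_subset]
  · refine ⟨v, mem_filter.2 ⟨hvA, ?_⟩, ?_⟩
    · simp only [btw, min_eq_left huv'.le, max_eq_right huv'.le]
      exact ⟨huv, hl⟩
    · intro h1
      have h2 := (mem_filter.1 h1).2
      simp only [btw, min_eq_left huv.le, max_eq_right huv.le] at h2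
      exact lt_irrefl _ h2.2
  · intro w hw
    obtain ⟨h1, h2⟩ := mem_filter.1 hw
    refine mem_filter.2 ⟨h1, ?_⟩
    simp only [btw, min_eq_left huv.le, max_eq_right huv.le] at h2
    simp only [btw, min_eq_left huv'.le, max_eq_right huv'.le]
    exact ⟨h2.1, lt_trans h2.2 hl⟩

private theorem stepForm_lt_dn (h : V → ℕ) (A : Finset V) (u v v' : V) (hvA : v ∈ A)
    (huv : h v < h u) (hl : h v' < h v) : nbtw h A u v < nbtw h A u v' := by
  apply card_lt_card
  have huv' : h v' < h u := lt_trans hl huv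
  rw [Finset.ssubset_iff_of_subset]
  · refine ⟨v, mem_filter.2 ⟨hvA, ?_⟩, ?_⟩
    · simp only [btw, min_eq_right huv'.le, max_eq_left huv'.le]
      exact ⟨hl, huv⟩
    · intro h1
      have h2 := (mem_filter.1 h1).2
      simp only [btw, min_eq_right huv.le, max_eq_left huv.le] at h2
      exact lt_irrefl _ h2.1
  · intro w hw
    obtain ⟨h1, h2⟩ := mem_filter.1 hw
    refine mem_filter.2 ⟨h1, ?_⟩
    simp only [btw, min_eq_right huv.le, max_eq_left huv.le] at h2
    simp only [btw, min_eq_right huv'.le, max_eq_left huv'.le]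
    exact ⟨lt_trans hl h2.1, h2.2⟩

private theorem stepForm_below_lt (h : V → ℕ) (A : Finset V) (v v' : V) (hvA : v ∈ A)
    (hl : h v < h v') : below h A v < below h A v' := by
  apply card_lt_card
  rw [Finset.ssubset_iff_of_subset]
  · refine ⟨v, mem_filter.2 ⟨hvA, hl⟩, ?_⟩
    intro h1
    exact lt_irrefl _ (mem_filter.1 h1).2
  · intro w hw
    obtain ⟨h1, h2⟩ := mem_filter.1 hw
    exact mem_filter.2 ⟨h1, lt_trans h2 hl⟩

private theorem stepForm_above_lt (h : V → ℕ) (A : Finset V) (v v' : V) (hvA : v' ∈ A)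
    (hl : h v < h v') : above h A v' < above h A v := by
  apply card_lt_card
  rw [Finset.ssubset_iff_of_subset]
  · refine ⟨v', mem_filter.2 ⟨hvA, hl⟩, ?_⟩
    intro h1
    exact lt_irrefl _ (mem_filter.1 h1).2
  · intro w hw
    obtain ⟨h1, h2⟩ := mem_filter.1 hw
    exact mem_filter.2 ⟨h1, lt_trans hl h2⟩

theorem card_above_le (h : V → ℕ) (hinj : Function.Injective h) (A : Finset V) (u : V)
    (a b : ℕ) : #{v ∈ A | h u < h v ∧ a ≤ nbtw h A u v ∧ nbtw h A u v < b} ≤ b - a := by
  have h1 : #{v ∈ A | h u < h v ∧ a ≤ nbtw h A u v ∧ nbtw h A u v < b} ≤ #(Finset.Ico a b) := by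
    apply card_le_card_of_injOn (fun v => nbtw h A u v)
    · intro v hv
      simp only [Finset.coe_filter, Set.mem_setOf_eq] at hv
      simp only [Finset.coe_Ico, Set.mem_Ico]
      exact hv.2.2
    · intro v hv v' hv' he
      simp only [Finset.coe_filter, Set.mem_setOf_eq] at hv hv'
      simp only at he
      rcases lt_trichotomy (h v) (h v') with hl | hl | hl
      · exact absurd he (stepForm_lt_up h A u v v' hv.1 hv.2.1 hl).ne
      · exact hinj hl
      · exact absurd he (stepForm_lt_up h A u v' v hv'.1 hv'.2.1 hl).ne'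
  simpa using h1

theorem card_below_le (h : V → ℕ) (hinj : Function.Injective h) (A : Finset V) (u : V)
    (a b : ℕ) : #{v ∈ A | h v < h u ∧ a ≤ nbtw h A u v ∧ nbtw h A u v < b} ≤ b - a := by
  have h1 : #{v ∈ A | h v < h u ∧ a ≤ nbtw h A u v ∧ nbtw h A u v < b} ≤ #(Finset.Ico a b) := by
    apply card_le_card_of_injOn (fun v => nbtw h A u v)
    · intro v hv
      simp only [Finset.coe_filter, Set.mem_setOf_eq] at hv
      simp only [Finset.coe_Ico, Set.mem_Ico]
      exact hv.2.2
    · intro v hv v' hv' he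
      simp only [Finset.coe_filter, Set.mem_setOf_eq] at hv hv'
      simp only at he
      rcases lt_trichotomy (h v) (h v') with hl | hl | hl
      · exact absurd he (stepForm_lt_dn h A u v' v hv'.1 hv'.2.1 hl).ne'
      · exact hinj hl
      · exact absurd he (stepForm_lt_dn h A u v v' hv.1 hv.2.1 hl).ne
  simpa using h1

/-- The elements close to `u`. -/
theorem card_close_le (h : V → ℕ) (hinj : Function.Injective h) (A : Finset V) (u : V) (K : ℕ) :
    #{v ∈ A | v ≠ u ∧ nbtw h A u v ≤ K} ≤ 2 * (K + 1) := by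
  have h1 : ({v ∈ A | v ≠ u ∧ nbtw h A u v ≤ K} : Finset V) ⊆
      {v ∈ A | h u < h v ∧ 0 ≤ nbtw h A u v ∧ nbtw h A u v < K + 1} ∪
      {v ∈ A | h v < h u ∧ 0 ≤ nbtw h A u v ∧ nbtw h A u v < K + 1} := by
    intro v hv
    simp only [mem_filter, mem_union] at hv ⊢
    have hne : h v ≠ h u := fun e => hv.2.1 (hinj e)
    rcases lt_or_gt_of_ne hne with hl | hl
    · right
      exact ⟨hv.1, hl, Nat.zero_le _, Nat.lt_succ_of_le hv.2.2⟩
    · left
      exact ⟨hv.1, hl, Nat.zero_le _, Nat.lt_succ_of_le hv.2.2⟩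
  have h2 := card_above_le h hinj A u 0 (K + 1)
  have h3 := card_below_le h hinj A u 0 (K + 1)
  calc _ ≤ _ := card_le_card h1
    _ ≤ _ := card_union_le _ _
    _ ≤ 2 * (K + 1) := by omega

/-- Blocks of consecutive elements have at most `m` elements. -/
theorem card_block_below (h : V → ℕ) (hinj : Function.Injective h) (A : Finset V) (m i : ℕ)
    (hm : 1 ≤ m) : #{v ∈ A | below h A v / m = i} ≤ m := by
  have h1 : #{v ∈ A | below h A v / m = i} ≤ #(Finset.Ico (i * m) ((i + 1) * m)) := by
    apply card_le_card_of_injOn (fun v => below h A v)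
    · intro v hv
      simp only [Finset.coe_filter, Set.mem_setOf_eq] at hv
      simp only [Finset.coe_Ico, Set.mem_Ico]
      have := (Nat.div_eq_iff (Nat.pos_of_ne_zero (by omega))).1 hv.2
      constructor
      · nlinarith [this.1]
      · have h5 := this.2
        have h6 : (i + 1) * m = i * m + m := by ring
        rw [h6]
        omega
    · intro v hv v' hv' he
      simp only [Finset.coe_filter, Set.mem_setOf_eq] at hv hv'
      simp only at he
      rcases lt_trichotomy (h v) (h v') with hl | hl | hl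
      · exact absurd he (stepForm_below_lt h A v v' hv.1 hl).ne
      · exact hinj hl
      · exact absurd he (stepForm_below_lt h A v' v hv'.1 hl).ne'
  rw [Nat.card_Ico] at h1
  have h6 : (i + 1) * m = i * m + m := by ring
  rw [h6] at h1
  omega

theorem card_block_above (h : V → ℕ) (hinj : Function.Injective h) (A : Finset V) (m i : ℕ)
    (hm : 1 ≤ m) : #{v ∈ A | above h A v / m = i} ≤ m := by
  have h1 : #{v ∈ A | above h A v / m = i} ≤ #(Finset.Ico (i * m) ((i + 1) * m)) := by
    apply card_le_card_of_injOn (fun v => above h A v)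
    · intro v hv
      simp only [Finset.coe_filter, Set.mem_setOf_eq] at hv
      simp only [Finset.coe_Ico, Set.mem_Ico]
      have := (Nat.div_eq_iff (Nat.pos_of_ne_zero (by omega))).1 hv.2
      constructor
      · nlinarith [this.1]
      · have h5 := this.2
        have h6 : (i + 1) * m = i * m + m := by ring
        rw [h6]
        omega
    · intro v hv v' hv' he
      simp only [Finset.coe_filter, Set.mem_setOf_eq] at hv hv'
      simp only at he
      rcases lt_trichotomy (h v) (h v') with hl | hl | hl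
      · exact absurd he (stepForm_above_lt h A v v' hv'.1 hl).ne'
      · exact hinj hl
      · exact absurd he (stepForm_above_lt h A v' v hv.1 hl).ne
  rw [Nat.card_Ico] at h1
  have h6 : (i + 1) * m = i * m + m := by ring
  rw [h6] at h1
  omega

theorem mem_cases (h : V → ℕ) (hinj : Function.Injective h) (s b : Finset V) (hs : s ⊆ b)
    (hZ : (b \ s).Nonempty) (v : V) (hv : v ∈ s) :
    v ∈ up h s (b \ s) ∨ v ∈ hull h s (b \ s) ∨ v ∈ dn h s (b \ s) := by
  have hne : ∀ z ∈ b \ s, h z ≠ h v := by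
    intro z hz e
    have := hinj e
    subst this
    exact (mem_sdiff.1 hz).2 hv
  by_cases h1 : ∀ z ∈ b \ s, h z < h v
  · left
    exact mem_filter.2 ⟨hv, h1⟩
  · by_cases h2 : ∀ z ∈ b \ s, h v < h z
    · right; right
      exact mem_filter.2 ⟨hv, h2⟩
    · right; left
      push Not at h1 h2
      obtain ⟨z1, hz1, hz1'⟩ := h1
      obtain ⟨z2, hz2, hz2'⟩ := h2
      exact mem_filter.2 ⟨hv, z2, hz2, z1, hz1, lt_of_le_of_ne hz2' (hne z2 hz2),
        lt_of_le_of_ne hz1' (hne z1 hz1).symm⟩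

theorem nbtw_up_dn_small (h : V → ℕ) (hinj : Function.Injective h) (s b : Finset V) (hs : s ⊆ b)
    (hZ : (b \ s).Nonempty) (u v : V) (hu : u ∈ up h s (b \ s)) (hv : v ∈ dn h s (b \ s)) :
    nbtw h s u v = below h (up h s (b \ s)) u + above h (dn h s (b \ s)) v +
      #(hull h s (b \ s)) := by
  obtain ⟨z0, hz0⟩ := hZ
  have hu' := (mem_filter.1 hu).2
  have hv' := (mem_filter.1 hv).2
  have huv : h v < h u := lt_trans (hv' z0 hz0) (hu' z0 hz0)
  have key : ({w ∈ s | btw h u v w} : Finset V) =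
      ({w ∈ up h s (b \ s) | h w < h u} ∪ {w ∈ dn h s (b \ s) | h v < h w}) ∪
        hull h s (b \ s) := by
    ext w
    simp only [mem_filter, mem_union, btw, min_eq_right huv.le, max_eq_left huv.le]
    constructor
    · rintro ⟨hw, h1, h2⟩
      rcases mem_cases h hinj s b hs ⟨z0, hz0⟩ w hw with h3 | h3 | h3
      · exact Or.inl (Or.inl ⟨h3, h2⟩)
      · exact Or.inr h3
      · exact Or.inl (Or.inr ⟨h3, h1⟩)
    · rintro ((⟨h3, h2⟩ | ⟨h3, h1⟩) | h3)
      · have h4 := mem_filter.1 h3
        exact ⟨h4.1, lt_trans (hv' z0 hz0) (h4.2 z0 hz0), h2⟩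
      · have h4 := mem_filter.1 h3
        exact ⟨h4.1, h1, lt_trans (h4.2 z0 hz0) (hu' z0 hz0)⟩
      · obtain ⟨hw, z, hz, z', hz', h5, h6⟩ := mem_filter.1 h3
        exact ⟨hw, lt_trans (hv' z hz) h5, lt_trans h6 (hu' z' hz')⟩
  have hd1 : Disjoint ({w ∈ up h s (b \ s) | h w < h u} : Finset V)
      ({w ∈ dn h s (b \ s) | h v < h w} : Finset V) := by
    rw [Finset.disjoint_left]
    intro w h1 h2
    have h3 := (mem_filter.1 (mem_filter.1 h1).1).2 z0 hz0
    have h4 := (mem_filter.1 (mem_filter.1 h2).1).2 z0 hz0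
    omega
  have hd2 : Disjoint (({w ∈ up h s (b \ s) | h w < h u} : Finset V) ∪
      {w ∈ dn h s (b \ s) | h v < h w}) (hull h s (b \ s)) := by
    rw [Finset.disjoint_left]
    intro w h1 h2
    obtain ⟨hw, z, hz, z', hz', h5, h6⟩ := mem_filter.1 h2
    rcases mem_union.1 h1 with h1 | h1
    · have h3 := (mem_filter.1 (mem_filter.1 h1).1).2 z' hz'
      omega
    · have h3 := (mem_filter.1 (mem_filter.1 h1).1).2 z hz
      omega
  unfold nbtw below above
  rw [key, card_union_of_disjoint hd2, card_union_of_disjoint hd1]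

theorem nbtw_up_dn_big (h : V → ℕ) (hinj : Function.Injective h) (s b : Finset V) (hs : s ⊆ b)
    (hZ : (b \ s).Nonempty) (u v : V) (hu : u ∈ up h s (b \ s)) (hv : v ∈ dn h s (b \ s)) :
    nbtw h b u v = below h (up h s (b \ s)) u + above h (dn h s (b \ s)) v +
      #(hull h s (b \ s)) + #(b \ s) := by
  rw [← nbtw_up_dn_small h hinj s b hs hZ u v hu hv]
  obtain ⟨z0, hz0⟩ := hZ
  have hu' := (mem_filter.1 hu).2
  have hv' := (mem_filter.1 hv).2
  have huv : h v < h u := lt_trans (hv' z0 hz0) (hu' z0 hz0)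
  have key : ({w ∈ b | btw h u v w} : Finset V) = {w ∈ s | btw h u v w} ∪ (b \ s) := by
    ext w
    simp only [mem_filter, mem_union, btw, min_eq_right huv.le, max_eq_left huv.le]
    constructor
    · rintro ⟨hw, h1, h2⟩
      by_cases hws : w ∈ s
      · exact Or.inl ⟨hws, h1, h2⟩
      · exact Or.inr (mem_sdiff.2 ⟨hw, hws⟩)
    · rintro (⟨h3, h1, h2⟩ | h3)
      · exact ⟨hs h3, h1, h2⟩
      · exact ⟨(mem_sdiff.1 h3).1, hv' w h3, hu' w h3⟩
  have hd : Disjoint ({w ∈ s | btw h u v w} : Finset V) (b \ s) := by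
    rw [Finset.disjoint_left]
    intro w h1 h2
    exact (mem_sdiff.1 h2).2 (mem_filter.1 h1).1
  unfold nbtw
  rw [key, card_union_of_disjoint hd]

theorem le_nbtw_up (h : V → ℕ) (s b : Finset V) (hs : s ⊆ b) (u x : V)
    (hu : u ∈ up h s (b \ s)) (hx : x ∈ b \ s) :
    below h (up h s (b \ s)) u ≤ nbtw h b u x := by
  apply card_le_card
  intro w hw
  obtain ⟨h1, h2⟩ := mem_filter.1 hw
  obtain ⟨h3, h4⟩ := mem_filter.1 h1
  have hux := (mem_filter.1 hu).2 x hx
  refine mem_filter.2 ⟨hs h3, ?_⟩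
  simp only [btw, min_eq_right hux.le, max_eq_left hux.le]
  exact ⟨h4 x hx, h2⟩

theorem le_nbtw_dn (h : V → ℕ) (s b : Finset V) (hs : s ⊆ b) (u x : V)
    (hu : u ∈ dn h s (b \ s)) (hx : x ∈ b \ s) :
    above h (dn h s (b \ s)) u ≤ nbtw h b u x := by
  apply card_le_card
  intro w hw
  obtain ⟨h1, h2⟩ := mem_filter.1 hw
  obtain ⟨h3, h4⟩ := mem_filter.1 h1
  have hux := (mem_filter.1 hu).2 x hx
  refine mem_filter.2 ⟨hs h3, ?_⟩
  simp only [btw, min_eq_left hux.le, max_eq_right hux.le]
  exact ⟨h2, h4 x hx⟩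

/-- Two bars both above (or both below) the bars that change have nothing of `Z` between them. -/
theorem nbtw_up_up (h : V → ℕ) (s b : Finset V) (hs : s ⊆ b) (u v : V)
    (hu : u ∈ up h s (b \ s)) (hv : v ∈ up h s (b \ s)) : nbtw h b u v = nbtw h s u v := by
  unfold nbtw
  congr 1
  ext w
  simp only [mem_filter]
  constructor
  · rintro ⟨hw, h1⟩
    refine ⟨?_, h1⟩
    by_contra hws
    have hz := mem_sdiff.2 ⟨hw, hws⟩
    have h2 := (mem_filter.1 hu).2 w hz
    have h3 := (mem_filter.1 hv).2 w hz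
    have h4 := h1.1
    rcases min_lt_iff.1 h4 with h5 | h5 <;> omega
  · rintro ⟨hw, h1⟩
    exact ⟨hs hw, h1⟩

theorem nbtw_dn_dn (h : V → ℕ) (s b : Finset V) (hs : s ⊆ b) (u v : V)
    (hu : u ∈ dn h s (b \ s)) (hv : v ∈ dn h s (b \ s)) : nbtw h b u v = nbtw h s u v := by
  unfold nbtw
  congr 1
  ext w
  simp only [mem_filter]
  constructor
  · rintro ⟨hw, h1⟩
    refine ⟨?_, h1⟩
    by_contra hws
    have hz := mem_sdiff.2 ⟨hw, hws⟩
    have h2 := (mem_filter.1 hu).2 w hz
    have h3 := (mem_filter.1 hv).2 w hz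
    have h4 := h1.2
    rcases lt_max_iff.1 h4 with h5 | h5 <;> omega
  · rintro ⟨hw, h1⟩
    exact ⟨hs hw, h1⟩

theorem nbtw_big_le (h : V → ℕ) (s b : Finset V) (hs : s ⊆ b) (u v : V) :
    nbtw h b u v ≤ nbtw h s u v + #(b \ s) := by
  unfold nbtw
  have h1 : ({w ∈ b | btw h u v w} : Finset V) ⊆ {w ∈ s | btw h u v w} ∪ (b \ s) := by
    intro w hw
    obtain ⟨h2, h3⟩ := mem_filter.1 hw
    by_cases hws : w ∈ s
    · exact mem_union_left _ (mem_filter.2 ⟨hws, h3⟩)
    · exact mem_union_right _ (mem_sdiff.2 ⟨h2, hws⟩)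
  exact (card_le_card h1).trans (card_union_le _ _)

/-- The bars `v` of `s` whose `s`-distance to `u` is at most `K` and whose `b`-distance is larger. -/
theorem card_band_le (h : V → ℕ) (hinj : Function.Injective h) (s b : Finset V) (hs : s ⊆ b)
    (u : V) (K : ℕ) :
    #{v ∈ s | v ≠ u ∧ nbtw h s u v ≤ K ∧ K < nbtw h b u v} ≤ 2 * #(b \ s) := by
  have h1 : ({v ∈ s | v ≠ u ∧ nbtw h s u v ≤ K ∧ K < nbtw h b u v} : Finset V) ⊆
      {v ∈ s | h u < h v ∧ K + 1 - #(b \ s) ≤ nbtw h s u v ∧ nbtw h s u v < K + 1} ∪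
      {v ∈ s | h v < h u ∧ K + 1 - #(b \ s) ≤ nbtw h s u v ∧ nbtw h s u v < K + 1} := by
    intro v hv
    simp only [mem_filter, mem_union] at hv ⊢
    have hne : h v ≠ h u := fun e => hv.2.1 (hinj e)
    have h5 := nbtw_big_le h s b hs u v
    rcases lt_or_gt_of_ne hne with hl | hl
    · right
      exact ⟨hv.1, hl, by omega, by omega⟩
    · left
      exact ⟨hv.1, hl, by omega, by omega⟩
  have h2 := card_above_le h hinj s u (K + 1 - #(b \ s)) (K + 1)
  have h3 := card_below_le h hinj s u (K + 1 - #(b \ s)) (K + 1)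
  calc _ ≤ _ := card_le_card h1
    _ ≤ _ := card_union_le _ _
    _ ≤ 2 * #(b \ s) := by omega

end Pool.Agent.H95.BG
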