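import Pool.Agent.H95.BG.Orb

/-!
Project BG, module TriK: the complete tripartite graph `K_{M,M,M}` has a permutation with
`E = 3 M^2`, at least `2 M^2` faces and at most `3 M` cycles.

Vertices `(p, x)`, `p : Fin 3`, `x : ZMod M`. There are `2 M^2` triangular faces: for
`x + y + z = 0` the triangle `(0,x) → (1,y) → (2,z) → (0,x)`, and for `x + y + z = -1` the triangle
`(0,x) → (2,z) → (1,y) → (0,x)`. So the permutation `σ` (next dart at the same vertex) is
  `σ ((p,x) → (p+1,y)) = (p,x) → (p+2, -1-x-y)`,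
  `σ ((p,x) → (p+2,y)) = (p,x) → (p+1, -x-y)`
(in `Fin 3`, `p + 2 = p - 1`), with the face permutation `φ = σ * flip`:
  `φ ((p,x) → (p+1,y)) = σ ((p+1,y) → (p,x)) = (p+1,y) → (p+2, -x-y)`,
  `φ ((p,x) → (p+2,y)) = σ ((p+2,y) → (p,x)) = (p+2,y) → (p+1, -1-x-y)`.
`φ ^ 3 = 1`, so every cycle of `φ` has at most `3` of the `6 M^2` darts: `orb φ ≥ 2 M^2`.
-/

set_option autoImplicit false

namespace Pool.Agent.H95.BG

/-- `K_{M,M,M}` on the vertex set `Fin 3 × ZMod M`. -/
def kmmm (M : ℕ) : SimpleGraph (Fin 3 × ZMod M) where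
  Adj u v := u.1 ≠ v.1
  symm := ⟨fun _ _ h => Ne.symm h⟩
  loopless := ⟨fun _ h => h rfl⟩

/-- Coordinates for the darts. -/
private abbrev TriK_D (M : ℕ) : Type := Fin 3 × Bool × ZMod M × ZMod M

/-- The shift of the part. -/
private def TriK_sh : Bool → Fin 3
  | false => 1
  | true => 2

private theorem TriK_sh_ne (p : Fin 3) (b : Bool) : p ≠ p + TriK_sh b := by
  revert p b; decide

private theorem TriK_sh_inv (p q : Fin 3) (h : p ≠ q) :
    p + TriK_sh (decide (q ≠ p + 1)) = q := by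
  revert p q; decide

private theorem TriK_sh_dec (p : Fin 3) (b : Bool) :
    decide (p + TriK_sh b ≠ p + 1) = b := by
  revert p b; decide

private theorem TriK_sh_not (p : Fin 3) (b : Bool) :
    p + TriK_sh b + TriK_sh (!b) = p := by
  revert p b; decide

/-- The darts in coordinates. -/
private def TriK_e (M : ℕ) : TriK_D M ≃ (kmmm M).Dart where
  toFun d := ⟨((d.1, d.2.2.1), (d.1 + TriK_sh d.2.1, d.2.2.2)), TriK_sh_ne d.1 d.2.1⟩
  invFun d := (d.fst.1, decide (d.snd.1 ≠ d.fst.1 + 1), d.fst.2, d.snd.2)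
  left_inv := by
    rintro ⟨p, b, x, y⟩
    show ((p, decide (p + TriK_sh b ≠ p + 1), x, y) : TriK_D M) = (p, b, x, y)
    rw [TriK_sh_dec]
  right_inv := by
    rintro ⟨⟨⟨p, x⟩, ⟨q, y⟩⟩, h⟩
    apply SimpleGraph.Dart.ext
    show (((p, x), (p + TriK_sh (decide (q ≠ p + 1)), y)) :
      (Fin 3 × ZMod M) × (Fin 3 × ZMod M)) = ((p, x), (q, y))
    rw [TriK_sh_inv p q h]

/-- The constant in the rotation. -/
private def TriK_c (M : ℕ) : Bool → ZMod M
  | false => -1
  | true => 0

/-- The rotation in coordinates. -/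
private def TriK_s (M : ℕ) : Equiv.Perm (TriK_D M) where
  toFun d := (d.1, !d.2.1, d.2.2.1, TriK_c M d.2.1 - d.2.2.1 - d.2.2.2)
  invFun d := (d.1, !d.2.1, d.2.2.1, TriK_c M (!d.2.1) - d.2.2.1 - d.2.2.2)
  left_inv := by
    rintro ⟨p, b, x, y⟩
    simp
  right_inv := by
    rintro ⟨p, b, x, y⟩
    simp

/-- The reversal in coordinates. -/
private def TriK_f (M : ℕ) : Equiv.Perm (TriK_D M) where
  toFun d := (d.1 + TriK_sh d.2.1, !d.2.1, d.2.2.2, d.2.2.1)
  invFun d := (d.1 + TriK_sh d.2.1, !d.2.1, d.2.2.2, d.2.2.1)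
  left_inv := by
    rintro ⟨p, b, x, y⟩
    show ((p + TriK_sh b + TriK_sh (!b), !!b, x, y) : TriK_D M) = (p, b, x, y)
    rw [TriK_sh_not, Bool.not_not]
  right_inv := by
    rintro ⟨p, b, x, y⟩
    show ((p + TriK_sh b + TriK_sh (!b), !!b, x, y) : TriK_D M) = (p, b, x, y)
    rw [TriK_sh_not, Bool.not_not]

private theorem TriK_flip (M : ℕ) (d : TriK_D M) :
    flip (kmmm M) (TriK_e M d) = TriK_e M (TriK_f M d) := by
  obtain ⟨p, b, x, y⟩ := d
  apply SimpleGraph.Dart.ext
  show (((p + TriK_sh b, y), (p, x)) : (Fin 3 × ZMod M) × (Fin 3 × ZMod M)) =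
    ((p + TriK_sh b, y), (p + TriK_sh b + TriK_sh (!b), x))
  rw [TriK_sh_not]

private theorem TriK_face (M : ℕ) (p : Fin 3) (b : Bool) (x y : ZMod M) :
    (TriK_s M * TriK_f M) (p, b, x, y) = (p + TriK_sh b, b, y, TriK_c M (!b) - y - x) := by
  show ((p + TriK_sh b, !!b, y, TriK_c M (!b) - y - x) : TriK_D M) = _
  rw [Bool.not_not]

private theorem TriK_sh_three (p : Fin 3) (b : Bool) :
    p + TriK_sh b + TriK_sh b + TriK_sh b = p := by
  revert p b; decide

private theorem TriK_cube (M : ℕ) (d : TriK_D M) : ((TriK_s M * TriK_f M) ^ 3) d = d := by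
  obtain ⟨p, b, x, y⟩ := d
  rw [pow_succ, pow_two, Equiv.Perm.mul_apply, Equiv.Perm.mul_apply, TriK_face, TriK_face,
    TriK_face, TriK_sh_three]
  have h1 : TriK_c M (!b) - (TriK_c M (!b) - y - x) - y = x := by ring
  have h2 : TriK_c M (!b) - x - (TriK_c M (!b) - y - x) = y := by ring
  rw [h1, h2]

/-- A permutation of order three has at least a third as many cycles as points. -/
private theorem TriK_card {α : Type*} [Finite α] (f : Equiv.Perm α) (h : ∀ d, (f ^ 3) d = d) :
    Nat.card α ≤ 3 * orb f := by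
  have hsurj : Function.Surjective
      (fun q : Fin 3 × Quotient (Equiv.Perm.SameCycle.setoid f) =>
        (f ^ (q.1 : ℕ)) q.2.out) := by
    intro a
    have hr : f.SameCycle (Quotient.mk (Equiv.Perm.SameCycle.setoid f) a).out a :=
      Quotient.mk_out (s := Equiv.Perm.SameCycle.setoid f) a
    obtain ⟨k, hk⟩ := hr
    have h3 : f ^ 3 = 1 := Equiv.ext h
    refine ⟨(⟨(k % 3).toNat, by omega⟩, Quotient.mk _ a), ?_⟩
    show (f ^ ((k % 3).toNat)) (Quotient.mk (Equiv.Perm.SameCycle.setoid f) a).out = a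
    have h3' : f ^ (3 : ℤ) = 1 := by exact_mod_cast h3
    have h4 : f ^ ((k % 3).toNat) = f ^ k := by
      rw [← zpow_natCast, Int.toNat_of_nonneg (by omega)]
      conv_rhs => rw [← Int.emod_add_mul_ediv k 3]
      rw [zpow_add, zpow_mul, h3', one_zpow, mul_one]
    rw [h4]
    exact hk
  have h1 := Nat.card_le_card_of_surjective _ hsurj
  rw [Nat.card_prod, Nat.card_eq_fintype_card (α := Fin 3), Fintype.card_fin] at h1
  exact h1

private theorem TriK_rot (M : ℕ) (p : Fin 3) (b : Bool) (x y : ZMod M) :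
    TriK_s M (p, b, x, y) = (p, !b, x, TriK_c M b - x - y) := rfl

private theorem TriK_rot_two (M : ℕ) (p : Fin 3) (x y : ZMod M) :
    TriK_s M (TriK_s M (p, false, x, y)) = (p, false, x, y + 1) := by
  rw [TriK_rot, TriK_rot]
  show ((p, false, x, (0 : ZMod M) - x - (-1 - x - y)) : TriK_D M) = _
  have h1 : (0 : ZMod M) - x - (-1 - x - y) = y + 1 := by ring
  rw [h1]

private theorem TriK_rot_nat (M : ℕ) (p : Fin 3) (x : ZMod M) (k : ℕ) :
    (TriK_s M).SameCycle (p, false, x, 0) (p, false, x, (k : ZMod M)) := by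
  induction k with
  | zero => rw [Nat.cast_zero]
  | succ k ih =>
    rw [Nat.cast_succ, ← TriK_rot_two]
    exact (Equiv.Perm.sameCycle_apply_right.2 (Equiv.Perm.sameCycle_apply_right.2 ih))

private theorem TriK_rot_all (M : ℕ) (hM : 1 ≤ M) (p : Fin 3) (b : Bool) (x y : ZMod M) :
    (TriK_s M).SameCycle (p, false, x, 0) (p, b, x, y) := by
  have : NeZero M := ⟨by omega⟩
  have h0 : ∀ y : ZMod M, (TriK_s M).SameCycle (p, false, x, 0) (p, false, x, y) := by
    intro y
    have := TriK_rot_nat M p x y.val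
    rwa [ZMod.natCast_zmod_val] at this
  cases b
  · exact h0 y
  · rw [← Equiv.Perm.sameCycle_apply_right, TriK_rot]
    exact h0 _

private theorem TriK_orb_rot (M : ℕ) (hM : 1 ≤ M) : orb (TriK_s M) ≤ 3 * M := by
  have : NeZero M := ⟨by omega⟩
  have hsurj : Function.Surjective
      (fun q : Fin 3 × ZMod M =>
        Quotient.mk (Equiv.Perm.SameCycle.setoid (TriK_s M)) (q.1, false, q.2, 0)) := by
    intro q
    induction q using Quotient.inductionOn with
    | h d =>
      obtain ⟨p, b, x, y⟩ := d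
      exact ⟨(p, x), Quotient.sound (TriK_rot_all M hM p b x y)⟩
  have h1 := Nat.card_le_card_of_surjective _ hsurj
  rw [Nat.card_prod, Nat.card_eq_fintype_card (α := Fin 3), Fintype.card_fin, Nat.card_zmod] at h1
  exact h1

private theorem TriK_card_D (M : ℕ) : Nat.card (TriK_D M) = 6 * M ^ 2 := by
  rw [Nat.card_prod, Nat.card_prod, Nat.card_prod, Nat.card_zmod,
    Nat.card_eq_fintype_card (α := Fin 3), Nat.card_eq_fintype_card (α := Bool),
    Fintype.card_fin, Fintype.card_bool]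
  ring

private theorem TriK_card_edge (M : ℕ) (hM : 1 ≤ M) :
    Nat.card (kmmm M).edgeSet = 3 * M ^ 2 := by
  have : NeZero M := ⟨by omega⟩
  classical
  have h1 : Fintype.card (kmmm M).Dart = 2 * (kmmm M).edgeFinset.card :=
    SimpleGraph.dart_card_eq_twice_card_edges (kmmm M)
  have h2 : Fintype.card (kmmm M).Dart = 6 * M ^ 2 := by
    rw [← Nat.card_eq_fintype_card, ← Nat.card_congr (TriK_e M), TriK_card_D]
  have h3 : Nat.card (kmmm M).edgeSet = (kmmm M).edgeFinset.card := by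
    rw [Nat.card_eq_fintype_card, SimpleGraph.edgeFinset_card]
  omega

/-- The Latin square triangulation: `2 M ^ 2` triangular faces. -/
theorem psiLe_kmmm (M : ℕ) (hM : 1 ≤ M) : PsiLe (kmmm M) ((M : ℤ) ^ 2 + 3 * M) := by
  have : NeZero M := ⟨by omega⟩
  refine ⟨((TriK_e M).symm.trans (TriK_s M)).trans (TriK_e M), ?_, ?_⟩
  · intro d
    obtain ⟨c, rfl⟩ := (TriK_e M).surjective d
    rw [Equiv.trans_apply, Equiv.trans_apply, Equiv.symm_apply_apply]
    rfl
  · have h1 : (((TriK_e M).symm.trans (TriK_s M)).trans (TriK_e M) : Equiv.Perm _) *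
        flip (kmmm M) =
        ((TriK_e M).symm.trans (TriK_s M * TriK_f M)).trans (TriK_e M) := by
      ext1 d
      obtain ⟨c, rfl⟩ := (TriK_e M).surjective d
      rw [Equiv.Perm.mul_apply, TriK_flip, Equiv.trans_apply, Equiv.trans_apply,
        Equiv.trans_apply, Equiv.trans_apply, Equiv.symm_apply_apply, Equiv.symm_apply_apply,
        Equiv.Perm.mul_apply]
    rw [h1, orb_congr, orb_congr, TriK_card_edge M hM]
    have h2 := TriK_card (TriK_s M * TriK_f M) (TriK_cube M)
    have h3 := TriK_orb_rot M hM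
    rw [TriK_card_D] at h2
    have h4 : 2 * M ^ 2 ≤ orb (TriK_s M * TriK_f M) := by omega
    have h4' : (2 * (M : ℤ) ^ 2) ≤ orb (TriK_s M * TriK_f M) := by exact_mod_cast h4
    have h3' : (orb (TriK_s M) : ℤ) ≤ 3 * M := by exact_mod_cast h3
    push_cast
    linarith

end Pool.Agent.H95.BG
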