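import Pool.Agent.H95.BG.Del
import Pool.Agent.H95.BG.TriK

/-!
Project BG, module Tri: complete tripartite graphs with parts of size at most `M`.

For `M = 0` the graph is empty (`PsiLe ⊥ 0` is proved directly: no darts). Otherwise inject `A`,
`X`, `B` into `ZMod M` (cardinalities at most `M`), which gives `f : V → Fin 3 × ZMod M` (anything
outside `A ∪ X ∪ B`), and apply `psiLe_of_hom` with `psiLe_kmmm`.
-/

set_option autoImplicit false

namespace Pool.Agent.H95.BG

/-- A graph without darts. -/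
theorem psiLe_of_no_adj {V : Type*} (G : SimpleGraph V) (h : ∀ u v, ¬ G.Adj u v) :
    PsiLe G 0 := by
  have : IsEmpty G.Dart := ⟨fun d => h _ _ d.adj⟩
  have : IsEmpty G.edgeSet := by
    refine ⟨fun e => ?_⟩
    obtain ⟨e, he⟩ := e
    induction e using Sym2.ind with
    | _ u v => exact h u v he
  refine ⟨1, fun d => rfl, ?_⟩
  have h1 : orb (1 : Equiv.Perm G.Dart) = 0 := by
    unfold orb
    have : IsEmpty (Quotient (Equiv.Perm.SameCycle.setoid (1 : Equiv.Perm G.Dart))) :=
      ⟨fun q => Quotient.inductionOn q fun d => isEmptyElim d⟩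
    exact Nat.card_of_isEmpty
  have h2 : (0 : ℤ) ≤ orb (1 * flip G) := Int.natCast_nonneg _
  rw [h1, Nat.card_of_isEmpty]
  push_cast
  linarith

open Classical in
/-- The map into the complete tripartite graph. -/
noncomputable def triMap {V : Type*} {A X B : Finset V} {M : ℕ} (fA : A → ZMod M)
    (fX : X → ZMod M) (fB : B → ZMod M) (v : V) : Fin 3 × ZMod M :=
  if h : v ∈ A then (0, fA ⟨v, h⟩) else if h : v ∈ X then (1, fX ⟨v, h⟩)
    else if h : v ∈ B then (2, fB ⟨v, h⟩) else (0, 0)

theorem psiLe_tri {V : Type*} [Finite V] (A X B : Finset V) (h1 : Disjoint A X)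
    (h2 : Disjoint A B) (h3 : Disjoint X B) (M : ℕ) (hA : A.card ≤ M) (hX : X.card ≤ M)
    (hB : B.card ≤ M) : PsiLe (tri A X B) ((M : ℤ) ^ 2 + 3 * M) := by
  rcases Nat.eq_zero_or_pos M with hM | hM
  · subst hM
    have eA : A = ∅ := Finset.card_eq_zero.1 (Nat.le_zero.1 hA)
    have eX : X = ∅ := Finset.card_eq_zero.1 (Nat.le_zero.1 hX)
    have := psiLe_of_no_adj (tri A X B) (by
      intro u v h
      rw [eA, eX] at h
      obtain ⟨-, h⟩ := h
      simp at h)
    simpa using this
  · have : NeZero M := ⟨hM.ne'⟩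
    have hemb : ∀ S : Finset V, S.card ≤ M → Nonempty (S ↪ ZMod M) := by
      intro S hS
      apply Function.Embedding.nonempty_of_card_le
      rw [Fintype.card_coe, ZMod.card]
      exact hS
    obtain ⟨fA⟩ := hemb A hA
    obtain ⟨fX⟩ := hemb X hX
    obtain ⟨fB⟩ := hemb B hB
    have vA : ∀ v (h : v ∈ A), triMap (A := A) (X := X) (B := B) fA fX fB v = (0, fA ⟨v, h⟩) := by
      intro v h
      unfold triMap
      rw [dif_pos h]
    have vX : ∀ v (h : v ∈ X), triMap (A := A) (X := X) (B := B) fA fX fB v = (1, fX ⟨v, h⟩) := by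
      intro v h
      have hn : v ∉ A := fun h' => Finset.disjoint_left.1 h1 h' h
      unfold triMap
      rw [dif_neg hn, dif_pos h]
    have vB : ∀ v (h : v ∈ B), triMap (A := A) (X := X) (B := B) fA fX fB v = (2, fB ⟨v, h⟩) := by
      intro v h
      have hn : v ∉ A := fun h' => Finset.disjoint_left.1 h2 h' h
      have hn' : v ∉ X := fun h' => Finset.disjoint_left.1 h3 h' h
      unfold triMap
      rw [dif_neg hn, dif_neg hn', dif_pos h]
    have hmem : ∀ u, (∃ w, (tri A X B).Adj u w) → u ∈ A ∨ u ∈ X ∨ u ∈ B := by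
      rintro u ⟨w, -, h⟩
      tauto
    refine psiLe_of_hom (tri A X B) (kmmm M) (triMap (A := A) (X := X) (B := B) fA fX fB)
      ?_ ?_ _ (psiLe_kmmm M hM)
    · intro u v hu hv huv
      rcases hmem u hu with ha | ha | ha <;> rcases hmem v hv with hb | hb | hb
      · rw [vA u ha, vA v hb, Prod.mk.injEq] at huv
        exact congrArg Subtype.val (fA.injective huv.2)
      · rw [vA u ha, vX v hb, Prod.mk.injEq] at huv
        exact absurd huv.1 (by decide)
      · rw [vA u ha, vB v hb, Prod.mk.injEq] at huv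
        exact absurd huv.1 (by decide)
      · rw [vX u ha, vA v hb, Prod.mk.injEq] at huv
        exact absurd huv.1 (by decide)
      · rw [vX u ha, vX v hb, Prod.mk.injEq] at huv
        exact congrArg Subtype.val (fX.injective huv.2)
      · rw [vX u ha, vB v hb, Prod.mk.injEq] at huv
        exact absurd huv.1 (by decide)
      · rw [vB u ha, vA v hb, Prod.mk.injEq] at huv
        exact absurd huv.1 (by decide)
      · rw [vB u ha, vX v hb, Prod.mk.injEq] at huv
        exact absurd huv.1 (by decide)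
      · rw [vB u ha, vB v hb, Prod.mk.injEq] at huv
        exact congrArg Subtype.val (fB.injective huv.2)
    · rintro u v ⟨-, h⟩
      change (triMap (A := A) (X := X) (B := B) fA fX fB u).1 ≠
        (triMap (A := A) (X := X) (B := B) fA fX fB v).1
      rcases h with ⟨ha, hb⟩ | ⟨ha, hb⟩ | ⟨ha, hb⟩ | ⟨ha, hb⟩ | ⟨ha, hb⟩ | ⟨ha, hb⟩
      · rw [vA u ha, vX v hb]; exact (by decide : (0 : Fin 3) ≠ 1)
      · rw [vX u ha, vA v hb]; exact (by decide : (1 : Fin 3) ≠ 0)
      · rw [vA u ha, vB v hb]; exact (by decide : (0 : Fin 3) ≠ 2)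
      · rw [vB u ha, vA v hb]; exact (by decide : (2 : Fin 3) ≠ 0)
      · rw [vX u ha, vB v hb]; exact (by decide : (1 : Fin 3) ≠ 2)
      · rw [vB u ha, vX v hb]; exact (by decide : (2 : Fin 3) ≠ 1)

end Pool.Agent.H95.BG
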