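import Pool.Agent.H95.BG.Core
import Pool.Agent.H95.BG.Merge
import Pool.Agent.H95.BG.Disc

/-!
Project BG, module Upper: the upper bound for the genus.
-/

set_option autoImplicit false

namespace Pool.Agent.H95.BG

open Finset

theorem numeric (k t n J : ℝ) (ht : 1 ≤ t) (hn : 0 ≤ n) (hk : t ^ 7 ≤ k) (hJ1 : k / t ≤ J)
    (hJ2 : J ≤ k / t + 1) :
    (k + J + 2) * n * (1 + 27 / t) + 2 * (3 * (k + 1) * n) / t + 40 * n * t ^ 6 +
        60 * t ^ 3 * (k + J + t ^ 3 + 2) * n / t ^ 6 + 4 * (3 * (k + 1) * n) / t ^ 6 +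
        2 * (3 * (k + 1) * n) * (t ^ 4 * (k / t ^ 6 + 1) / J) + 40 * n * t ^ 4 + 20 * t ^ 3 * n +
        40 * t ^ 3 * (k + J + t ^ 3 + 2) * n / t ^ 4 + 20 * t ^ 3 * (k + J + t ^ 3 + 2) ≤
      k * n + 960 * (k * n / t) + 120 * k ^ 2 := by
  have ht0 : 0 < t := by linarith
  have hp : ∀ a b : ℕ, a ≤ b → t ^ a ≤ t ^ b := fun a b h => pow_le_pow_right₀ ht h
  have h1k : 1 ≤ k := le_trans (one_le_pow₀ ht) hk
  have hk0 : 0 < k := by linarith
  set x := k / t with hx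
  have hxt : x * t = k := by rw [hx]; field_simp
  have hxk : x ≤ k := by rw [hx]; exact div_le_self hk0.le ht
  have hx0 : 0 < x := by positivity
  have h6x : t ^ 6 ≤ x := by
    rw [hx, le_div_iff₀ ht0]
    calc t ^ 6 * t = t ^ 7 := by ring
      _ ≤ k := hk
  have h1x : 1 ≤ x := le_trans (one_le_pow₀ ht) h6x
  have hJ0 : 0 < J := by linarith
  have h3k : t ^ 3 ≤ k := (hp 3 7 (by norm_num)).trans hk
  have hS : k + J + t ^ 3 + 2 ≤ 6 * k := by linarith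
  have hkn : k * n / t = x * n := by rw [hx]; ring
  rw [hkn]
  have hxn : 0 ≤ x * n := by positivity
  have ht1 : (1 : ℝ) / t ≤ 1 := by
    rw [div_le_one ht0]; exact ht
  -- first term
  have a1 : (k + J + 2) * n * (1 + 27 / t) ≤ k * n + 139 * (x * n) := by
    have b1 : (k + J + 2) * n * (1 + 27 / t) = (k + J + 2) * n + 27 * ((k + J + 2) / t) * n := by
      ring
    have b2 : (k + J + 2) / t ≤ 5 * x := by
      rw [div_le_iff₀ ht0]
      nlinarith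
    have b3 : 27 * ((k + J + 2) / t) * n ≤ 27 * (5 * x) * n := by
      gcongr
    have b4 : (k + J + 2) * n ≤ (k + 4 * x) * n :=
      mul_le_mul_of_nonneg_right (by linarith) hn
    rw [b1]
    linarith
  have a2 : 2 * (3 * (k + 1) * n) / t ≤ 12 * (x * n) := by
    rw [div_le_iff₀ ht0]
    have : 12 * (x * n) * t = 12 * (x * t) * n := by ring
    rw [this, hxt]
    nlinarith
  have a3 : 40 * n * t ^ 6 ≤ 40 * (x * n) := by nlinarith
  have a4 : 60 * t ^ 3 * (k + J + t ^ 3 + 2) * n / t ^ 6 ≤ 360 * (x * n) := by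
    rw [div_le_iff₀ (by positivity)]
    have c1 : 60 * t ^ 3 * (k + J + t ^ 3 + 2) * n ≤ 60 * t ^ 3 * (6 * k) * n := by gcongr
    have c2 : 60 * t ^ 3 * (6 * k) * n = 360 * (x * n) * t ^ 4 := by
      rw [← hxt]; ring
    have c3 : 360 * (x * n) * t ^ 4 ≤ 360 * (x * n) * t ^ 6 := by
      have := hp 4 6 (by norm_num)
      gcongr
    linarith
  have a5 : 4 * (3 * (k + 1) * n) / t ^ 6 ≤ 24 * (x * n) := by
    rw [div_le_iff₀ (by positivity)]
    have c1 : 4 * (3 * (k + 1) * n) ≤ 24 * (x * n) * t := by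
      have : 24 * (x * n) * t = 24 * (x * t) * n := by ring
      rw [this, hxt]
      nlinarith
    have c2 : 24 * (x * n) * t ^ 1 ≤ 24 * (x * n) * t ^ 6 := by
      have := hp 1 6 (by norm_num)
      gcongr
    rw [pow_one] at c2
    linarith
  have a6 : 2 * (3 * (k + 1) * n) * (t ^ 4 * (k / t ^ 6 + 1) / J) ≤ 24 * (x * n) := by
    have c0 : t ^ 4 * (k / t ^ 6 + 1) / J ≤ t ^ 4 * (k / t ^ 6 + 1) / x := by
      gcongr
    have c1 : 2 * (3 * (k + 1) * n) ≤ 12 * k * n := by nlinarith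
    have c2 : 2 * (3 * (k + 1) * n) * (t ^ 4 * (k / t ^ 6 + 1) / J) ≤
        12 * k * n * (t ^ 4 * (k / t ^ 6 + 1) / x) := by
      gcongr
    refine c2.trans ?_
    have c3 : 12 * k * n * (t ^ 4 * (k / t ^ 6 + 1) / x) = 12 * n * (t ^ 4 * (k / t ^ 6 + 1) * t) := by
      rw [← hxt]
      field_simp
    rw [c3]
    have c4 : t ^ 4 * (k / t ^ 6 + 1) * t = x + t ^ 5 := by
      rw [hx]
      field_simp
    rw [c4]
    have := (hp 5 6 (by norm_num)).trans h6x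
    nlinarith
  have a7 : 40 * n * t ^ 4 ≤ 40 * (x * n) := by
    have := (hp 4 6 (by norm_num)).trans h6x
    nlinarith
  have a8 : 20 * t ^ 3 * n ≤ 20 * (x * n) := by
    have := (hp 3 6 (by norm_num)).trans h6x
    nlinarith
  have a9 : 40 * t ^ 3 * (k + J + t ^ 3 + 2) * n / t ^ 4 ≤ 240 * (x * n) := by
    rw [div_le_iff₀ (by positivity)]
    have c1 : 40 * t ^ 3 * (k + J + t ^ 3 + 2) * n ≤ 40 * t ^ 3 * (6 * k) * n := by gcongr
    have c2 : 40 * t ^ 3 * (6 * k) * n = 240 * (x * n) * t ^ 4 := by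
      rw [← hxt]; ring
    linarith
  have a10 : 20 * t ^ 3 * (k + J + t ^ 3 + 2) ≤ 120 * k ^ 2 := by
    have c1 : 20 * t ^ 3 * (k + J + t ^ 3 + 2) ≤ 20 * k * (6 * k) := by gcongr
    nlinarith
  linarith

theorem exists_scale (k : ℕ) (hk : 1 ≤ k) : ∃ s : ℕ, (3 ^ s) ^ 7 ≤ k ∧ k < (3 ^ (s + 1)) ^ 7 := by
  refine ⟨Nat.log (3 ^ 7) k, ?_, ?_⟩
  · rw [← pow_mul, mul_comm, pow_mul]
    exact Nat.pow_log_le_self _ (by omega)
  · rw [← pow_mul, mul_comm, pow_mul]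
    exact Nat.lt_pow_succ_log_self (by norm_num) k

theorem upper {n : ℕ} (B : BarSystem n) (k : ℕ) (hk : 1 ≤ k) :
    (genus (B.graph k) : ℝ) ≤ (k : ℝ) * n / 2 + 1500 * ((k : ℝ) ^ (6 / 7 : ℝ) * n + k ^ 2) := by
  obtain ⟨s, hs1, hs2⟩ := exists_scale k hk
  set t : ℕ := 3 ^ s with ht
  have ht1 : 1 ≤ t := Nat.one_le_pow _ _ (by norm_num)
  obtain ⟨P, hP⟩ := exists_model B k
  obtain ⟨c, hc1, hc0, hc2⟩ := core P k s t (t ^ 3) (t ^ 4) (t ^ 6) (k / t + 1)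
    (by rw [ht]; ring) ht1 (Nat.one_le_pow _ _ ht1) (Nat.one_le_pow _ _ ht1)
    (Nat.le_add_left 1 _)
  have hg := genus_le_of_psi (B.graph k) c hc0 (psiLe_mono _ _ hP c hc1)
  have hg' : 2 * (genus (B.graph k) : ℝ) ≤ c + 1 := by exact_mod_cast hg
  have htr : (1 : ℝ) ≤ (t : ℝ) := by exact_mod_cast ht1
  have ht0 : (0 : ℝ) < (t : ℝ) := by linarith
  have hkr : (1 : ℝ) ≤ (k : ℝ) := by exact_mod_cast hk
  have hnum := numeric (k : ℝ) (t : ℝ) (n : ℝ) ((k / t + 1 : ℕ) : ℝ) htr (Nat.cast_nonneg n)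
    (by exact_mod_cast hs1)
    (by
      rw [div_le_iff₀ ht0]
      have : k ≤ (k / t + 1) * t := by
        have := Nat.lt_div_mul_add (a := k) (b := t) (by omega)
        nlinarith
      exact_mod_cast this)
    (by
      push_cast
      have := @Nat.cast_div_le ℝ _ _ _ k t
      linarith)
  have h3 : ((3 : ℝ) ^ s) = (t : ℝ) := by rw [ht]; push_cast; ring
  rw [h3] at hc2
  push_cast at hc2 hnum
  have hc3 := hc2.trans hnum
  -- `1 / t ≤ 3 / k ^ (1 / 7)`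
  have hkt : (k : ℝ) / t ≤ 3 * (k : ℝ) ^ (6 / 7 : ℝ) := by
    have h7 : (k : ℝ) < (3 * t : ℝ) ^ 7 := by
      have : k < (3 * t) ^ 7 := by
        have e : 3 ^ (s + 1) = 3 * t := by rw [ht]; ring
        rw [← e]
        exact hs2
      exact_mod_cast this
    have h8 : (k : ℝ) ^ (1 / 7 : ℝ) ≤ 3 * t := by
      have h9 : (k : ℝ) ^ (1 / 7 : ℝ) ≤ ((3 * t : ℝ) ^ 7) ^ (1 / 7 : ℝ) :=
        Real.rpow_le_rpow (by linarith) h7.le (by norm_num)
      have h10 : ((3 * t : ℝ) ^ 7) ^ (1 / 7 : ℝ) = 3 * t := by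
        rw [← Real.rpow_natCast, ← Real.rpow_mul (by positivity)]
        norm_num
      linarith
    have h11 : (k : ℝ) = (k : ℝ) ^ (6 / 7 : ℝ) * (k : ℝ) ^ (1 / 7 : ℝ) := by
      rw [← Real.rpow_add (by linarith)]
      norm_num
    rw [div_le_iff₀ ht0]
    have h12 : (0 : ℝ) ≤ (k : ℝ) ^ (6 / 7 : ℝ) := by positivity
    calc (k : ℝ) = (k : ℝ) ^ (6 / 7 : ℝ) * (k : ℝ) ^ (1 / 7 : ℝ) := h11
      _ ≤ (k : ℝ) ^ (6 / 7 : ℝ) * (3 * t) := by gcongr
      _ = 3 * (k : ℝ) ^ (6 / 7 : ℝ) * t := by ring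
  have h13 : (k : ℝ) * n / t ≤ 3 * (k : ℝ) ^ (6 / 7 : ℝ) * n := by
    have : (k : ℝ) * n / t = (k / t) * n := by ring
    rw [this]
    gcongr
  have hk2 : (1 : ℝ) ≤ (k : ℝ) ^ 2 := one_le_pow₀ hkr
  have h14 : (0 : ℝ) ≤ (k : ℝ) ^ (6 / 7 : ℝ) * n := by positivity
  nlinarith

end Pool.Agent.H95.BG
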